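import Mathlib

/-!
# Kernels and images of multiplications on submodules, and their orders
-/

set_option autoImplicit false

namespace Pool.Agent.H516

open Module

variable {R D : Type*} [CommRing R] [AddCommGroup D] [Module R D]

/-- multiplication by `r` -/
abbrev mu (D : Type*) [AddCommGroup D] [Module R D] (r : R) : D →ₗ[R] D := LinearMap.lsmul R D r

/-- the elements killed by `r` -/
abbrev tor (D : Type*) [AddCommGroup D] [Module R D] (r : R) : Submodule R D :=
  LinearMap.ker (mu D r)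

theorem mem_tor {r : R} {x : D} : x ∈ tor D r ↔ r • x = 0 := Iff.rfl

theorem mem_map_mu {r : R} {S : Submodule R D} {x : D} :
    x ∈ S.map (mu D r) ↔ ∃ y ∈ S, r • y = x := Iff.rfl

theorem map_mu_le {r : R} {S : Submodule R D} : S.map (mu D r) ≤ S := by
  rintro x ⟨y, hy, rfl⟩
  exact S.smul_mem r hy

theorem map_mu_mul (a b : R) (S : Submodule R D) :
    (S.map (mu D b)).map (mu D a) = S.map (mu D (a * b)) := by
  ext x
  constructor
  · rintro ⟨_, ⟨y, hy, rfl⟩, rfl⟩
    exact ⟨y, hy, mul_smul a b y⟩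
  · rintro ⟨y, hy, rfl⟩
    exact ⟨b • y, ⟨y, hy, rfl⟩, (mul_smul a b y).symm⟩

theorem card_ker_range {V W : Type*} [AddCommGroup V] [Module R V] [AddCommGroup W] [Module R W]
    (f : V →ₗ[R] W) : Nat.card (LinearMap.ker f) * Nat.card (LinearMap.range f) = Nat.card V := by
  have h1 := AddSubgroup.card_mul_index (f.toAddMonoidHom.ker)
  rw [AddSubgroup.index_ker] at h1
  exact h1

theorem finite_of_ker_range {V W : Type*} [AddCommGroup V] [Module R V] [AddCommGroup W]
    [Module R W] (f : V →ₗ[R] W) (h1 : Finite (LinearMap.ker f))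
    (h2 : Finite (LinearMap.range f)) : Finite V := by
  apply Nat.finite_of_card_ne_zero
  rw [← card_ker_range f]
  exact mul_ne_zero Nat.card_pos.ne' Nat.card_pos.ne'

/-- `S ∩ D[r]` and `r S` -/
def kerEquiv (r : R) (S : Submodule R D) :
    LinearMap.ker ((mu D r).domRestrict S) ≃ (S ⊓ tor D r : Submodule R D) where
  toFun x := ⟨x.1.1, x.1.2, x.2⟩
  invFun x := ⟨⟨x.1, x.2.1⟩, x.2.2⟩
  left_inv _ := rfl
  right_inv _ := rfl

theorem range_domRestrict (r : R) (S : Submodule R D) :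
    LinearMap.range ((mu D r).domRestrict S) = S.map (mu D r) := by
  ext x
  constructor
  · rintro ⟨y, rfl⟩
    exact ⟨y.1, y.2, rfl⟩
  · rintro ⟨y, hy, rfl⟩
    exact ⟨⟨y, hy⟩, rfl⟩

theorem card_inf_mul (r : R) (S : Submodule R D) :
    Nat.card (S ⊓ tor D r : Submodule R D) * Nat.card (S.map (mu D r)) = Nat.card S := by
  have h := card_ker_range ((mu D r).domRestrict S)
  rw [range_domRestrict, Nat.card_congr (kerEquiv r S)] at h
  exact h

theorem finite_of_inf_map (r : R) (S : Submodule R D) (h1 : Finite (S ⊓ tor D r : Submodule R D))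
    (h2 : Finite (S.map (mu D r))) : Finite S := by
  refine finite_of_ker_range ((mu D r).domRestrict S) (Finite.of_equiv _ (kerEquiv r S).symm) ?_
  rw [range_domRestrict]
  exact h2

theorem finite_of_le {S S' : Submodule R D} (h : S ≤ S') (h' : Finite S') : Finite S :=
  Finite.of_injective _ (Submodule.inclusion_injective h)

theorem card_le_of_le {S S' : Submodule R D} (h : S ≤ S') (h' : Finite S') :
    Nat.card S ≤ Nat.card S' :=
  Nat.card_le_card_of_injective _ (Submodule.inclusion_injective h)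

theorem eq_of_le_of_card {S S' : Submodule R D} (h : S ≤ S') (h' : Finite S')
    (hc : Nat.card S' ≤ Nat.card S) : S = S' := by
  apply SetLike.coe_injective
  refine Set.Finite.eq_of_subset_of_card_le (Set.toFinite (S' : Set D)) h ?_
  exact hc

/-- the submodule `S` is divisible by `r` -/
def Dvb (r : R) (S : Submodule R D) : Prop := S.map (mu D r) = S

theorem Dvb.mul {a b : R} {S : Submodule R D} (ha : Dvb a S) (hb : Dvb b S) : Dvb (a * b) S := by
  unfold Dvb at *
  rw [← map_mu_mul, hb, ha]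

theorem Dvb.pow {a : R} {S : Submodule R D} (ha : Dvb a S) (n : ℕ) : Dvb (a ^ n) S := by
  induction n with
  | zero =>
    unfold Dvb
    ext x
    rw [pow_zero]
    constructor
    · rintro ⟨y, hy, rfl⟩
      simpa using hy
    · intro hx
      exact ⟨x, hx, one_smul R x⟩
  | succ n ih =>
    rw [pow_succ]
    exact ih.mul ha

theorem Dvb.of_mul_left {a b : R} {S : Submodule R D} (h : Dvb (a * b) S) : Dvb a S := by
  refine le_antisymm map_mu_le ?_
  intro x hx
  have hx' : x ∈ S.map (mu D (a * b)) := by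
    rw [h]
    exact hx
  obtain ⟨y, hy, rfl⟩ := hx'
  exact ⟨b • y, S.smul_mem b hy, (mul_smul a b y).symm⟩

/-- the kernels of the powers on a divisible submodule -/
theorem card_tor_pow {a : R} {S : Submodule R D} (ha : Dvb a S)
    (hf : Finite (S ⊓ tor D a : Submodule R D)) (n : ℕ) :
    Finite (S ⊓ tor D (a ^ n) : Submodule R D) ∧
      Nat.card (S ⊓ tor D (a ^ n) : Submodule R D) =
        Nat.card (S ⊓ tor D a : Submodule R D) ^ n := by
  induction n with
  | zero =>
    have h : (S ⊓ tor D (a ^ 0) : Submodule R D) = ⊥ := by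
      rw [eq_bot_iff]
      rintro x ⟨-, hx⟩
      rw [SetLike.mem_coe, mem_tor, pow_zero, one_smul] at hx
      exact hx
    rw [h]
    exact ⟨inferInstance, by simp⟩
  | succ n ih =>
    obtain ⟨h1, h2⟩ := ih
    obtain ⟨S', hS'⟩ : ∃ S', S' = (S ⊓ tor D (a ^ (n + 1)) : Submodule R D) := ⟨_, rfl⟩
    have e1 : (S' ⊓ tor D (a ^ n) : Submodule R D) = S ⊓ tor D (a ^ n) := by
      rw [hS']
      apply le_antisymm
      · exact inf_le_inf_right _ inf_le_left
      · rintro x ⟨hx1, hx2⟩
        refine ⟨⟨hx1, ?_⟩, hx2⟩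
        rw [SetLike.mem_coe, mem_tor] at hx2 ⊢
        rw [pow_succ', mul_smul, hx2, smul_zero]
    have e2 : S'.map (mu D (a ^ n)) = S ⊓ tor D a := by
      rw [hS']
      apply le_antisymm
      · rintro _ ⟨x, ⟨hx1, hx2⟩, rfl⟩
        refine ⟨S.smul_mem _ hx1, ?_⟩
        rw [SetLike.mem_coe, mem_tor] at hx2 ⊢
        rw [pow_succ', mul_smul] at hx2
        exact hx2
      · rintro x ⟨hx1, hx2⟩
        have hx' : x ∈ S.map (mu D (a ^ n)) := by
          rw [ha.pow n]
          exact hx1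
        obtain ⟨y, hy, rfl⟩ := hx'
        refine ⟨y, ⟨hy, ?_⟩, rfl⟩
        rw [SetLike.mem_coe, mem_tor] at hx2 ⊢
        rw [pow_succ', mul_smul]
        exact hx2
    rw [← hS']
    have h3 := card_inf_mul (a ^ n) S'
    rw [e1, e2, h2] at h3
    refine ⟨finite_of_inf_map (a ^ n) S' (by rw [e1]; exact h1) (by rw [e2]; exact hf), ?_⟩
    rw [← h3, pow_succ]

/-- congruent elements: `f ^ (p ^ k) = h ^ (p ^ k)` modulo `p ^ (k + 1)` -/
theorem pow_congr {p : ℕ} {f h g : R} (hfh : f = h + p * g) (k : ℕ) :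
    ∃ g' : R, f ^ p ^ k = h ^ p ^ k + (p : R) ^ (k + 1) * g' := by
  have h1 := dvd_sub_pow_of_dvd_sub (R := R) (p := p) (a := f) (b := h)
    ⟨g, by rw [hfh]; ring⟩ k
  obtain ⟨g', hg'⟩ := h1
  exact ⟨g', by rw [← hg']; ring⟩

/-- the kernel of `f ≡ T ^ a` modulo `p` on a `T`-divisible submodule killed by `p ^ K` -/
theorem card_tor_of_congr {p : ℕ} (hp : p.Prime) {T f g : R} {a : ℕ} (hf : f = T ^ a + p * g)
    {V : Submodule R D} (hV : Dvb T V) (hVf : Finite (V ⊓ tor D T : Submodule R D)) {K : ℕ}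
    (hK : ∀ x ∈ V, (p : R) ^ K • x = 0) :
    Dvb f V ∧ Finite (V ⊓ tor D f : Submodule R D) ∧
      Nat.card (V ⊓ tor D f : Submodule R D) = Nat.card (V ⊓ tor D T : Submodule R D) ^ a := by
  obtain ⟨g', hg'⟩ := pow_congr (p := p) hf K
  have key : ∀ x ∈ V, f ^ p ^ K • x = (T ^ a) ^ p ^ K • x := by
    intro x hx
    rw [hg', add_smul, pow_succ, mul_assoc, mul_comm, mul_smul, hK x hx, smul_zero, add_zero]
  have h1 : Dvb ((T ^ a) ^ p ^ K) V := (hV.pow a).pow _
  have h2 : Dvb (f ^ p ^ K) V := by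
    refine le_antisymm map_mu_le ?_
    intro x hx
    have hx' : x ∈ V.map (mu D ((T ^ a) ^ p ^ K)) := by
      rw [h1]
      exact hx
    obtain ⟨y, hy, rfl⟩ := hx'
    exact ⟨y, hy, key y hy⟩
  have hpk : p ^ K ≠ 0 := pow_ne_zero _ hp.ne_zero
  have h3 : Dvb f V := by
    obtain ⟨n, hn⟩ : ∃ n, p ^ K = n + 1 := Nat.exists_eq_succ_of_ne_zero hpk
    rw [hn, pow_succ'] at h2
    exact h2.of_mul_left
  have e1 : (V ⊓ tor D (f ^ p ^ K) : Submodule R D) = V ⊓ tor D (T ^ (a * p ^ K)) := by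
    ext x
    simp only [Submodule.mem_inf, mem_tor]
    refine and_congr_right fun hx => ?_
    rw [key x hx, ← pow_mul]
  obtain ⟨h4, h5⟩ := card_tor_pow hV hVf (a * p ^ K)
  rw [← e1] at h4 h5
  have h6 : Finite (V ⊓ tor D f : Submodule R D) := by
    refine finite_of_le ?_ h4
    refine inf_le_inf_left _ ?_
    intro x hx
    rw [mem_tor] at hx ⊢
    obtain ⟨n, hn⟩ : ∃ n, p ^ K = n + 1 := Nat.exists_eq_succ_of_ne_zero hpk
    rw [hn, pow_succ, mul_smul, hx, smul_zero]
  refine ⟨h3, h6, ?_⟩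
  have h7 := (card_tor_pow h3 h6 (p ^ K)).2
  rw [h5, pow_mul] at h7
  exact (Nat.pow_left_injective hpk h7).symm

end Pool.Agent.H516
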