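import Pool.Agent.H516.Alg1

/-!
# The growth of the layers of a discrete module over the Iwasawa algebra
-/

set_option autoImplicit false

namespace Pool.Agent.H516

open Module

variable {R D : Type*} [CommRing R] [AddCommGroup D] [Module R D]

theorem fin_tor_pow {T : R} (S : Submodule R D) (h : Finite (S ⊓ tor D T : Submodule R D)) (n : ℕ) :
    Finite (S ⊓ tor D (T ^ n) : Submodule R D) := by
  induction n with
  | zero =>
    have h : (S ⊓ tor D (T ^ 0) : Submodule R D) = ⊥ := by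
      rw [eq_bot_iff]
      rintro x ⟨-, hx⟩
      rw [SetLike.mem_coe, mem_tor, pow_zero, one_smul] at hx
      exact hx
    rw [h]
    infer_instance
  | succ n ih =>
    refine finite_of_inf_map (T ^ n) _ ?_ ?_
    · refine finite_of_le ?_ ih
      exact inf_le_inf_right _ inf_le_left
    · refine finite_of_le ?_ h
      rintro _ ⟨x, ⟨hx1, hx2⟩, rfl⟩
      refine ⟨S.smul_mem _ hx1, ?_⟩
      rw [SetLike.mem_coe, mem_tor] at hx2 ⊢
      rw [pow_succ', mul_smul] at hx2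
      exact hx2

/-- the divisible part -/
theorem exists_dvb {T : R} (W : Submodule R D) (hT : Finite (W ⊓ tor D T : Submodule R D))
    (hnil : ∀ x ∈ W, ∃ a : ℕ, T ^ a • x = 0) : ∃ N : ℕ, Dvb T (W.map (mu D (T ^ N))) := by
  classical
  let c : ℕ → ℕ := fun N => Nat.card (W.map (mu D (T ^ N)) ⊓ tor D T : Submodule R D)
  obtain ⟨N₀, hN₀⟩ : ∃ N₀, ∀ N, c N₀ ≤ c N := by
    have h := Nat.sInf_mem (s := Set.range c) ⟨c 0, 0, rfl⟩
    obtain ⟨N₀, h0⟩ := h
    exact ⟨N₀, fun N => by rw [h0]; exact Nat.sInf_le ⟨N, rfl⟩⟩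
  have hanti : ∀ a b : ℕ, W.map (mu D (T ^ (a + b))) ≤ W.map (mu D (T ^ a)) := by
    intro a b
    rw [pow_add, mul_comm, ← map_mu_mul]
    exact map_mu_le
  have hfin : ∀ N, Finite (W.map (mu D (T ^ N)) ⊓ tor D T : Submodule R D) := fun N =>
    finite_of_le (inf_le_inf_right _ map_mu_le) hT
  have hst : ∀ b, (W.map (mu D (T ^ (N₀ + b))) ⊓ tor D T : Submodule R D) =
      W.map (mu D (T ^ N₀)) ⊓ tor D T := fun b =>
    eq_of_le_of_card (inf_le_inf_right _ (hanti N₀ b)) (hfin _) (hN₀ _)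
  refine ⟨N₀, le_antisymm map_mu_le ?_⟩
  have key : ∀ a : ℕ, ∀ x ∈ W.map (mu D (T ^ N₀)), T ^ a • x = 0 →
      x ∈ W.map (mu D (T ^ (N₀ + 1))) := by
    intro a
    induction a with
    | zero =>
      intro x _ h
      rw [pow_zero, one_smul] at h
      rw [h]
      exact zero_mem _
    | succ a ih =>
      intro x hx h
      have h1 : T ^ a • x ∈ (W.map (mu D (T ^ (N₀ + (a + 1)))) ⊓ tor D T : Submodule R D) := by
        rw [hst (a + 1), ← hst a]
        obtain ⟨w, hw, rfl⟩ := hx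
        refine ⟨⟨w, hw, ?_⟩, ?_⟩
        · show T ^ (N₀ + a) • w = T ^ a • T ^ N₀ • w
          rw [smul_smul, ← pow_add, add_comm]
        · rw [SetLike.mem_coe, mem_tor, smul_smul, ← pow_succ']
          exact h
      obtain ⟨⟨w, hw, hw'⟩, -⟩ := h1
      have hw'' : T ^ (N₀ + (a + 1)) • w = T ^ a • x := hw'
      have h2 : T ^ (N₀ + 1) • w ∈ W.map (mu D (T ^ (N₀ + 1))) := ⟨w, hw, rfl⟩
      have h3 : x - T ^ (N₀ + 1) • w ∈ W.map (mu D (T ^ N₀)) :=
        Submodule.sub_mem _ hx (hanti N₀ 1 h2)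
      have h4 := ih _ h3 (by
        rw [smul_sub, smul_smul, ← pow_add, ← hw'']
        rw [show a + (N₀ + 1) = N₀ + (a + 1) by ring, sub_self])
      have h5 := Submodule.add_mem _ h4 h2
      rwa [sub_add_cancel] at h5
  intro x hx
  obtain ⟨a, ha⟩ := hnil x (map_mu_le hx)
  have h := key a x hx ha
  rw [pow_succ', ← map_mu_mul] at h
  exact h

theorem Dvb.map_pow {T : R} {W : Submodule R D} {N : ℕ} (h : Dvb T (W.map (mu D (T ^ N)))) (a : ℕ) :
    W.map (mu D (T ^ (a + N))) = W.map (mu D (T ^ N)) := by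
  rw [pow_add, ← map_mu_mul]
  exact h.pow a

/-- divisible submodules with the same elements killed by `T` -/
theorem Dvb.eq_of {T : R} {V V' : Submodule R D} (hV : Dvb T V) (hVV : V ≤ V')
    (hnil : ∀ x ∈ V', ∃ a : ℕ, T ^ a • x = 0)
    (h : (V' ⊓ tor D T : Submodule R D) ≤ V ⊓ tor D T) : V' = V := by
  refine le_antisymm ?_ hVV
  have key : ∀ a : ℕ, ∀ x ∈ V', T ^ a • x = 0 → x ∈ V := by
    intro a
    induction a with
    | zero =>
      intro x _ h
      rw [pow_zero, one_smul] at h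
      rw [h]
      exact zero_mem _
    | succ a ih =>
      intro x hx h1
      have h2 : T • x ∈ V := ih (T • x) (V'.smul_mem T hx) (by rw [smul_smul, ← pow_succ]; exact h1)
      rw [← (show V.map (mu D T) = V from hV)] at h2
      obtain ⟨y, hy, hxy⟩ := h2
      have hxy' : T • y = T • x := hxy
      have h3 : x - y ∈ (V' ⊓ tor D T : Submodule R D) := by
        refine ⟨V'.sub_mem hx (hVV hy), ?_⟩
        rw [SetLike.mem_coe, mem_tor, smul_sub, hxy', sub_self]
      have h4 := V.add_mem (h h3).1 hy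
      rwa [sub_add_cancel] at h4
  intro x hx
  obtain ⟨a, ha⟩ := hnil x hx
  exact key a x hx ha

/-- a finite submodule lies in a layer -/
theorem le_layer {Dm : ℕ → Submodule R D} (hmono : Monotone Dm) (hcov : ∀ x, ∃ m, x ∈ Dm m)
    (S : Submodule R D) (hS : Finite S) : ∃ m, S ≤ Dm m := by
  classical
  choose f hf using hcov
  have : Fintype S := Fintype.ofFinite S
  refine ⟨Finset.univ.sup fun x : S => f x, fun x hx => ?_⟩
  exact hmono (Finset.le_sup (f := fun x : S => f x) (Finset.mem_univ ⟨x, hx⟩)) (hf x)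

/-- **Growth of the layers.** -/
theorem growth {p : ℕ} (hp : p.Prime) (T : R) (ω ν ξ gν hν gξ hξ : ℕ → R)
    (h1 : ∀ m, ω m = T * ν m) (h2 : ∀ m, ω (m + 1) = ξ m * ω m)
    (h3 : ∀ m, ν m = T ^ (p ^ m - 1) + p * gν m) (h4 : ∀ m, ν m = (p : R) ^ m + hν m * T)
    (h5 : ∀ m, ξ m = T ^ (p ^ (m + 1) - p ^ m) + p * gξ m) (h6 : ∀ m, gξ m = 1 + hξ m * T)
    (Dm : ℕ → Submodule R D) (e : ℕ → ℕ) (t : ℕ) (hmono : Monotone Dm)
    (hcov : ∀ x, ∃ m, x ∈ Dm m) (hcard : ∀ m, Nat.card (Dm m) = p ^ e m)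
    (hωD : ∀ m, ∀ x ∈ Dm m, ω m • x = 0)
    (ha : ∀ m, Nat.card (Dm (m + 1) ⊓ tor D (ω m) : Submodule R D) ≤ p ^ (e m + t))
    (hbf : ∀ m, Finite (tor D (ν m)))
    (hb : ∀ m, Nat.card (tor D (ν m)) ≤ p ^ (e m + m * t)) :
    ∃ μ : ℕ, (∀ m, (p ^ m - 1) * μ ≤ e m + m * t) ∧ ∃ C, ∀ m, e m ≤ μ * p ^ m + C * (m + 1) := by
  classical
  have hp0 : p ≠ 0 := hp.ne_zero
  have hp1 : 1 < p := hp.one_lt
  have hfin : ∀ m, Finite (Dm m) := fun m => by
    apply Nat.finite_of_card_ne_zero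
    rw [hcard]
    exact pow_ne_zero _ hp0
  -- the elements killed by `p ^ K`
  let W : ℕ → Submodule R D := fun K => tor D ((p : R) ^ K)
  have hWm : Monotone W := by
    refine monotone_nat_of_le_succ fun K x hx => ?_
    have hx' : (p : R) ^ K • x = 0 := hx
    show (p : R) ^ (K + 1) • x = 0
    rw [pow_succ', mul_smul, hx', smul_zero]
  have hprim : ∀ x : D, ∃ K, x ∈ W K := by
    intro x
    obtain ⟨m, hm⟩ := hcov x
    refine ⟨e m, ?_⟩
    show (p : R) ^ e m • x = 0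
    have h := card_nsmul_eq_zero' (G := Dm m) (x := ⟨x, hm⟩)
    rw [hcard] at h
    have h' : (p ^ e m : ℕ) • x = 0 := congrArg Subtype.val h
    rw [← Nat.cast_pow, Nat.cast_smul_eq_nsmul]
    exact h'
  -- nilpotency
  have hnil : ∀ K, ∀ x ∈ W K, ∃ a : ℕ, T ^ a • x = 0 := by
    intro K x hx
    obtain ⟨m, hm⟩ := hcov x
    obtain ⟨a, ha'⟩ : ∃ a, p ^ m = a + 1 := Nat.exists_eq_succ_of_ne_zero (pow_ne_zero _ hp0)
    have h8 : ω m = T ^ (a + 1) + p * (T * gν m) := by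
      rw [h1, h3, ha', Nat.add_sub_cancel]
      ring
    have h9 : T ^ (a + 1) = ω m - p * (T * gν m) := by
      rw [h8]
      ring
    have h10 : ∀ j : ℕ, (T ^ (a + 1)) ^ j • x = (-((p : R) * (T * gν m))) ^ j • x := by
      intro j
      induction j with
      | zero => simp
      | succ j ih =>
        rw [pow_succ', mul_smul, ih, smul_smul, mul_comm, mul_smul, h9, sub_smul, hωD m x hm,
          zero_sub, ← neg_smul, smul_smul, ← pow_succ]
    refine ⟨(a + 1) * K, ?_⟩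
    have hx' : (p : R) ^ K • x = 0 := hx
    rw [pow_mul, h10 K, neg_pow, mul_pow, mul_comm ((p : R) ^ K), ← mul_assoc, mul_smul, hx',
      smul_zero]
  have hWT : ∀ K, Finite (W K ⊓ tor D T : Submodule R D) := by
    intro K
    refine finite_of_le ?_ (hbf K)
    rintro x ⟨hx1, hx2⟩
    have hx1' : (p : R) ^ K • x = 0 := hx1
    have hx2' : T • x = 0 := hx2
    rw [mem_tor, h4, add_smul, mul_smul, hx1', hx2', smul_zero, add_zero]
  choose N hN using fun K => exists_dvb (T := T) (W K) (hWT K) (hnil K)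
  let V : ℕ → Submodule R D := fun K => (W K).map (mu D (T ^ N K))
  have hV : ∀ K, Dvb T (V K) := hN
  have hVW : ∀ K, V K ≤ W K := fun K => map_mu_le
  have hVm : ∀ K, V K ≤ V (K + 1) := by
    intro K
    have e1 := (hN K).map_pow (N (K + 1))
    have e2 := (hN (K + 1)).map_pow (N K)
    show (W K).map (mu D (T ^ N K)) ≤ (W (K + 1)).map (mu D (T ^ N (K + 1)))
    rw [← e1, ← e2, add_comm (N (K + 1)) (N K)]
    exact Submodule.map_mono (hWm (Nat.le_succ K))
  have hVf : ∀ K, Finite (V K ⊓ tor D T : Submodule R D) := fun K =>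
    finite_of_le (inf_le_inf_right _ (hVW K)) (hWT K)
  have hVc : ∀ K, ∃ μ : ℕ, Nat.card (V K ⊓ tor D T : Submodule R D) = p ^ μ := by
    intro K
    obtain ⟨m, hm⟩ := le_layer hmono hcov _ (hVf K)
    have h7 : Nat.card (V K ⊓ tor D T : Submodule R D) ∣ Nat.card (Dm m) :=
      AddSubgroup.card_dvd_of_le (H := (V K ⊓ tor D T).toAddSubgroup)
        (K := (Dm m).toAddSubgroup) hm
    rw [hcard, Nat.dvd_prime_pow hp] at h7
    obtain ⟨μ, -, hμ⟩ := h7
    exact ⟨μ, hμ⟩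
  choose μ hμ using hVc
  -- the first inequality
  have hlow : ∀ K m, (p ^ m - 1) * μ K ≤ e m + m * t := by
    intro K m
    obtain ⟨-, hf1, hf2⟩ := card_tor_of_congr hp (h3 m) (hV K) (hVf K) (K := K) (fun x hx => hVW K hx)
    have h7 := card_le_of_le (inf_le_right (a := V K) (b := tor D (ν m))) (hbf m)
    rw [hf2, hμ, ← pow_mul] at h7
    have h8 := (Nat.pow_le_pow_iff_right hp1).1 (h7.trans (hb m))
    rwa [mul_comm] at h8
  have hbdd : ∀ K, μ K ≤ e 1 + t := by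
    intro K
    have h7 := hlow K 1
    rw [pow_one, one_mul] at h7
    refine le_trans ?_ h7
    exact Nat.le_mul_of_pos_left _ (by omega)
  obtain ⟨K₀, hK₀⟩ : ∃ K₀, ∀ K, μ K ≤ μ K₀ := by
    have hbd : BddAbove (Set.range μ) := ⟨e 1 + t, by rintro _ ⟨K, rfl⟩; exact hbdd K⟩
    obtain ⟨K₀, h0⟩ := Nat.sSup_mem (s := Set.range μ) ⟨μ 0, 0, rfl⟩ hbd
    exact ⟨K₀, fun K => by rw [h0]; exact le_csSup hbd ⟨K, rfl⟩⟩
  refine ⟨μ K₀, hlow K₀, ?_⟩
  -- stability of the divisible parts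
  have hVeq : V (K₀ + 1) = V K₀ := by
    refine (hV K₀).eq_of (hVm K₀) (fun x hx => hnil (K₀ + 1) x (hVW _ hx)) ?_
    have h7 := eq_of_le_of_card (inf_le_inf_right (tor D T) (hVm K₀)) (hVf (K₀ + 1)) (by
      rw [hμ, hμ]
      exact Nat.pow_le_pow_right hp.pos (hK₀ _))
    exact h7.ge
  obtain ⟨n, hn⟩ : ∃ n, n = N (K₀ + 1) := ⟨_, rfl⟩
  obtain ⟨P, hP⟩ : ∃ P, P = (W (K₀ + 1)).map (mu D ((p : R) ^ K₀)) := ⟨_, rfl⟩
  have hPT : ∀ y ∈ P, T ^ n • y = 0 := by
    intro y hy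
    rw [hP] at hy
    obtain ⟨x, hx, rfl⟩ := hy
    have h7 : T ^ n • x ∈ V (K₀ + 1) := by
      rw [hn]
      exact ⟨x, hx, rfl⟩
    rw [hVeq] at h7
    have h8 : (p : R) ^ K₀ • T ^ n • x = 0 := hVW K₀ h7
    show T ^ n • (p : R) ^ K₀ • x = 0
    rw [smul_comm]
    exact h8
  have hPf : Finite P := by
    refine finite_of_le ?_ (fin_tor_pow (W 1) (hWT 1) n)
    intro y hy
    refine ⟨?_, hPT y hy⟩
    rw [hP] at hy
    obtain ⟨x, hx, rfl⟩ := hy
    have hx' : (p : R) ^ (K₀ + 1) • x = 0 := hx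
    show (p : R) ^ 1 • (p : R) ^ K₀ • x = 0
    rw [smul_smul, ← pow_add, add_comm]
    exact hx'
  have hAf := fin_tor_pow (W K₀) (hWT K₀) (N K₀)
  obtain ⟨A, hA⟩ : ∃ A, A = Nat.card (W K₀ ⊓ tor D (T ^ N K₀) : Submodule R D) := ⟨_, rfl⟩
  obtain ⟨B, hB⟩ : ∃ B, B = Nat.card P := ⟨_, rfl⟩
  -- the bound of `D[ξ]`
  have hxi : ∀ m, 2 * n ≤ p ^ (m + 1) - p ^ m → Finite (tor D (ξ m)) ∧
      Nat.card (tor D (ξ m)) ≤ A * p ^ (μ K₀ * (p ^ (m + 1) - p ^ m)) * B := by
    intro m hm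
    obtain ⟨S, hS⟩ : ∃ S, S = tor D (ξ m) := ⟨_, rfl⟩
    have hSm : ∀ x, x ∈ S ↔ ξ m • x = 0 := fun x => by rw [hS]; exact Iff.rfl
    obtain ⟨Y, hY⟩ : ∃ Y, Y = S.map (mu D ((p : R) ^ K₀)) := ⟨_, rfl⟩
    have hYm : ∀ y, y ∈ Y ↔ ∃ x ∈ S, (p : R) ^ K₀ • x = y := fun y => by rw [hY]; exact Iff.rfl
    have hWP : ∀ x, (p : R) ^ (K₀ + 1) • x = 0 → (p : R) ^ K₀ • x ∈ P := by
      intro x hx
      rw [hP]
      exact ⟨x, hx, rfl⟩
    have hz : ∀ z : D, T ^ n • z = 0 → gξ m • z = 0 → z = 0 := by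
      intro z hz1 hz2
      have h7 : z = -(hξ m * T) • z := by
        rw [h6, add_smul, one_smul] at hz2
        rw [neg_smul]
        exact eq_neg_of_add_eq_zero_left hz2
      have h8 : ∀ j : ℕ, z = (-(hξ m * T)) ^ j • z := by
        intro j
        induction j with
        | zero => simp
        | succ j ih =>
          rw [pow_succ', mul_smul, ← ih]
          exact h7
      rw [h8 n, neg_pow, mul_pow, ← mul_assoc, mul_smul, hz1, smul_zero]
    have hstep : ∀ y ∈ Y, (p : R) ^ 2 • y = 0 → (p : R) • y = 0 := by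
      intro y hy hy2
      obtain ⟨x, hx, rfl⟩ := (hYm y).1 hy
      have a1 : (p : R) • (p : R) ^ K₀ • x ∈ P := by
        have := hWP ((p : R) • x) (by
          rw [smul_smul] at hy2 ⊢
          rw [← pow_succ, show K₀ + 1 + 1 = 2 + K₀ by ring, pow_add]
          exact hy2)
        rwa [smul_comm] at this
      have a2 := hPT _ a1
      have a3 : T ^ n • (p : R) ^ K₀ • x ∈ P := by
        have := hWP (T ^ n • x) (by
          rw [pow_succ', mul_smul, smul_comm _ (T ^ n), smul_comm _ (T ^ n)]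
          exact a2)
        rwa [smul_comm] at this
      have a4 := hPT _ a3
      have a5 : T ^ (p ^ (m + 1) - p ^ m) • (p : R) ^ K₀ • x = 0 := by
        rw [smul_smul, ← pow_add, ← two_mul] at a4
        obtain ⟨j, hj⟩ := Nat.exists_eq_add_of_le hm
        rw [hj, add_comm, pow_add, mul_smul, a4, smul_zero]
      have a6 : ξ m • (p : R) ^ K₀ • x = 0 := by
        rw [smul_comm, (hSm x).1 hx, smul_zero]
      rw [h5, add_smul, a5, zero_add, mul_comm, mul_smul] at a6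
      exact hz _ a2 a6
    have hp' : ∀ k : ℕ, ∀ y ∈ Y, (p : R) ^ k • y = 0 → (p : R) • y = 0 := by
      intro k
      induction k with
      | zero =>
        intro y _ h
        rw [pow_zero, one_smul] at h
        rw [h, smul_zero]
      | succ k ih =>
        intro y hy h
        rcases k with _ | k
        · rwa [zero_add, pow_one] at h
        · apply ih y hy
          have h7 := hstep ((p : R) ^ k • y) (Y.smul_mem _ hy) (by
            rw [smul_smul, ← pow_add, show 2 + k = k + 1 + 1 by ring]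
            exact h)
          rw [smul_smul, ← pow_succ'] at h7
          exact h7
    have hYP : Y ≤ P := by
      intro y hy
      obtain ⟨k, hk⟩ := hprim y
      have h7 := hp' k y hy hk
      obtain ⟨x, hx, rfl⟩ := (hYm y).1 hy
      apply hWP
      rw [pow_succ', mul_smul]
      exact h7
    have hYf : Finite Y := finite_of_le hYP hPf
    have hYB : Nat.card Y ≤ B := by
      rw [hB]
      exact card_le_of_le hYP hPf
    -- the elements of `S` killed by `p ^ K₀`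
    obtain ⟨S1, hS1⟩ : ∃ S1, S1 = (S ⊓ tor D ((p : R) ^ K₀) : Submodule R D) := ⟨_, rfl⟩
    obtain ⟨-, hf1, hf2⟩ :=
      card_tor_of_congr hp (h5 m) (hV K₀) (hVf K₀) (K := K₀) (fun x hx => hVW K₀ hx)
    have b1 : (S1 ⊓ tor D (T ^ N K₀) : Submodule R D) ≤ W K₀ ⊓ tor D (T ^ N K₀) := by
      rw [hS1]
      exact inf_le_inf_right _ inf_le_right
    have b2 : S1.map (mu D (T ^ N K₀)) ≤ V K₀ ⊓ tor D (ξ m) := by
      rintro _ ⟨x, hx, rfl⟩
      rw [hS1] at hx
      refine ⟨⟨x, hx.2, rfl⟩, ?_⟩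
      show ξ m • T ^ N K₀ • x = 0
      rw [smul_comm, (hSm x).1 hx.1, smul_zero]
    have b3 := card_inf_mul (T ^ N K₀) S1
    have hS1f : Finite S1 := finite_of_inf_map (T ^ N K₀) S1 (finite_of_le b1 hAf)
      (finite_of_le b2 hf1)
    have b4 : Nat.card S1 ≤ A * p ^ (μ K₀ * (p ^ (m + 1) - p ^ m)) := by
      rw [← b3]
      refine Nat.mul_le_mul ?_ ?_
      · rw [hA]
        exact card_le_of_le b1 hAf
      · refine (card_le_of_le b2 hf1).trans ?_
        rw [hf2, hμ, ← pow_mul]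
    have b5 := card_inf_mul ((p : R) ^ K₀) S
    rw [← hS1, ← hY] at b5
    refine ⟨?_, ?_⟩
    · rw [← hS]
      refine finite_of_inf_map ((p : R) ^ K₀) S ?_ ?_
      · rw [← hS1]
        exact hS1f
      · rw [← hY]
        exact hYf
    · rw [← hS, ← b5]
      exact Nat.mul_le_mul b4 hYB
  -- the recursion
  obtain ⟨c, hc⟩ : ∃ c, A * B ≤ p ^ c := ⟨A * B, (Nat.lt_pow_self hp1).le⟩
  have hrec : ∀ m, 2 * n ≤ p ^ (m + 1) - p ^ m →
      e (m + 1) ≤ e m + t + c + μ K₀ * (p ^ (m + 1) - p ^ m) := by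
    intro m hm
    obtain ⟨hxf, hx⟩ := hxi m hm
    have c1 := card_inf_mul (ω m) (Dm (m + 1))
    have c2 : (Dm (m + 1)).map (mu D (ω m)) ≤ tor D (ξ m) := by
      rintro _ ⟨x, hx, rfl⟩
      show ξ m • ω m • x = 0
      rw [smul_smul, ← h2]
      exact hωD (m + 1) x hx
    have c3 : p ^ e (m + 1) ≤ p ^ (e m + t) * (A * p ^ (μ K₀ * (p ^ (m + 1) - p ^ m)) * B) := by
      rw [← hcard, ← c1]
      exact Nat.mul_le_mul (ha m) ((card_le_of_le c2 hxf).trans hx)
    have c4 : p ^ e (m + 1) ≤ p ^ (e m + t + c + μ K₀ * (p ^ (m + 1) - p ^ m)) := by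
      refine c3.trans ?_
      calc p ^ (e m + t) * (A * p ^ (μ K₀ * (p ^ (m + 1) - p ^ m)) * B)
          = p ^ (e m + t) * (A * B) * p ^ (μ K₀ * (p ^ (m + 1) - p ^ m)) := by ring
        _ ≤ p ^ (e m + t) * p ^ c * p ^ (μ K₀ * (p ^ (m + 1) - p ^ m)) :=
            Nat.mul_le_mul_right _ (Nat.mul_le_mul_left _ hc)
        _ = _ := by rw [← pow_add, ← pow_add]
    exact (Nat.pow_le_pow_iff_right hp1).1 c4
  -- the conclusion
  have hbig : ∀ m, 2 * n ≤ m → 2 * n ≤ p ^ (m + 1) - p ^ m := by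
    intro m hm
    have d1 : m < p ^ m := Nat.lt_pow_self hp1
    have d2 : p ^ m * 2 ≤ p ^ (m + 1) := by
      rw [pow_succ]
      exact Nat.mul_le_mul_left _ hp1
    omega
  obtain ⟨C, hC⟩ : ∃ C, C = t + c + ∑ m ∈ Finset.range (2 * n + 1), e m := ⟨_, rfl⟩
  refine ⟨C, fun m => ?_⟩
  by_cases hm : m ≤ 2 * n
  · have d1 : e m ≤ ∑ m ∈ Finset.range (2 * n + 1), e m :=
      Finset.single_le_sum (f := e) (fun _ _ => Nat.zero_le _) (Finset.mem_range.2 (by omega))
    have d2 : C ≤ C * (m + 1) := Nat.le_mul_of_pos_right _ (Nat.succ_pos m)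
    have d3 : e m ≤ C := by omega
    exact (d3.trans d2).trans (Nat.le_add_left _ _)
  · push Not at hm
    obtain ⟨j, hj⟩ := Nat.exists_eq_add_of_le hm.le
    rw [hj]
    clear hm hj
    induction j with
    | zero =>
      have d1 : e (2 * n) ≤ ∑ m ∈ Finset.range (2 * n + 1), e m :=
        Finset.single_le_sum (f := e) (fun _ _ => Nat.zero_le _) (Finset.mem_range.2 (by omega))
      have d2 : C ≤ C * (2 * n + 0 + 1) := Nat.le_mul_of_pos_right _ (Nat.succ_pos _)
      have d3 : e (2 * n) ≤ C := by omega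
      exact (d3.trans d2).trans (Nat.le_add_left _ _)
    | succ j ih =>
      have d1 := hrec (2 * n + j) (hbig _ (Nat.le_add_right _ _))
      have d2 : t + c ≤ C := by omega
      have d3 : p ^ (2 * n + j) ≤ p ^ (2 * n + j + 1) :=
        Nat.pow_le_pow_right hp.pos (Nat.le_succ _)
      have d4 : μ K₀ * (p ^ (2 * n + j + 1) - p ^ (2 * n + j)) + μ K₀ * p ^ (2 * n + j) =
          μ K₀ * p ^ (2 * n + j + 1) := by
        rw [← mul_add, Nat.sub_add_cancel d3]
      rw [← add_assoc]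
      have d5 : C * (2 * n + j + 1 + 1) = C * (2 * n + j + 1) + C := by ring
      rw [d5]
      omega

end Pool.Agent.H516
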