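import Pool.Agent.H516.Alg2

/-!
# The polynomials of the Iwasawa tower
-/

set_option autoImplicit false

namespace Pool.Agent.H516

open Polynomial

theorem C_dvd_of_map {p : ℕ} (f : ℤ[X]) (h : f.map (Int.castRingHom (ZMod p)) = 0) :
    ∃ g : ℤ[X], f = (p : ℤ[X]) * g := by
  have h1 : (C (p : ℤ)) ∣ f := by
    rw [C_dvd_iff_dvd_coeff]
    intro i
    have h2 := congrArg (fun q => q.coeff i) h
    simp only [coeff_map, coeff_zero] at h2
    exact (ZMod.intCast_zmod_eq_zero_iff_dvd _ _).1 h2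
  obtain ⟨g, hg⟩ := h1
  exact ⟨g, by rw [hg]; simp⟩

theorem exists_eval {f : ℤ[X]} {c : ℤ} (h : f.eval 1 = c) : ∃ g : ℤ[X], f = C c + g * (X - 1) := by
  have h1 := X_sub_C_dvd_sub_C_eval (a := (1 : ℤ)) (p := f)
  obtain ⟨g, hg⟩ := h1
  refine ⟨g, ?_⟩
  rw [h, map_one] at hg
  rw [mul_comm g, ← hg]
  ring

variable (p : ℕ)

/-- `γ ^ (p ^ m) - 1` -/
noncomputable def om (m : ℕ) : ℤ[X] := X ^ p ^ m - 1

/-- `1 + γ + ... + γ ^ (p ^ m - 1)` -/
noncomputable def nu (m : ℕ) : ℤ[X] := ∑ i ∈ Finset.range (p ^ m), X ^ i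

/-- `1 + γ ^ (p ^ m) + ... + γ ^ ((p - 1) p ^ m)` -/
noncomputable def xi (m : ℕ) : ℤ[X] := ∑ i ∈ Finset.range p, (X ^ p ^ m) ^ i

theorem om_eq (m : ℕ) : om p m = (X - 1) * nu p m := by
  rw [om, nu, mul_geom_sum]

theorem om_succ (m : ℕ) : om p (m + 1) = xi p m * om p m := by
  rw [om, om, xi, geom_sum_mul, ← pow_mul, ← pow_succ]

variable {p}

theorem map_om (hp : p.Prime) (m : ℕ) :
    (om p m).map (Int.castRingHom (ZMod p)) = (X - 1) ^ p ^ m := by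
  have : Fact p.Prime := ⟨hp⟩
  rw [om, Polynomial.map_sub, Polynomial.map_pow, Polynomial.map_X, Polynomial.map_one,
    sub_pow_char_pow, one_pow]

theorem nu_congr (hp : p.Prime) (m : ℕ) :
    ∃ g : ℤ[X], nu p m = (X - 1) ^ (p ^ m - 1) + (p : ℤ[X]) * g := by
  have hF : Fact p.Prime := ⟨hp⟩
  obtain ⟨g, hg⟩ := C_dvd_of_map (p := p) (nu p m - (X - 1) ^ (p ^ m - 1)) (by
    have h1 := map_om hp m
    rw [om_eq, Polynomial.map_mul] at h1
    have h2 : ((X - 1 : ℤ[X]).map (Int.castRingHom (ZMod p))) = X - 1 := by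
      rw [Polynomial.map_sub, Polynomial.map_X, Polynomial.map_one]
    obtain ⟨a, ha⟩ : ∃ a, p ^ m = a + 1 :=
      Nat.exists_eq_succ_of_ne_zero (pow_ne_zero _ hp.ne_zero)
    rw [h2, ha, pow_succ'] at h1
    have h3 : (X - 1 : (ZMod p)[X]) ≠ 0 := by
      have := X_sub_C_ne_zero (R := ZMod p) 1
      rwa [map_one] at this
    have h4 := mul_left_cancel₀ h3 h1
    rw [Polynomial.map_sub, Polynomial.map_pow, h2, h4, ha, Nat.add_sub_cancel, sub_self])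
  exact ⟨g, by rw [← hg]; ring⟩

theorem xi_congr (hp : p.Prime) (m : ℕ) :
    ∃ g : ℤ[X], xi p m = (X - 1) ^ (p ^ (m + 1) - p ^ m) + (p : ℤ[X]) * g := by
  have hF : Fact p.Prime := ⟨hp⟩
  obtain ⟨g, hg⟩ := C_dvd_of_map (p := p) (xi p m - (X - 1) ^ (p ^ (m + 1) - p ^ m)) (by
    have h1 := map_om hp (m + 1)
    rw [om_succ, Polynomial.map_mul, map_om hp m] at h1
    have h2 : ((X - 1 : ℤ[X]).map (Int.castRingHom (ZMod p))) = X - 1 := by
      rw [Polynomial.map_sub, Polynomial.map_X, Polynomial.map_one]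
    have hle : p ^ m ≤ p ^ (m + 1) := Nat.pow_le_pow_right hp.pos (Nat.le_succ _)
    have h3 : (X - 1 : (ZMod p)[X]) ≠ 0 := by
      have := X_sub_C_ne_zero (R := ZMod p) 1
      rwa [map_one] at this
    have h5 : (X - 1 : (ZMod p)[X]) ^ p ^ (m + 1) =
        (X - 1) ^ (p ^ (m + 1) - p ^ m) * (X - 1) ^ p ^ m := by
      rw [← pow_add, Nat.sub_add_cancel hle]
    rw [h5] at h1
    have h4 := mul_right_cancel₀ (pow_ne_zero _ h3) h1
    rw [Polynomial.map_sub, Polynomial.map_pow, h2, h4, sub_self])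
  exact ⟨g, by rw [← hg]; ring⟩

theorem nu_one (m : ℕ) : ∃ g : ℤ[X], nu p m = (p : ℤ[X]) ^ m + g * (X - 1) := by
  obtain ⟨g, hg⟩ := exists_eval (f := nu p m) (c := (p : ℤ) ^ m) (by
    rw [nu, eval_finsetSum]
    simp)
  exact ⟨g, by rw [hg]; simp⟩

theorem xi_g_one (hp : p.Prime) (m : ℕ) (g : ℤ[X])
    (h : xi p m = (X - 1) ^ (p ^ (m + 1) - p ^ m) + (p : ℤ[X]) * g) :
    ∃ h' : ℤ[X], g = 1 + h' * (X - 1) := by
  obtain ⟨h', hh⟩ := exists_eval (f := g) (c := 1) (by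
    have h1 := congrArg (eval (1 : ℤ)) h
    have hlt : p ^ m < p ^ (m + 1) := Nat.pow_lt_pow_right hp.one_lt (Nat.lt_succ_self _)
    have hne : p ^ (m + 1) - p ^ m ≠ 0 := by omega
    rw [xi, eval_finsetSum] at h1
    simp only [eval_pow, eval_X, one_pow, Finset.sum_const, Finset.card_range, nsmul_eq_mul,
      mul_one, eval_add, eval_sub, eval_one, sub_self, zero_pow hne, zero_add, eval_mul,
      eval_natCast] at h1
    have hp0 : (p : ℤ) ≠ 0 := by exact_mod_cast hp.ne_zero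
    exact (mul_left_cancel₀ hp0 ((mul_one _).trans h1)).symm)
  exact ⟨h', by rw [hh]; simp⟩

/-- **Growth of the layers**, for a module over `ℤ[X]`. -/
theorem growth' (hp : p.Prime) {D : Type*} [AddCommGroup D] [Module ℤ[X] D]
    (Dm : ℕ → Submodule ℤ[X] D) (e : ℕ → ℕ) (t : ℕ) (hmono : Monotone Dm)
    (hcov : ∀ x, ∃ m, x ∈ Dm m) (hcard : ∀ m, Nat.card (Dm m) = p ^ e m)
    (hωD : ∀ m, ∀ x ∈ Dm m, om p m • x = 0)
    (ha : ∀ m, Nat.card (Dm (m + 1) ⊓ tor D (om p m) : Submodule ℤ[X] D) ≤ p ^ (e m + t))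
    (hbf : ∀ m, Finite (tor D (nu p m)))
    (hb : ∀ m, Nat.card (tor D (nu p m)) ≤ p ^ (e m + m * t)) :
    ∃ μ : ℕ, (∀ m, (p ^ m - 1) * μ ≤ e m + m * t) ∧ ∃ C, ∀ m, e m ≤ μ * p ^ m + C * (m + 1) := by
  choose gν h3 using fun m => nu_congr hp m
  choose hν h4 using fun m => nu_one (p := p) m
  choose gξ h5 using fun m => xi_congr hp m
  choose hξ h6 using fun m => xi_g_one hp m (gξ m) (h5 m)
  exact growth hp (X - 1) (om p) (nu p) (xi p) gν hν gξ hξ (om_eq p) (om_succ p) h3 h4 h5 h6 Dm e t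
    hmono hcov hcard hωD ha hbf hb

end Pool.Agent.H516
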