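import Mathlib
import Pool.Graph.R_seed8.H921R2.TatePole.Dedekind

/-! An explicit upper bound for the class number. -/

set_option autoImplicit false
set_option linter.unusedSectionVars false

namespace Pool.Agent.H516.CB

open NumberField IsDedekindDomain Module Finset
open Pool.Agent.H921R2.TatePole (nm nm_ne_zero two_le_nm sum_smooth_le)

/-- `ζ(x) ≤ x / (x - 1)` -/
theorem zeta_le {x : ℝ} (hx : 1 < x) : ∑' n : ℕ, 1 / ((n : ℝ) + 1) ^ x ≤ x / (x - 1) := by
  have h1 := ZetaAsymptotics.zeta_limit_aux1 hx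
  have h2 : 0 ≤ ZetaAsymptotics.termTSum x := tsum_nonneg fun n => ZetaAsymptotics.term_nonneg _ _
  have h3 : x / (x - 1) = 1 + 1 / (x - 1) := by
    have : x - 1 ≠ 0 := by linarith
    field_simp
    ring
  rw [h3]
  have h4 : 0 ≤ x * ZetaAsymptotics.termTSum x := mul_nonneg (by linarith) h2
  linarith

/-- `n ↦ n ^ (-x)` as a homomorphism -/
noncomputable def pw (x : ℝ) : ℕ →* ℝ where
  toFun n := (n : ℝ) ^ (-x)
  map_one' := by simp
  map_mul' a b := by
    push_cast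
    rw [Real.mul_rpow (by positivity) (by positivity)]

theorem pw_apply (x : ℝ) (n : ℕ) : pw x n = (n : ℝ) ^ (-x) := rfl

theorem pw_summable {x : ℝ} (hx : 1 < x) : Summable (pw x) := by
  have h : Summable fun n : ℕ => (n : ℝ) ^ (-x) := Real.summable_nat_rpow.2 (by linarith)
  exact h

theorem prod_primes_le {x : ℝ} (hx : 1 < x) (S : Finset ℕ) (hS : ∀ p ∈ S, p.Prime) :
    ∏ p ∈ S, (1 - (p : ℝ) ^ (-x))⁻¹ ≤ x / (x - 1) := by
  have h1 := EulerProduct.prod_filter_prime_geometric_eq_tsum_factoredNumbers (pw_summable hx) S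
  rw [Finset.filter_true_of_mem hS] at h1
  have h2 : ∏ p ∈ S, (1 - (p : ℝ) ^ (-x))⁻¹ = ∏ p ∈ S, (1 - pw x p)⁻¹ := rfl
  rw [h2, h1]
  refine le_trans ?_ (zeta_le hx)
  have h3 : ∑' m : Nat.factoredNumbers S, pw x m ≤ ∑' m : {m : ℕ // m ≠ 0}, pw x m := by
    let i : Nat.factoredNumbers S → {m : ℕ // m ≠ 0} := fun m =>
      ⟨m.1, Nat.ne_zero_of_mem_factoredNumbers m.2⟩
    have hi : Function.Injective i := by
      intro a b hab
      exact Subtype.ext (congrArg (fun z : {m : ℕ // m ≠ 0} => z.1) hab)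
    refine Summable.tsum_le_tsum_of_inj i hi (fun c _ => ?_) (fun m => le_rfl) ?_ ?_
    · rw [pw_apply]; positivity
    · exact (pw_summable hx).comp_injective Subtype.val_injective
    · exact (pw_summable hx).comp_injective Subtype.val_injective
  refine h3.trans (le_of_eq ?_)
  let j : ℕ ≃ {m : ℕ // m ≠ 0} :=
    { toFun := fun n => ⟨n + 1, Nat.succ_ne_zero n⟩
      invFun := fun m => m.1 - 1
      left_inv := fun n => by simp
      right_inv := fun m => Subtype.ext (Nat.succ_pred_eq_of_ne_zero m.2) }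
  rw [← j.tsum_eq]
  refine tsum_congr fun n => ?_
  show pw x (n + 1) = _
  rw [pw_apply, Real.rpow_neg (by positivity)]
  push_cast
  rw [one_div]

section

variable {K : Type} [Field K] [NumberField K]

/-- the residue characteristic -/
noncomputable def rp (v : HeightOneSpectrum (𝓞 K)) : ℕ := Ideal.absNorm (v.asIdeal.under ℤ)

theorem rp_prime (v : HeightOneSpectrum (𝓞 K)) : (rp v).Prime := by
  have h1 := v.isPrime
  have h2 : NeZero v.asIdeal := ⟨v.ne_bot⟩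
  exact Nat.absNorm_under_prime v.asIdeal

theorem rp_le (v : HeightOneSpectrum (𝓞 K)) : rp v ≤ nm v :=
  Nat.le_of_dvd (Nat.pos_of_ne_zero (nm_ne_zero v)) (Int.absNorm_under_dvd_absNorm v.asIdeal)

theorem card_fib (F : Finset (HeightOneSpectrum (𝓞 K))) (p : ℕ) :
    (F.filter fun v => rp v = p).card ≤ finrank ℚ K := by
  classical
  rcases (F.filter fun v => rp v = p).eq_empty_or_nonempty with h | ⟨v, hv⟩
  · rw [h]; simp
  have hp : p.Prime := by
    rw [← (Finset.mem_filter.1 hv).2]; exact rp_prime v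
  have hpp : Prime (p : ℤ) := Nat.prime_iff_prime_int.1 hp
  have hp0 : Ideal.span {(p : ℤ)} ≠ ⊥ := by
    rw [Ne, Ideal.span_singleton_eq_bot]; exact_mod_cast hp.ne_zero
  have hmax : (Ideal.span {(p : ℤ)}).IsMaximal :=
    ((Ideal.span_singleton_prime (by exact_mod_cast hp.ne_zero)).2 hpp).isMaximal hp0
  refine le_trans ?_ (Ideal.card_primesOverFinset_le_finrank (𝓞 K) ℚ K hp0)
  refine Finset.card_le_card_of_injOn (fun v => v.asIdeal) ?_ ?_
  · intro w hw
    have hw' := (Finset.mem_filter.1 (Finset.mem_coe.1 hw)).2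
    rw [Finset.mem_coe, IsDedekindDomain.mem_primesOverFinset_iff hp0]
    refine ⟨w.isPrime, ?_⟩
    rw [← hw']
    exact Int.liesOver_span_absNorm w.asIdeal
  · intro a _ b _ hab
    exact HeightOneSpectrum.ext hab

theorem prod_le {x : ℝ} (hx : 1 < x) (F : Finset (HeightOneSpectrum (𝓞 K))) :
    ∏ v ∈ F, (1 - (nm v : ℝ) ^ (-x))⁻¹ ≤ (x / (x - 1)) ^ finrank ℚ K := by
  classical
  have hlt : ∀ p : ℕ, 2 ≤ p → (p : ℝ) ^ (-x) < 1 := by
    intro p hp
    exact Real.rpow_lt_one_of_one_lt_of_neg (by exact_mod_cast hp) (by linarith)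
  have hone : ∀ p : ℕ, 2 ≤ p → 1 ≤ (1 - (p : ℝ) ^ (-x))⁻¹ := by
    intro p hp
    have h1 := hlt p hp
    have h2 : (0 : ℝ) ≤ (p : ℝ) ^ (-x) := by positivity
    rw [one_le_inv₀ (by linarith)]
    linarith
  have h1 : ∏ v ∈ F, (1 - (nm v : ℝ) ^ (-x))⁻¹ ≤ ∏ v ∈ F, (1 - (rp v : ℝ) ^ (-x))⁻¹ := by
    refine Finset.prod_le_prod (fun v _ => ?_) (fun v _ => ?_)
    · exact le_trans zero_le_one (hone _ (two_le_nm v))
    · have h1 := hlt _ (rp_prime v).two_le
      refine inv_anti₀ (by linarith) ?_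
      have h2 : (nm v : ℝ) ^ (-x) ≤ (rp v : ℝ) ^ (-x) := by
        refine Real.rpow_le_rpow_of_nonpos ?_ ?_ (by linarith)
        · exact_mod_cast (rp_prime v).pos
        · exact_mod_cast rp_le v
      linarith
  refine h1.trans ?_
  have h2 : ∏ v ∈ F, (1 - (rp v : ℝ) ^ (-x))⁻¹ =
      ∏ p ∈ F.image rp, ∏ v ∈ F.filter (fun v => rp v = p), (1 - (rp v : ℝ) ^ (-x))⁻¹ := by
    rw [Finset.prod_fiberwise_of_maps_to (fun v hv => Finset.mem_image_of_mem _ hv)]
  rw [h2]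
  have h3 : ∀ p ∈ F.image (rp (K := K)), 2 ≤ p := by
    intro p hp
    obtain ⟨v, -, rfl⟩ := Finset.mem_image.1 hp
    exact (rp_prime v).two_le
  have h4 : ∏ p ∈ F.image rp, ∏ v ∈ F.filter (fun v => rp v = p), (1 - (rp v : ℝ) ^ (-x))⁻¹ ≤
      ∏ p ∈ F.image (rp (K := K)), ((1 - (p : ℝ) ^ (-x))⁻¹) ^ finrank ℚ K := by
    refine Finset.prod_le_prod (fun p hp => ?_) (fun p hp => ?_)
    · refine Finset.prod_nonneg fun v hv => ?_
      exact le_trans zero_le_one (hone _ (rp_prime v).two_le)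
    · have h5 : ∏ v ∈ F.filter (fun v => rp v = p), (1 - (rp v : ℝ) ^ (-x))⁻¹ =
          ((1 - (p : ℝ) ^ (-x))⁻¹) ^ (F.filter (fun v => rp v = p)).card := by
        rw [← Finset.prod_const]
        refine Finset.prod_congr rfl fun v hv => ?_
        rw [(Finset.mem_filter.1 hv).2]
      rw [h5]
      exact pow_le_pow_right₀ (hone p (h3 p hp)) (card_fib F p)
  refine h4.trans ?_
  rw [Finset.prod_pow]
  refine pow_le_pow_left₀ (Finset.prod_nonneg fun p hp => ?_) ?_ _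
  · exact le_trans zero_le_one (hone p (h3 p hp))
  · refine prod_primes_le hx _ fun p hp => ?_
    obtain ⟨v, -, rfl⟩ := Finset.mem_image.1 hp
    exact rp_prime v

/-- finite sums over ideals -/
theorem sum_le {x : ℝ} (hx : 1 < x) (A : Finset (Ideal (𝓞 K))) (hA : ∀ I ∈ A, I ≠ ⊥) :
    ∑ I ∈ A, ((Ideal.absNorm I : ℕ) : ℝ) ^ (-x) ≤ (x / (x - 1)) ^ finrank ℚ K := by
  classical
  have hfin : {v : HeightOneSpectrum (𝓞 K) | ∃ I ∈ A, v.asIdeal ∣ I}.Finite := by
    have : {v : HeightOneSpectrum (𝓞 K) | ∃ I ∈ A, v.asIdeal ∣ I} =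
        ⋃ I ∈ (A : Set (Ideal (𝓞 K))), {v | v.asIdeal ∣ I} := by
      ext v; simp
    rw [this]
    refine Set.Finite.biUnion A.finite_toSet fun I hI => ?_
    exact Ideal.finite_factors (hA I hI)
  refine (sum_smooth_le hx hfin.toFinset A fun I hI => ⟨hA I hI, fun v hv => ?_⟩).trans (prod_le hx _)
  rw [Set.Finite.mem_toFinset]
  exact ⟨I, hI, hv⟩

/-- the constant in Minkowski's bound -/
theorem fact_le (n : ℕ) : (n + 1).factorial * 2 ^ n ≤ (n + 1) ^ (n + 1) := by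
  induction n with
  | zero => simp
  | succ n ih =>
    have h1 : 2 * (n + 1) ^ (n + 1) ≤ (n + 1 + 1) ^ (n + 1) := by
      have h2 : (n + 1 + 1) ^ (n + 1) ≥ (n + 1) ^ (n + 1) + (n + 1) * (n + 1) ^ n * 1 := by
        have := pow_add_mul_le_add_pow (R := ℕ) (a := n + 1) (b := 1) (Nat.zero_le _)
          (Nat.zero_le _) (n + 1)
        simpa using this
      have h3 : (n + 1) * (n + 1) ^ n * 1 = (n + 1) ^ (n + 1) := by ring
      omega
    calc (n + 1 + 1).factorial * 2 ^ (n + 1)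
        = (n + 2) * 2 * ((n + 1).factorial * 2 ^ n) := by
          rw [Nat.factorial_succ (n + 1)]; ring
      _ ≤ (n + 2) * 2 * (n + 1) ^ (n + 1) := Nat.mul_le_mul_left _ ih
      _ = (n + 2) * (2 * (n + 1) ^ (n + 1)) := by ring
      _ ≤ (n + 2) * (n + 1 + 1) ^ (n + 1) := Nat.mul_le_mul_left _ h1
      _ = (n + 1 + 1) ^ (n + 1 + 1) := by ring

variable (K) in
theorem mink_le : (4 / Real.pi) ^ InfinitePlace.nrComplexPlaces K *
    ((finrank ℚ K).factorial / (finrank ℚ K) ^ (finrank ℚ K) : ℝ) ≤ 1 := by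
  obtain ⟨n, hn⟩ : ∃ n, finrank ℚ K = n + 1 :=
    ⟨finrank ℚ K - 1, (Nat.succ_pred_eq_of_pos finrank_pos).symm⟩
  have h1 := InfinitePlace.card_add_two_mul_card_eq_rank K
  rw [hn] at h1 ⊢
  have h2 : InfinitePlace.nrComplexPlaces K ≤ n := by omega
  have h3 : (4 / Real.pi) ^ InfinitePlace.nrComplexPlaces K ≤ (2 : ℝ) ^ n := by
    have h4 : 4 / Real.pi ≤ 2 := by
      rw [div_le_iff₀ Real.pi_pos]
      linarith [Real.pi_gt_three]
    calc (4 / Real.pi) ^ InfinitePlace.nrComplexPlaces K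
        ≤ 2 ^ InfinitePlace.nrComplexPlaces K :=
          pow_le_pow_left₀ (by positivity) h4 _
      _ ≤ 2 ^ n := pow_le_pow_right₀ (by norm_num) h2
  have h4 : ((n + 1).factorial : ℝ) * 2 ^ n ≤ ((n + 1 : ℕ) : ℝ) ^ (n + 1) := by
    exact_mod_cast fact_le n
  have h5 : (0 : ℝ) < ((n + 1 : ℕ) : ℝ) ^ (n + 1) := by positivity
  rw [← mul_div_assoc, div_le_one h5]
  calc (4 / Real.pi) ^ InfinitePlace.nrComplexPlaces K * ((n + 1).factorial : ℝ)
      ≤ 2 ^ n * ((n + 1).factorial : ℝ) := mul_le_mul_of_nonneg_right h3 (by positivity)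
    _ = ((n + 1).factorial : ℝ) * 2 ^ n := mul_comm _ _
    _ ≤ _ := h4

variable (K) in
/-- every ideal class contains an ideal of norm at most `√|D|` -/
theorem exists_small (C : ClassGroup (𝓞 K)) : ∃ I : nonZeroDivisors (Ideal (𝓞 K)),
    ClassGroup.mk0 I = C ∧ (Ideal.absNorm (I : Ideal (𝓞 K)) : ℝ) ≤ Real.sqrt |(discr K : ℝ)| := by
  obtain ⟨I, h1, h2⟩ := NumberField.exists_ideal_in_class_of_norm_le C
  refine ⟨I, h1, h2.trans ?_⟩
  rw [← mul_assoc]
  exact mul_le_of_le_one_left (Real.sqrt_nonneg _) (mink_le K)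

variable (K) in
/-- **the class number bound** -/
theorem classNumber_le {x : ℝ} (hx : 1 < x) :
    (Nat.card (ClassGroup (𝓞 K)) : ℝ) ≤
      Real.sqrt |(discr K : ℝ)| ^ x * (x / (x - 1)) ^ finrank ℚ K := by
  classical
  choose I hI hN using exists_small K
  have hinj : Function.Injective fun C => (I C : Ideal (𝓞 K)) := by
    intro C D h
    rw [← hI C, ← hI D]
    exact congrArg _ (Subtype.ext h)
  have hfin : Fintype (ClassGroup (𝓞 K)) := Fintype.ofFinite _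
  obtain ⟨B, hB⟩ : ∃ B, B = Real.sqrt |(discr K : ℝ)| := ⟨_, rfl⟩
  have hB0 : 0 ≤ B := by rw [hB]; exact Real.sqrt_nonneg _
  have h1 := sum_le hx (Finset.univ.image fun C => (I C : Ideal (𝓞 K))) (by
    intro J hJ
    obtain ⟨C, -, rfl⟩ := Finset.mem_image.1 hJ
    exact nonZeroDivisors.coe_ne_zero (I C))
  rw [Finset.sum_image (fun a _ b _ h => hinj h)] at h1
  have h2 : ∀ C : ClassGroup (𝓞 K), 1 ≤ B ^ x * ((Ideal.absNorm (I C : Ideal (𝓞 K)) : ℕ) : ℝ) ^ (-x) := by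
    intro C
    have h3 : (0 : ℝ) < ((Ideal.absNorm (I C : Ideal (𝓞 K)) : ℕ) : ℝ) := by
      have : Ideal.absNorm (I C : Ideal (𝓞 K)) ≠ 0 := by
        rw [Ne, Ideal.absNorm_eq_zero_iff]
        exact nonZeroDivisors.coe_ne_zero (I C)
      exact_mod_cast Nat.pos_of_ne_zero this
    rw [Real.rpow_neg h3.le, ← div_eq_mul_inv, one_le_div (Real.rpow_pos_of_pos h3 _)]
    refine Real.rpow_le_rpow h3.le ?_ (by linarith)
    rw [hB]
    exact hN C
  calc (Nat.card (ClassGroup (𝓞 K)) : ℝ) = ∑ _C : ClassGroup (𝓞 K), (1 : ℝ) := by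
        rw [Finset.sum_const, Finset.card_univ, nsmul_eq_mul, mul_one, Nat.card_eq_fintype_card]
    _ ≤ ∑ C : ClassGroup (𝓞 K), B ^ x * ((Ideal.absNorm (I C : Ideal (𝓞 K)) : ℕ) : ℝ) ^ (-x) :=
        Finset.sum_le_sum fun C _ => h2 C
    _ = B ^ x * ∑ C : ClassGroup (𝓞 K), ((Ideal.absNorm (I C : Ideal (𝓞 K)) : ℕ) : ℝ) ^ (-x) := by
        rw [Finset.mul_sum]
    _ ≤ B ^ x * (x / (x - 1)) ^ finrank ℚ K :=
        mul_le_mul_of_nonneg_left h1 (Real.rpow_nonneg hB0 _)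
    _ = _ := by rw [hB]

end

end Pool.Agent.H516.CB
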