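import Pool.Agent.H516.Disc2
import Pool.Agent.H516.ClBound

/-! The explicit bound for the `μ`-invariant. -/

set_option autoImplicit false
set_option linter.unusedSectionVars false

namespace Pool.Agent.H516

open NumberField Module IntermediateField Subgroup
open Pool.Agent.Q60.MU Pool.Agent.K4H24.IW Pool.Agent.K4H94.IW
open scoped Pointwise

theorem smul_above {p : ℕ} {A : ValuationSubring Qb} (h : (p : Qb) ∈ A.nonunits)
    (g : Gal(Qb/ℚ)) : (p : Qb) ∈ (g • A).nonunits := by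
  rw [non_iff] at h ⊢
  have h1 : g⁻¹ • (p : Qb) = (p : Qb) := map_natCast (g⁻¹ : Gal(Qb/ℚ)) p
  have h2 : g⁻¹ • ((p : Qb)⁻¹) = (p : Qb)⁻¹ := by
    show (g⁻¹ : Gal(Qb/ℚ)) ((p : Qb)⁻¹) = (p : Qb)⁻¹
    rw [map_inv₀, map_natCast]
  rw [ValuationSubring.mem_pointwise_smul_iff_inv_smul_mem,
    ValuationSubring.mem_pointwise_smul_iff_inv_smul_mem, h1, h2]
  exact h

/-- a finite set of representatives for the valuation rings above `p` -/
theorem exists_cover {p : ℕ} (hp : p.Prime) (F : IntermediateField ℚ Qb) [FiniteDimensional ℚ F] :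
    ∃ w : Fin (finrank ℚ F - 1 + 1) → ValuationSubring Qb, (∀ i, (p : Qb) ∈ (w i).nonunits) ∧
      ∀ A : ValuationSubring Qb, (p : Qb) ∈ A.nonunits → ∃ i, ∃ g ∈ fx F, A = g • w i := by
  classical
  obtain ⟨A₀, hA₀⟩ := exists_above hp
  have h0 : finrank ℚ F - 1 + 1 = finrank ℚ F := Nat.sub_add_cancel finrank_pos
  rw [h0]
  have hidx : (fx F).index = finrank ℚ F := by rw [finrank_eq_fixingSubgroup_index]
  have hfin : Finite (Gal(Qb/ℚ) ⧸ fx F) := by
    apply Nat.finite_of_card_ne_zero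
    show (fx F).index ≠ 0
    rw [hidx]
    exact finrank_pos.ne'
  have hcard : Nat.card (Gal(Qb/ℚ) ⧸ fx F) = finrank ℚ F := hidx
  let e : Fin (finrank ℚ F) ≃ (Gal(Qb/ℚ) ⧸ fx F) := (Finite.equivFinOfCardEq hcard).symm
  refine ⟨fun i => ((e i).out)⁻¹ • A₀, fun i => smul_above hA₀ _, fun A hA => ?_⟩
  · obtain ⟨g, rfl⟩ := exists_smul_eq' hp A A₀ hA hA₀
    refine ⟨e.symm (QuotientGroup.mk g⁻¹), ?_⟩
    show ∃ g_1 ∈ fx F, g • A₀ = g_1 • ((e (e.symm (QuotientGroup.mk g⁻¹))).out)⁻¹ • A₀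
    rw [Equiv.apply_symm_apply]
    have h1 : (QuotientGroup.mk (QuotientGroup.mk g⁻¹ : Gal(Qb/ℚ) ⧸ fx F).out :
        Gal(Qb/ℚ) ⧸ fx F) = QuotientGroup.mk g⁻¹ := QuotientGroup.out_eq' _
    have h2 := QuotientGroup.eq.1 h1
    refine ⟨_, inv_mem h2, ?_⟩
    rw [smul_smul]
    congr 1
    group

section

variable {p : ℕ} [hp : Fact p.Prime] (hp2 : p ≠ 2) {R : ℕ → IntermediateField ℚ Qb}
  (hR : IsCycTower p R) {F : IntermediateField ℚ Qb} [NumberField F] (hF : finrank ℚ F < p)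

include hp2 hR hF

/-- the growth of the degrees of the Hilbert class fields, with the bound for `μ` by the first
layer -/
theorem growth_first : ∃ (e : ℕ → ℕ) (μ : ℕ), (∀ m, HilbExp p (F ⊔ R m) (e m)) ∧
    (∃ C : ℕ, ∀ m, e m ≤ μ * p ^ m + C * (m + 1) ∧ μ * p ^ m ≤ e m + C * (m + 1)) ∧
    ∀ δ : ℝ, 0 < δ → ((p : ℝ) - 1) * μ * Real.log p ≤ ((finrank ℚ F : ℝ) - 1) * Real.log p +
      (1 + δ) * ((p : ℝ) / 2 * Real.log |(discr F : ℝ)| + ((p : ℝ) - 1) * finrank ℚ F * Real.log p) +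
      p * finrank ℚ F * Real.log (1 + 1 / δ) := by
  obtain ⟨w, hw, hcov⟩ := exists_cover hp.1 F
  obtain ⟨e, μ, he, hcl, hlow, C, hup⟩ := growthF hp2 hR hF w hw hcov
  refine ⟨e, μ, he, ⟨C + (finrank ℚ F - 1) + μ, fun m => ⟨?_, ?_⟩⟩, fun δ hδ => ?_⟩
  · refine (hup m).trans (Nat.add_le_add_left (Nat.mul_le_mul_right _ ?_) _)
    omega
  · have h1 := hlow m
    have h2 : 1 ≤ p ^ m := Nat.one_le_pow _ _ hp.1.pos
    obtain ⟨q, hq⟩ : ∃ q, p ^ m = q + 1 := ⟨p ^ m - 1, by omega⟩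
    rw [hq] at h1 ⊢
    rw [Nat.add_sub_cancel] at h1
    nlinarith
  · -- the first layer
    obtain ⟨hfd, -, -, -, -⟩ := cyc_facts hp2 hR 1
    have hfdL : FiniteDimensional ℚ ↥(F ⊔ R 1) := IntermediateField.finiteDimensional_sup F (R 1)
    have hnL : NumberField ↥(F ⊔ R 1) := ⟨⟩
    obtain ⟨n, hn⟩ : ∃ n, n = finrank ℚ F := ⟨_, rfl⟩
    have hn1 : 1 ≤ n := by rw [hn]; exact finrank_pos
    have h1 := hlow 1
    rw [← hn] at h1 ⊢
    rw [pow_one, one_mul] at h1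
    have hp1 : (1 : ℝ) < p := by exact_mod_cast hp.1.one_lt
    have hlogp : 0 < Real.log p := Real.log_pos hp1
    -- `(p - 1) μ ≤ e 1 + n - 1`
    have h2 : ((p : ℝ) - 1) * μ ≤ e 1 + ((n : ℝ) - 1) := by
      have h3 : (((p - 1) * μ : ℕ) : ℝ) ≤ ((e 1 + (n - 1) : ℕ) : ℝ) := by exact_mod_cast h1
      push_cast [Nat.cast_sub hn1, Nat.cast_sub hp.1.one_lt.le] at h3
      exact h3
    -- `p ^ e 1 ≤ h`
    have hpos : 0 < Nat.card (ClassGroup (𝓞 ↥(F ⊔ R 1))) := Nat.card_pos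
    have h3 : (p : ℝ) ^ e 1 ≤ (Nat.card (ClassGroup (𝓞 ↥(F ⊔ R 1))) : ℝ) := by
      exact_mod_cast Nat.le_of_dvd hpos (hcl 1)
    have hx : 1 < 1 + δ := by linarith
    have h4 := CB.classNumber_le ↥(F ⊔ R 1) hx
    have hfin : finrank ℚ ↥(F ⊔ R 1) = n * p := by
      rw [DI.finrank_layer hp2 hR hF 1, (hR 1).1, pow_one, hn]
    rw [hfin] at h4
    have hD := DI.discr_first hp2 hR hF
    rw [← hn] at hD
    -- logarithms
    have hDpos : (0 : ℝ) < |(discr ↥(F ⊔ R 1) : ℝ)| := by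
      rw [abs_pos]; exact_mod_cast discr_ne_zero _
    have hDFpos : (0 : ℝ) < |(discr F : ℝ)| := by
      rw [abs_pos]; exact_mod_cast discr_ne_zero _
    have h5 : (e 1 : ℝ) * Real.log p ≤ (1 + δ) * (Real.log |(discr ↥(F ⊔ R 1) : ℝ)| / 2) +
        (n * p : ℕ) * Real.log ((1 + δ) / (1 + δ - 1)) := by
      have h6 := Real.log_le_log (pow_pos (by linarith : (0 : ℝ) < p) _) (h3.trans h4)
      have hs : 0 < Real.sqrt |(discr ↥(F ⊔ R 1) : ℝ)| := Real.sqrt_pos.2 hDpos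
      have hq : 0 < (1 + δ) / (1 + δ - 1) := by
        apply div_pos <;> linarith
      rw [Real.log_pow, Real.log_mul (Real.rpow_pos_of_pos hs _).ne' (pow_pos hq _).ne',
        Real.log_rpow hs, Real.log_sqrt hDpos.le, Real.log_pow] at h6
      exact h6
    have h7 : Real.log |(discr ↥(F ⊔ R 1) : ℝ)| ≤
        p * Real.log |(discr F : ℝ)| + 2 * ((p : ℝ) - 1) * n * Real.log p := by
      have h8 : |(discr ↥(F ⊔ R 1) : ℝ)| ≤ |(discr F : ℝ)| ^ p * (p : ℝ) ^ (2 * (p - 1) * n) := by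
        have h9 : (((discr ↥(F ⊔ R 1)).natAbs : ℕ) : ℝ) ≤
            (((discr F).natAbs ^ p * p ^ (2 * (p - 1) * n) : ℕ) : ℝ) := by exact_mod_cast hD
        push_cast at h9
        rw [Nat.cast_natAbs, Nat.cast_natAbs] at h9
        push_cast at h9
        exact h9
      have h9 := Real.log_le_log hDpos h8
      rw [Real.log_mul (pow_pos hDFpos _).ne' (pow_pos (by linarith : (0 : ℝ) < p) _).ne',
        Real.log_pow, Real.log_pow] at h9
      push_cast [Nat.cast_sub hp.1.one_lt.le] at h9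
      exact h9
    have h8 : (1 + δ) / (1 + δ - 1) = 1 + 1 / δ := by
      rw [add_sub_cancel_left, add_div, div_self hδ.ne', add_comm]
    rw [h8] at h5
    push_cast at h5
    have h9 : (1 + δ) * (Real.log |(discr ↥(F ⊔ R 1) : ℝ)| / 2) ≤
        (1 + δ) * ((p * Real.log |(discr F : ℝ)| + 2 * ((p : ℝ) - 1) * n * Real.log p) / 2) := by
      apply mul_le_mul_of_nonneg_left _ (by linarith)
      linarith
    calc ((p : ℝ) - 1) * μ * Real.log p ≤ (e 1 + ((n : ℝ) - 1)) * Real.log p :=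
          mul_le_mul_of_nonneg_right h2 hlogp.le
      _ ≤ _ := by nlinarith

end

end Pool.Agent.H516
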