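import Pool.Agent.H516.CG1

/-! An extension which is fixed by all profinite inertia groups is unramified. -/

set_option autoImplicit false
set_option linter.unusedSectionVars false

namespace Pool.Agent.H516.BR

open NumberField CG
open scoped Pointwise

section

variable {K Ω : Type} [Field K] [Field Ω] [Algebra K Ω]

theorem coe_smul (σ : Gal(Ω/K)) (x : 𝓞 Ω) : ((σ • x : 𝓞 Ω) : Ω) = σ x := rfl

variable (L : IntermediateField K Ω)

theorem smulComm : SMulCommClass L.fixingSubgroup (𝓞 L) (𝓞 Ω) := by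
  refine ⟨fun g a b => ?_⟩
  apply RingOfIntegers.ext
  rw [Subgroup.smul_def, Subgroup.smul_def, coe_smul, Algebra.smul_def, Algebra.smul_def]
  show g.1 ((algebraMap (𝓞 L) (𝓞 Ω) a : 𝓞 Ω) * (b : Ω)) =
    (algebraMap (𝓞 L) (𝓞 Ω) a : 𝓞 Ω) * g.1 b
  rw [map_mul]
  congr 1
  exact (IntermediateField.mem_fixingSubgroup_iff _ _).mp g.2 _ (a : L).2

theorem isInv [IsGalois K Ω] : Algebra.IsInvariant (𝓞 L) (𝓞 Ω) L.fixingSubgroup := by
  refine ⟨fun b hb => ?_⟩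
  have h1 : (b : Ω) ∈ L := by
    rw [← InfiniteGalois.fixedField_fixingSubgroup L]
    intro g
    exact congrArg (fun z : 𝓞 Ω => (z : Ω)) (hb g)
  refine ⟨⟨⟨b, h1⟩, ?_⟩, ?_⟩
  · have h3 : IsIntegral ℤ (algebraMap L Ω ⟨b, h1⟩) := b.2
    exact (isIntegral_algebraMap_iff (algebraMap L Ω).injective).1 h3
  · apply RingOfIntegers.ext
    rfl

end

theorem bridge {K Ω : Type} [Field K] [NumberField K] [Field Ω] [CharZero Ω] [Algebra K Ω]
    [IsGalois K Ω]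
    (L : IntermediateField K Ω) [FiniteDimensional K L] [IsGalois K L] [NumberField L]
    (hI : ∀ P : Ideal (𝓞 Ω), P.IsMaximal → ∀ τ : Gal(Ω/K), (∀ x : 𝓞 Ω, τ • x - x ∈ P) →
      τ ∈ L.fixingSubgroup) : Unr K L := by
  classical
  have hopen : IsOpen (L.fixingSubgroup : Set Gal(Ω/K)) := L.fixingSubgroup_isOpen
  have hclosed : IsClosed (L.fixingSubgroup : Set Gal(Ω/K)) := Subgroup.isClosed_of_isOpen _ hopen
  -- the profinite group
  have hcomm : SMulCommClass L.fixingSubgroup (𝓞 L) (𝓞 Ω) := smulComm L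
  have hinv : Algebra.IsInvariant (𝓞 L) (𝓞 Ω) L.fixingSubgroup := isInv L
  have hcpt : CompactSpace L.fixingSubgroup := isCompact_iff_compactSpace.1 hclosed.isCompact
  let _ : TopologicalSpace (𝓞 Ω) := ⊥
  have : DiscreteTopology (𝓞 Ω) := ⟨rfl⟩
  have hcont : ContinuousSMul Gal(Ω/K) (𝓞 Ω) := by
    rw [continuousSMul_iff_stabilizer_isOpen]
    intro x
    have h1 := stabilizer_isOpen_of_isIntegral (K := K) (x : Ω)
    convert h1 using 2
    ext g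
    rw [MulAction.mem_stabilizer_iff, MulAction.mem_stabilizer_iff]
    constructor
    · intro h
      exact congrArg (fun z : 𝓞 Ω => (z : Ω)) h
    · intro h
      exact RingOfIntegers.ext h
  have hcontU : ContinuousSMul L.fixingSubgroup (𝓞 Ω) := inferInstance
  intro P hP γ hγ
  have hγ' : ∀ a : 𝓞 L, γ⁻¹ • a - a ∈ P := by
    have : γ ∈ P.inertia Gal(L/K) := hγ
    exact fun a => (inv_mem this) a
  obtain ⟨Q, hQm, hQP⟩ := Ideal.exists_maximal_ideal_liesOver_of_isIntegral (S := 𝓞 Ω) P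
  obtain ⟨g0, hg0⟩ := AlgEquiv.restrictNormalHom_surjective (F := K) (K₁ := L) Ω γ
  have hres : ∀ a : 𝓞 L, g0 • (algebraMap (𝓞 L) (𝓞 Ω) a) =
      algebraMap (𝓞 L) (𝓞 Ω) (γ • a) := by
    intro a
    apply RingOfIntegers.ext
    rw [coe_smul]
    have := AlgEquiv.restrictNormal_commutes g0 L (a : L)
    rw [← hg0]
    exact this.symm
  have hres' : ∀ a : 𝓞 L, g0⁻¹ • (algebraMap (𝓞 L) (𝓞 Ω) a) =
      algebraMap (𝓞 L) (𝓞 Ω) (γ⁻¹ • a) := by
    intro a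
    rw [inv_smul_eq_iff, hres, smul_inv_smul]
  have hmemP : ∀ a : 𝓞 L, algebraMap (𝓞 L) (𝓞 Ω) a ∈ Q ↔ a ∈ P := by
    intro a
    rw [hQP.over]
    rfl
  have hQ' : (g0 • Q).IsPrime := inferInstance
  have hunder : (g0 • Q).under (𝓞 L) = Q.under (𝓞 L) := by
    ext a
    rw [Ideal.under_def, Ideal.mem_comap, Ideal.under_def, Ideal.mem_comap,
      Ideal.mem_pointwise_smul_iff_inv_smul_mem, hres', hmemP, hmemP]
    have h1 : γ⁻¹ • a - a ∈ P := hγ' a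
    constructor
    · intro h2
      have := P.sub_mem h2 h1
      rwa [sub_sub_cancel] at this
    · intro h2
      have := P.add_mem h1 h2
      rwa [sub_add_cancel] at this
  obtain ⟨h, hh⟩ := Algebra.IsInvariant.exists_smul_of_under_eq_of_profinite
    (A := 𝓞 L) (G := L.fixingSubgroup) (g0 • Q) Q hunder
  set g1 : Gal(Ω/K) := h.1 * g0 with hg1
  have hg1Q : g1 • Q = Q := by
    rw [hg1, mul_smul]
    exact hh.symm
  have hres1 : ∀ a : 𝓞 L, g1 • (algebraMap (𝓞 L) (𝓞 Ω) a) =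
      algebraMap (𝓞 L) (𝓞 Ω) (γ • a) := by
    intro a
    rw [hg1, mul_smul, hres]
    exact smul_algebraMap h (γ • a)
  have hmap : Q = Q.map (MulSemiringAction.toRingEquiv Gal(Ω/K) (𝓞 Ω) g1 : 𝓞 Ω →+* 𝓞 Ω) := by
    conv_lhs => rw [← hg1Q]
    rw [Ideal.pointwise_smul_def]
    rfl
  let σ : (𝓞 Ω ⧸ Q) ≃ₐ[𝓞 L ⧸ P] (𝓞 Ω ⧸ Q) :=
    AlgEquiv.ofRingEquiv (f := Ideal.quotientEquiv Q Q
      (MulSemiringAction.toRingEquiv Gal(Ω/K) (𝓞 Ω) g1) hmap) (by
      intro a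
      obtain ⟨a, rfl⟩ := Ideal.Quotient.mk_surjective a
      show Ideal.Quotient.mk Q (g1 • algebraMap (𝓞 L) (𝓞 Ω) a) =
        Ideal.Quotient.mk Q (algebraMap (𝓞 L) (𝓞 Ω) a)
      rw [Ideal.Quotient.mk_eq_mk_iff_sub_mem, hres1, ← map_sub, hmemP]
      exact hγ a)
  obtain ⟨k, hk⟩ := Ideal.Quotient.stabilizerHom_surjective_of_profinite
    (G := L.fixingSubgroup) P Q σ
  have hk' : ∀ x : 𝓞 Ω, g1 • x - k.1.1 • x ∈ Q := by
    intro x
    have h1 := DFunLike.congr_fun hk (Ideal.Quotient.mk Q x)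
    rw [Ideal.Quotient.stabilizerHom_apply] at h1
    rw [← Ideal.Quotient.mk_eq_mk_iff_sub_mem]
    exact h1.symm
  obtain ⟨k1, hkU, hkQ, hk'⟩ : ∃ k1 : Gal(Ω/K), k1 ∈ L.fixingSubgroup ∧ k1 • Q = Q ∧
      ∀ x : 𝓞 Ω, g1 • x - k1 • x ∈ Q := ⟨k.1.1, k.1.2, k.2, hk'⟩
  have hτ : ∀ x : 𝓞 Ω, (k1⁻¹ * g1) • x - x ∈ Q := by
    intro x
    have h1 := hk' x
    rw [← hkQ, Ideal.mem_pointwise_smul_iff_inv_smul_mem, smul_sub, inv_smul_smul,
      ← mul_smul] at h1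
    exact h1
  have h5 : (k1⁻¹ * g1) ∈ L.fixingSubgroup := hI Q hQm _ hτ
  have h6 : g0 ∈ L.fixingSubgroup := by
    have h7 : g0 = h.1⁻¹ * (k1 * (k1⁻¹ * g1)) := by rw [hg1]; group
    rw [h7]
    exact mul_mem (inv_mem h.2) (mul_mem hkU h5)
  rw [IntermediateField.mem_fixingSubgroup_iff] at h6
  rw [← hg0]
  ext x
  have h7 := AlgEquiv.restrictNormal_commutes g0 L x
  have h8 := h6 _ x.2
  exact congrArg _ (Subtype.ext (h7.trans h8))

end Pool.Agent.H516.BR
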