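import Pool.Agent.H516.UHerb

/-! Invariant ideals of an unramified extension come from the base. -/

set_option autoImplicit false
set_option linter.unusedSectionVars false

namespace Pool.Agent.H516.CG

open NumberField UniqueFactorizationMonoid
open scoped Pointwise

section
variable (K L : Type) [Field K] [Field L] [NumberField K] [NumberField L] [Algebra K L]

/-- all inertia groups at the finite primes are trivial -/
def Unr : Prop := ∀ Q : Ideal (𝓞 L), Q.IsMaximal → ∀ g : Gal(L/K),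
  (∀ x : 𝓞 L, g • x - x ∈ Q) → g = 1

variable {K L} [IsGalois K L]

theorem map_ne_bot {p : Ideal (𝓞 K)} (hp : p ≠ ⊥) :
    p.map (algebraMap (𝓞 K) (𝓞 L)) ≠ ⊥ := by
  rw [Ne, Ideal.map_eq_bot_iff_of_injective (FaithfulSMul.algebraMap_injective (𝓞 K) (𝓞 L))]
  exact hp

theorem count_eq_one (h : Unr K L) (Q : Ideal (𝓞 L)) [hQ : Q.IsMaximal] (p : Ideal (𝓞 K))
    [p.IsMaximal] [Q.LiesOver p] (hp : p ≠ ⊥) :
    Multiset.count Q (normalizedFactors (p.map (algebraMap (𝓞 K) (𝓞 L)))) = 1 := by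
  rw [← Ideal.IsDedekindDomain.ramificationIdx_eq_normalizedFactors_count p Q (map_ne_bot hp),
    ← Ideal.ramificationIdxIn_eq_ramificationIdx p Q Gal(L/K)]
  have hfin : Finite (𝓞 K ⧸ p) := Ideal.finiteQuotientOfFreeOfNeBot p hp
  have hfin2 : Finite p.ResidueField := inferInstance
  rw [← Ideal.card_inertia_eq_ramificationIdxIn (G := Gal(L/K)) p Q]
  rw [Subgroup.card_eq_one]
  rw [Subgroup.eq_bot_iff_forall]
  intro g hg
  exact h Q hQ g hg

theorem base_dvd (h : Unr K L) (J : Ideal (𝓞 L)) (hJ : J ≠ ⊥)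
    (hinv : ∀ g : Gal(L/K), g • J = J) (Q : Ideal (𝓞 L)) [hQ : Q.IsMaximal] (hJQ : J ≤ Q)
    (p : Ideal (𝓞 K)) [p.IsMaximal] [hQp : Q.LiesOver p] (hp : p ≠ ⊥) :
    p.map (algebraMap (𝓞 K) (𝓞 L)) ∣ J := by
  classical
  rw [dvd_iff_normalizedFactors_le_normalizedFactors (map_ne_bot hp) hJ, Multiset.le_iff_count]
  intro P
  by_cases hP : P ∈ normalizedFactors (p.map (algebraMap (𝓞 K) (𝓞 L)))
  · have hPprime : Prime P := prime_of_normalized_factor P hP
    have hPp : P.IsPrime := Ideal.isPrime_of_prime hPprime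
    have hPm : P.IsMaximal := hPp.isMaximal hPprime.ne_zero
    have hPle : p.map (algebraMap (𝓞 K) (𝓞 L)) ≤ P := Ideal.le_of_dvd (dvd_of_mem_normalizedFactors hP)
    have hPover : P.LiesOver p := by
      refine ⟨?_⟩
      have h1 : p ≤ P.under (𝓞 K) := Ideal.map_le_iff_le_comap.mp hPle
      have h2 : (P.under (𝓞 K)) ≠ ⊤ := by
        intro h3
        exact hPp.ne_top (Ideal.comap_eq_top_iff.mp h3)
      exact (Ideal.IsMaximal.eq_of_le ‹p.IsMaximal› h2 h1)
    rw [count_eq_one h P p hp]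
    obtain ⟨g, hg⟩ := Algebra.IsInvariant.exists_smul_of_under_eq (𝓞 K) (𝓞 L) Gal(L/K) Q P
      (by rw [← hQp.over, ← hPover.over])
    have h3 : J ≤ P := by
      rw [← hinv g, hg]
      exact Ideal.pointwise_smul_le_pointwise_smul_iff.mpr hJQ
    rw [Multiset.one_le_count_iff_mem]
    rw [mem_normalizedFactors_iff hJ]
    exact ⟨hPprime, Ideal.dvd_iff_le.mpr h3⟩
  · rw [Multiset.count_eq_zero.mpr hP]
    exact Nat.zero_le _

theorem smul_map (g : Gal(L/K)) (I : Ideal (𝓞 K)) :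
    g • (I.map (algebraMap (𝓞 K) (𝓞 L))) = I.map (algebraMap (𝓞 K) (𝓞 L)) := by
  rw [Ideal.pointwise_smul_def, Ideal.map_map]
  congr 1
  ext x
  exact congrArg (fun z : 𝓞 L => (z : L)) (smul_algebraMap g x)

theorem exists_base (h : Unr K L) (n : ℕ) : ∀ J : Ideal (𝓞 L), Ideal.absNorm J ≤ n → J ≠ ⊥ →
    (∀ g : Gal(L/K), g • J = J) → ∃ I : Ideal (𝓞 K), I.map (algebraMap (𝓞 K) (𝓞 L)) = J := by
  induction n with
  | zero =>
    intro J hn hJ
    have h1 := Ideal.absNorm_eq_zero_iff.mp (Nat.le_zero.mp hn)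
    exact absurd h1 hJ
  | succ n ih =>
    intro J hn hJ hinv
    by_cases htop : J = ⊤
    · exact ⟨⊤, by rw [htop, Ideal.map_top]⟩
    · obtain ⟨Q, hQ, hJQ⟩ := Ideal.exists_le_maximal J htop
      set p := Q.under (𝓞 K) with hpdef
      have hQ0 : Q ≠ ⊥ := fun h0 => hJ (le_bot_iff.mp (h0 ▸ hJQ))
      have hover : Q.LiesOver p := ⟨rfl⟩
      have hpm : p.IsMaximal := Ideal.IsMaximal.under (𝓞 K) Q
      have hp0 : p ≠ ⊥ := by
        intro h0
        exact hQ0 (Ideal.eq_bot_of_comap_eq_bot (R := 𝓞 K) h0)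
      obtain ⟨J', hJ'⟩ := base_dvd h J hJ hinv Q hJQ p hp0
      have hJ'0 : J' ≠ ⊥ := by
        rintro rfl
        rw [Ideal.mul_bot] at hJ'
        exact hJ hJ'
      have hpL : p.map (algebraMap (𝓞 K) (𝓞 L)) ≠ ⊥ := map_ne_bot hp0
      have hinv' : ∀ g : Gal(L/K), g • J' = J' := by
        intro g
        have h1 := hinv g
        rw [hJ', smul_mul', smul_map] at h1
        exact mul_left_cancel₀ hpL h1
      have hlt : Ideal.absNorm J' ≤ n := by
        have h1 : Ideal.absNorm J = Ideal.absNorm (p.map (algebraMap (𝓞 K) (𝓞 L))) *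
            Ideal.absNorm J' := by rw [hJ', map_mul]
        have h2 : Ideal.absNorm (p.map (algebraMap (𝓞 K) (𝓞 L))) ≠ 1 := by
          intro h3
          rw [Ideal.absNorm_eq_one_iff] at h3
          have h4 : p.map (algebraMap (𝓞 K) (𝓞 L)) ≤ Q := Ideal.map_le_iff_le_comap.mpr le_rfl
          rw [h3] at h4
          exact hQ.ne_top (top_le_iff.mp h4)
        have h3 : Ideal.absNorm (p.map (algebraMap (𝓞 K) (𝓞 L))) ≠ 0 := by
          rw [Ne, Ideal.absNorm_eq_zero_iff]; exact hpL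
        have h4 : 0 < Ideal.absNorm J' := Nat.pos_of_ne_zero (by
          rw [Ne, Ideal.absNorm_eq_zero_iff]; exact hJ'0)
        have h5 : 2 ≤ Ideal.absNorm (p.map (algebraMap (𝓞 K) (𝓞 L))) := by omega
        have h6 : 2 * Ideal.absNorm J' ≤ Ideal.absNorm J := by
          rw [h1]; exact Nat.mul_le_mul_right _ h5
        omega
      obtain ⟨I, hI⟩ := ih J' hlt hJ'0 hinv'
      exact ⟨p * I, by rw [Ideal.map_mul, hI, ← hJ']⟩

end

end Pool.Agent.H516.CG
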