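import Pool.Agent.H516.CG1

/-! The first inequality for cyclic unramified extensions of odd degree. -/

set_option autoImplicit false
set_option linter.unusedSectionVars false

namespace Pool.Agent.H516.CG

open NumberField UH
open scoped Pointwise nonZeroDivisors

theorem lift_hom {A : Type} [CommRing A] [IsDedekindDomain A] {G' : Type} [Group G']
    (f : (Ideal A)⁰ →* G')
    (hf : ∀ (x : A) (hx : Ideal.span {x} ∈ (Ideal A)⁰), f ⟨Ideal.span {x}, hx⟩ = 1) :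
    ∃ F : ClassGroup A →* G', ∀ I, F (ClassGroup.mk0 I) = f I := by
  have key : ∀ I J : (Ideal A)⁰, ClassGroup.mk0 I = ClassGroup.mk0 J → f I = f J := by
    intro I J h
    rw [ClassGroup.mk0_eq_mk0_iff] at h
    obtain ⟨x, y, hx, hy, h⟩ := h
    have hx' : Ideal.span {x} ∈ (Ideal A)⁰ := mem_nonZeroDivisors_iff_ne_zero.mpr (by simpa using hx)
    have hy' : Ideal.span {y} ∈ (Ideal A)⁰ := mem_nonZeroDivisors_iff_ne_zero.mpr (by simpa using hy)
    have h2 : (⟨Ideal.span {x}, hx'⟩ : (Ideal A)⁰) * I = ⟨Ideal.span {y}, hy'⟩ * J :=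
      Subtype.ext h
    have h3 := congrArg f h2
    rw [map_mul, map_mul, hf, hf, one_mul, one_mul] at h3
    exact h3
  choose rep hrep using (ClassGroup.mk0_surjective (R := A))
  refine ⟨MonoidHom.mk' (fun c => f (rep c)) fun a b => ?_, fun I => key _ _ (hrep _)⟩
  rw [← map_mul]
  apply key
  rw [map_mul, hrep, hrep, hrep]

section
variable {K L : Type} [Field K] [Field L] [NumberField K] [NumberField L] [Algebra K L]

theorem smul_span (g : Gal(L/K)) (x : 𝓞 L) : g • Ideal.span {x} = Ideal.span {g • x} := by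
  rw [Ideal.pointwise_smul_def, Ideal.map_span, Set.image_singleton]
  rfl

theorem smul_ne_bot (g : Gal(L/K)) {J : Ideal (𝓞 L)} (hJ : J ≠ ⊥) : g • J ≠ ⊥ := by
  intro h
  apply hJ
  rw [← inv_smul_smul g J, h]
  rw [Ideal.pointwise_smul_def, Ideal.map_bot]

theorem prod_smul_smul (σ : Gal(L/K)) (x : 𝓞 L) :
    ∏ g : Gal(L/K), g • (σ • x) = ∏ g : Gal(L/K), g • x := by
  rw [← Equiv.prod_comp (Equiv.mulRight σ) (fun g : Gal(L/K) => g • x)]
  exact Finset.prod_congr rfl fun g _ => (mul_smul g σ x).symm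

theorem smul_prod_smul (σ : Gal(L/K)) (x : 𝓞 L) :
    σ • ∏ g : Gal(L/K), g • x = ∏ g : Gal(L/K), g • x := by
  rw [Finset.smul_prod', ← Equiv.prod_comp (Equiv.mulLeft σ) (fun g : Gal(L/K) => g • x)]
  exact Finset.prod_congr rfl fun g _ => (mul_smul σ g x).symm

theorem prod_smul_smul_ideal (σ : Gal(L/K)) (J : Ideal (𝓞 L)) :
    ∏ g : Gal(L/K), g • (σ • J) = ∏ g : Gal(L/K), g • J := by
  rw [← Equiv.prod_comp (Equiv.mulRight σ) (fun g : Gal(L/K) => g • J)]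
  exact Finset.prod_congr rfl fun g _ => (mul_smul g σ J).symm

theorem smul_ne_zero'' (g : Gal(L/K)) {x : 𝓞 L} (hx : x ≠ 0) : g • x ≠ 0 := by
  intro h
  apply hx
  rw [← inv_smul_smul g x, h, smul_zero]

theorem prod_ne_zero' {x : 𝓞 L} (hx : x ≠ 0) : ∏ g : Gal(L/K), g • x ≠ 0 :=
  Finset.prod_ne_zero_iff.mpr fun g _ => smul_ne_zero'' g hx

variable [IsGalois K L]

theorem coe_prod_smul (x : 𝓞 L) :
    ((∏ g : Gal(L/K), g • x : 𝓞 L) : L) = algebraMap K L (Algebra.norm K (x : L)) := by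
  rw [Algebra.norm_eq_prod_automorphisms]
  exact map_prod (algebraMap (𝓞 L) L) _ _

theorem h90 (σ : Gal(L/K)) (hσ : ∀ g : Gal(L/K), g ∈ Subgroup.zpowers σ) (x y : 𝓞 L)
    (hx : x ≠ 0) (hy : y ≠ 0)
    (h : ∏ g : Gal(L/K), g • x = ∏ g : Gal(L/K), g • y) :
    ∃ β : 𝓞 L, β ≠ 0 ∧ y * (σ • β) = x * β := by
  have hcyc : IsCyclic Gal(L/K) := ⟨σ, hσ⟩
  have hx' : (x : L) ≠ 0 := by simpa using hx
  have hy' : (y : L) ≠ 0 := by simpa using hy
  have h1 : Algebra.norm K ((y : L) / (x : L)) = 1 := by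
    have h2 : Algebra.norm K (x : L) = Algebra.norm K (y : L) := by
      apply (algebraMap K L).injective
      rw [← coe_prod_smul, ← coe_prod_smul, h]
    have h3 : Algebra.norm K ((y : L) / (x : L)) * Algebra.norm K (x : L) =
        Algebra.norm K (y : L) := by
      rw [← map_mul, div_mul_cancel₀ _ hx']
    rw [h2] at h3
    have h4 : Algebra.norm K (y : L) ≠ 0 := by
      rw [Ne, Algebra.norm_eq_zero_iff]
      exact hy'
    exact mul_right_cancel₀ h4 (h3.trans (one_mul _).symm)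
  obtain ⟨b, hb⟩ := groupCohomology.exists_div_of_norm_eq_one hσ h1
  have hbz : (b : L) ≠ 0 := b.ne_zero
  have hbs : σ (b : L) ≠ 0 := by
    intro h2
    exact hbz ((map_eq_zero σ).mp h2)
  have halg : IsAlgebraic ℤ (b : L) :=
    (IsFractionRing.isAlgebraic_iff ℤ ℚ L).mpr (Algebra.IsAlgebraic.isAlgebraic (b : L))
  obtain ⟨d, hd, hz⟩ := halg.exists_integral_multiple
  have hd' : ((d : ℤ) : L) ≠ 0 := by exact_mod_cast hd
  have hzi : IsIntegral ℤ ((b : L) * (d : L)) := by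
    rw [zsmul_eq_mul] at hz
    rwa [mul_comm]
  refine ⟨⟨(b : L) * (d : L), hzi⟩, ?_, ?_⟩
  · intro h0
    have h1 : ((⟨(b : L) * (d : L), hzi⟩ : 𝓞 L) : L) = 0 := by rw [h0]; rfl
    exact mul_ne_zero hbz hd' h1
  · apply RingOfIntegers.ext
    show (y : L) * σ ((b : L) * (d : L)) = (x : L) * ((b : L) * (d : L))
    rw [map_mul, map_intCast]
    rw [div_eq_div_iff hbs hx'] at hb
    linear_combination (-(d : L)) * hb

/-- the relation between an ambiguous class and a unit -/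
def RR (σ : Gal(L/K)) (c : ClassGroup (𝓞 L)) (ε : (𝓞 L)ˣ) : Prop :=
  ∃ (J : (Ideal (𝓞 L))⁰) (x y : 𝓞 L), x ≠ 0 ∧ y ≠ 0 ∧ ClassGroup.mk0 J = c ∧
    Ideal.span {x} * (σ • J.1) = Ideal.span {y} * J.1 ∧
    ∏ g : Gal(L/K), g • y = ε * ∏ g : Gal(L/K), g • x

theorem RR_mul {σ : Gal(L/K)} {c c' : ClassGroup (𝓞 L)} {ε ε' : (𝓞 L)ˣ}
    (h : RR σ c ε) (h' : RR σ c' ε') : RR σ (c * c') (ε * ε') := by
  obtain ⟨J, x, y, hx, hy, hJ, h1, h2⟩ := h
  obtain ⟨J', x', y', hx', hy', hJ', h1', h2'⟩ := h'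
  refine ⟨J * J', x * x', y * y', mul_ne_zero hx hx', mul_ne_zero hy hy', ?_, ?_, ?_⟩
  · rw [map_mul, hJ, hJ']
  · have e1 : ((J * J' : (Ideal (𝓞 L))⁰) : Ideal (𝓞 L)) = J.1 * J'.1 := rfl
    rw [e1, smul_mul', ← Ideal.span_singleton_mul_span_singleton,
      ← Ideal.span_singleton_mul_span_singleton]
    calc Ideal.span {x} * Ideal.span {x'} * (σ • J.1 * σ • J'.1)
        = (Ideal.span {x} * σ • J.1) * (Ideal.span {x'} * σ • J'.1) := by ring
      _ = (Ideal.span {y} * J.1) * (Ideal.span {y'} * J'.1) := by rw [h1, h1']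
      _ = _ := by ring
  · have e1 : ∏ g : Gal(L/K), g • (y * y') = (∏ g : Gal(L/K), g • y) * ∏ g : Gal(L/K), g • y' := by
      rw [← Finset.prod_mul_distrib]
      exact Finset.prod_congr rfl fun g _ => smul_mul' g y y'
    have e2 : ∏ g : Gal(L/K), g • (x * x') = (∏ g : Gal(L/K), g • x) * ∏ g : Gal(L/K), g • x' := by
      rw [← Finset.prod_mul_distrib]
      exact Finset.prod_congr rfl fun g _ => smul_mul' g x x'
    rw [e1, e2, h2, h2']
    push_cast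
    ring

theorem RR_inv {σ : Gal(L/K)} {c : ClassGroup (𝓞 L)} {ε : (𝓞 L)ˣ}
    (h : RR σ c ε) : RR σ c⁻¹ ε⁻¹ := by
  obtain ⟨J, x, y, hx, hy, hJ, h1, h2⟩ := h
  obtain ⟨J', hJ'⟩ := ClassGroup.mk0_surjective c⁻¹
  have h3 : ClassGroup.mk0 J' = (ClassGroup.mk0 J)⁻¹ := by rw [hJ', hJ]
  rw [ClassGroup.mk0_eq_mk0_inv_iff] at h3
  obtain ⟨z, hz, h3⟩ := h3
  have hJ0 : J.1 ≠ ⊥ := mem_nonZeroDivisors_iff_ne_zero.mp J.2
  have hsJ0 : σ • J.1 ≠ ⊥ := smul_ne_bot σ hJ0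
  have hz' : σ • z ≠ 0 := smul_ne_zero'' σ hz
  have h3' : σ • J'.1 * σ • J.1 = Ideal.span {σ • z} := by
    rw [← smul_mul', h3, smul_span]
  refine ⟨J', y * z, x * (σ • z), mul_ne_zero hy hz, mul_ne_zero hx hz', hJ', ?_, ?_⟩
  · have h4 : (J.1 * (σ • J.1)) * (Ideal.span {y * z} * σ • J'.1) =
        (J.1 * (σ • J.1)) * (Ideal.span {x * (σ • z)} * J'.1) := by
      rw [← Ideal.span_singleton_mul_span_singleton, ← Ideal.span_singleton_mul_span_singleton,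
        ← h3, ← h3']
      calc J.1 * σ • J.1 * (Ideal.span {y} * (J'.1 * J.1) * σ • J'.1)
          = (Ideal.span {y} * J.1) * (J'.1 * J.1 * (σ • J.1 * σ • J'.1)) := by ring
        _ = (Ideal.span {x} * σ • J.1) * (J'.1 * J.1 * (σ • J.1 * σ • J'.1)) := by rw [h1]
        _ = _ := by ring
    exact mul_left_cancel₀ (mul_ne_zero hJ0 hsJ0) h4
  · have e1 : ∏ g : Gal(L/K), g • (x * (σ • z)) =
        (∏ g : Gal(L/K), g • x) * ∏ g : Gal(L/K), g • z := by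
      rw [← prod_smul_smul σ z, ← Finset.prod_mul_distrib]
      exact Finset.prod_congr rfl fun g _ => smul_mul' g x (σ • z)
    have e2 : ∏ g : Gal(L/K), g • (y * z) = (∏ g : Gal(L/K), g • y) * ∏ g : Gal(L/K), g • z := by
      rw [← Finset.prod_mul_distrib]
      exact Finset.prod_congr rfl fun g _ => smul_mul' g y z
    rw [e1, e2, h2]
    have e3 : ((ε⁻¹ : (𝓞 L)ˣ) : 𝓞 L) * (ε : 𝓞 L) = 1 := Units.inv_mul ε
    linear_combination (-(∏ g : Gal(L/K), g • x) * ∏ g : Gal(L/K), g • z) * e3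

theorem coe_ua (g : Gal(L/K)) (u : (𝓞 L)ˣ) : ((ua K L g u : (𝓞 L)ˣ) : 𝓞 L) = g • (u : 𝓞 L) := rfl

theorem coe_uN (u : (𝓞 L)ˣ) : ((uN K L u : (𝓞 L)ˣ) : 𝓞 L) = ∏ g : Gal(L/K), g • (u : 𝓞 L) := by
  rw [uN_apply, Units.coe_prod]
  rfl

theorem inv_of_gen {σ : Gal(L/K)} (hσ : ∀ g : Gal(L/K), g ∈ Subgroup.zpowers σ)
    {J : Ideal (𝓞 L)} (h : σ • J = J) (g : Gal(L/K)) : g • J = J := by
  have h1 : σ ∈ MulAction.stabilizer Gal(L/K) J := h
  obtain ⟨k, rfl⟩ := hσ g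
  exact Subgroup.zpow_mem _ h1 k

theorem RR_range (hur : Unr K L) {σ : Gal(L/K)} (hσ : ∀ g : Gal(L/K), g ∈ Subgroup.zpowers σ)
    {c : ClassGroup (𝓞 L)} {ε : (𝓞 L)ˣ} (h : RR σ c ε) (hε : ε ∈ (uN K L).range) :
    c ∈ (ClassGroup.extendedHom (𝓞 K) (𝓞 L)).range := by
  obtain ⟨J, x, y, hx, hy, hJ, h1, h2⟩ := h
  obtain ⟨η, rfl⟩ := hε
  have h3 : ∏ g : Gal(L/K), g • ((η : 𝓞 L) * x) = ∏ g : Gal(L/K), g • y := by
    rw [h2, coe_uN, ← Finset.prod_mul_distrib]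
    exact Finset.prod_congr rfl fun g _ => smul_mul' g _ _
  obtain ⟨β, hβ, h4⟩ := h90 σ hσ ((η : 𝓞 L) * x) y (mul_ne_zero η.ne_zero hx) hy h3
  have hJ0 : J.1 ≠ ⊥ := mem_nonZeroDivisors_iff_ne_zero.mp J.2
  have hsx : Ideal.span {x} ≠ ⊥ := by simpa using hx
  have hI0 : Ideal.span {β} * J.1 ≠ ⊥ := mul_ne_zero (by simpa using hβ) hJ0
  have h5 : σ • (Ideal.span {β} * J.1) = Ideal.span {β} * J.1 := by
    apply mul_left_cancel₀ hsx
    rw [smul_mul', smul_span]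
    have hη : Ideal.span {(η : 𝓞 L)} = (1 : Ideal (𝓞 L)) := by
      rw [Ideal.one_eq_top, Ideal.span_singleton_eq_top]; exact η.isUnit
    calc Ideal.span {x} * (Ideal.span {σ • β} * σ • J.1)
        = Ideal.span {σ • β} * (Ideal.span {x} * σ • J.1) := by ring
      _ = Ideal.span {σ • β} * (Ideal.span {y} * J.1) := by rw [h1]
      _ = Ideal.span {y * σ • β} * J.1 := by
          rw [← Ideal.span_singleton_mul_span_singleton]; ring
      _ = Ideal.span {(η : 𝓞 L) * x * β} * J.1 := by rw [h4]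
      _ = Ideal.span {x} * (Ideal.span {β} * J.1) := by
          rw [← Ideal.span_singleton_mul_span_singleton, ← Ideal.span_singleton_mul_span_singleton,
            hη]
          ring
  obtain ⟨I, hI⟩ := exists_base hur _ _ le_rfl hI0 (inv_of_gen hσ h5)
  have hI1 : I ≠ ⊥ := by
    rintro rfl
    rw [Ideal.map_bot] at hI
    exact hI0 hI.symm
  refine ⟨ClassGroup.mk0 ⟨I, mem_nonZeroDivisors_iff_ne_zero.mpr hI1⟩, ?_⟩
  rw [ClassGroup.extendedHom_mk0, ← hJ]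
  symm
  rw [ClassGroup.mk0_eq_mk0_iff]
  refine ⟨β, 1, hβ, one_ne_zero, ?_⟩
  show Ideal.span {β} * J.1 = Ideal.span {1} * (I.map (algebraMap (𝓞 K) (𝓞 L)))
  rw [hI, Ideal.span_singleton_one, Ideal.top_mul]

end

end Pool.Agent.H516.CG
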