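import Pool.Agent.H516.CG2

/-! The first inequality for cyclic unramified extensions of odd degree. -/

set_option autoImplicit false
set_option linter.unusedSectionVars false

namespace Pool.Agent.H516.CG

open NumberField UH
open scoped Pointwise nonZeroDivisors

section
variable {K L : Type} [Field K] [Field L] [NumberField K] [NumberField L] [Algebra K L]

theorem smul_mem_nz (g : Gal(L/K)) (J : (Ideal (𝓞 L))⁰) : g • J.1 ∈ (Ideal (𝓞 L))⁰ :=
  mem_nonZeroDivisors_iff_ne_zero.mpr (smul_ne_bot g (mem_nonZeroDivisors_iff_ne_zero.mp J.2))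

theorem exists_sig (σ : Gal(L/K)) : ∃ s : ClassGroup (𝓞 L) →* ClassGroup (𝓞 L),
    ∀ J : (Ideal (𝓞 L))⁰, s (ClassGroup.mk0 J) = ClassGroup.mk0 ⟨σ • J.1, smul_mem_nz σ J⟩ := by
  let f : (Ideal (𝓞 L))⁰ →* ClassGroup (𝓞 L) :=
    { toFun := fun J => ClassGroup.mk0 ⟨σ • J.1, smul_mem_nz σ J⟩
      map_one' := by
        have : (⟨σ • ((1 : (Ideal (𝓞 L))⁰) : Ideal (𝓞 L)), smul_mem_nz σ 1⟩ : (Ideal (𝓞 L))⁰) = 1 :=
          Subtype.ext (smul_one σ)
        rw [this, map_one]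
      map_mul' := by
        intro I J
        rw [← map_mul]
        congr 1
        exact Subtype.ext (smul_mul' σ I.1 J.1) }
  refine lift_hom f ?_
  intro x hx
  show ClassGroup.mk0 ⟨σ • Ideal.span {x}, _⟩ = 1
  rw [ClassGroup.mk0_eq_one_iff]
  exact ⟨⟨σ • x, smul_span σ x⟩⟩

theorem relNorm_mem_nz (J : (Ideal (𝓞 L))⁰) : Ideal.relNorm (𝓞 K) J.1 ∈ (Ideal (𝓞 K))⁰ :=
  mem_nonZeroDivisors_iff_ne_zero.mpr fun h =>
    mem_nonZeroDivisors_iff_ne_zero.mp J.2 (Ideal.relNorm_eq_bot_iff.mp h)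

variable (K L) in
theorem exists_nm : ∃ N : ClassGroup (𝓞 L) →* ClassGroup (𝓞 K),
    ∀ J : (Ideal (𝓞 L))⁰, N (ClassGroup.mk0 J) =
      ClassGroup.mk0 ⟨Ideal.relNorm (𝓞 K) J.1, relNorm_mem_nz J⟩ := by
  let f : (Ideal (𝓞 L))⁰ →* ClassGroup (𝓞 K) :=
    { toFun := fun J => ClassGroup.mk0 ⟨Ideal.relNorm (𝓞 K) J.1, relNorm_mem_nz J⟩
      map_one' := by
        have : (⟨Ideal.relNorm (𝓞 K) ((1 : (Ideal (𝓞 L))⁰) : Ideal (𝓞 L)), relNorm_mem_nz 1⟩ :
            (Ideal (𝓞 K))⁰) = 1 :=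
          Subtype.ext (map_one _)
        rw [this, map_one]
      map_mul' := by
        intro I J
        rw [← map_mul]
        congr 1
        exact Subtype.ext (map_mul _ I.1 J.1) }
  refine lift_hom f ?_
  intro x hx
  show ClassGroup.mk0 ⟨Ideal.relNorm (𝓞 K) (Ideal.span {x}), _⟩ = 1
  rw [ClassGroup.mk0_eq_one_iff]
  exact ⟨⟨_, Ideal.relNorm_singleton (𝓞 K) x⟩⟩

variable (K L) in
/-- the norm on ideal classes -/
noncomputable def nmH : ClassGroup (𝓞 L) →* ClassGroup (𝓞 K) := (exists_nm K L).choose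

theorem nmH_mk0 (J : (Ideal (𝓞 L))⁰) : nmH K L (ClassGroup.mk0 J) =
    ClassGroup.mk0 ⟨Ideal.relNorm (𝓞 K) J.1, relNorm_mem_nz J⟩ := (exists_nm K L).choose_spec J

variable [IsGalois K L]

theorem exists_RR (σ : Gal(L/K)) {s : ClassGroup (𝓞 L) →* ClassGroup (𝓞 L)}
    (hs : ∀ J : (Ideal (𝓞 L))⁰, s (ClassGroup.mk0 J) = ClassGroup.mk0 ⟨σ • J.1, smul_mem_nz σ J⟩)
    {c : ClassGroup (𝓞 L)} (hc : s c = c) : ∃ ε : (𝓞 L)ˣ, ε ∈ (uD K L σ).ker ∧ RR σ c ε := by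
  obtain ⟨J, rfl⟩ := ClassGroup.mk0_surjective c
  rw [hs, ClassGroup.mk0_eq_mk0_iff] at hc
  obtain ⟨x, y, hx, hy, h1⟩ := hc
  have h1' : Ideal.span {x} * (σ • J.1) = Ideal.span {y} * J.1 := h1
  have hJ0 : J.1 ≠ ⊥ := mem_nonZeroDivisors_iff_ne_zero.mp J.2
  have hP : ∏ g : Gal(L/K), g • J.1 ≠ 0 :=
    Finset.prod_ne_zero_iff.mpr fun g _ => smul_ne_bot g hJ0
  have h2 : ∏ g : Gal(L/K), g • (Ideal.span {x} * (σ • J.1)) =
      ∏ g : Gal(L/K), g • (Ideal.span {y} * J.1) := by rw [h1']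
  have e1 : ∀ z : 𝓞 L, ∏ g : Gal(L/K), g • Ideal.span {z} =
      Ideal.span {∏ g : Gal(L/K), g • z} := by
    intro z
    rw [← Ideal.prod_span_singleton]
    exact Finset.prod_congr rfl fun g _ => smul_span g z
  have e2 : ∀ A B : Ideal (𝓞 L), ∏ g : Gal(L/K), g • (A * B) =
      (∏ g : Gal(L/K), g • A) * ∏ g : Gal(L/K), g • B := by
    intro A B
    rw [← Finset.prod_mul_distrib]
    exact Finset.prod_congr rfl fun g _ => smul_mul' g A B
  rw [e2, e2, e1, e1, prod_smul_smul_ideal] at h2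
  have h3 := mul_right_cancel₀ hP h2
  rw [Ideal.span_singleton_eq_span_singleton] at h3
  obtain ⟨ε, hε⟩ := h3
  refine ⟨ε, ?_, J, x, y, hx, hy, rfl, h1', by rw [← hε, mul_comm]⟩
  rw [MonoidHom.mem_ker, uD_apply, div_eq_one]
  apply Units.ext
  rw [coe_ua]
  have h4 : σ • ((∏ g : Gal(L/K), g • x) * (ε : 𝓞 L)) = (∏ g : Gal(L/K), g • x) * (ε : 𝓞 L) := by
    rw [hε, smul_prod_smul]
  rw [smul_mul', smul_prod_smul] at h4
  exact mul_left_cancel₀ (prod_ne_zero' hx) h4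

/-- the capitulation kernel is large -/
theorem ker_ge (hur : Unr K L) {σ : Gal(L/K)} (hσ : ∀ g : Gal(L/K), g ∈ Subgroup.zpowers σ) :
    (uD K L σ).range.relIndex (uN K L).ker ≠ 0 ∧ (uD K L σ).range.relIndex (uN K L).ker ≤
      Nat.card (ClassGroup.extendedHom (𝓞 K) (𝓞 L)).ker := by
  -- choose
  have key : ∀ ε : (uN K L).ker, ∃ (β : 𝓞 L) (I : (Ideal (𝓞 K))⁰), β ≠ 0 ∧
      ((ε : (𝓞 L)ˣ) : 𝓞 L) * (σ • β) = β ∧ I.1.map (algebraMap (𝓞 K) (𝓞 L)) = Ideal.span {β} := by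
    intro ε
    have h1 : ∏ g : Gal(L/K), g • (1 : 𝓞 L) = ∏ g : Gal(L/K), g • ((ε : (𝓞 L)ˣ) : 𝓞 L) := by
      rw [← coe_uN]
      have := ε.2
      rw [MonoidHom.mem_ker] at this
      rw [this]
      simp
    obtain ⟨β, hβ, h2⟩ := h90 σ hσ (1 : 𝓞 L) ((ε : (𝓞 L)ˣ) : 𝓞 L) one_ne_zero
      (Units.ne_zero _) h1
    rw [one_mul] at h2
    have h3 : σ • Ideal.span {β} = Ideal.span {β} := by
      rw [smul_span, Ideal.span_singleton_eq_span_singleton]
      exact ⟨(ε : (𝓞 L)ˣ), by rw [mul_comm]; exact h2⟩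
    have h4 : Ideal.span {β} ≠ ⊥ := by simpa using hβ
    obtain ⟨I, hI⟩ := exists_base hur _ _ le_rfl h4 (inv_of_gen hσ h3)
    have hI0 : I ≠ ⊥ := by
      rintro rfl
      rw [Ideal.map_bot] at hI
      exact h4 hI.symm
    exact ⟨β, ⟨I, mem_nonZeroDivisors_iff_ne_zero.mpr hI0⟩, hβ, h2, hI⟩
  choose β I hβ h1 h2 using key
  set j := ClassGroup.extendedHom (𝓞 K) (𝓞 L) with hj
  have hker : ∀ ε, ClassGroup.mk0 (I ε) ∈ j.ker := by
    intro ε
    rw [MonoidHom.mem_ker, hj, ClassGroup.extendedHom_mk0, ClassGroup.mk0_eq_one_iff]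
    exact ⟨⟨β ε, h2 ε⟩⟩
  let F : (uN K L).ker ⧸ ((uD K L σ).range.subgroupOf (uN K L).ker) → j.ker :=
    fun q => ⟨ClassGroup.mk0 (I q.out), hker _⟩
  have hF : Function.Injective F := by
    intro q q' hqq
    have h3 : ClassGroup.mk0 (I q.out) = ClassGroup.mk0 (I q'.out) :=
      congrArg (fun z : j.ker => (z : ClassGroup (𝓞 K))) hqq
    rw [ClassGroup.mk0_eq_mk0_iff] at h3
    obtain ⟨a, b, ha, hb, hab⟩ := h3
    set ε := q.out with hε
    set ε' := q'.out with hε'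
    have ha' : algebraMap (𝓞 K) (𝓞 L) a ≠ 0 := by
      rw [Ne, FaithfulSMul.algebraMap_eq_zero_iff]; exact ha
    have hb' : algebraMap (𝓞 K) (𝓞 L) b ≠ 0 := by
      rw [Ne, FaithfulSMul.algebraMap_eq_zero_iff]; exact hb
    have h4 : Ideal.span {algebraMap (𝓞 K) (𝓞 L) a * β ε} =
        Ideal.span {algebraMap (𝓞 K) (𝓞 L) b * β ε'} := by
      have := congrArg (Ideal.map (algebraMap (𝓞 K) (𝓞 L))) hab
      rw [Ideal.map_mul, Ideal.map_mul, h2, h2, Ideal.map_span, Ideal.map_span,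
        Set.image_singleton, Set.image_singleton, Ideal.span_singleton_mul_span_singleton,
        Ideal.span_singleton_mul_span_singleton] at this
      exact this
    rw [Ideal.span_singleton_eq_span_singleton] at h4
    obtain ⟨η, hη⟩ := h4
    -- `a β η = b β'`
    have h5 : algebraMap (𝓞 K) (𝓞 L) a * (σ • β ε) * (σ • (η : 𝓞 L)) =
        algebraMap (𝓞 K) (𝓞 L) b * (σ • β ε') := by
      have := congrArg (fun z => σ • z) hη
      simp only [smul_mul', smul_algebraMap] at this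
      exact this
    have hσβ : σ • β ε ≠ 0 := smul_ne_zero'' σ (hβ ε)
    have hσβ' : σ • β ε' ≠ 0 := smul_ne_zero'' σ (hβ ε')
    -- `ε η⁻¹... `
    have h6 : ((ε : (𝓞 L)ˣ) : 𝓞 L) * (η : 𝓞 L) = ((ε' : (𝓞 L)ˣ) : 𝓞 L) * (σ • (η : 𝓞 L)) := by
      have h7 : (algebraMap (𝓞 K) (𝓞 L) a * (σ • β ε)) * (((ε : (𝓞 L)ˣ) : 𝓞 L) * (η : 𝓞 L)) =
          (algebraMap (𝓞 K) (𝓞 L) a * (σ • β ε)) * (((ε' : (𝓞 L)ˣ) : 𝓞 L) * (σ • (η : 𝓞 L))) := by
        calc (algebraMap (𝓞 K) (𝓞 L) a * (σ • β ε)) * (((ε : (𝓞 L)ˣ) : 𝓞 L) * (η : 𝓞 L))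
            = algebraMap (𝓞 K) (𝓞 L) a * (((ε : (𝓞 L)ˣ) : 𝓞 L) * (σ • β ε)) * (η : 𝓞 L) := by ring
          _ = algebraMap (𝓞 K) (𝓞 L) b * β ε' := by rw [h1, hη]
          _ = algebraMap (𝓞 K) (𝓞 L) b * (((ε' : (𝓞 L)ˣ) : 𝓞 L) * (σ • β ε')) := by rw [h1]
          _ = ((ε' : (𝓞 L)ˣ) : 𝓞 L) * (algebraMap (𝓞 K) (𝓞 L) b * (σ • β ε')) := by ring
          _ = ((ε' : (𝓞 L)ˣ) : 𝓞 L) * (algebraMap (𝓞 K) (𝓞 L) a * (σ • β ε) * (σ • (η : 𝓞 L))) := by rw [h5]
          _ = _ := by ring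
      exact mul_left_cancel₀ (mul_ne_zero ha' hσβ) h7
    rw [← QuotientGroup.out_eq' q, ← QuotientGroup.out_eq' q']
    rw [QuotientGroup.eq, Subgroup.mem_subgroupOf]
    refine ⟨η⁻¹, ?_⟩
    have h8 : (ε : (𝓞 L)ˣ) * η = (ε' : (𝓞 L)ˣ) * ua K L σ η := Units.ext h6
    show uD K L σ η⁻¹ = (ε : (𝓞 L)ˣ)⁻¹ * (ε' : (𝓞 L)ˣ)
    rw [uD_apply, map_inv, div_inv_eq_mul, inv_mul_eq_iff_eq_mul]
    have h9 : η = (ε : (𝓞 L)ˣ)⁻¹ * ((ε' : (𝓞 L)ˣ) * ua K L σ η) := by
      rw [← h8, inv_mul_cancel_left]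
    exact h9.trans (by rw [mul_comm (ua K L σ η), mul_assoc])
  have hfin : Finite j.ker := inferInstance
  have hfin2 : Finite ((uN K L).ker ⧸ ((uD K L σ).range.subgroupOf (uN K L).ker)) :=
    Finite.of_injective F hF
  refine ⟨?_, Nat.card_le_card_of_injective F hF⟩
  exact Nat.card_ne_zero.mpr ⟨inferInstance, hfin2⟩

/-- **the first inequality** -/
theorem first_ineq (hodd : Odd (Nat.card Gal(L/K))) (hur : Unr K L) {σ : Gal(L/K)}
    (hσ : ∀ g : Gal(L/K), g ∈ Subgroup.zpowers σ) :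
    Nat.card Gal(L/K) ≤ (nmH K L).range.index := by
  set j := ClassGroup.extendedHom (𝓞 K) (𝓞 L) with hj
  obtain ⟨s, hs⟩ := exists_sig σ
  obtain ⟨hH1, hk⟩ := ker_ge hur hσ
  obtain ⟨hH0, hh⟩ := units_herb hodd σ hσ hH1
  set H0 := (uN K L).range.relIndex (uD K L σ).ker
  set H1 := (uD K L σ).range.relIndex (uN K L).ker
  -- `c ↦ s c / c`
  let D : ClassGroup (𝓞 L) →* ClassGroup (𝓞 L) :=
    { toFun := fun c => s c / c
      map_one' := by simp
      map_mul' := fun a b => by rw [map_mul, mul_div_mul_comm] }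
  have hD : ∀ c, D c = s c / c := fun _ => rfl
  have hns : ∀ c, nmH K L (s c) = nmH K L c := by
    intro c
    obtain ⟨J, rfl⟩ := ClassGroup.mk0_surjective c
    rw [hs, nmH_mk0, nmH_mk0]
    congr 1
    exact Subtype.ext (Ideal.relNorm_smul (𝓞 K) σ J.1)
  have h1 : D.range ≤ (nmH K L).ker := by
    rintro _ ⟨c, rfl⟩
    rw [MonoidHom.mem_ker, hD, map_div, hns, div_self']
  -- the number of ambiguous classes
  have h2 : Nat.card (nmH K L).range ≤ Nat.card D.ker := by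
    have e1 : Nat.card D.ker * Nat.card D.range = Nat.card (ClassGroup (𝓞 L)) := by
      rw [← Subgroup.card_mul_index D.ker, Subgroup.index_ker]
    have e2 : Nat.card (nmH K L).ker * Nat.card (nmH K L).range = Nat.card (ClassGroup (𝓞 L)) := by
      rw [← Subgroup.card_mul_index (nmH K L).ker, Subgroup.index_ker]
    have e3 : Nat.card D.range ≤ Nat.card (nmH K L).ker :=
      Nat.card_le_card_of_injective _ (Subgroup.inclusion_injective h1)
    have e4 : 0 < Nat.card D.range := Nat.card_pos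
    refine Nat.le_of_mul_le_mul_left (?_ : Nat.card D.range * _ ≤ Nat.card D.range * _) e4
    calc Nat.card D.range * Nat.card (nmH K L).range
        ≤ Nat.card (nmH K L).ker * Nat.card (nmH K L).range := Nat.mul_le_mul_right _ e3
      _ = Nat.card D.range * Nat.card D.ker := by rw [e2, ← e1, mul_comm]
  have h3 : Nat.card D.ker ≤ Nat.card j.range * H0 := by
    have hch : ∀ c : D.ker, ∃ ε : (uD K L σ).ker, RR σ (c : ClassGroup (𝓞 L)) (ε : (𝓞 L)ˣ) := by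
      intro c
      have hc : s (c : ClassGroup (𝓞 L)) = c := by
        have := c.2
        rw [MonoidHom.mem_ker, hD] at this
        exact div_eq_one.mp this
      obtain ⟨ε, he, hR⟩ := exists_RR σ hs hc
      exact ⟨⟨ε, he⟩, hR⟩
    choose E hE using hch
    let F : D.ker ⧸ (j.range.subgroupOf D.ker) →
        (uD K L σ).ker ⧸ ((uN K L).range.subgroupOf (uD K L σ).ker) :=
      fun q => QuotientGroup.mk (E q.out)
    have hF : Function.Injective F := by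
      intro q q' hqq
      have h4 := QuotientGroup.eq.mp hqq
      rw [Subgroup.mem_subgroupOf] at h4
      have h5 : RR σ (((q.out : D.ker) : ClassGroup (𝓞 L))⁻¹ * ((q'.out : D.ker) : ClassGroup (𝓞 L)))
          (((E q.out : (uD K L σ).ker) : (𝓞 L)ˣ)⁻¹ * ((E q'.out : (uD K L σ).ker) : (𝓞 L)ˣ)) :=
        RR_mul (RR_inv (hE _)) (hE _)
      have h6 := RR_range hur hσ h5 h4
      rw [← QuotientGroup.out_eq' q, ← QuotientGroup.out_eq' q']
      rw [QuotientGroup.eq, Subgroup.mem_subgroupOf]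
      exact h6
    have hfin : Finite ((uD K L σ).ker ⧸ ((uN K L).range.subgroupOf (uD K L σ).ker)) :=
      (Nat.card_ne_zero.mp hH0).2
    have h4 : Nat.card (D.ker ⧸ (j.range.subgroupOf D.ker)) ≤ H0 :=
      Nat.card_le_card_of_injective F hF
    have h5 : Nat.card (j.range.subgroupOf D.ker) ≤ Nat.card j.range := by
      refine Nat.card_le_card_of_injective
        (fun x => (⟨((x : D.ker) : ClassGroup (𝓞 L)), Subgroup.mem_subgroupOf.mp x.2⟩ : j.range)) ?_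
      intro x y hxy
      have := congrArg (fun z : j.range => (z : ClassGroup (𝓞 L))) hxy
      exact Subtype.ext (Subtype.ext this)
    calc Nat.card D.ker = Nat.card (j.range.subgroupOf D.ker) * (j.range.subgroupOf D.ker).index :=
          (Subgroup.card_mul_index _).symm
      _ ≤ Nat.card j.range * H0 := Nat.mul_le_mul h5 h4
  have h4 : Nat.card j.ker * Nat.card j.range = Nat.card (ClassGroup (𝓞 K)) := by
    rw [← Subgroup.card_mul_index j.ker, Subgroup.index_ker]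
  have h5 : Nat.card Gal(L/K) * Nat.card (nmH K L).range ≤ Nat.card (ClassGroup (𝓞 K)) := by
    calc Nat.card Gal(L/K) * Nat.card (nmH K L).range
        ≤ Nat.card Gal(L/K) * (Nat.card j.range * H0) := Nat.mul_le_mul_left _ (h2.trans h3)
      _ = Nat.card j.range * (Nat.card Gal(L/K) * H0) := by ring
      _ ≤ Nat.card j.range * H1 := Nat.mul_le_mul_left _ hh
      _ ≤ Nat.card j.range * Nat.card j.ker := Nat.mul_le_mul_left _ hk
      _ = Nat.card (ClassGroup (𝓞 K)) := by rw [mul_comm, h4]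
  have h6 : Nat.card (nmH K L).range * (nmH K L).range.index = Nat.card (ClassGroup (𝓞 K)) :=
    Subgroup.card_mul_index _
  have h7 : 0 < Nat.card (nmH K L).range := Nat.card_pos
  refine Nat.le_of_mul_le_mul_left
    (?_ : Nat.card (nmH K L).range * _ ≤ Nat.card (nmH K L).range * _) h7
  rw [h6, mul_comm]
  exact h5

end

end Pool.Agent.H516.CG
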