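import Pool.Agent.H516.Ext
import Pool.Agent.H516.Alg3

/-!
# Characters of normal subgroups as modules over `ℤ[X]`
-/

set_option autoImplicit false

namespace Pool.Agent.H516

open Subgroup Polynomial

variable {𝔾 : Type} [Group 𝔾]

/-- the characters of `N`, written additively, with `X` acting as conjugation by `γ` -/
def Ch (_γ : 𝔾) (N : Subgroup 𝔾) : Type := Additive (N →* ℂˣ)

namespace Ch

variable {γ : 𝔾} {N : Subgroup 𝔾}

noncomputable instance : AddCommGroup (Ch γ N) := inferInstanceAs (AddCommGroup (Additive (N →* ℂˣ)))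

/-- the function of a character -/
noncomputable def val (χ : Ch γ N) (x : 𝔾) : ℂˣ := fn (Additive.toMul χ) x

/-- the character of a homomorphism -/
def mk (γ : 𝔾) (χ : N →* ℂˣ) : Ch γ N := Additive.ofMul χ

theorem val_mk (χ : N →* ℂˣ) (x : 𝔾) : (mk γ χ).val x = fn χ x := rfl

theorem ext {χ ψ : Ch γ N} (h : ∀ x ∈ N, χ.val x = ψ.val x) : χ = ψ := by
  have h1 : Additive.toMul χ = Additive.toMul ψ := by
    refine MonoidHom.ext fun x => ?_
    have h2 := h x x.2
    unfold val at h2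
    rw [fn_of _ x.2, fn_of _ x.2] at h2
    exact h2
  exact Additive.toMul.injective h1

theorem val_add (χ ψ : Ch γ N) (x : 𝔾) : (χ + ψ).val x = χ.val x * ψ.val x := by
  unfold val
  by_cases h : x ∈ N
  · rw [fn_of _ h, fn_of _ h, fn_of _ h]
    rfl
  · unfold fn
    rw [dif_neg h, dif_neg h, dif_neg h, one_mul]

theorem val_zero (x : 𝔾) : (0 : Ch γ N).val x = 1 := by
  unfold val
  by_cases h : x ∈ N
  · rw [fn_of _ h]
    rfl
  · unfold fn
    rw [dif_neg h]

theorem val_neg (χ : Ch γ N) (x : 𝔾) : (-χ).val x = (χ.val x)⁻¹ := by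
  have h := val_add χ (-χ) x
  rw [add_neg_cancel, val_zero] at h
  exact (inv_eq_of_mul_eq_one_right h.symm).symm

theorem val_sub (χ ψ : Ch γ N) (x : 𝔾) : (χ - ψ).val x = χ.val x * (ψ.val x)⁻¹ := by
  rw [sub_eq_add_neg, val_add, val_neg]

theorem val_nsmul (n : ℕ) (χ : Ch γ N) (x : 𝔾) : (n • χ).val x = χ.val x ^ n := by
  induction n with
  | zero => rw [zero_smul, val_zero, pow_zero]
  | succ n ih => rw [succ_nsmul, val_add, ih, pow_succ]

theorem val_mul (χ : Ch γ N) {x y : 𝔾} (hx : x ∈ N) (hy : y ∈ N) :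
    χ.val (x * y) = χ.val x * χ.val y := fn_mul _ hx hy

theorem val_inv (χ : Ch γ N) {x : 𝔾} (hx : x ∈ N) : χ.val x⁻¹ = (χ.val x)⁻¹ := fn_inv _ hx

variable [hN : N.Normal]

/-- conjugation -/
def cj (γ : 𝔾) (N : Subgroup 𝔾) [hN : N.Normal] : N →* N where
  toFun x := ⟨γ * x * γ⁻¹, hN.conj_mem x x.2 γ⟩
  map_one' := by
    apply Subtype.ext
    simp
  map_mul' a b := by
    apply Subtype.ext
    simp [mul_assoc]

/-- conjugation of characters -/
noncomputable def act (γ : 𝔾) (N : Subgroup 𝔾) [N.Normal] : Module.End ℤ (Ch γ N) :=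
  AddMonoidHom.toIntLinearMap
    { toFun := fun χ => mk γ ((Additive.toMul χ : N →* ℂˣ).comp (cj γ N))
      map_zero' := rfl
      map_add' := fun _ _ => rfl }

theorem val_act (χ : Ch γ N) (x : 𝔾) : (act γ N χ).val x = χ.val (γ * x * γ⁻¹) := by
  by_cases h : x ∈ N
  · have h' : γ * x * γ⁻¹ ∈ N := hN.conj_mem x h γ
    unfold val
    rw [fn_of _ h, fn_of _ h']
    rfl
  · have h' : γ * x * γ⁻¹ ∉ N := by
      intro h1
      apply h
      have h2 := hN.conj_mem _ h1 γ⁻¹
      have h3 : γ⁻¹ * (γ * x * γ⁻¹) * γ⁻¹⁻¹ = x := by group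
      rwa [h3] at h2
    unfold val fn
    rw [dif_neg h, dif_neg h']

noncomputable instance : Module ℤ[X] (Ch γ N) :=
  Module.compHom (Ch γ N) (aeval (R := ℤ) (act γ N)).toRingHom

theorem smul_def (f : ℤ[X]) (χ : Ch γ N) : f • χ = aeval (act γ N) f χ := rfl

theorem X_smul (χ : Ch γ N) : (X : ℤ[X]) • χ = act γ N χ := by
  rw [smul_def, aeval_X]

theorem val_X_pow (k : ℕ) (χ : Ch γ N) (x : 𝔾) :
    ((X : ℤ[X]) ^ k • χ).val x = χ.val (γ ^ k * x * (γ ^ k)⁻¹) := by
  induction k generalizing x with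
  | zero => simp
  | succ k ih =>
    rw [pow_succ', mul_smul, X_smul, val_act, ih]
    congr 1
    rw [pow_succ]
    group

theorem om_smul_eq_zero {p m : ℕ} {χ : Ch γ N} :
    om p m • χ = 0 ↔ ∀ x ∈ N, χ.val (γ ^ p ^ m * x * (γ ^ p ^ m)⁻¹) = χ.val x := by
  rw [om, sub_smul, one_smul, sub_eq_zero]
  constructor
  · intro h x _
    rw [← val_X_pow, h]
  · intro h
    refine ext fun x hx => ?_
    rw [val_X_pow]
    exact h x hx

theorem natCast_smul (n : ℕ) (χ : Ch γ N) : ((n : ℕ) : ℤ[X]) • χ = n • χ := by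
  rw [← Nat.cast_smul_eq_nsmul ℤ[X] n χ]

theorem C_smul (n : ℤ) (χ : Ch γ N) : (C n : ℤ[X]) • χ = n • χ := by
  rw [smul_def, aeval_C]
  rfl

/-- a subgroup stable under `X` -/
def ofStable (S : AddSubgroup (Ch γ N)) (h : ∀ χ ∈ S, act γ N χ ∈ S) : Submodule ℤ[X] (Ch γ N) :=
  { S with
    smul_mem' := by
      intro f χ hχ
      show f • χ ∈ S
      induction f using Polynomial.induction_on' with
      | add a b ha hb =>
        rw [add_smul]
        exact S.add_mem ha hb
      | monomial n a =>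
        rw [← C_mul_X_pow_eq_monomial, mul_smul, C_smul]
        refine S.zsmul_mem ?_ a
        induction n with
        | zero => simpa using hχ
        | succ n ih =>
          rw [pow_succ', mul_smul, X_smul]
          exact h _ ih }

theorem mem_ofStable {S : AddSubgroup (Ch γ N)} {h : ∀ χ ∈ S, act γ N χ ∈ S} {χ : Ch γ N} :
    χ ∈ ofStable S h ↔ χ ∈ S := Iff.rfl

/-- restriction -/
noncomputable def res {N N' : Subgroup 𝔾} [N.Normal] [N'.Normal] (h : N ≤ N') :
    Ch γ N' →ₗ[ℤ[X]] Ch γ N where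
  toFun χ := mk γ ((Additive.toMul χ : N' →* ℂˣ).comp (Subgroup.inclusion h))
  map_add' _ _ := rfl
  map_smul' f χ := by
    rw [RingHom.id_apply]
    have hadd : ∀ χ ψ : Ch γ N', mk γ ((Additive.toMul (χ + ψ) : N' →* ℂˣ).comp
        (Subgroup.inclusion h)) = mk γ ((Additive.toMul χ : N' →* ℂˣ).comp (Subgroup.inclusion h)) +
          mk γ ((Additive.toMul ψ : N' →* ℂˣ).comp (Subgroup.inclusion h)) := fun _ _ => rfl
    let r : Ch γ N' →+ Ch γ N :=
      { toFun := fun χ => mk γ ((Additive.toMul χ : N' →* ℂˣ).comp (Subgroup.inclusion h))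
        map_zero' := rfl
        map_add' := hadd }
    have hX : ∀ χ, r ((X : ℤ[X]) • χ) = (X : ℤ[X]) • r χ := fun χ => by
      rw [X_smul, X_smul]
      rfl
    show r (f • χ) = f • r χ
    induction f using Polynomial.induction_on' with
    | add a b ha hb => rw [add_smul, add_smul, map_add, ha, hb]
    | monomial n a =>
      rw [← C_mul_X_pow_eq_monomial, mul_smul, mul_smul, C_smul, C_smul, map_zsmul]
      congr 1
      induction n with
      | zero => simp
      | succ n ih => rw [pow_succ', mul_smul, mul_smul, hX, ih]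

theorem val_res {N N' : Subgroup 𝔾} [N.Normal] [N'.Normal] (h : N ≤ N') (χ : Ch γ N') {x : 𝔾}
    (hx : x ∈ N) : (res h χ).val x = χ.val x := by
  show fn _ x = fn _ x
  rw [fn_of _ hx, fn_of _ (h hx)]
  rfl

end Ch

end Pool.Agent.H516
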