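import Pool.Agent.H516.Spl

/-! Split primes in a compositum. -/

set_option autoImplicit false
set_option linter.unusedSectionVars false

namespace Pool.Agent.H516.LC

open NumberField IsDedekindDomain Filter Topology Pool.Agent.H484R2 Pool.Agent.H921R2.TatePole EP CG
open Ideal (absNorm)
open scoped nonZeroDivisors

section
variable {K : Type} [Field K] [NumberField K]

theorem nm_card (w : HeightOneSpectrum (𝓞 K)) : nm w = Nat.card (𝓞 K ⧸ w.asIdeal) := by
  unfold nm
  rw [Ideal.absNorm_apply, Submodule.cardQuot_apply]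

theorem pow_nm (w : HeightOneSpectrum (𝓞 K)) (y : 𝓞 K) : y ^ nm w - y ∈ w.asIdeal := by
  have hm : w.asIdeal.IsMaximal := w.isMaximal
  let _ : Field (𝓞 K ⧸ w.asIdeal) := Ideal.Quotient.field w.asIdeal
  have hfin : Finite (𝓞 K ⧸ w.asIdeal) := Ideal.finiteQuotientOfFreeOfNeBot _ w.ne_bot
  let _ : Fintype (𝓞 K ⧸ w.asIdeal) := Fintype.ofFinite _
  rw [← Ideal.Quotient.eq, map_pow, nm_card, Nat.card_eq_fintype_card]
  exact FiniteField.pow_card _

theorem nm_le_of_pow (w : HeightOneSpectrum (𝓞 K)) (q : ℕ) (hq : 2 ≤ q)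
    (h : ∀ y : 𝓞 K, y ^ q - y ∈ w.asIdeal) : nm w ≤ q := by
  classical
  have hm : w.asIdeal.IsMaximal := w.isMaximal
  let _ : Field (𝓞 K ⧸ w.asIdeal) := Ideal.Quotient.field w.asIdeal
  have hfin : Finite (𝓞 K ⧸ w.asIdeal) := Ideal.finiteQuotientOfFreeOfNeBot _ w.ne_bot
  let _ : Fintype (𝓞 K ⧸ w.asIdeal) := Fintype.ofFinite _
  have hdeg : (Polynomial.X ^ q - Polynomial.X : Polynomial (𝓞 K ⧸ w.asIdeal)).natDegree = q := by
    rw [Polynomial.natDegree_sub_eq_left_of_natDegree_lt, Polynomial.natDegree_X_pow]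
    rw [Polynomial.natDegree_X_pow, Polynomial.natDegree_X]
    omega
  have hne : (Polynomial.X ^ q - Polynomial.X : Polynomial (𝓞 K ⧸ w.asIdeal)) ≠ 0 := by
    intro h0
    rw [h0, Polynomial.natDegree_zero] at hdeg
    omega
  have h1 : (Finset.univ : Finset (𝓞 K ⧸ w.asIdeal)).card ≤
      (Polynomial.X ^ q - Polynomial.X : Polynomial (𝓞 K ⧸ w.asIdeal)).natDegree := by
    apply Polynomial.card_le_degree_of_subset_roots
    intro z _
    rw [Polynomial.mem_roots hne, Polynomial.IsRoot.def]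
    obtain ⟨y, rfl⟩ := Ideal.Quotient.mk_surjective z
    simp only [Polynomial.eval_sub, Polynomial.eval_pow, Polynomial.eval_X]
    rw [← map_pow, ← map_sub, Ideal.Quotient.eq_zero_iff_mem]
    exact h y
  rw [hdeg, Finset.card_univ] at h1
  rw [nm_card, Nat.card_eq_fintype_card]
  exact h1

end

section
variable {K L : Type} [Field K] [NumberField K] [Field L] [NumberField L] [Algebra K L]

theorem nm_bl_le (w : HeightOneSpectrum (𝓞 L)) : nm (bl K w) ≤ nm w := by
  have h1 := nm_eq (K := K) w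
  have h2 := two_le_nm (bl K w)
  have h3 : w.asIdeal.inertiaDeg (𝓞 K) ≠ 0 := by
    intro h
    rw [h, pow_zero] at h1
    have := two_le_nm w
    omega
  rw [h1]
  exact Nat.le_self_pow h3 _

theorem bl_bl (M : IntermediateField K L) (w : HeightOneSpectrum (𝓞 L)) :
    bl K (bl M w) = bl K w := by
  apply HeightOneSpectrum.ext
  show (w.asIdeal.under (𝓞 M)).under (𝓞 K) = w.asIdeal.under (𝓞 K)
  exact Ideal.under_under (A := 𝓞 K) (B := 𝓞 M) w.asIdeal

theorem spl_sub (M : IntermediateField K L) (v : HeightOneSpectrum (𝓞 K)) (h : SplP K L v) :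
    SplP K M v := by
  obtain ⟨w, rfl, hw⟩ := h
  refine ⟨bl M w, bl_bl M w, le_antisymm ?_ ?_⟩
  · rw [← hw]; exact nm_bl_le w
  · rw [← bl_bl M w]; exact nm_bl_le _

variable [IsGalois K L]

theorem unr_sub (hur : Unr K L) (M : IntermediateField K L) [IsGalois K M] : Unr K M := by
  intro Q hQ g hg
  obtain ⟨P, hP, hover⟩ := Ideal.exists_maximal_ideal_liesOver_of_isIntegral (S := 𝓞 L) Q
  set p := Q.under (𝓞 K) with hp
  have hQp : Q.LiesOver p := ⟨rfl⟩
  have hPp : P.LiesOver p := Ideal.LiesOver.trans P Q p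
  have hpm : p.IsMaximal := Ideal.IsMaximal.under (𝓞 K) Q
  have hQ0 : Q ≠ ⊥ := by
    intro h0
    rw [h0] at hQ
    exact Ring.ne_bot_of_isMaximal_of_not_isField hQ (RingOfIntegers.not_isField M) rfl
  have hp0 : p ≠ ⊥ := fun h => hQ0 (Ideal.eq_bot_of_comap_eq_bot (R := 𝓞 K) h)
  have hfin : Finite (𝓞 K ⧸ p) := Ideal.finiteQuotientOfFreeOfNeBot _ hp0
  have h1 : Nat.card (Ideal.inertia Gal(L/K) P) = 1 := by
    rw [Subgroup.card_eq_one, Subgroup.eq_bot_iff_forall]
    intro g hg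
    exact hur P hP g hg
  rw [Ideal.card_inertia_eq_ramificationIdxIn (G := Gal(L/K)) p P,
    Ideal.ramificationIdxIn_eq_ramificationIdx p P Gal(L/K), Ideal.ramificationIdx_tower Q P] at h1
  have h2 : Q.ramificationIdx (𝓞 K) = 1 := Nat.eq_one_of_mul_eq_one_right h1
  rw [← Ideal.ramificationIdxIn_eq_ramificationIdx p Q Gal(M/K),
    ← Ideal.card_inertia_eq_ramificationIdxIn (G := Gal(M/K)) p Q, Subgroup.card_eq_one,
    Subgroup.eq_bot_iff_forall] at h2
  exact h2 g hg

theorem exists_frob' (w : HeightOneSpectrum (𝓞 L)) :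
    ∃ φ : Gal(L/K), ∀ x : 𝓞 L, φ • x - x ^ nm (bl K w) ∈ w.asIdeal := by
  have hfin : Finite (𝓞 L ⧸ w.asIdeal) := Ideal.finiteQuotientOfFreeOfNeBot _ w.ne_bot
  obtain ⟨φ, hφ⟩ := IsArithFrobAt.exists_of_isInvariant (𝓞 K) Gal(L/K) w.asIdeal
  refine ⟨φ, fun x => ?_⟩
  rw [nm_card]
  exact hφ x

theorem spl_of_all (hur : Unr K L) {ι : Type} (M : ι → IntermediateField K L)
    [∀ i, IsGalois K (M i)] (hM : ⨅ i, (M i).fixingSubgroup = ⊥)
    (v : HeightOneSpectrum (𝓞 K)) (hv : ∀ i, SplP K (M i) v) : SplP K L v := by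
  -- a prime above
  have hvm : v.asIdeal.IsMaximal := v.isMaximal
  obtain ⟨P, hP, hover⟩ := Ideal.exists_maximal_ideal_liesOver_of_isIntegral (S := 𝓞 L) v.asIdeal
  have hP0 : P ≠ ⊥ := Ideal.ne_bot_of_liesOver_of_ne_bot v.ne_bot P
  set w : HeightOneSpectrum (𝓞 L) := ⟨P, hP.isPrime, hP0⟩ with hw
  have hbl : bl K w = v := HeightOneSpectrum.ext hover.over.symm
  obtain ⟨φ, hφ⟩ := exists_frob' (K := K) w
  rw [hbl] at hφ
  have h1 : φ = 1 := by
    have : φ ∈ ⨅ i, (M i).fixingSubgroup := by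
      rw [Subgroup.mem_iInf]
      intro i
      -- the restriction is in the inertia group
      have hui := unr_sub hur (M i)
      have h2 : AlgEquiv.restrictNormalHom (M i) φ = 1 := by
        apply hui (bl (M i) w).asIdeal (bl (M i) w).isMaximal
        intro y
        obtain ⟨w', hw', hnw'⟩ := hv i
        have h3 : bl K (bl (M i) w) = v := by rw [bl_bl, hbl]
        have h4 : nm (bl (M i) w) = nm v := by
          have h5 := deg_eq w' (bl (M i) w) (hw'.trans h3.symm)
          have h6 : w'.asIdeal.inertiaDeg (𝓞 K) = 1 :=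
            (deg_one_iff w').mp (by rw [hw']; exact hnw')
          rw [(deg_one_iff (K := K) (bl (M i) w)).mpr (h5.symm.trans h6), h3]
        have h5 := pow_nm (bl (M i) w) y
        rw [h4] at h5
        have h6 := hφ (algebraMap (𝓞 (M i)) (𝓞 L) y)
        rw [← map_pow] at h6
        have h7 : φ • (algebraMap (𝓞 (M i)) (𝓞 L) y) =
            algebraMap (𝓞 (M i)) (𝓞 L) (AlgEquiv.restrictNormalHom (M i) φ • y) := by
          apply RingOfIntegers.ext
          exact (AlgEquiv.restrictNormal_commutes φ (M i) (y : M i)).symm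
        rw [h7, ← map_sub] at h6
        have h8 : AlgEquiv.restrictNormalHom (M i) φ • y - y ^ nm v ∈ (bl (M i) w).asIdeal := h6
        have h9 := add_mem h8 h5
        rwa [sub_add_sub_cancel] at h9
      rw [IntermediateField.mem_fixingSubgroup_iff]
      intro x hx
      have h3 := AlgEquiv.restrictNormal_commutes φ (M i) ⟨x, hx⟩
      have h4 : φ.restrictNormal (M i) = 1 := h2
      rw [h4] at h3
      exact h3.symm
    rw [hM] at this
    exact Subgroup.mem_bot.mp this
  refine ⟨w, hbl, le_antisymm ?_ ?_⟩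
  · refine nm_le_of_pow w (nm v) (two_le_nm v) fun y => ?_
    have h2 := hφ y
    rw [h1, one_smul] at h2
    rw [← neg_mem_iff, neg_sub]
    exact h2
  · rw [← hbl]
    exact nm_bl_le w

end

end Pool.Agent.H516.LC
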