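import Pool.Agent.H516.Comb

/-! The degree of an abelian unramified extension of odd degree divides the class number. -/

set_option autoImplicit false
set_option linter.unusedSectionVars false

namespace Pool.Agent.H516.LC

open NumberField IsDedekindDomain Filter Topology Pool.Agent.H484R2 Pool.Agent.H921R2.TatePole EP CG
open Ideal (absNorm)
open scoped nonZeroDivisors

theorem lam_nonpos {c : ℝ} {C : ℝ} (h : ∀ᶠ x : ℝ in 𝓝[>] 1, c * Lam x ≤ C) : c ≤ 0 := by
  by_contra hc
  push Not at hc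
  have h1 : Tendsto (fun x => c * Lam x) (𝓝[>] 1) atTop := Lam_tendsto.const_mul_atTop hc
  have h2 := h1.eventually (eventually_gt_atTop C)
  obtain ⟨x, hx1, hx2⟩ := (h.and h2).exists
  linarith

theorem Bdd.const_mul {f : ℝ → ℝ} (hf : Bdd f) (c : ℝ) : Bdd fun x => c * f x := by
  obtain ⟨C, hC⟩ := hf
  refine ⟨|c| * C, ?_⟩
  filter_upwards [hC] with x hx
  rw [abs_mul]
  exact mul_le_mul_of_nonneg_left hx (abs_nonneg c)

theorem Bdd.of_le {f g : ℝ → ℝ} (hg : Bdd g) (h0 : ∀ x : ℝ, 1 < x → 0 ≤ f x)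
    (h : ∀ x : ℝ, 1 < x → f x ≤ g x) : Bdd f := by
  obtain ⟨C, hC⟩ := hg
  refine ⟨C, ?_⟩
  filter_upwards [hC, self_mem_nhdsWithin] with x hx hx1
  rw [abs_of_nonneg (h0 x hx1)]
  exact (h x hx1).trans ((le_abs_self _).trans hx)

section
variable {K : Type} [Field K] [NumberField K]

theorem PS_mono {P Q : HeightOneSpectrum (𝓞 K) → Prop} (h : ∀ v, P v → Q v) {x : ℝ} (hx : 1 < x) :
    PS P x ≤ PS Q x := by
  classical
  unfold PS
  refine Summable.tsum_le_tsum (fun v => ?_) (PS_summable P hx) (PS_summable Q hx)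
  by_cases h1 : P v
  · rw [if_pos h1, if_pos (h v h1)]
  · rw [if_neg h1]
    split_ifs
    · positivity
    · exact le_rfl

/-- the part of `Q` outside `P` -/
theorem PS_sub {P Q : HeightOneSpectrum (𝓞 K) → Prop} (h : ∀ v, P v → Q v) {x : ℝ} (hx : 1 < x) :
    PS Q x - PS P x = PS (fun v => Q v ∧ ¬ P v) x := by
  classical
  unfold PS
  rw [← (PS_summable Q hx).tsum_sub (PS_summable P hx)]
  refine tsum_congr fun v => ?_
  by_cases h1 : P v
  · simp [h1, h v h1]
  · by_cases h2 : Q v
    · simp [h1, h2]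
    · simp [h1, h2]

theorem PS_nonneg (P : HeightOneSpectrum (𝓞 K) → Prop) (x : ℝ) : 0 ≤ PS P x := by
  unfold PS
  refine tsum_nonneg fun v => ?_
  split_ifs
  · positivity
  · exact le_rfl

theorem PS_le_sum {ι : Type} [Fintype ι] {P : HeightOneSpectrum (𝓞 K) → Prop}
    {Q : ι → HeightOneSpectrum (𝓞 K) → Prop} (h : ∀ v, P v → ∃ i, Q i v) {x : ℝ} (hx : 1 < x) :
    PS P x ≤ ∑ i, PS (Q i) x := by
  classical
  unfold PS
  rw [← Summable.tsum_finsetSum fun i _ => PS_summable (Q i) hx]
  refine Summable.tsum_le_tsum (fun v => ?_) (PS_summable P hx)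
    (summable_sum fun i _ => PS_summable (Q i) hx)
  by_cases h1 : P v
  · rw [if_pos h1]
    obtain ⟨i, hi⟩ := h v h1
    refine le_trans ?_ (Finset.single_le_sum (f := fun i => if Q i v then (nm v : ℝ) ^ (-x) else 0)
      (fun j _ => by split_ifs <;> positivity) (Finset.mem_univ i))
    rw [if_pos hi]
  · rw [if_neg h1]
    exact Finset.sum_nonneg fun i _ => by split_ifs <;> positivity

/-- the cyclic case -/
theorem cyclic_case {M : Type} [Field M] [NumberField M] [Algebra K M] [IsGalois K M]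
    (hur : Unr K M) (hodd : Odd (Nat.card Gal(M/K))) (hcyc : IsCyclic Gal(M/K)) :
    (nmH K M).range.index = Nat.card Gal(M/K) ∧
    Bdd (fun x => PS (fun v => cls K (pr v) ∈ (nmH K M).range ∧ ¬ SplP K M v) x) := by
  obtain ⟨σ, hσ⟩ := hcyc
  have h1 := first_ineq hodd hur hσ
  obtain ⟨m, hm⟩ := alpha (K := K) (nmH K M).range
  have hb := beta (K := K) hur
  set N := Nat.card Gal(M/K) with hN
  set I := (nmH K M).range.index with hI
  have hN0 : 0 < N := Nat.card_pos
  have hsub : ∀ v, SplP K M v → cls K (pr v) ∈ (nmH K M).range := spl_mem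
  -- the combination
  have h2 : Bdd (fun x => ((I : ℝ) - N * (1 - (m : ℝ))) * Lam x -
      (N : ℝ) * I * (PS (SplP K M) x - PS (fun v => cls K (pr v) ∈ (nmH K M).range) x)) := by
    refine ((Bdd.const_mul hm (N : ℝ)).sub (Bdd.const_mul hb (I : ℝ))).congr fun x _ => ?_
    ring
  have h3 : (I : ℝ) - N * (1 - (m : ℝ)) ≤ 0 := by
    obtain ⟨C, hC⟩ := h2
    refine lam_nonpos (C := C) ?_
    filter_upwards [hC, self_mem_nhdsWithin] with x hx hx1
    have h4 := PS_mono hsub (show (1 : ℝ) < x from hx1)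
    have h5 : (N : ℝ) * I * (PS (SplP K M) x -
        PS (fun v => cls K (pr v) ∈ (nmH K M).range) x) ≤ 0 :=
      mul_nonpos_of_nonneg_of_nonpos (by positivity) (by linarith)
    have h6 := (abs_le.mp hx).2
    linarith
  have hI1 : (N : ℝ) ≤ I := by exact_mod_cast h1
  have hN1 : (0 : ℝ) < N := by exact_mod_cast hN0
  have hm0 : m = 0 := by
    by_contra h
    have : (1 : ℝ) ≤ m := by exact_mod_cast Nat.one_le_iff_ne_zero.mpr h
    nlinarith
  subst hm0
  have hIN : (I : ℝ) = N := by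
    apply le_antisymm _ hI1
    push_cast at h3
    linarith
  have hIN' : I = N := by exact_mod_cast hIN
  refine ⟨hIN', ?_⟩
  have h4 : Bdd (fun x => (N : ℝ) * (PS (fun v => cls K (pr v) ∈ (nmH K M).range) x -
      PS (SplP K M) x)) := by
    rw [hIN'] at hm
    refine (hm.sub hb).congr fun x _ => ?_
    push_cast
    ring
  refine (Bdd.const_mul h4 (N : ℝ)⁻¹).congr fun x hx => ?_
  rw [← PS_sub hsub hx]
  field_simp

/-- **the degree of an abelian unramified extension of odd degree divides the class number** -/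
theorem card_dvd {L : Type} [Field L] [NumberField L] [Algebra K L] [IsGalois K L]
    (hur : Unr K L) (hodd : Odd (Nat.card Gal(L/K))) (hab : ∀ a b : Gal(L/K), a * b = b * a) :
    Nat.card Gal(L/K) ∣ Nat.card (ClassGroup (𝓞 K)) := by
  classical
  let _ : CommGroup Gal(L/K) := { (inferInstance : Group Gal(L/K)) with mul_comm := hab }
  have hfinχ : Finite (Gal(L/K) →* ℂˣ) := by
    obtain ⟨e⟩ := CommGroup.monoidHom_mulEquiv_of_hasEnoughRootsOfUnity Gal(L/K) ℂ
    exact Finite.of_equiv _ e.symm.toEquiv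
  let _ : Fintype (Gal(L/K) →* ℂˣ) := Fintype.ofFinite _
  have hnorm : ∀ χ : Gal(L/K) →* ℂˣ, χ.ker.Normal := fun χ => inferInstance
  let M : (Gal(L/K) →* ℂˣ) → IntermediateField K L := fun χ => IntermediateField.fixedField χ.ker
  have hMdef : ∀ χ, M χ = IntermediateField.fixedField χ.ker := fun _ => rfl
  have hGal : ∀ χ, IsGalois K (M χ) := fun χ => IsGalois.of_fixedField_normal_subgroup χ.ker
  have hfix : ∀ χ, (M χ).fixingSubgroup = χ.ker := fun χ =>
    IntermediateField.fixingSubgroup_fixedField χ.ker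
  have hinf : ⨅ χ, (M χ).fixingSubgroup = ⊥ := by
    rw [Subgroup.eq_bot_iff_forall]
    intro g hg
    by_contra hne
    obtain ⟨χ, hχ⟩ := CommGroup.exists_apply_ne_one_of_hasEnoughRootsOfUnity Gal(L/K) ℂ hne
    have h1 : g ∈ (M χ).fixingSubgroup := (Subgroup.mem_iInf.mp hg) χ
    rw [hfix] at h1
    exact hχ h1
  have hcyc : ∀ χ, IsCyclic Gal(M χ/K) := by
    intro χ
    have e := IsGalois.normalAutEquivQuotient χ.ker
    have h1 : IsCyclic (Gal(L/K) ⧸ χ.ker) := by
      let f : (Gal(L/K) ⧸ χ.ker) →* ℂ := (Units.coeHom ℂ).comp (QuotientGroup.kerLift χ)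
      refine isCyclic_of_injective_ringHom f ?_
      exact (Units.val_injective).comp (QuotientGroup.kerLift_injective χ)
    exact isCyclic_of_surjective e e.surjective
  have hcard : ∀ χ, Nat.card Gal(M χ/K) ∣ Nat.card Gal(L/K) := by
    intro χ
    have e := IsGalois.normalAutEquivQuotient χ.ker
    rw [← Nat.card_congr e.toEquiv]
    exact Subgroup.card_quotient_dvd_card χ.ker
  have hoddχ : ∀ χ, Odd (Nat.card Gal(M χ/K)) := fun χ => hodd.of_dvd_nat (hcard χ)
  have hcc := fun χ => cyclic_case (K := K) (unr_sub hur (M χ)) (hoddχ χ) (hcyc χ)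
  set H : Subgroup (ClassGroup (𝓞 K)) := ⨅ χ, (nmH K (M χ)).range with hH
  obtain ⟨m, hm⟩ := alpha (K := K) H
  have hb := beta (K := K) hur
  have hsub : ∀ v, SplP K L v → cls K (pr v) ∈ H := by
    intro v hv
    rw [hH, Subgroup.mem_iInf]
    intro χ
    exact spl_mem v (spl_sub (M χ) v hv)
  have hrest : Bdd (fun x => PS (fun v => cls K (pr v) ∈ H) x - PS (SplP K L) x) := by
    have h1 : Bdd (fun x => ∑ χ, PS (fun v => cls K (pr v) ∈ (nmH K (M χ)).range ∧
        ¬ SplP K (M χ) v) x) := by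
      have : ∀ S : Finset (Gal(L/K) →* ℂˣ), Bdd (fun x => ∑ χ ∈ S,
          PS (fun v => cls K (pr v) ∈ (nmH K (M χ)).range ∧ ¬ SplP K (M χ) v) x) := by
        intro S
        induction S using Finset.induction_on with
        | empty =>
          refine ⟨0, ?_⟩
          filter_upwards with x
          simp
        | insert a S ha ih =>
          refine ((hcc a).2.add ih).congr fun x _ => ?_
          rw [Finset.sum_insert ha]
      exact this Finset.univ
    refine Bdd.of_le h1 (fun x hx => ?_) (fun x hx => ?_)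
    · rw [PS_sub hsub hx]
      exact PS_nonneg _ x
    · rw [PS_sub hsub hx]
      refine PS_le_sum (fun v hv => ?_) hx
      have h2 : ¬ ∀ χ, SplP K (M χ) v := fun h => hv.2 (spl_of_all hur M hinf v h)
      push Not at h2
      obtain ⟨χ, hχ⟩ := h2
      exact ⟨χ, (Subgroup.mem_iInf.mp hv.1) χ, hχ⟩
  set N := Nat.card Gal(L/K) with hN
  set J := H.index with hJ
  have hN0 : 0 < N := Nat.card_pos
  have hJ0 : 0 < J := Nat.pos_of_ne_zero Subgroup.FiniteIndex.index_ne_zero
  have h2 : Bdd (fun x => ((J : ℝ) - N * (1 - (m : ℝ))) * Lam x) := by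
    refine (((Bdd.const_mul hm (N : ℝ)).sub (Bdd.const_mul hb (J : ℝ))).sub
      (Bdd.const_mul hrest ((N : ℝ) * J))).congr fun x _ => ?_
    ring
  have h3 : (J : ℝ) - N * (1 - (m : ℝ)) ≤ 0 := by
    obtain ⟨C, hC⟩ := h2
    refine lam_nonpos (C := C) ?_
    filter_upwards [hC] with x hx
    exact (abs_le.mp hx).2
  have h3' : -((J : ℝ) - N * (1 - (m : ℝ))) ≤ 0 := by
    obtain ⟨C, hC⟩ := h2
    refine lam_nonpos (C := C) ?_
    filter_upwards [hC] with x hx
    have := (abs_le.mp hx).1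
    linarith
  have hN1 : (0 : ℝ) < N := by exact_mod_cast hN0
  have hJ1 : (0 : ℝ) < J := by exact_mod_cast hJ0
  have hm0 : m = 0 := by
    by_contra h
    have : (1 : ℝ) ≤ m := by exact_mod_cast Nat.one_le_iff_ne_zero.mpr h
    nlinarith
  subst hm0
  have hJN : (J : ℝ) = N := by
    push_cast at h3 h3'
    linarith
  have hJN' : J = N := by exact_mod_cast hJN
  rw [← hJN', hJ]
  exact Subgroup.index_dvd_card H

end

end Pool.Agent.H516.LC
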