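import Pool.Agent.H516.Tower3
import Pool.Graph.R_pool_sql_team_seeded_c8625f6e.K4H94.IW.QQ

/-!
# The cyclotomic tower of a number field
-/

set_option autoImplicit false
set_option linter.unusedSectionVars false

namespace Pool.Agent.H516

open Subgroup Module IntermediateField Pool.Agent.Q60.MU Pool.Agent.K4H24.IW Pool.Agent.K4H94.IW
open scoped Pointwise commutatorElement

/-- the fixing subgroup of the `m`-th layer -/
noncomputable abbrev fx (E : IntermediateField ℚ Qb) : Subgroup Gal(Qb/ℚ) := E.fixingSubgroup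

section Q

variable {p : ℕ} [hp : Fact p.Prime] (hp2 : p ≠ 2) {R : ℕ → IntermediateField ℚ Qb}
  (hR : IsCycTower p R)

include hp2 hR

/-- Galois groups of the layers are abelian -/
theorem comm_mem (m : ℕ) (x y : Gal(Qb/ℚ)) : x * y * x⁻¹ * y⁻¹ ∈ fx (R m) := by
  obtain ⟨X, _, _, χ, hχ, hχA⟩ := exists_char hp2 (hR m).2
  apply hχ
  rw [map_mul, map_mul, map_mul, map_inv, map_inv, mul_comm (χ x), mul_inv_cancel_right,
    mul_inv_cancel]

/-- the layers increase -/
theorem layers_anti : Antitone fun m => fx (R m) := by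
  intro m M hmM
  show fx (R M) ≤ fx (R m)
  have hle : R m ≤ adjoin ℚ {ζ : Qb | ζ ^ p ^ (M + 1) = 1} := by
    refine (hR m).2.trans (adjoin.mono _ _ _ ?_)
    intro ζ hζ
    have hζ' : ζ ^ p ^ (m + 1) = 1 := hζ
    show ζ ^ p ^ (M + 1) = 1
    obtain ⟨k, hk⟩ := Nat.exists_eq_add_of_le hmM
    rw [hk, show m + k + 1 = m + 1 + k by ring, pow_add, pow_mul, hζ', one_pow]
  obtain ⟨X, _, _, χ, hχ, -⟩ := exists_char hp2
    (le_refl (adjoin ℚ {ζ : Qb | ζ ^ p ^ (M + 1) = 1}))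
  have h1 : ∀ σ, χ σ = 1 → σ ∈ fx (R m) := fun σ hσ => fixingSubgroup_le hle (hχ σ hσ)
  have h2 : ∀ σ, χ σ = 1 → σ ∈ fx (R M) := fun σ hσ => fixingSubgroup_le (hR M).2 (hχ σ hσ)
  obtain ⟨-, hNm, him, -, -⟩ := cyc_facts hp2 hR m
  obtain ⟨-, hNM, hiM, -, -⟩ := cyc_facts hp2 hR M
  obtain ⟨⟨_, c, hc0, rfl⟩, hg⟩ := IsCyclic.exists_generator (α := (⊤ : Subgroup Gal(Qb/ℚ)).map χ)
  have hc : ∀ σ, ∃ i : ℤ, χ (c ^ i) = χ σ := by
    intro σ
    obtain ⟨i, hi⟩ := mem_zpowers_iff.1 (hg ⟨χ σ, σ, trivial, rfl⟩)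
    refine ⟨i, ?_⟩
    rw [map_zpow]
    exact congrArg Subtype.val hi
  -- the order of `c` modulo the layer `M`
  have hord : ∀ j : ℤ, c ^ j ∈ fx (R M) → (p : ℤ) ^ M ∣ j := by
    intro j hj
    let π : Gal(Qb/ℚ) →* Gal(Qb/ℚ) ⧸ fx (R M) := QuotientGroup.mk' (fx (R M))
    have hπ : ∀ z, π z = 1 ↔ z ∈ fx (R M) := fun z => QuotientGroup.eq_one_iff z
    have hgen : zpowers (π c) = ⊤ := by
      rw [eq_top_iff]
      rintro y -
      obtain ⟨σ, rfl⟩ := QuotientGroup.mk'_surjective (fx (R M)) y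
      obtain ⟨i, hi⟩ := hc σ
      refine ⟨i, ?_⟩
      show π c ^ i = π σ
      rw [← map_zpow, ← inv_mul_eq_one, ← map_inv, ← map_mul, hπ]
      apply h2
      rw [map_mul, map_inv, hi, inv_mul_cancel]
    have ho : orderOf (π c) = p ^ M := by
      rw [← Nat.card_zpowers, hgen, ← hiM]
      exact (Nat.card_congr (Equiv.Set.univ _))
    have h3 : π c ^ j = 1 := by
      rw [← map_zpow, hπ]
      exact hj
    have h4 := orderOf_dvd_iff_zpow_eq_one.2 h3
    rw [ho] at h4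
    exact_mod_cast h4
  intro σ hσ
  obtain ⟨i, hi⟩ := hc σ
  have h3 : (c ^ i)⁻¹ * σ ∈ fx (R M) ∧ (c ^ i)⁻¹ * σ ∈ fx (R m) := by
    have : χ ((c ^ i)⁻¹ * σ) = 1 := by rw [map_mul, map_inv, hi, inv_mul_cancel]
    exact ⟨h2 _ this, h1 _ this⟩
  have h4 : c ^ i ∈ fx (R M) := by
    have h5 := (fx (R M)).mul_mem hσ ((fx (R M)).inv_mem h3.1)
    have h6 : σ * ((c ^ i)⁻¹ * σ)⁻¹ = c ^ i := by group
    rwa [h6] at h5
  obtain ⟨k, hk⟩ := (pow_dvd_pow (p : ℤ) hmM).trans (hord i h4)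
  have h5 : c ^ i ∈ fx (R m) := by
    have h6 : c ^ p ^ m ∈ fx (R m) := by
      have := Subgroup.pow_index_mem (fx (R m)) c
      rwa [him] at this
    rw [hk, zpow_mul]
    have h7 : c ^ ((p : ℤ) ^ m) = c ^ p ^ m := by
      rw [← zpow_natCast c (p ^ m)]
      push_cast
      rfl
    rw [h7]
    exact (fx (R m)).zpow_mem h6 k
  have h6 := (fx (R m)).mul_mem h5 h3.2
  rwa [mul_inv_cancel_left] at h6

/-- total ramification over `ℚ` -/
theorem sup_top {A : ValuationSubring Qb} (hA : (p : Qb) ∈ A.nonunits) (m : ℕ) :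
    inertia A ⊔ fx (R m) = ⊤ := by
  obtain ⟨hfd, hN, hidx, -, hram⟩ := cyc_facts hp2 hR m
  have hW : (inertia A ⊔ fx (R m)).Normal := by
    refine ⟨fun x hx g => ?_⟩
    have h1 : g * x * g⁻¹ = (g * x * g⁻¹ * x⁻¹) * x := by group
    rw [h1]
    exact mul_mem (mem_sup_right (comm_mem hp2 hR m g x)) hx
  have h := mink (QuotientGroup.mk' (inertia A ⊔ fx (R m))) ?_ ?_
  · rw [eq_top_iff]
    intro g _
    exact (QuotientGroup.eq_one_iff g).1 (h g)
  · rw [QuotientGroup.ker_mk']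
    exact Subgroup.isOpen_mono le_sup_right (R m).fixingSubgroup_isOpen
  · intro B τ hτ
    rw [QuotientGroup.mk'_apply, QuotientGroup.eq_one_iff]
    by_cases hB : (p : Qb) ∈ B.nonunits
    · obtain ⟨g, rfl⟩ := exists_smul_eq' hp.1 B A hB hA
      have h1 := inertia_conj g⁻¹ _ _ hτ
      rw [inv_smul_smul, inv_inv] at h1
      have h2 := hW.conj_mem _ (mem_sup_left h1) g
      have h3 : g * (g⁻¹ * τ * g) * g⁻¹ = τ := by group
      rwa [h3] at h2
    · apply mem_sup_right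
      by_contra h1
      exact hB (hram B τ hτ h1)

variable {F : IntermediateField ℚ Qb} [FiniteDimensional ℚ F] (hF : finrank ℚ F < p)

include hF

/-- total ramification over `F` -/
theorem sup_top_F {A : ValuationSubring Qb} (hA : (p : Qb) ∈ A.nonunits) (m : ℕ) :
    (inertia A ⊓ fx F) ⊔ fx (R m) = ⊤ := by
  obtain ⟨hfd, hN, hidx, -, hram⟩ := cyc_facts hp2 hR m
  obtain ⟨W, hWd⟩ : ∃ W, W = (inertia A ⊓ fx F) ⊔ fx (R m) := ⟨_, rfl⟩
  have hle : fx (R m) ≤ W := by
    rw [hWd]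
    exact le_sup_right
  have hWn : W.Normal := by
    refine ⟨fun x hx g => ?_⟩
    have h1 : g * x * g⁻¹ = (g * x * g⁻¹ * x⁻¹) * x := by group
    rw [h1]
    exact mul_mem (hle (comm_mem hp2 hR m g x)) hx
  have hFi : (fx F).index = finrank ℚ F := by rw [finrank_eq_fixingSubgroup_index]
  have hF0 : (fx F).index ≠ 0 := by
    rw [hFi]
    exact finrank_pos.ne'
  -- the index of `W`
  have h1 : W.index ∣ p ^ m := by
    rw [← hidx]
    exact Subgroup.index_dvd_of_le hle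
  have h2 : W.index ≤ finrank ℚ F := by
    have h3 : inertia A ⊔ W = ⊤ := by
      rw [eq_top_iff, ← sup_top hp2 hR hA m]
      exact sup_le_sup_left hle _
    have h4 : W.index = W.relIndex (inertia A) := by
      rw [← relIndex_sup_right, h3, relIndex_top_right]
    have h5 : W.relIndex (inertia A) ∣ (inertia A ⊓ fx F).relIndex (inertia A) := by
      apply relIndex_dvd_of_le_left
      rw [hWd]
      exact le_sup_left
    have h6 : (fx F).relIndex (inertia A) ≠ 0 := by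
      have : (fx F).FiniteIndex := ⟨hF0⟩
      exact FiniteIndex.index_ne_zero (H := (fx F).subgroupOf (inertia A))
    have h7 : (fx F).relIndex (inertia A) ≤ (fx F).index := by
      rw [← relIndex_top_right]
      exact relIndex_le_of_le_right le_top (by rwa [relIndex_top_right])
    rw [inf_relIndex_left] at h5
    rw [h4, ← hFi]
    exact (Nat.le_of_dvd (Nat.pos_of_ne_zero h6) h5).trans h7
  rw [← hWd, ← Subgroup.index_eq_one]
  obtain ⟨k, -, hk⟩ := (Nat.dvd_prime_pow hp.1).1 h1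
  rcases k with _ | k
  · rwa [pow_zero] at hk
  · exfalso
    rw [hk] at h2
    have h8 : p ≤ p ^ (k + 1) := by
      rw [pow_succ]
      exact Nat.le_mul_of_pos_left _ (pow_pos hp.1.pos k)
    omega

end Q

end Pool.Agent.H516
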