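import Pool.Agent.H516.Cyc

/-!
# The cyclotomic tower of a number field: the structure `Tower`
-/

set_option autoImplicit false
set_option linter.unusedSectionVars false

namespace Pool.Agent.H516

open Subgroup Module IntermediateField Pool.Agent.Q60.MU Pool.Agent.K4H24.IW Pool.Agent.K4H94.IW
open scoped Pointwise commutatorElement

theorem exists_above {p : ℕ} (hp : p.Prime) : ∃ A : ValuationSubring Qb, (p : Qb) ∈ A.nonunits := by
  have h1 : ¬ IsUnit ((p : ℕ) : NumberField.RingOfIntegers (AlgebraicClosure ℚ)) := by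
    intro h
    obtain ⟨u, hu⟩ := h
    have h2 : ((p : ℕ) : Qb) * ((u⁻¹ : (NumberField.RingOfIntegers (AlgebraicClosure ℚ))ˣ) :
        NumberField.RingOfIntegers (AlgebraicClosure ℚ)) = 1 := by
      have h3 : (u : NumberField.RingOfIntegers (AlgebraicClosure ℚ)) *
          ((u⁻¹ : (NumberField.RingOfIntegers (AlgebraicClosure ℚ))ˣ)) = 1 := u.mul_inv
      rw [hu] at h3
      have h4 := congrArg (fun z : NumberField.RingOfIntegers (AlgebraicClosure ℚ) => (z : Qb)) h3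
      simpa using h4
    have h5 : IsIntegral ℤ ((p : Qb)⁻¹) := by
      rw [← eq_inv_of_mul_eq_one_right h2]
      exact NumberField.RingOfIntegers.isIntegral_coe _
    have h6 : (p : Qb)⁻¹ = algebraMap ℚ Qb ((p : ℚ)⁻¹) := by simp
    rw [h6, isIntegral_algebraMap_iff (algebraMap ℚ Qb).injective] at h5
    obtain ⟨z, hz⟩ := IsIntegrallyClosed.isIntegral_iff.1 h5
    have hp0 : (p : ℚ) ≠ 0 := by exact_mod_cast hp.ne_zero
    have h7 : (p : ℚ) * (z : ℚ) = 1 := by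
      have : (z : ℚ) = (p : ℚ)⁻¹ := by simpa using hz
      rw [this, mul_inv_cancel₀ hp0]
    have h8 : (p : ℤ) * z = 1 := by exact_mod_cast h7
    have h9 := Int.isUnit_iff.1 (IsUnit.of_mul_eq_one _ h8)
    have := hp.two_le
    omega
  obtain ⟨P, hP, hpP⟩ := exists_max_ideal_of_mem_nonunits h1
  obtain ⟨A, hA, -⟩ := val P hP
  refine ⟨A, ?_⟩
  have h2 := (hA ((p : ℕ) : NumberField.RingOfIntegers (AlgebraicClosure ℚ))).2 hpP
  simpa using h2

section F

variable {p : ℕ} [hp : Fact p.Prime] (hp2 : p ≠ 2) {R : ℕ → IntermediateField ℚ Qb}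
  (hR : IsCycTower p R) {F : IntermediateField ℚ Qb} [FiniteDimensional ℚ F]
  (hF : finrank ℚ F < p)

include hp2 hR hF

theorem relIndex_layer (m : ℕ) : (fx (R m)).relIndex (fx F) = p ^ m := by
  obtain ⟨hfd, hN, hidx, -, -⟩ := cyc_facts hp2 hR m
  obtain ⟨A, hA⟩ := exists_above hp.1
  have h1 : fx F ⊔ fx (R m) = ⊤ := by
    rw [eq_top_iff, ← sup_top_F hp2 hR hF hA m]
    exact sup_le_sup_right inf_le_right _
  rw [← relIndex_sup_right, h1, relIndex_top_right, hidx]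

theorem exists_gen : ∃ γ ∈ fx F, ∀ m, ∀ x ∈ fx F, ∃ i : ℤ, γ ^ i * x ∈ fx (R m) := by
  obtain ⟨-, hN1, hidx1, hg1, -⟩ := cyc_facts hp2 hR 1
  obtain ⟨γ, hγ, hγ1⟩ := hg1 (fx F)
  refine ⟨γ, hγ, fun m x hx => ?_⟩
  obtain ⟨-, hN, hidx, hg, -⟩ := cyc_facts hp2 hR m
  obtain ⟨δ, hδ, hδ1⟩ := hg (fx F)
  rcases Nat.eq_zero_or_pos m with rfl | hm
  · refine ⟨0, ?_⟩
    rw [pow_zero] at hidx
    have : fx (R 0) = ⊤ := Subgroup.index_eq_one.1 hidx
    rw [this]
    trivial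
  obtain ⟨a, ha⟩ := hδ1 γ hγ
  have hpa : ¬ (p : ℤ) ∣ a := by
    rintro ⟨b, hb⟩
    have h1 : fx (R m) ≤ fx (R 1) := layers_anti hp2 hR hm
    have h2 : δ ^ p ∈ fx (R 1) := by
      have := Subgroup.pow_index_mem (fx (R 1)) δ
      rwa [hidx1, pow_one] at this
    have h3 : δ ^ a ∈ fx (R 1) := by
      rw [hb, zpow_mul, zpow_natCast]
      exact (fx (R 1)).zpow_mem h2 b
    have h4 : γ ∈ fx (R 1) := by
      have := (fx (R 1)).mul_mem ((fx (R 1)).inv_mem h3) (h1 ha)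
      rwa [inv_mul_cancel_left] at this
    have h5 : fx F ≤ fx (R 1) := by
      intro y hy
      obtain ⟨i, hi⟩ := hγ1 y hy
      have := (fx (R 1)).mul_mem ((fx (R 1)).inv_mem ((fx (R 1)).zpow_mem h4 i)) hi
      rwa [inv_mul_cancel_left] at this
    have h6 := relIndex_layer hp2 hR hF 1
    rw [relIndex_eq_one.2 h5, pow_one] at h6
    exact hp.1.one_lt.ne h6
  have hcop : IsCoprime a ((p : ℤ) ^ m) :=
    ((Prime.coprime_iff_not_dvd (Nat.prime_iff_prime_int.1 hp.1)).2 hpa).symm.pow_right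
  obtain ⟨u, v, huv⟩ := hcop
  obtain ⟨j, hj⟩ := hδ1 x hx
  let π : Gal(Qb/ℚ) →* Gal(Qb/ℚ) ⧸ fx (R m) := QuotientGroup.mk' (fx (R m))
  have hπ : ∀ z, π z = 1 ↔ z ∈ fx (R m) := fun z => QuotientGroup.eq_one_iff z
  have h1 : π δ ^ a * π γ = 1 := by
    rw [← map_zpow, ← map_mul, hπ]
    exact ha
  have h2 : π δ ^ ((p : ℤ) ^ m) = 1 := by
    rw [← map_zpow, hπ]
    have := Subgroup.pow_index_mem (fx (R m)) δ
    rw [hidx] at this
    rw [← zpow_natCast] at this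
    push_cast at this
    exact this
  have h3 : π δ = π γ ^ (-u) := by
    have h4 : π γ = (π δ ^ a)⁻¹ := (inv_eq_of_mul_eq_one_right h1).symm
    calc π δ = π δ ^ (u * a + v * (p : ℤ) ^ m) := by rw [huv, zpow_one]
      _ = π γ ^ (-u) := by
        rw [zpow_add, mul_comm v, zpow_mul _ ((p : ℤ) ^ m), h2, one_zpow, mul_one, h4,
          mul_comm u a, zpow_mul, zpow_neg, inv_zpow, inv_inv]
  refine ⟨-u * j, ?_⟩
  rw [← hπ, map_mul, map_zpow, zpow_mul, ← h3, ← map_zpow, ← map_mul, hπ]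
  exact hj

/-- the tower of a number field -/
theorem exists_tower {t : ℕ} (w : Fin (t + 1) → ValuationSubring Qb)
    (hw : ∀ i, (p : Qb) ∈ (w i).nonunits)
    (hcov : ∀ A : ValuationSubring Qb, (p : Qb) ∈ A.nonunits → ∃ i, ∃ g ∈ fx F, A = g • w i) :
    ∃ γ : fx F, Tower p (fun A : ValuationSubring Qb => (inertia A).subgroupOf (fx F))
      (fun m => (fx (R m)).subgroupOf (fx F)) γ w {A | (p : Qb) ∈ A.nonunits} := by
  obtain ⟨γ, hγ, hγg⟩ := exists_gen hp2 hR hF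
  have hanti := layers_anti hp2 hR
  have hpow : ∀ m, γ ^ p ^ m ∈ fx (R m) := by
    intro m
    obtain ⟨-, hN, hidx, -, -⟩ := cyc_facts hp2 hR m
    have := Subgroup.pow_index_mem (fx (R m)) γ
    rwa [hidx] at this
  -- the order of `γ` modulo a layer
  have hord : ∀ m, ∀ j : ℤ, γ ^ j ∈ fx (R m) → (p : ℤ) ^ m ∣ j := by
    intro m j hj
    obtain ⟨-, hN, hidx, -, -⟩ := cyc_facts hp2 hR m
    let π : Gal(Qb/ℚ) →* Gal(Qb/ℚ) ⧸ fx (R m) := QuotientGroup.mk' (fx (R m))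
    have hπ : ∀ z, π z = 1 ↔ z ∈ fx (R m) := fun z => QuotientGroup.eq_one_iff z
    obtain ⟨A, hA⟩ := exists_above hp.1
    have h1 := sup_top_F hp2 hR hF hA m
    have hgen : zpowers (π γ) = ⊤ := by
      rw [eq_top_iff]
      rintro y -
      obtain ⟨σ, rfl⟩ := QuotientGroup.mk'_surjective (fx (R m)) y
      have h2 : σ ∈ (inertia A ⊓ fx F) ⊔ fx (R m) := by
        rw [h1]
        trivial
      rw [mem_sup_of_normal_right] at h2
      obtain ⟨x, hx, z, hz, rfl⟩ := h2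
      obtain ⟨i, hi⟩ := hγg m x hx.2
      refine ⟨-i, ?_⟩
      show π γ ^ (-i) = π (x * z)
      rw [map_mul, (hπ z).2 hz, mul_one, zpow_neg, ← map_zpow, ← inv_mul_eq_one, inv_inv,
        ← map_mul, hπ]
      exact hi
    have ho : orderOf (π γ) = p ^ m := by
      rw [← Nat.card_zpowers, hgen, ← hidx]
      exact (Nat.card_congr (Equiv.Set.univ _))
    have h3 : π γ ^ j = 1 := by
      rw [← map_zpow, hπ]
      exact hj
    have h4 := orderOf_dvd_iff_zpow_eq_one.2 h3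
    rw [ho] at h4
    exact_mod_cast h4
  refine ⟨⟨γ, hγ⟩, ?_, ?_, ?_, ?_, ?_, ?_, ?_, ?_, ?_, ?_, ?_, ?_⟩
  · rintro g v x hx
    exact inertia_conj g.1 v _ hx
  · obtain ⟨-, -, hidx, -, -⟩ := cyc_facts hp2 hR 0
    rw [pow_zero] at hidx
    have h0 : fx (R 0) = ⊤ := Subgroup.index_eq_one.1 hidx
    show (fx (R 0)).subgroupOf (fx F) = ⊤
    rw [h0]
    rfl
  · intro m
    obtain ⟨hfd, -, -, -, -⟩ := cyc_facts hp2 hR m
    exact (R m).fixingSubgroup_isOpen.preimage continuous_subtype_val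
  · intro m M h x hx
    exact hanti h hx
  · intro m
    obtain ⟨-, hN, -, -, -⟩ := cyc_facts hp2 hR m
    exact hN.subgroupOf _
  · intro m
    exact hpow m
  · intro m M hmM x hx
    obtain ⟨j, hj⟩ := hγg M x.1 x.2
    have hx' : x.1 ∈ fx (R m) := hx
    have h1 : γ ^ j ∈ fx (R m) := by
      have h2 := (fx (R m)).mul_mem (hanti hmM hj) ((fx (R m)).inv_mem hx')
      rwa [mul_inv_cancel_right] at h2
    obtain ⟨i, hi⟩ := hord m j h1
    refine ⟨i, ?_⟩
    show (γ ^ p ^ m) ^ i * x.1 ∈ fx (R M)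
    rw [← zpow_natCast γ, ← zpow_mul]
    push_cast
    rw [← hi]
    exact hj
  · intro v hv m x hx
    obtain ⟨-, -, -, -, hram⟩ := cyc_facts hp2 hR m
    by_contra h
    exact hv (hram v x.1 hx h)
  · intro v hv m x
    obtain ⟨-, hN, -, -, -⟩ := cyc_facts hp2 hR m
    have h2 : x.1 ∈ (inertia v ⊓ fx F) ⊔ fx (R m) := by
      rw [sup_top_F hp2 hR hF hv m]
      trivial
    rw [mem_sup_of_normal_right] at h2
    obtain ⟨y, hy, z, hz, hyz⟩ := h2
    refine ⟨⟨y, hy.2⟩, hy.1, ?_⟩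
    show y⁻¹ * x.1 ∈ fx (R m)
    rw [← hyz, inv_mul_cancel_left]
    exact hz
  · intro v hv
    obtain ⟨i, g, hg, hgv⟩ := hcov v hv
    exact ⟨i, ⟨g, hg⟩, hgv⟩
  · exact hw
  · intro v x hx
    exact hx.1

end F

end Pool.Agent.H516
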