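import Mathlib

/-! The discriminant of a compositum. -/

set_option autoImplicit false
set_option linter.unusedSectionVars false

namespace Pool.Agent.H516.DI

open NumberField Module

section

variable {L : Type} [Field L] [NumberField L]

attribute [local instance] FractionRing.liftAlgebra in
set_option backward.isDefEq.respectTransparency false in
theorem natAbs_discr_dvd (K₁ K₂ : IntermediateField ℚ L) (h₁ : K₁.LinearDisjoint K₂)
    (h₂ : K₁ ⊔ K₂ = ⊤) :
    (discr L).natAbs ∣
      (discr K₁).natAbs ^ Module.finrank ℚ K₂ * (discr K₂).natAbs ^ Module.finrank ℚ K₁ := by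
  let _ : Algebra (FractionRing (𝓞 K₁)) (FractionRing (𝓞 L)) := FractionRing.liftAlgebra _ _
  have h_main := natAbs_discr_eq_absNorm_differentIdeal_mul_natAbs_discr_pow K₂ (𝓞 K₂) L (𝓞 L)
  have h_dvd := IsDedekindDomain.differentIdeal_dvd_map_differentIdeal ℤ (𝓞 L) (𝓞 K₂) (𝓞 K₁)
    (F₁ := K₂) (F₂ := K₁) (by rwa [IntermediateField.linearDisjoint_comm]) (by rwa [sup_comm])
  have h3 := Ideal.absNorm_dvd_absNorm_of_le (Ideal.dvd_iff_le.1 h_dvd)
  rw [Ideal.absNorm_algebraMap, absNorm_differentIdeal K₁,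
    ← IsFractionRing.finrank_eq (𝓞 K₁) K₁ (𝓞 L) L, h₁.finrank_left_eq_finrank h₂] at h3
  rw [h_main, h₁.finrank_right_eq_finrank h₂]
  exact Nat.mul_dvd_mul_right h3 _

theorem natAbs_discr_dvd' [inst : Algebra ℚ L] (K₁ K₂ : IntermediateField ℚ L)
    [NumberField K₁] [NumberField K₂]
    (h : finrank ℚ L = finrank ℚ K₁ * finrank ℚ K₂)
    (h₂ : K₁ ⊔ K₂ = ⊤) :
    (discr L).natAbs ∣
      (discr K₁).natAbs ^ Module.finrank ℚ K₂ * (discr K₂).natAbs ^ Module.finrank ℚ K₁ := by
  obtain rfl : inst = DivisionRing.toRatAlgebra := Subsingleton.elim _ _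
  refine natAbs_discr_dvd K₁ K₂ (IntermediateField.LinearDisjoint.of_finrank_sup ?_) h₂
  rw [h₂, IntermediateField.finrank_top', h]

end

end Pool.Agent.H516.DI
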