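import Pool.Agent.H516.Dual3

/-! Growth in the cyclotomic tower -/

set_option autoImplicit false
set_option linter.unusedSectionVars false

namespace Pool.Agent.H516

open Subgroup NumberField Module IntermediateField Polynomial
open Pool.Agent.Q60.MU Pool.Agent.K4H24.IW Pool.Agent.K4H94.IW
open scoped Pointwise

/-- the two descriptions of the layer -/
def eqvUV (U V : Subgroup Gal(Qb/ℚ)) : (V.subgroupOf U) ≃* (U ⊓ V : Subgroup Gal(Qb/ℚ)) where
  toFun x := ⟨x.1.1, x.1.2, x.2⟩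
  invFun y := ⟨⟨y.1, y.2.1⟩, y.2.2⟩
  left_inv _ := rfl
  right_inv _ := rfl
  map_mul' _ _ := rfl

/-- the two descriptions of the characters -/
noncomputable def eCh (U V : Subgroup Gal(Qb/ℚ)) (γ : U) :
    Ch γ (V.subgroupOf U) ≃ ((U ⊓ V : Subgroup Gal(Qb/ℚ)) →* ℂˣ) :=
  Additive.toMul.trans
    { toFun := fun χ => χ.comp (eqvUV U V).symm.toMonoidHom
      invFun := fun ψ => ψ.comp (eqvUV U V).toMonoidHom
      left_inv := fun _ => rfl
      right_inv := fun _ => rfl }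

theorem eCh_apply (U V : Subgroup Gal(Qb/ℚ)) (γ : U) (χ : Ch γ (V.subgroupOf U)) (x : U)
    (hx : x ∈ V.subgroupOf U) : χ.val x = eCh U V γ χ ⟨x.1, x.2, hx⟩ := by
  unfold Ch.val
  rw [fn_of _ hx]
  rfl

section gen

variable {Ω : Type} {p : ℕ} {U V : Subgroup Gal(Qb/ℚ)} [hN : (V.subgroupOf U).Normal] {γ : U}
    [MulAction U Ω] {I : Ω → Subgroup U} {hI : ∀ g v x, x ∈ I v → g * x * g⁻¹ ∈ I (g • v)}
    (hU : IsOpen (U : Set Gal(Qb/ℚ)))
    (hI1 : ∀ v, ∃ A, ∀ x : U, x ∈ I v ↔ x.1 ∈ inertia A)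
    (hI2 : ∀ A, ∃ v, ∀ x : U, x ∈ I v ↔ x.1 ∈ inertia A)

include hU hI1 hI2

/-- membership -/
theorem mem_UC_iff
    (e : Ch γ (V.subgroupOf U) → ((U ⊓ V : Subgroup Gal(Qb/ℚ)) →* ℂˣ))
    (he : ∀ (χ : Ch γ (V.subgroupOf U)) (x : U) (hx : x ∈ V.subgroupOf U),
      χ.val x = e χ ⟨x.1, x.2, hx⟩) (χ : Ch γ (V.subgroupOf U)) :
    χ ∈ UC p I hI γ (V.subgroupOf U) ↔ e χ ∈ XS p (U ⊓ V) := by
  rw [mem_UC, mem_XS]
  refine and_congr ?_ (and_congr ?_ ?_)
  · constructor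
    · rintro ⟨K, hK, h⟩
      refine ⟨K.map U.subtype, ?_, fun x hx => ?_⟩
      · have := (hU.isOpenEmbedding_subtypeVal).isOpenMap _ hK
        exact this
      · obtain ⟨y, hy, hyx⟩ := hx
        have hyx' : (y : Gal(Qb/ℚ)) = x.1 := hyx
        have h1 : y ∈ V.subgroupOf U := by
          rw [Subgroup.mem_subgroupOf, hyx']
          exact x.2.2
        have h2 := h y hy h1
        rw [he χ y h1] at h2
        rw [← h2]
        congr 1
        exact Subtype.ext hyx'.symm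
    · rintro ⟨K, hK, h⟩
      refine ⟨K.subgroupOf U, hK.preimage continuous_subtype_val, fun x hx hx' => ?_⟩
      rw [he χ x hx']
      exact h _ hx
  · constructor
    · rintro ⟨k, hk⟩
      refine ⟨k, fun x => ?_⟩
      rw [← hk ⟨x.1, x.2.1⟩ x.2.2, he χ _ x.2.2]
    · rintro ⟨k, hk⟩
      refine ⟨k, fun x hx => ?_⟩
      rw [he χ x hx]
      exact hk _
  · constructor
    · intro h A x hx
      obtain ⟨v, hv⟩ := hI2 A
      rw [← h v ⟨x.1, x.2.1⟩ ((hv _).2 hx) x.2.2, he χ _ x.2.2]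
    · intro h v x hx hx'
      obtain ⟨A, hA⟩ := hI1 v
      rw [he χ x hx']
      exact h A _ ((hA x).1 hx)

theorem card_UC : Nat.card (UC p I hI γ (V.subgroupOf U)) = Nat.card (XS p (U ⊓ V)) := by
  let S := UC p I hI γ (V.subgroupOf U)
  let T := XS p (U ⊓ V)
  have h1 := mem_UC_iff (p := p) (hI := hI) hU hI1 hI2 (eCh U V γ) (eCh_apply U V γ)
  exact Nat.card_congr
    { toFun := fun x : S => (⟨eCh U V γ x.1, (h1 x.1).1 x.2⟩ : T)
      invFun := fun y : T => ⟨(eCh U V γ).symm y.1, by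
        have := (h1 ((eCh U V γ).symm y.1)).2
        rw [Equiv.apply_symm_apply] at this
        exact this y.2⟩
      left_inv := fun x => Subtype.ext ((eCh U V γ).symm_apply_apply x.1)
      right_inv := fun y => Subtype.ext ((eCh U V γ).apply_symm_apply y.1) }

end gen

variable {p : ℕ} [hp : Fact p.Prime] (hp2 : p ≠ 2) {R : ℕ → IntermediateField ℚ Qb}
  (hR : IsCycTower p R) {F : IntermediateField ℚ Qb} [FiniteDimensional ℚ F]
  (hF : finrank ℚ F < p)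

include hp2 hR hF

theorem growthF {t : ℕ} (w : Fin (t + 1) → ValuationSubring Qb)
    (hw : ∀ i, (p : Qb) ∈ (w i).nonunits)
    (hcov : ∀ A : ValuationSubring Qb, (p : Qb) ∈ A.nonunits → ∃ i, ∃ g ∈ fx F, A = g • w i) :
    ∃ (e : ℕ → ℕ) (μ : ℕ), (∀ m, HilbExp p (F ⊔ R m) (e m)) ∧
      (∀ m, p ^ e m ∣ Nat.card (ClassGroup (𝓞 ↥(F ⊔ R m)))) ∧
      (∀ m, (p ^ m - 1) * μ ≤ e m + m * t) ∧ ∃ C, ∀ m, e m ≤ μ * p ^ m + C * (m + 1) := by
  obtain ⟨γ, hT⟩ := exists_tower hp2 hR hF w hw hcov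
  have hfd : ∀ m, FiniteDimensional ℚ ↥(F ⊔ R m) := by
    intro m
    obtain ⟨h1, -, -, -, -⟩ := cyc_facts hp2 hR m
    exact IntermediateField.finiteDimensional_sup F (R m)
  have hex : ∀ m, ∃ e : ℕ, HilbExp p (F ⊔ R m) e ∧ Nat.card (XS p (fx (F ⊔ R m))) = p ^ e ∧
      p ^ e ∣ Nat.card (ClassGroup (𝓞 ↥(F ⊔ R m))) := by
    intro m
    have := hfd m
    exact exists_hilbExp hp2 (F ⊔ R m)
  choose e he1 he2 he3 using hex
  have hfx : ∀ m, fx (F ⊔ R m) = fx F ⊓ fx (R m) := fun m => IntermediateField.fixingSubgroup_sup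
  have hnrm : ∀ m, ((fx (R m)).subgroupOf (fx F)).Normal := hT.nrm
  have hcpt : CompactSpace (fx F) := by
    have hclosed : IsClosed (fx F : Set Gal(Qb/ℚ)) :=
      Subgroup.isClosed_of_isOpen _ F.fixingSubgroup_isOpen
    exact isCompact_iff_compactSpace.1 hclosed.isCompact
  obtain ⟨μ, h1, h2⟩ := hT.main hp.1 e (fun m => by
    rw [← he2 m, hfx]
    exact card_UC F.fixingSubgroup_isOpen (fun v => ⟨v, fun _ => Iff.rfl⟩)
      (fun A => ⟨A, fun _ => Iff.rfl⟩))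
  exact ⟨e, μ, he1, he3, h1, h2⟩

end Pool.Agent.H516
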