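import Pool.Agent.H516.Disc
import Pool.Agent.H516.Grow

/-! The discriminant of the first layer. -/

set_option autoImplicit false
set_option linter.unusedSectionVars false

namespace Pool.Agent.H516.DI

open NumberField Module IntermediateField
open Pool.Agent.Q60.MU Pool.Agent.K4H24.IW Pool.Agent.K4H94.IW

theorem discr_sup_dvd {Ω : Type} [Field Ω] [CharZero Ω] (K₁ K₂ : IntermediateField ℚ Ω)
    [NumberField K₁] [NumberField K₂] [NumberField ↥(K₁ ⊔ K₂)]
    (h : finrank ℚ ↥(K₁ ⊔ K₂) = finrank ℚ K₁ * finrank ℚ K₂) :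
    (discr ↥(K₁ ⊔ K₂)).natAbs ∣
      (discr K₁).natAbs ^ Module.finrank ℚ K₂ * (discr K₂).natAbs ^ Module.finrank ℚ K₁ := by
  have hl1 : K₁ ≤ K₁ ⊔ K₂ := le_sup_left
  have hl2 : K₂ ≤ K₁ ⊔ K₂ := le_sup_right
  let e1 : K₁ ≃ₐ[ℚ] restrict hl1 := restrictAlgEquiv hl1
  let e2 : K₂ ≃ₐ[ℚ] restrict hl2 := restrictAlgEquiv hl2
  have hf1 : finrank ℚ K₁ = finrank ℚ (restrict hl1) := e1.toLinearEquiv.finrank_eq
  have hf2 : finrank ℚ K₂ = finrank ℚ (restrict hl2) := e2.toLinearEquiv.finrank_eq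
  have hfin1 : FiniteDimensional ℚ (restrict hl1) := e1.toLinearEquiv.finiteDimensional
  have hfin2 : FiniteDimensional ℚ (restrict hl2) := e2.toLinearEquiv.finiteDimensional
  have hn1 : NumberField (restrict hl1) := ⟨⟩
  have hn2 : NumberField (restrict hl2) := ⟨⟩
  have hd1 : discr K₁ = discr (restrict hl1) := discr_eq_discr_of_algEquiv _ e1
  have hd2 : discr K₂ = discr (restrict hl2) := discr_eq_discr_of_algEquiv _ e2
  have htop : restrict hl1 ⊔ restrict hl2 = ⊤ := by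
    apply IntermediateField.lift_injective
    rw [lift_top, lift_sup, lift_restrict, lift_restrict]
  rw [hd1, hd2, hf1, hf2]
  exact natAbs_discr_dvd' _ _ (by rw [h, hf1, hf2]) htop

theorem discr_le_of_le {Ω : Type} [Field Ω] [CharZero Ω] {K L : IntermediateField ℚ Ω}
    (hKL : K ≤ L) [NumberField K] [NumberField L] {d : ℕ} (hd : finrank ℚ L = d * finrank ℚ K) :
    (discr K).natAbs ^ d ∣ (discr L).natAbs := by
  let _ : Algebra K L := (inclusion hKL).toRingHom.toAlgebra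
  have : IsScalarTower ℚ K L := IsScalarTower.of_algebraMap_eq fun x => rfl
  have h1 := natAbs_discr_eq_absNorm_differentIdeal_mul_natAbs_discr_pow K (𝓞 K) L (𝓞 L)
  have h2 : finrank K L = d := by
    have h3 := finrank_mul_finrank ℚ K L
    rw [hd, mul_comm] at h3
    exact Nat.eq_of_mul_eq_mul_right finrank_pos h3
  rw [h1, h2]
  exact Dvd.intro_left _ rfl

section

variable {p : ℕ} [hp : Fact p.Prime] (hp2 : p ≠ 2) {R : ℕ → IntermediateField ℚ Qb}
  (hR : IsCycTower p R)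

include hp2 hR

/-- the discriminant of the first layer over `ℚ` -/
theorem discr_layer [NumberField (R 1)] : (discr (R 1)).natAbs ≤ p ^ (2 * (p - 1)) := by
  obtain ⟨h1, h2⟩ := hR 1
  have hk : p ^ 2 ≠ 0 := pow_ne_zero _ hp.1.ne_zero
  have : NeZero (p ^ 2) := ⟨hk⟩
  have hcl : IsAlgClosed Qb := AlgebraicClosure.isAlgClosed ℚ
  have : NeZero ((p ^ 2 : ℕ) : Qb) := ⟨by exact_mod_cast hk⟩
  obtain ⟨ζ, hζ⟩ := HasEnoughRootsOfUnity.exists_primitiveRoot Qb (p ^ 2)
  obtain ⟨C, hC⟩ : ∃ C, C = IntermediateField.adjoin ℚ {ζ} := ⟨_, rfl⟩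
  have hle : R 1 ≤ C := by
    refine h2.trans ?_
    rw [adjoin_le_iff]
    intro x hx
    obtain ⟨i, -, rfl⟩ := hζ.eq_pow_of_pow_eq_one hx
    rw [hC]
    exact pow_mem (IntermediateField.mem_adjoin_simple_self ℚ ζ) i
  have hcyc : IsCyclotomicExtension {p ^ 2} ℚ C := by
    rw [hC]
    exact hζ.intermediateField_adjoin_isCyclotomicExtension (K := ℚ)
  have hnf : NumberField C := IsCyclotomicExtension.numberField {p ^ 2} ℚ C
  have hdC : (discr C).natAbs = p ^ (p * ((p - 1) * 2 - 1)) := by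
    have h3 := IsCyclotomicExtension.Rat.discr_prime_pow p 2 C
    rw [h3, Int.natAbs_mul, Int.natAbs_pow, Int.natAbs_neg, Int.natAbs_one, one_pow, one_mul,
      Int.natAbs_pow, Int.natAbs_natCast, show 2 - 1 = 1 from rfl, pow_one]
  have hfC : finrank ℚ C = (p - 1) * finrank ℚ (R 1) := by
    rw [IsCyclotomicExtension.finrank C (Polynomial.cyclotomic.irreducible_rat
      (pow_pos hp.1.pos 2)), Nat.totient_prime_pow hp.1 (by norm_num), h1]
    ring
  have h4 := discr_le_of_le hle hfC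
  rw [hdC] at h4
  have hp3 : 3 ≤ p := by
    have := hp.1.two_le
    omega
  obtain ⟨a, -, ha⟩ := (Nat.dvd_prime_pow hp.1).1 ((dvd_pow_self _ (by omega : p - 1 ≠ 0)).trans h4)
  rw [ha] at h4 ⊢
  refine Nat.pow_le_pow_right hp.1.pos ?_
  rw [← pow_mul, Nat.pow_dvd_pow_iff_le_right hp.1.one_lt] at h4
  by_contra hlt
  push Not at hlt
  obtain ⟨q, rfl⟩ : ∃ q, p = q + 3 := ⟨p - 3, by omega⟩
  have h5 : (q + 3 - 1) = q + 2 := by omega
  rw [h5] at h4 hlt
  have h6 : (q + 2) * 2 - 1 = 2 * q + 3 := by omega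
  rw [h6] at h4
  have h7 : (2 * (q + 2) + 1) * (q + 2) ≤ a * (q + 2) := Nat.mul_le_mul_right _ hlt
  nlinarith

variable {F : IntermediateField ℚ Qb} [FiniteDimensional ℚ F] (hF : finrank ℚ F < p)

include hF

/-- the degree of a layer -/
theorem finrank_layer (m : ℕ) : finrank ℚ ↥(F ⊔ R m) = finrank ℚ F * finrank ℚ (R m) := by
  obtain ⟨hfd, hN, hidx, -, -⟩ := cyc_facts hp2 hR m
  have h1 := relIndex_layer hp2 hR hF m
  have h2 : finrank ℚ ↥(F ⊔ R m) = (fx F ⊓ fx (R m)).index := by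
    rw [finrank_eq_fixingSubgroup_index, IntermediateField.fixingSubgroup_sup]
  have h3 : finrank ℚ F = (fx F).index := by rw [finrank_eq_fixingSubgroup_index]
  have h4 : finrank ℚ (R m) = p ^ m := (hR m).1
  rw [h2, h3, h4, ← h1, ← Subgroup.relIndex_mul_index (inf_le_left : fx F ⊓ fx (R m) ≤ fx F),
    Subgroup.inf_relIndex_left, mul_comm]

theorem discr_first [NumberField F] [NumberField ↥(F ⊔ R 1)] :
    (discr ↥(F ⊔ R 1)).natAbs ≤ (discr F).natAbs ^ p * p ^ (2 * (p - 1) * finrank ℚ F) := by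
  obtain ⟨hfd, hN, hidx, -, -⟩ := cyc_facts hp2 hR 1
  have hn : NumberField (R 1) := ⟨⟩
  have h1 := discr_sup_dvd F (R 1) (finrank_layer hp2 hR hF 1)
  have h2 : finrank ℚ (R 1) = p := by rw [(hR 1).1, pow_one]
  rw [h2] at h1
  refine (Nat.le_of_dvd ?_ h1).trans ?_
  · refine Nat.mul_pos (pow_pos ?_ _) (pow_pos ?_ _)
    · exact Int.natAbs_pos.2 (discr_ne_zero F)
    · exact Int.natAbs_pos.2 (discr_ne_zero (R 1))
  · refine Nat.mul_le_mul_left _ ?_
    rw [pow_mul]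
    exact Nat.pow_le_pow_left (discr_layer hp2 hR) _

end

end Pool.Agent.H516.DI
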