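import Pool.Agent.H516.Comb2
import Pool.Agent.H516.Bridge
import Pool.Agent.H516.Cyc2

/-! Unramified extensions and the class number: the absolute point of view. -/

set_option autoImplicit false
set_option linter.unusedSectionVars false

namespace Pool.Agent.H516

open Subgroup NumberField Module IntermediateField
open Pool.Agent.Q60.MU Pool.Agent.K4H94.IW

/-- the index of the common kernel of a finite group of characters -/
theorem dual_index {H : Type} [Group H] (S : Subgroup (H →* ℂˣ)) [Finite S] :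
    (⨅ χ : S, (χ : H →* ℂˣ).ker).index = Nat.card S := by
  -- the evaluation
  let ev : H →* (S →* ℂˣ) :=
    { toFun := fun x => { toFun := fun χ => (χ : H →* ℂˣ) x
                          map_one' := rfl
                          map_mul' := fun _ _ => rfl }
      map_one' := by
        ext χ
        simp
      map_mul' := fun x y => by
        ext χ
        simp }
  have hev : ∀ x (χ : S), ev x χ = (χ : H →* ℂˣ) x := fun _ _ => rfl
  have hker : (⨅ χ : S, (χ : H →* ℂˣ).ker) = ev.ker := by
    ext x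
    rw [Subgroup.mem_iInf, MonoidHom.mem_ker]
    constructor
    · intro h
      ext χ
      have := h χ
      rw [MonoidHom.mem_ker] at this
      rw [hev, this]
      rfl
    · intro h χ
      rw [MonoidHom.mem_ker, ← hev, h]
      rfl
  rw [hker, Subgroup.index_ker]
  have hcard := CommGroup.card_monoidHom_of_hasEnoughRootsOfUnity S ℂ
  have hfin : Finite (S →* ℂˣ) := by
    obtain ⟨e⟩ := CommGroup.monoidHom_mulEquiv_of_hasEnoughRootsOfUnity S ℂ
    exact Finite.of_equiv _ e.symm.toEquiv
  apply le_antisymm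
  · rw [← hcard]
    exact Nat.card_le_card_of_injective _ (Subtype.val_injective)
  · have hcard2 := CommGroup.card_monoidHom_of_hasEnoughRootsOfUnity ev.range ℂ
    have hfin2 : Finite (ev.range →* ℂˣ) := by
      obtain ⟨e⟩ := CommGroup.monoidHom_mulEquiv_of_hasEnoughRootsOfUnity ev.range ℂ
      exact Finite.of_equiv _ e.symm.toEquiv
    rw [← hcard2]
    let j : S → (ev.range →* ℂˣ) := fun χ =>
      { toFun := fun f => (f : S →* ℂˣ) χ
        map_one' := rfl
        map_mul' := fun _ _ => rfl }
    refine Nat.card_le_card_of_injective j fun χ ψ h => ?_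
    apply Subtype.ext
    ext x
    have := DFunLike.congr_fun h ⟨ev x, x, rfl⟩
    exact congrArg Units.val this

/-- `Gal(Qb/ℚ)`-side of the divisibility -/
theorem relIndex_dvd (K : IntermediateField ℚ Qb) [FiniteDimensional ℚ K]
    (W : Subgroup Gal(Qb/ℚ)) (hWK : W ≤ fx K) (hWo : IsOpen (W : Set Gal(Qb/ℚ)))
    (hcomm : ∀ a ∈ fx K, ∀ b ∈ fx K, a * b * a⁻¹ * b⁻¹ ∈ W)
    (hodd : Odd (W.relIndex (fx K)))
    (hI : ∀ A : ValuationSubring Qb, ∀ σ ∈ inertia A, σ ∈ fx K → σ ∈ W) :
    W.relIndex (fx K) ∣ Nat.card (ClassGroup (𝓞 K)) := by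
  have hK0 : (fx K).index ≠ 0 := index_ne_zero' K
  have hrel0 : W.relIndex (fx K) ≠ 0 := fun h => by rw [h] at hodd; exact absurd hodd (by decide)
  have hmul := relIndex_mul_index hWK
  have hW0 : W.index ≠ 0 := by
    rw [← hmul]; exact mul_ne_zero hrel0 hK0
  obtain ⟨M, hM⟩ : ∃ M, M = fixedField W := ⟨_, rfl⟩
  have hfix : fx M = W := by rw [hM]; exact fix_fixed hWo
  have hfd : FiniteDimensional ℚ M := by rw [hM]; exact finite_fixed hWo hW0
  have hKM : K ≤ M := by rw [hM]; exact (le_iff_le _ _).2 hWK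
  let L : IntermediateField K Qb := extendScalars hKM
  have hmemL : ∀ x, x ∈ L ↔ x ∈ M := fun x => Iff.rfl
  -- degrees
  have hd1 : finrank ℚ K * finrank K L = finrank ℚ M := by
    rw [← relfinrank_eq_finrank_of_le hKM]
    exact finrank_bot_mul_relfinrank hKM
  have hd2 : finrank K L = W.relIndex (fx K) := by
    have h1 : finrank ℚ K = (fx K).index := by rw [finrank_eq_fixingSubgroup_index]
    have h2 : finrank ℚ M = W.index := by rw [← hfix, finrank_eq_fixingSubgroup_index]
    rw [h1, h2, ← hmul, mul_comm] at hd1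
    exact Nat.eq_of_mul_eq_mul_right (Nat.pos_of_ne_zero hK0) hd1
  have hfdL : FiniteDimensional K L := by
    apply FiniteDimensional.of_finrank_pos
    rw [hd2]
    exact Nat.pos_of_ne_zero hrel0
  have hnfK : NumberField K := ⟨⟩
  have hfdQL : FiniteDimensional ℚ L := FiniteDimensional.trans ℚ K L
  have hnf : NumberField L := ⟨⟩
  -- the lift of an automorphism
  let r : Gal(Qb/K) → Gal(Qb/ℚ) := fun σ => σ.restrictScalars ℚ
  have hr : ∀ σ x, r σ x = σ x := fun _ _ => rfl
  have hrK : ∀ σ, r σ ∈ fx K := by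
    intro σ
    rw [IntermediateField.mem_fixingSubgroup_iff]
    intro x hx
    exact σ.commutes ⟨x, hx⟩
  have hmemfix : ∀ σ : Gal(Qb/K), σ ∈ L.fixingSubgroup ↔ r σ ∈ W := by
    intro σ
    rw [← hfix]
    constructor
    · intro h
      rw [IntermediateField.mem_fixingSubgroup_iff] at h ⊢
      exact fun x hx => h x hx
    · intro h
      rw [IntermediateField.mem_fixingSubgroup_iff] at h ⊢
      exact fun x hx => h x hx
  have hrmul : ∀ a b, r (a * b) = r a * r b := fun _ _ => rfl
  have hrinv : ∀ a, r a⁻¹ = (r a)⁻¹ := fun _ => rfl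
  have hgalK : IsGalois K Qb := inferInstance
  have hnormal : L.fixingSubgroup.Normal := by
    refine ⟨fun x hx g => ?_⟩
    rw [hmemfix] at hx ⊢
    have h1 := hcomm (r g) (hrK g) (r x) (hrK x)
    have h2 := W.mul_mem h1 hx
    rw [inv_mul_cancel_right] at h2
    exact h2
  have hgal : IsGalois K L := (InfiniteGalois.normal_iff_isGalois L).1 hnormal
  have hcard : Nat.card Gal(L/K) = W.relIndex (fx K) := by
    rw [IsGalois.card_aut_eq_finrank, hd2]
  have hcommL : ∀ a b : Gal(L/K), a * b = b * a := by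
    intro a b
    obtain ⟨α, rfl⟩ := AlgEquiv.restrictNormalHom_surjective (F := K) (K₁ := L) Qb a
    obtain ⟨β, rfl⟩ := AlgEquiv.restrictNormalHom_surjective (F := K) (K₁ := L) Qb b
    have h1 : α * β * α⁻¹ * β⁻¹ ∈ L.fixingSubgroup := by
      rw [hmemfix]
      exact hcomm (r α) (hrK α) (r β) (hrK β)
    have h2 : AlgEquiv.restrictNormalHom L (α * β * α⁻¹ * β⁻¹) = 1 := by
      ext x
      have h3 := AlgEquiv.restrictNormal_commutes (α * β * α⁻¹ * β⁻¹) L x
      rw [IntermediateField.mem_fixingSubgroup_iff] at h1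
      exact h3.trans (h1 _ x.2)
    rw [map_mul, map_mul, map_mul, map_inv, map_inv, mul_inv_eq_one, mul_inv_eq_iff_eq_mul] at h2
    exact h2
  have hur : CG.Unr K L := by
    refine BR.bridge L fun P hP τ hτ => ?_
    rw [hmemfix]
    obtain ⟨A, -, h2⟩ := val P hP
    exact hI A (r τ) (h2 (r τ) hτ) (hrK τ)
  have := LC.card_dvd (K := K) (L := L) hur (by rw [hcard]; exact hodd) hcommL
  rwa [hcard] at this

end Pool.Agent.H516
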