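import Pool.Agent.H516.Dual

/-! The largest unramified abelian `p`-extension. -/

set_option autoImplicit false
set_option linter.unusedSectionVars false

namespace Pool.Agent.H516

open Subgroup NumberField Module IntermediateField
open Pool.Agent.Q60.MU Pool.Agent.K4H94.IW

/-- the unramified characters of finite `p`-power order -/
noncomputable def XS (p : ℕ) (N : Subgroup Gal(Qb/ℚ)) : Subgroup (N →* ℂˣ) where
  carrier := {χ | (∃ K : Subgroup Gal(Qb/ℚ), IsOpen (K : Set Gal(Qb/ℚ)) ∧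
      ∀ x : N, x.1 ∈ K → χ x = 1) ∧ (∃ k : ℕ, ∀ x, χ x ^ p ^ k = 1) ∧
      ∀ A, ∀ x : N, x.1 ∈ inertia A → χ x = 1}
  one_mem' := ⟨⟨⊤, isOpen_univ, fun _ _ => rfl⟩, ⟨0, fun _ => by simp⟩, fun _ _ _ => rfl⟩
  mul_mem' := by
    rintro χ ψ ⟨⟨K, hK, hK'⟩, ⟨k, hk⟩, h⟩ ⟨⟨L, hL, hL'⟩, ⟨l, hl⟩, h'⟩
    refine ⟨⟨K ⊓ L, hK.inter hL, fun x hx => ?_⟩, ⟨k + l, fun x => ?_⟩, fun v x hx => ?_⟩
    · rw [MonoidHom.mul_apply, hK' x hx.1, hL' x hx.2, one_mul]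
    · rw [MonoidHom.mul_apply, mul_pow]
      have h1 : χ x ^ p ^ (k + l) = 1 := by rw [pow_add, pow_mul, hk x, one_pow]
      have h2 : ψ x ^ p ^ (k + l) = 1 := by rw [add_comm, pow_add, pow_mul, hl x, one_pow]
      rw [h1, h2, one_mul]
    · rw [MonoidHom.mul_apply, h v x hx, h' v x hx, one_mul]
  inv_mem' := by
    rintro χ ⟨⟨K, hK, hK'⟩, ⟨k, hk⟩, h⟩
    refine ⟨⟨K, hK, fun x hx => ?_⟩, ⟨k, fun x => ?_⟩, fun v x hx => ?_⟩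
    · rw [MonoidHom.inv_apply, hK' x hx, inv_one]
    · rw [MonoidHom.inv_apply, inv_pow, hk x, inv_one]
    · rw [MonoidHom.inv_apply, h v x hx, inv_one]

theorem mem_XS {p : ℕ} {N : Subgroup Gal(Qb/ℚ)} {χ : N →* ℂˣ} : χ ∈ XS p N ↔
    (∃ K : Subgroup Gal(Qb/ℚ), IsOpen (K : Set Gal(Qb/ℚ)) ∧
      ∀ x : N, x.1 ∈ K → χ x = 1) ∧ (∃ k : ℕ, ∀ x, χ x ^ p ^ k = 1) ∧
      ∀ A, ∀ x : N, x.1 ∈ inertia A → χ x = 1 := Iff.rfl

/-- the common kernel -/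
noncomputable def KerS {N : Subgroup Gal(Qb/ℚ)} (S : Subgroup (N →* ℂˣ)) : Subgroup Gal(Qb/ℚ) :=
  (⨅ χ : S, (χ : N →* ℂˣ).ker).map N.subtype

theorem mem_KerS {N : Subgroup Gal(Qb/ℚ)} {S : Subgroup (N →* ℂˣ)} {g : Gal(Qb/ℚ)} :
    g ∈ KerS S ↔ ∃ h : g ∈ N, ∀ χ ∈ S, χ ⟨g, h⟩ = 1 := by
  unfold KerS
  rw [Subgroup.mem_map]
  constructor
  · rintro ⟨x, hx, rfl⟩
    rw [Subgroup.mem_iInf] at hx
    exact ⟨x.2, fun χ hχ => hx ⟨χ, hχ⟩⟩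
  · rintro ⟨h, hχ⟩
    refine ⟨⟨g, h⟩, ?_, rfl⟩
    rw [Subgroup.mem_iInf]
    exact fun χ => hχ χ.1 χ.2

theorem relIndex_KerS {N : Subgroup Gal(Qb/ℚ)} (S : Subgroup (N →* ℂˣ)) [Finite S] :
    (KerS S).relIndex N = Nat.card S := by
  rw [← dual_index S]
  unfold KerS Subgroup.relIndex
  congr 1
  ext x
  rw [Subgroup.mem_subgroupOf, Subgroup.mem_map]
  constructor
  · rintro ⟨y, hy, h⟩
    rwa [← Subtype.ext h]
  · intro hx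
    exact ⟨x, hx, rfl⟩

/-- a finite group of characters in `XS` -/
theorem KerS_isOpen {p : ℕ} {N : Subgroup Gal(Qb/ℚ)} (hN : IsOpen (N : Set Gal(Qb/ℚ)))
    (S : Subgroup (N →* ℂˣ)) [Finite S] (hS : S ≤ XS p N) : IsOpen (KerS S : Set Gal(Qb/ℚ)) := by
  classical
  have hex : ∀ χ : S, ∃ K : Subgroup Gal(Qb/ℚ), IsOpen (K : Set Gal(Qb/ℚ)) ∧
      ∀ x : N, x.1 ∈ K → χ.1 x = 1 := fun χ => (hS χ.2).1
  choose K hK hK' using hex
  have h1 : IsOpen ((N ⊓ ⨅ χ, K χ : Subgroup Gal(Qb/ℚ)) : Set Gal(Qb/ℚ)) := by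
    rw [Subgroup.coe_inf, Subgroup.coe_iInf]
    exact hN.inter (isOpen_iInter_of_finite hK)
  refine Subgroup.isOpen_mono ?_ h1
  rintro g ⟨hg, hg'⟩
  replace hg' := Subgroup.mem_iInf.1 hg'
  exact mem_KerS.2 ⟨hg, fun χ hχ => hK' ⟨χ, hχ⟩ ⟨g, hg⟩ (hg' _)⟩

theorem card_dvd_of_le {p : ℕ} [hp : Fact p.Prime] (hp2 : p ≠ 2)
    (K : IntermediateField ℚ Qb) [FiniteDimensional ℚ K]
    (S : Subgroup (fx K →* ℂˣ)) [Finite S] (hS : S ≤ XS p (fx K)) :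
    Nat.card S ∣ Nat.card (ClassGroup (𝓞 K)) := by
  have hP : IsPGroup p S := by
    rintro ⟨χ, hχ⟩
    obtain ⟨-, ⟨k, hk⟩, -⟩ := hS hχ
    refine ⟨k, Subtype.ext (MonoidHom.ext fun x => ?_)⟩
    rw [SubmonoidClass.coe_pow, MonoidHom.pow_apply]
    exact hk x
  obtain ⟨k, hk⟩ := IsPGroup.iff_card.1 hP
  rw [← relIndex_KerS]
  refine relIndex_dvd K (KerS S) ?_ (KerS_isOpen K.fixingSubgroup_isOpen S hS) ?_ ?_ ?_
  · intro g hg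
    exact (mem_KerS.1 hg).1
  · intro a ha b hb
    refine mem_KerS.2 ⟨mul_mem (mul_mem (mul_mem ha hb) (inv_mem ha)) (inv_mem hb), fun χ _ => ?_⟩
    have h1 : (⟨a * b * a⁻¹ * b⁻¹, mul_mem (mul_mem (mul_mem ha hb) (inv_mem ha)) (inv_mem hb)⟩ :
      fx K) = ⟨a, ha⟩ * ⟨b, hb⟩ * ⟨a, ha⟩⁻¹ * ⟨b, hb⟩⁻¹ := rfl
    rw [h1, map_mul, map_mul, map_mul, map_inv, map_inv, mul_comm (χ ⟨a, ha⟩),
      mul_inv_cancel_right, mul_inv_cancel]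
  · rw [relIndex_KerS, hk]
    exact (hp.1.odd_of_ne_two hp2).pow
  · intro A σ hσ hσK
    exact mem_KerS.2 ⟨hσK, fun χ hχ => (hS hχ).2.2 A ⟨σ, hσK⟩ hσ⟩

theorem finite_XS {p : ℕ} [hp : Fact p.Prime] (hp2 : p ≠ 2)
    (K : IntermediateField ℚ Qb) [FiniteDimensional ℚ K] : Finite (XS p (fx K)) := by
  have hnfK : NumberField K := ⟨⟩
  have hcl : 0 < Nat.card (ClassGroup (𝓞 K)) := Nat.card_pos
  by_contra hinf
  rw [not_finite_iff_infinite] at hinf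
  obtain ⟨T, hT⟩ := Infinite.exists_subset_card_eq (XS p (fx K)) (Nat.card (ClassGroup (𝓞 K)) + 1)
  let H : Subgroup (XS p (fx K)) := Subgroup.closure (T : Set (XS p (fx K)))
  have hfg : Group.FG H := (Group.fg_iff_subgroup_fg H).2 ⟨T, rfl⟩
  have htor : IsMulTorsion H := by
    rintro ⟨⟨χ, hχ⟩, -⟩
    obtain ⟨k, hk⟩ := hχ.2.1
    rw [isOfFinOrder_iff_pow_eq_one]
    refine ⟨p ^ k, pow_pos hp.1.pos k, Subtype.ext (Subtype.ext (MonoidHom.ext fun x => ?_))⟩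
    exact hk x
  have hfinH : Finite H := CommGroup.finite_of_fg_isMulTorsion H htor
  let S : Subgroup (fx K →* ℂˣ) := H.map (XS p (fx K)).subtype
  have hSle : S ≤ XS p (fx K) := by
    rintro _ ⟨χ, -, rfl⟩
    exact χ.2
  let f : H → S := fun x => ⟨x.1.1, x.1, x.2, rfl⟩
  have hfS : Function.Surjective f := by
    rintro ⟨_, χ, hχ, rfl⟩
    exact ⟨⟨χ, hχ⟩, rfl⟩
  have hfinS : Finite S := Finite.of_surjective f hfS
  have h1 := Nat.le_of_dvd hcl (card_dvd_of_le hp2 K S hSle)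
  have h2 : T.card ≤ Nat.card S := by
    let j : T → S := fun x => f ⟨x.1, Subgroup.subset_closure x.2⟩
    have hj : Function.Injective j := by
      intro x y hxy
      have h3 : (j x).1 = (j y).1 := congrArg Subtype.val hxy
      exact Subtype.ext (Subtype.ext h3)
    have h4 := Nat.card_le_card_of_injective j hj
    rwa [Nat.card_eq_fintype_card, Fintype.card_coe] at h4
  omega

theorem card_XS {p : ℕ} [hp : Fact p.Prime] (hp2 : p ≠ 2)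
    (K : IntermediateField ℚ Qb) [FiniteDimensional ℚ K] :
    ∃ e : ℕ, Nat.card (XS p (fx K)) = p ^ e ∧ p ^ e ∣ Nat.card (ClassGroup (𝓞 K)) := by
  have hfin := finite_XS hp2 K
  have hP : IsPGroup p (XS p (fx K)) := by
    rintro ⟨χ, hχ⟩
    obtain ⟨-, ⟨k, hk⟩, -⟩ := hχ
    refine ⟨k, Subtype.ext (MonoidHom.ext fun x => ?_)⟩
    exact hk x
  obtain ⟨k, hk⟩ := IsPGroup.iff_card.1 hP
  refine ⟨k, hk, ?_⟩
  rw [← hk]
  exact card_dvd_of_le hp2 K _ le_rfl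

end Pool.Agent.H516
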