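import Pool.Agent.H516.Dual2

/-! The largest unramified abelian `p`-extension and its degree. -/

set_option autoImplicit false
set_option linter.unusedSectionVars false

namespace Pool.Agent.H516

open Subgroup NumberField Module IntermediateField
open Pool.Agent.Q60.MU Pool.Agent.K4H94.IW

/-- `M / E` is a finite abelian extension of degree `p ^ k`, unramified at all finite primes -/
structure UnrAb (p : ℕ) (E M : IntermediateField ℚ Qb) (k : ℕ) : Prop where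
  le : E ≤ M
  fin : FiniteDimensional ℚ M
  stable : ∀ σ ∈ E.fixingSubgroup, ∀ x ∈ M, σ x ∈ M
  comm : ∀ σ ∈ E.fixingSubgroup, ∀ τ ∈ E.fixingSubgroup, ∀ x ∈ M, σ (τ x) = τ (σ x)
  unr : ∀ A, ∀ σ ∈ inertia A, σ ∈ E.fixingSubgroup → ∀ x ∈ M, σ x = x
  deg : finrank ℚ M = p ^ k * finrank ℚ E

/-- the largest finite abelian unramified `p`-extension of `E` has degree `p ^ e` -/
def HilbExp (p : ℕ) (E : IntermediateField ℚ Qb) (e : ℕ) : Prop :=
  ∃ M, UnrAb p E M e ∧ ∀ M' k, UnrAb p E M' k → M' ≤ M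

theorem HilbExp.unique {p : ℕ} (hp : p.Prime) {E : IntermediateField ℚ Qb}
    [FiniteDimensional ℚ E] {e e' : ℕ}
    (h : HilbExp p E e) (h' : HilbExp p E e') : e = e' := by
  obtain ⟨M, hM, hM'⟩ := h
  obtain ⟨N, hN, hN'⟩ := h'
  have h1 : M = N := le_antisymm (hN' M e hM) (hM' N e' hN)
  have h2 := hM.deg
  rw [h1, hN.deg] at h2
  have h3 : p ^ e' = p ^ e := Nat.eq_of_mul_eq_mul_right (finrank_pos (R := ℚ) (M := E)) h2
  exact (Nat.pow_right_injective hp.two_le h3).symm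

section

variable {p : ℕ} [hp : Fact p.Prime]

/-- the fixing group of an unramified abelian extension contains the common kernel -/
theorem UnrAb.ker_le {E M : IntermediateField ℚ Qb} [FiniteDimensional ℚ E] {k : ℕ}
    (h : UnrAb p E M k) : KerS (XS p (fx E)) ≤ fx M := by
  classical
  have hWE : fx M ≤ fx E := fixingSubgroup_le h.le
  have hfd := h.fin
  have hM0 := index_ne_zero' M
  have hE0 := index_ne_zero' E
  have hmul := relIndex_mul_index hWE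
  have hn : ((fx M).subgroupOf (fx E)).Normal := by
    refine ⟨fun x hx g => ?_⟩
    rw [Subgroup.mem_subgroupOf] at hx ⊢
    show g.1 * x.1 * g.1⁻¹ ∈ fx M
    rw [IntermediateField.mem_fixingSubgroup_iff] at hx ⊢
    intro y hy
    have h1 := hx _ (h.stable _ (inv_mem g.2) y hy)
    show g.1 (x.1 (g.1⁻¹ y)) = y
    rw [h1, ← AlgEquiv.mul_apply, mul_inv_cancel, AlgEquiv.one_apply]
  have hQ : Nat.card (fx E ⧸ (fx M).subgroupOf (fx E)) = p ^ k := by
    have h1 : Nat.card (fx E ⧸ (fx M).subgroupOf (fx E)) = (fx M).relIndex (fx E) := rfl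
    have h2 := h.deg
    have h3 : finrank ℚ M = (fx M).index := by rw [finrank_eq_fixingSubgroup_index]
    have h4 : finrank ℚ E = (fx E).index := by rw [finrank_eq_fixingSubgroup_index]
    rw [h3, h4, ← hmul] at h2
    rw [h1]
    exact Nat.eq_of_mul_eq_mul_right (Nat.pos_of_ne_zero hE0) h2
  have hfin : Finite (fx E ⧸ (fx M).subgroupOf (fx E)) :=
    Nat.finite_of_card_ne_zero (by rw [hQ]; exact pow_ne_zero _ hp.1.ne_zero)
  have hcomm : ∀ a b : fx E ⧸ (fx M).subgroupOf (fx E), a * b = b * a := by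
    intro a b
    obtain ⟨x, rfl⟩ := QuotientGroup.mk'_surjective _ a
    obtain ⟨y, rfl⟩ := QuotientGroup.mk'_surjective _ b
    rw [← map_mul, ← map_mul]
    refine (QuotientGroup.eq).2 ?_
    rw [Subgroup.mem_subgroupOf]
    show (x.1 * y.1)⁻¹ * (y.1 * x.1) ∈ fx M
    rw [IntermediateField.mem_fixingSubgroup_iff]
    intro z hz
    have h1 := h.comm y.1 y.2 x.1 x.2 z hz
    rw [AlgEquiv.mul_apply, AlgEquiv.mul_apply, h1, ← AlgEquiv.mul_apply x.1, ← AlgEquiv.mul_apply,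
      inv_mul_cancel, AlgEquiv.one_apply]
  let _ : CommGroup (fx E ⧸ (fx M).subgroupOf (fx E)) :=
    { (inferInstance : Group (fx E ⧸ (fx M).subgroupOf (fx E))) with mul_comm := hcomm }
  intro g hg
  obtain ⟨hgE, hg1⟩ := mem_KerS.1 hg
  by_contra hgM
  have hne : QuotientGroup.mk' ((fx M).subgroupOf (fx E)) ⟨g, hgE⟩ ≠ 1 := by
    intro h1
    have h2 := (QuotientGroup.eq_one_iff (⟨g, hgE⟩ : fx E)).1 h1
    rw [Subgroup.mem_subgroupOf] at h2
    exact hgM h2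
  obtain ⟨φ, hφ⟩ := CommGroup.exists_apply_ne_one_of_hasEnoughRootsOfUnity
    (fx E ⧸ (fx M).subgroupOf (fx E)) ℂ hne
  refine hφ (hg1 (φ.comp (QuotientGroup.mk' ((fx M).subgroupOf (fx E)))) ?_)
  have h0 : ∀ x : fx E, x.1 ∈ fx M → φ.comp (QuotientGroup.mk' ((fx M).subgroupOf (fx E))) x = 1 := by
    intro x hx
    rw [MonoidHom.comp_apply, QuotientGroup.mk'_apply, (QuotientGroup.eq_one_iff x).2 hx, map_one]
  refine ⟨⟨fx M, M.fixingSubgroup_isOpen, h0⟩, ⟨k, fun x => ?_⟩, fun A x hx => h0 x ?_⟩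
  · rw [← map_pow, ← hQ, MonoidHom.comp_apply, map_pow, pow_card_eq_one', map_one]
  · rw [IntermediateField.mem_fixingSubgroup_iff]
    exact fun y hy => h.unr A x.1 hx x.2 y hy

theorem exists_hilbExp (hp2 : p ≠ 2) (E : IntermediateField ℚ Qb) [FiniteDimensional ℚ E] :
    ∃ e : ℕ, HilbExp p E e ∧ Nat.card (XS p (fx E)) = p ^ e ∧
      p ^ e ∣ Nat.card (ClassGroup (𝓞 E)) := by
  obtain ⟨e, he, hdvd⟩ := card_XS hp2 E
  have hfin := finite_XS hp2 E
  refine ⟨e, ?_, he, hdvd⟩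
  obtain ⟨W, hW⟩ : ∃ W, W = KerS (XS p (fx E)) := ⟨_, rfl⟩
  have hWo : IsOpen (W : Set Gal(Qb/ℚ)) := by
    rw [hW]
    exact KerS_isOpen E.fixingSubgroup_isOpen _ le_rfl
  have hWE : W ≤ fx E := by
    rw [hW]
    intro g hg
    exact (mem_KerS.1 hg).1
  have hrel : W.relIndex (fx E) = p ^ e := by
    rw [hW, relIndex_KerS, he]
  have hE0 := index_ne_zero' E
  have hmul := relIndex_mul_index hWE
  have hW0 : W.index ≠ 0 := by
    rw [← hmul, hrel]
    exact mul_ne_zero (pow_ne_zero _ hp.1.ne_zero) hE0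
  have hfix := fix_fixed hWo
  have hEM : E ≤ fixedField W := (le_iff_le _ _).2 hWE
  have hfd := finite_fixed hWo hW0
  have hmem : ∀ x, x ∈ fixedField W ↔ ∀ w ∈ W, w x = x := fun x => mem_fixedField_iff _ _
  have hcj : ∀ a ∈ fx E, ∀ w ∈ W, a * w * a⁻¹ ∈ W := by
    intro a ha w hw
    rw [hW] at hw ⊢
    obtain ⟨hwE, hw1⟩ := mem_KerS.1 hw
    refine mem_KerS.2 ⟨mul_mem (mul_mem ha hwE) (inv_mem ha), fun χ hχ => ?_⟩
    have h1 : (⟨a * w * a⁻¹, mul_mem (mul_mem ha hwE) (inv_mem ha)⟩ : fx E) =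
      ⟨a, ha⟩ * ⟨w, hwE⟩ * ⟨a, ha⟩⁻¹ := rfl
    rw [h1, map_mul, map_mul, map_inv, hw1 χ hχ, mul_one, mul_inv_cancel]
  have hcm : ∀ a ∈ fx E, ∀ b ∈ fx E, a * b * a⁻¹ * b⁻¹ ∈ W := by
    intro a ha b hb
    rw [hW]
    refine mem_KerS.2 ⟨mul_mem (mul_mem (mul_mem ha hb) (inv_mem ha)) (inv_mem hb), fun χ _ => ?_⟩
    have h1 : (⟨a * b * a⁻¹ * b⁻¹, mul_mem (mul_mem (mul_mem ha hb) (inv_mem ha)) (inv_mem hb)⟩ :
      fx E) = ⟨a, ha⟩ * ⟨b, hb⟩ * ⟨a, ha⟩⁻¹ * ⟨b, hb⟩⁻¹ := rfl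
    rw [h1, map_mul, map_mul, map_mul, map_inv, map_inv, mul_comm (χ ⟨a, ha⟩),
      mul_inv_cancel_right, mul_inv_cancel]
  refine ⟨fixedField W, ⟨hEM, hfd, ?_, ?_, ?_, ?_⟩, ?_⟩
  · intro σ hσ x hx
    rw [hmem] at hx ⊢
    intro w hw
    have h1 := hcj _ (inv_mem hσ) w hw
    have h2 : w (σ x) = σ ((σ⁻¹ * w * σ⁻¹⁻¹) x) := by
      rw [← AlgEquiv.mul_apply, ← AlgEquiv.mul_apply]
      congr 1
      group
    rw [h2, hx _ h1]
  · intro σ hσ τ hτ x hx
    rw [hmem] at hx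
    have h1 := hcm _ (inv_mem hσ) _ (inv_mem hτ)
    have h2 : σ (τ x) = τ (σ ((σ⁻¹ * τ⁻¹ * σ⁻¹⁻¹ * τ⁻¹⁻¹) x)) := by
      rw [← AlgEquiv.mul_apply, ← AlgEquiv.mul_apply, ← AlgEquiv.mul_apply]
      congr 1
      group
    rw [h2, hx _ h1]
  · intro A σ hσA hσ x hx
    rw [hmem] at hx
    refine hx σ ?_
    rw [hW]
    exact mem_KerS.2 ⟨hσ, fun χ hχ => hχ.2.2 A ⟨σ, hσ⟩ hσA⟩
  · have h3 : finrank ℚ (fixedField W) = W.index := by
      rw [finrank_eq_fixingSubgroup_index, hfix]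
    have h4 : finrank ℚ E = (fx E).index := by rw [finrank_eq_fixingSubgroup_index]
    rw [h3, h4, ← hmul, hrel]
  · intro M' k hM'
    have h1 := hM'.ker_le
    rw [← hW] at h1
    exact (le_iff_le W M').2 h1

end

end Pool.Agent.H516
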