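import Pool.Graph.R_seed8.H484R2.Zeta
import Pool.Graph.R_seed8.H921R2.TatePole.BaseChange

/-! Euler products over the ideals of a number field. -/

set_option autoImplicit false
set_option linter.unusedSectionVars false

namespace Pool.Agent.H516.EP

open NumberField IsDedekindDomain Filter Topology Pool.Agent.H484R2 Pool.Agent.H921R2.TatePole
open Ideal (absNorm)

section
variable {K : Type} [Field K] [NumberField K]

/-- the product of a nonzero ideal and a prime -/
noncomputable def pm (v : HeightOneSpectrum (𝓞 K)) (I : NZI K) : NZI K :=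
  ⟨v.asIdeal * I.1, mul_ne_zero v.ne_bot I.2⟩

/-- a prime as nonzero ideal -/
noncomputable def pr (v : HeightOneSpectrum (𝓞 K)) : NZI K := ⟨v.asIdeal, v.ne_bot⟩

/-- the unit ideal -/
def one' : NZI K := ⟨⊤, top_ne_bot⟩

/-- the ideal is prime to the primes in `F` -/
def Cop (F : Finset (HeightOneSpectrum (𝓞 K))) (I : NZI K) : Prop :=
  ∀ v ∈ F, ¬ v.asIdeal ∣ I.1

theorem cop_pm {F : Finset (HeightOneSpectrum (𝓞 K))} {v : HeightOneSpectrum (𝓞 K)} (hv : v ∉ F)
    (I : NZI K) : Cop F (pm v I) ↔ Cop F I := by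
  constructor
  · intro h u hu hd
    exact h u hu (hd.mul_left _)
  · intro h u hu hd
    rcases u.prime.dvd_or_dvd hd with h1 | h1
    · apply hv
      have : u = v := HeightOneSpectrum.ext (associated_iff_eq.mp (u.prime.associated_of_dvd v.prime h1))
      exact this ▸ hu
    · exact h u hu h1

theorem pm_injective (v : HeightOneSpectrum (𝓞 K)) : Function.Injective (pm v) := by
  intro I J h
  have h1 : v.asIdeal * I.1 = v.asIdeal * J.1 := congrArg Subtype.val h
  exact Subtype.ext (mul_left_cancel₀ v.ne_bot h1)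

theorem range_pm (v : HeightOneSpectrum (𝓞 K)) (I : NZI K) : I ∈ Set.range (pm v) ↔ v.asIdeal ∣ I.1 := by
  constructor
  · rintro ⟨J, rfl⟩
    exact dvd_mul_right _ _
  · rintro ⟨J, hJ⟩
    refine ⟨⟨J, ?_⟩, Subtype.ext hJ.symm⟩
    rintro rfl
    rw [Ideal.mul_bot] at hJ
    exact I.2 hJ

variable {f : NZI K → ℂ}

open scoped Classical in
/-- restriction to a set of ideals -/
noncomputable def cut (P : NZI K → Prop) (f : NZI K → ℂ) (I : NZI K) : ℂ := if P I then f I else 0

theorem cut_pos {P : NZI K → Prop} {I : NZI K} (h : P I) : cut P f I = f I := if_pos h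
theorem cut_neg {P : NZI K → Prop} {I : NZI K} (h : ¬ P I) : cut P f I = 0 := if_neg h

theorem cut_norm_le (P : NZI K → Prop) (I : NZI K) : ‖cut P f I‖ ≤ ‖f I‖ := by
  by_cases h : P I
  · rw [cut_pos h]
  · rw [cut_neg h, norm_zero]; exact norm_nonneg _

theorem cut_summable (hs : Summable f) (P : NZI K → Prop) : Summable (cut P f) :=
  Summable.of_norm_bounded hs.norm fun I => cut_norm_le P I

/-- the sum over the ideals prime to `F` -/
noncomputable def T (f : NZI K → ℂ) (F : Finset (HeightOneSpectrum (𝓞 K))) : ℂ :=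
  ∑' I : NZI K, cut (Cop F) f I

theorem T_insert (hs : Summable f) (hm : ∀ v I, f (pm v I) = f (pr v) * f I)
    {F : Finset (HeightOneSpectrum (𝓞 K))} {v : HeightOneSpectrum (𝓞 K)} (hv : v ∉ F)
    [DecidableEq (HeightOneSpectrum (𝓞 K))] :
    T f (insert v F) = T f F * (1 - f (pr v)) := by
  have h1 : T f F = T f (insert v F) +
      ∑' I : NZI K, cut (fun I => Cop F I ∧ v.asIdeal ∣ I.1) f I := by
    unfold T
    rw [← (cut_summable hs _).tsum_add (cut_summable hs _)]
    refine tsum_congr fun I => ?_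
    by_cases h : Cop F I
    · by_cases h2 : v.asIdeal ∣ I.1
      · have h3 : ¬ Cop (insert v F) I := fun h3 => h3 v (Finset.mem_insert_self v F) h2
        rw [cut_pos h, cut_neg h3, cut_pos ⟨h, h2⟩, zero_add]
      · have h3 : Cop (insert v F) I := by
          intro u hu
          rcases Finset.mem_insert.mp hu with rfl | hu
          · exact h2
          · exact h u hu
        rw [cut_pos h, cut_pos h3, cut_neg (fun h4 => h2 h4.2), add_zero]
    · have h3 : ¬ Cop (insert v F) I := fun h3 => h fun u hu => h3 u (Finset.mem_insert_of_mem hu)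
      rw [cut_neg h, cut_neg h3, cut_neg (fun h4 => h h4.1), add_zero]
  have h2 : (∑' I : NZI K, cut (fun I => Cop F I ∧ v.asIdeal ∣ I.1) f I) = f (pr v) * T f F := by
    rw [← (pm_injective v).tsum_eq]
    · unfold T
      rw [← tsum_mul_left]
      refine tsum_congr fun I => ?_
      have h3 : v.asIdeal ∣ (pm v I).1 := dvd_mul_right _ _
      by_cases h : Cop F I
      · rw [cut_pos ⟨(cop_pm hv I).mpr h, h3⟩, cut_pos h, hm]
      · rw [cut_neg (fun h4 => h ((cop_pm hv I).mp h4.1)), cut_neg h, mul_zero]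
    · intro I hI
      rw [range_pm]
      by_contra h
      exact hI (cut_neg fun h4 => h h4.2)
  rw [h2] at h1
  linear_combination -h1

theorem T_eq (hs : Summable f) (hm : ∀ v I, f (pm v I) = f (pr v) * f I)
    (F : Finset (HeightOneSpectrum (𝓞 K))) :
    T f F = (∑' I, f I) * ∏ v ∈ F, (1 - f (pr v)) := by
  classical
  induction F using Finset.induction_on with
  | empty =>
    unfold T
    rw [Finset.prod_empty, mul_one]
    refine tsum_congr fun I => ?_
    rw [cut_pos]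
    intro v hv
    exact absurd hv (Finset.notMem_empty v)
  | insert v F hv ih =>
    rw [T_insert hs hm hv, ih, Finset.prod_insert hv]
    ring

/-- the primes dividing an ideal -/
theorem exists_dvd {I : NZI K} (hI : I ≠ one') : ∃ v : HeightOneSpectrum (𝓞 K), v.asIdeal ∣ I.1 := by
  have h1 : I.1 ≠ ⊤ := fun h => hI (Subtype.ext h)
  obtain ⟨M, hM, hle⟩ := Ideal.exists_le_maximal I.1 h1
  have hM0 : M ≠ ⊥ := fun h => I.2 (le_bot_iff.mp (h ▸ hle))
  exact ⟨⟨M, hM.isPrime, hM0⟩, Ideal.dvd_iff_le.mpr hle⟩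

theorem T_tendsto (hs : Summable f) (h1 : f one' = 1) :
    Tendsto (T f) atTop (𝓝 1) := by
  classical
  rw [Metric.tendsto_atTop]
  intro ε hε
  have hn := hs.norm
  -- a finite set carrying almost all the sum
  obtain ⟨A, hA⟩ := (summable_iff_vanishing_norm.mp hn) (ε / 2) (half_pos hε)
  -- primes
  have hch : ∀ I : NZI K, ∃ v : HeightOneSpectrum (𝓞 K), I ≠ one' → v.asIdeal ∣ I.1 := by
    intro I
    by_cases hI : I = one'
    · obtain ⟨M, hM⟩ := Ideal.exists_maximal (𝓞 K)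
      have hM0 : M ≠ ⊥ := Ring.ne_bot_of_isMaximal_of_not_isField hM (RingOfIntegers.not_isField K)
      exact ⟨⟨M, hM.isPrime, hM0⟩, fun h => absurd hI h⟩
    · obtain ⟨v, hv⟩ := exists_dvd hI
      exact ⟨v, fun _ => hv⟩
  choose v hv using hch
  refine ⟨A.image v, fun F hF => ?_⟩
  have h2 : T f F = 1 + ∑' I : NZI K, cut (fun I => Cop F I ∧ I ≠ one') f I := by
    have h3 : (∑' I : NZI K, cut (fun I => I = one') f I) = 1 := by
      rw [tsum_eq_single one' (fun I hI => cut_neg (P := fun I => I = one') hI),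
        cut_pos (P := fun I => I = one') rfl, h1]
    rw [← h3]
    unfold T
    rw [← (cut_summable hs _).tsum_add (cut_summable hs _)]
    refine tsum_congr fun I => ?_
    by_cases hI : I = one'
    · have h4 : Cop F I := by
        intro u _ hd
        rw [hI] at hd
        have h5 : u.asIdeal = ⊤ := Ideal.isUnit_iff.mp (isUnit_of_dvd_one (by
          rw [Ideal.one_eq_top]; exact hd))
        exact u.isPrime.ne_top h5
      rw [cut_pos h4, cut_pos (P := fun I => I = one') hI, cut_neg (fun h => h.2 hI), add_zero]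
    · rw [cut_neg (P := fun I => I = one') hI, zero_add]
      by_cases h4 : Cop F I
      · rw [cut_pos h4, cut_pos ⟨h4, hI⟩]
      · rw [cut_neg h4, cut_neg (fun h => h4 h.1)]
  rw [h2, dist_eq_norm, add_sub_cancel_left]
  have h3 := (cut_summable hs (fun I => Cop F I ∧ I ≠ one')).norm
  refine lt_of_le_of_lt (norm_tsum_le_tsum_norm h3) (lt_of_le_of_lt ?_ (half_lt_self hε))
  refine h3.tsum_le_of_sum_le fun S => ?_
  have h4 : ∑ I ∈ S, ‖cut (fun I => Cop F I ∧ I ≠ one') f I‖ =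
      ∑ I ∈ S \ A, ‖cut (fun I => Cop F I ∧ I ≠ one') f I‖ := by
    symm
    refine Finset.sum_subset Finset.sdiff_subset fun I hI hI' => ?_
    have hIA : I ∈ A := by
      by_contra h
      exact hI' (Finset.mem_sdiff.mpr ⟨hI, h⟩)
    rw [cut_neg, norm_zero]
    rintro ⟨h5, h6⟩
    exact h5 (v I) (hF (Finset.mem_image_of_mem v hIA)) (hv I h6)
  rw [h4]
  have h5 := hA (S \ A) Finset.sdiff_disjoint
  rw [Real.norm_eq_abs] at h5
  calc ∑ I ∈ S \ A, ‖cut (fun I => Cop F I ∧ I ≠ one') f I‖ ≤ ∑ I ∈ S \ A, ‖f I‖ :=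
        Finset.sum_le_sum fun I _ => cut_norm_le _ I
    _ ≤ |∑ I ∈ S \ A, ‖f I‖| := le_abs_self _
    _ ≤ ε / 2 := h5.le

/-- **Euler product** -/
theorem euler (hs : Summable f) (h1 : f one' = 1) (hm : ∀ v I, f (pm v I) = f (pr v) * f I) :
    Tendsto (fun F : Finset (HeightOneSpectrum (𝓞 K)) => (∑' I, f I) * ∏ v ∈ F, (1 - f (pr v)))
      atTop (𝓝 1) :=
  (T_tendsto hs h1).congr fun F => T_eq hs hm F

end

section
variable {K : Type} [Field K] [NumberField K]

/-- the sum over the ideals of a class function -/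
noncomputable def Ls (ψ : ClassGroup (𝓞 K) → ℂ) (s : ℂ) : ℂ :=
  ∑' I : NZI K, ψ (cls K I) * (absNorm I.1 : ℂ) ^ (-s)

theorem absNorm_ne_zero' (I : NZI K) : (absNorm I.1 : ℂ) ≠ 0 := by
  rw [Nat.cast_ne_zero, Ne, Ideal.absNorm_eq_zero_iff]
  exact I.2

theorem cls_pm (v : HeightOneSpectrum (𝓞 K)) (I : NZI K) :
    cls K (pm v I) = cls K (pr v) * cls K I := by
  unfold cls
  rw [← map_mul]
  rfl

theorem cls_one : cls K (one' : NZI K) = 1 := by
  unfold cls
  rw [ClassGroup.mk0_eq_one_iff]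
  exact ⟨⟨1, by rw [Ideal.submodule_span_eq, Ideal.span_singleton_one]; rfl⟩⟩

theorem Ls_summable (ψ : ClassGroup (𝓞 K) → ℂ) (hψ : ∀ c, ‖ψ c‖ ≤ 1) {s : ℂ} (hs : 1 < s.re) :
    Summable fun I : NZI K => ψ (cls K I) * (absNorm I.1 : ℂ) ^ (-s) := by
  refine Summable.of_norm_bounded (hasSum_ideals K hs).summable.norm fun I => ?_
  rw [norm_mul]
  exact mul_le_of_le_one_left (norm_nonneg _) (hψ _)

theorem Ls_eq_kL (ψ : ClassGroup (𝓞 K) →* ℂ) (hψ : ∀ c, ‖ψ c‖ ≤ 1) {x : ℝ} (hx : 1 < x) :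
    Ls ψ (x : ℂ) = kL (J := Fin 1) (fun v _ => ψ (cls K (pr v))) (x : ℂ) := by
  have hx' : 1 < ((x : ℂ)).re := by simpa using hx
  have h1 := euler (f := fun I : NZI K => ψ (cls K I) * (absNorm I.1 : ℂ) ^ (-(x : ℂ)))
    (Ls_summable ψ hψ hx') (by
      rw [cls_one, map_one, one_mul]
      show ((absNorm (⊤ : Ideal (𝓞 K)) : ℕ) : ℂ) ^ (-(x : ℂ)) = 1
      rw [Ideal.absNorm_top, Nat.cast_one, Complex.one_cpow]) (by
      intro v I
      rw [cls_pm, map_mul]
      have e1 : absNorm (pm v I).1 = absNorm v.asIdeal * absNorm I.1 := map_mul _ _ _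
      rw [e1, Nat.cast_mul, Complex.natCast_mul_natCast_cpow]
      show _ = ψ (cls K (pr v)) * ((absNorm v.asIdeal : ℕ) : ℂ) ^ (-(x : ℂ)) * _
      ring)
  have hc : ∀ (v : HeightOneSpectrum (𝓞 K)) (_ : Fin 1), ‖ψ (cls K (pr v))‖ ≤ 1 := fun v _ => hψ _
  obtain ⟨hne, _⟩ := kL_log (J := Fin 1) hc hx
  have h2 := (kL_multipliable (J := Fin 1) hc hx').hasProd
  have h3 : Tendsto (fun F : Finset (HeightOneSpectrum (𝓞 K)) =>
      ∏ v ∈ F, (1 - ψ (cls K (pr v)) * (absNorm v.asIdeal : ℂ) ^ (-(x : ℂ)))⁻¹) atTop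
      (𝓝 (kL (J := Fin 1) (fun v _ => ψ (cls K (pr v))) (x : ℂ))) := by
    refine Tendsto.congr (fun F => ?_) h2
    refine Finset.prod_congr rfl fun v _ => ?_
    simp only [Finset.univ_unique, Fin.default_eq_zero, Finset.prod_const, Finset.card_singleton,
      pow_one]
    rfl
  have h4 := h1.mul h3
  rw [one_mul] at h4
  have h5 : ∀ F : Finset (HeightOneSpectrum (𝓞 K)),
      (∑' I : NZI K, ψ (cls K I) * (absNorm I.1 : ℂ) ^ (-(x : ℂ))) *
        (∏ v ∈ F, (1 - ψ (cls K (pr v)) * (absNorm (pr v).1 : ℂ) ^ (-(x : ℂ)))) *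
        ∏ v ∈ F, (1 - ψ (cls K (pr v)) * (absNorm v.asIdeal : ℂ) ^ (-(x : ℂ)))⁻¹ =
      ∑' I : NZI K, ψ (cls K I) * (absNorm I.1 : ℂ) ^ (-(x : ℂ)) := by
    intro F
    rw [mul_assoc, ← Finset.prod_mul_distrib, Finset.prod_eq_one, mul_one]
    intro v _
    exact mul_inv_cancel₀ ((kL_aux (J := Fin 1) hc hx').2.2 v 0)
  have h6 : Tendsto (fun _ : Finset (HeightOneSpectrum (𝓞 K)) =>
      ∑' I : NZI K, ψ (cls K I) * (absNorm I.1 : ℂ) ^ (-(x : ℂ))) atTop
      (𝓝 (kL (J := Fin 1) (fun v _ => ψ (cls K (pr v))) (x : ℂ))) := h4.congr h5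
  exact tendsto_nhds_unique tendsto_const_nhds h6

end

end Pool.Agent.H516.EP
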