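import Mathlib

/-!
# Extension of characters over a cyclic quotient
-/

set_option autoImplicit false

namespace Pool.Agent.H516

open Subgroup

variable {𝔾 : Type} [Group 𝔾]

open Classical in
/-- a character of a subgroup as a function on the group -/
noncomputable def fn {A : Type} [CommGroup A] {H : Subgroup 𝔾} (χ : H →* A) (x : 𝔾) : A :=
  if h : x ∈ H then χ ⟨x, h⟩ else 1

theorem fn_of {A : Type} [CommGroup A] {H : Subgroup 𝔾} (χ : H →* A) {x : 𝔾} (h : x ∈ H) :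
    fn χ x = χ ⟨x, h⟩ := dif_pos h

theorem fn_mul {A : Type} [CommGroup A] {H : Subgroup 𝔾} (χ : H →* A) {x y : 𝔾} (hx : x ∈ H)
    (hy : y ∈ H) : fn χ (x * y) = fn χ x * fn χ y := by
  rw [fn_of χ hx, fn_of χ hy, fn_of χ (H.mul_mem hx hy), ← map_mul]
  rfl

theorem fn_one {A : Type} [CommGroup A] {H : Subgroup 𝔾} (χ : H →* A) : fn χ 1 = 1 := by
  rw [fn_of χ H.one_mem]
  exact map_one χ

theorem fn_inv {A : Type} [CommGroup A] {H : Subgroup 𝔾} (χ : H →* A) {x : 𝔾} (hx : x ∈ H) :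
    fn χ x⁻¹ = (fn χ x)⁻¹ := by
  rw [fn_of χ hx, fn_of χ (H.inv_mem hx), ← map_inv]
  rfl

theorem fn_zpow {A : Type} [CommGroup A] {H : Subgroup 𝔾} (χ : H →* A) {x : 𝔾} (hx : x ∈ H)
    (k : ℤ) : fn χ (x ^ k) = fn χ x ^ k := by
  rw [fn_of χ hx, fn_of χ (H.zpow_mem hx k), ← map_zpow]
  rfl

theorem fn_pow {A : Type} [CommGroup A] {H : Subgroup 𝔾} (χ : H →* A) {x : 𝔾} (hx : x ∈ H)
    (k : ℕ) : fn χ (x ^ k) = fn χ x ^ k := by
  rw [← zpow_natCast, fn_zpow χ hx, zpow_natCast]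

theorem fn_conj {A : Type} [CommGroup A] {H : Subgroup 𝔾} (χ : H →* A) {x y : 𝔾} (hx : x ∈ H)
    (hy : y ∈ H) : fn χ (x * y * x⁻¹) = fn χ y := by
  rw [fn_mul χ (H.mul_mem hx hy) (H.inv_mem hx), fn_mul χ hx hy, fn_inv χ hx]
  rw [mul_comm, inv_mul_cancel_left]

/-- **Extension of a character.** -/
theorem exists_ext {A : Type} [CommGroup A] {H' H : Subgroup 𝔾} (hle : H' ≤ H) {g : 𝔾}
    (hg : g ∈ H) (hgen : ∀ x ∈ H, ∃ i : ℤ, g ^ i * x ∈ H')
    (hn : ∀ y ∈ H, ∀ x ∈ H', y * x * y⁻¹ ∈ H') (χ : H' →* A)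
    (hinv : ∀ x ∈ H', fn χ (g * x * g⁻¹) = fn χ x)
    (hk : ∀ k : ℤ, g ^ k ∈ H' → fn χ (g ^ k) = 1) :
    ∃ χ' : H →* A, (∀ x ∈ H', fn χ' x = fn χ x) ∧ fn χ' g = 1 := by
  -- invariance under powers
  have hinv' : ∀ k : ℤ, ∀ x ∈ H', fn χ (g ^ k * x * (g ^ k)⁻¹) = fn χ x := by
    have h1 : ∀ k : ℕ, ∀ x ∈ H', fn χ (g ^ k * x * (g ^ k)⁻¹) = fn χ x := by
      intro k
      induction k with
      | zero => intro x _; simp
      | succ k ih =>
        intro x hx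
        have h2 : g ^ (k + 1) * x * (g ^ (k + 1))⁻¹ = g * (g ^ k * x * (g ^ k)⁻¹) * g⁻¹ := by
          rw [pow_succ']
          group
        rw [h2, hinv _ (hn _ (H.pow_mem hg k) x hx), ih x hx]
    intro k x hx
    obtain ⟨n, rfl | rfl⟩ := k.eq_nat_or_neg
    · rw [zpow_natCast]
      exact h1 n x hx
    · rw [zpow_neg, zpow_natCast, inv_inv]
      have h3 : (g ^ n)⁻¹ * x * g ^ n ∈ H' := by
        have := hn _ (H.inv_mem (H.pow_mem hg n)) x hx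
        rwa [inv_inv] at this
      have h4 := h1 n _ h3
      rw [← h4]
      congr 1
      group
  -- independence of the choice
  have hwell : ∀ x ∈ H, ∀ i j : ℤ, g ^ i * x ∈ H' → g ^ j * x ∈ H' →
      fn χ (g ^ i * x) = fn χ (g ^ j * x) := by
    intro x hx i j hi hj
    have h1 : g ^ (i - j) ∈ H' := by
      have h2 := H'.mul_mem hi (H'.inv_mem hj)
      have h3 : g ^ i * x * (g ^ j * x)⁻¹ = g ^ (i - j) := by
        rw [zpow_sub]
        group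
      rwa [h3] at h2
    have h4 : g ^ i * x = g ^ (i - j) * (g ^ j * x) := by
      rw [zpow_sub]
      group
    rw [h4, fn_mul χ h1 hj, hk _ h1, one_mul]
  choose i hi using hgen
  let F : H → A := fun x => fn χ (g ^ i x.1 x.2 * x.1)
  have hF : ∀ (x : 𝔾) (hx : x ∈ H) (j : ℤ), g ^ j * x ∈ H' → F ⟨x, hx⟩ = fn χ (g ^ j * x) :=
    fun x hx j hj => hwell x hx _ _ (hi x hx) hj
  have hFmul : ∀ x y : H, F (x * y) = F x * F y := by
    rintro ⟨x, hx⟩ ⟨y, hy⟩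
    have h1 := hi x hx
    have h2 := hi y hy
    -- `x = g^{-a} u`, `y = g^{-b} v`
    obtain ⟨a, ha⟩ : ∃ a, a = i x hx := ⟨_, rfl⟩
    obtain ⟨b, hb⟩ : ∃ b, b = i y hy := ⟨_, rfl⟩
    rw [← ha] at h1
    rw [← hb] at h2
    have h3 : g ^ (a + b) * (x * y) =
        (g ^ b * (g ^ a * x) * (g ^ b)⁻¹) * (g ^ b * y) := by
      rw [zpow_add, ← zpow_add, add_comm, zpow_add]
      group
    have h4 : g ^ b * (g ^ a * x) * (g ^ b)⁻¹ ∈ H' := hn _ (H.zpow_mem hg b) _ h1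
    have h5 : g ^ (a + b) * (x * y) ∈ H' := by
      rw [h3]
      exact H'.mul_mem h4 h2
    have h6 : F (⟨x, hx⟩ * ⟨y, hy⟩) = fn χ (g ^ (a + b) * (x * y)) :=
      hF (x * y) (H.mul_mem hx hy) (a + b) h5
    rw [h6, h3, fn_mul χ h4 h2, hinv' b _ h1, hF x hx a h1, hF y hy b h2]
  have hF1 : F 1 = 1 := by
    have h1 := hF 1 H.one_mem 0 (by simp)
    have h2 : F 1 = fn χ (g ^ (0 : ℤ) * 1) := h1
    rw [h2]
    simpa using fn_one χ
  refine ⟨⟨⟨F, hF1⟩, hFmul⟩, ?_, ?_⟩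
  · intro x hx
    rw [fn_of _ (hle hx)]
    have h1 := hF x (hle hx) 0 (by simpa using hx)
    rw [zpow_zero, one_mul] at h1
    exact h1
  · rw [fn_of _ hg]
    have h1 := hF g hg (-1) (by simp)
    have h2 : g ^ (-1 : ℤ) * g = 1 := by simp
    rw [h2, fn_one] at h1
    exact h1

end Pool.Agent.H516
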