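import Mathlib

/-! Index arithmetic for two endomorphisms of a commutative group (Herbrand quotient). -/

set_option autoImplicit false

namespace Pool.Agent.H516

section
variable {A A' : Type} [CommGroup A] [CommGroup A']

/-- the index of a subgroup and its image and kernel -/
theorem index_map_ker (f : A →* A') (B : Subgroup A) :
    B.index = (B.map f).relIndex f.range * B.relIndex f.ker := by
  have h1 : B.relIndex (B ⊔ f.ker) * (B ⊔ f.ker).index = B.index :=
    Subgroup.relIndex_mul_index le_sup_left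
  have h2 : B.relIndex (B ⊔ f.ker) = B.relIndex f.ker := by
    rw [sup_comm, Subgroup.relIndex_sup_right]
  have h3 : (B.map f).relIndex f.range = (B ⊔ f.ker).index := by
    rw [MonoidHom.range_eq_map, Subgroup.relIndex_map_map, top_sup_eq, Subgroup.relIndex_top_right]
  rw [← h1, h2, h3, mul_comm]

/-- the Herbrand quotient inequality -/
theorem herb (D N : A →* A) (B : Subgroup A) [hB : B.FiniteIndex]
    (hDN : ∀ x, D (N x) = 1) (hND : ∀ x, N (D x) = 1)
    (hDB : B.map D ≤ B) (hNB : B.map N ≤ B)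
    (h0 : ∀ b ∈ B, D b = 1 → b ∈ B.map N) (n : ℕ)
    (h1 : D.range.relIndex N.ker ≠ 0) (x : A) (hxB : x ∈ B) (hx : N x = 1)
    (hn : ∀ k : ℕ, x ^ k ∈ B.map D → n ∣ k) :
    N.range.relIndex D.ker ≠ 0 ∧ n * N.range.relIndex D.ker ≤ D.range.relIndex N.ker := by
  have eD := index_map_ker D B
  have eN := index_map_ker N B
  have hBi : B.index ≠ 0 := hB.index_ne_zero
  -- the kernel of `D` in `B`
  have hN1 : N.range ≤ D.ker := by
    rintro _ ⟨y, rfl⟩; exact hDN y
  have hD1 : D.range ≤ N.ker := by
    rintro _ ⟨y, rfl⟩; exact hND y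
  have hBN : B.map N = B ⊓ D.ker := by
    apply le_antisymm
    · exact le_inf hNB ((Subgroup.map_le_range _ _).trans hN1)
    · rintro b ⟨hb, hb'⟩
      exact h0 b hb hb'
  have hNle : B.map N ≤ N.range := Subgroup.map_le_range _ _
  have hDle : B.map D ≤ D.range := Subgroup.map_le_range _ _
  have e1 : (B.map N).relIndex N.range * N.range.relIndex D.ker = (B.map N).relIndex D.ker :=
    Subgroup.relIndex_mul_relIndex _ _ _ hNle hN1
  have e2 : (B.map N).relIndex D.ker = B.relIndex D.ker := by
    rw [hBN, Subgroup.inf_relIndex_right]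
  have e3 : (B.map D).relIndex D.range * D.range.relIndex N.ker = (B.map D).relIndex N.ker :=
    Subgroup.relIndex_mul_relIndex _ _ _ hDle hD1
  have e4 : (B.map D).relIndex (B ⊓ N.ker) * (B ⊓ N.ker).relIndex N.ker =
      (B.map D).relIndex N.ker :=
    Subgroup.relIndex_mul_relIndex _ _ _ (le_inf hDB (hDle.trans hD1)) inf_le_right
  have e5 : (B ⊓ N.ker).relIndex N.ker = B.relIndex N.ker := Subgroup.inf_relIndex_right _ _
  -- the lower bound
  have e6 : (B.map D).relIndex (B ⊓ N.ker) = 0 ∨ n ≤ (B.map D).relIndex (B ⊓ N.ker) := by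
    rcases Nat.eq_zero_or_pos ((B.map D).relIndex (B ⊓ N.ker)) with h | h
    · exact Or.inl h
    · right
      have h2 : x ^ (B.map D).relIndex (B ⊓ N.ker) ∈ B.map D := by
        have hx2 : x ∈ B ⊓ N.ker := ⟨hxB, hx⟩
        have := Subgroup.pow_index_mem ((B.map D).subgroupOf (B ⊓ N.ker)) ⟨x, hx2⟩
        exact this
      exact Nat.le_of_dvd h (hn _ h2)
  set a := (B.map N).relIndex N.range
  set b := B.relIndex D.ker
  set c := (B.map D).relIndex D.range
  set d := B.relIndex N.ker
  set H0 := N.range.relIndex D.ker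
  set H1 := D.range.relIndex N.ker
  set e := (B.map D).relIndex (B ⊓ N.ker)
  have ha : 0 < a := Nat.pos_of_ne_zero fun h => hBi (by rw [eN, h, zero_mul])
  have hc : 0 < c := Nat.pos_of_ne_zero fun h => hBi (by rw [eD, h, zero_mul])
  have he : e ≠ 0 := by
    intro h
    rw [h, zero_mul] at e4
    rw [← e4] at e3
    rcases mul_eq_zero.mp e3 with h3 | h3
    · exact hc.ne' h3
    · exact h1 h3
  have hne : n ≤ e := e6.resolve_left he
  have f1 : a * H0 = b := by rw [e1, e2]
  have f2 : c * H1 = e * d := by rw [e3, ← e4, e5]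
  have f3 : c * b = a * d := by rw [← eD, ← eN]
  have f4 : (a * c) * (n * H0) ≤ (a * c) * H1 := by
    calc (a * c) * (n * H0) = n * (c * (a * H0)) := by ring
      _ = n * (a * d) := by rw [f1, f3]
      _ ≤ e * (a * d) := Nat.mul_le_mul_right _ hne
      _ = a * (e * d) := by ring
      _ = a * (c * H1) := by rw [f2]
      _ = (a * c) * H1 := by ring
  refine ⟨?_, Nat.le_of_mul_le_mul_left f4 (Nat.mul_pos ha hc)⟩
  intro h0
  rw [h0, mul_zero] at f1
  exact hBi (by rw [eD, ← f1, mul_zero])

end

end Pool.Agent.H516
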