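import Pool.Agent.H516.EP
import Pool.Graph.R_seed8.H921R2.TatePole.Main

/-! The `L`-functions of the characters of the class group near `s = 1`. -/

set_option autoImplicit false
set_option linter.unusedSectionVars false

namespace Pool.Agent.H516.LC

open NumberField IsDedekindDomain Filter Topology Pool.Agent.H484R2 Pool.Agent.H921R2.TatePole EP
open NumberField.Units
open Ideal (absNorm)
open scoped nonZeroDivisors

section
variable {K : Type} [Field K] [NumberField K]

open scoped Classical in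
/-- the indicator of a class -/
noncomputable def ind (C : ClassGroup (𝓞 K)) (c : ClassGroup (𝓞 K)) : ℂ := if c = C then 1 else 0

theorem ind_norm_le (C c : ClassGroup (𝓞 K)) : ‖ind C c‖ ≤ 1 := by
  unfold ind; split_ifs <;> simp

theorem ind_nonneg (C c : ClassGroup (𝓞 K)) : ind C c = 0 ∨ ind C c = 1 := by
  unfold ind; split_ifs <;> simp

theorem hasSum_ind (C : ClassGroup (𝓞 K)) {s : ℂ} (hs : 1 < s.re) :
    HasSum (fun I : NZI K => ind C (cls K I) * (absNorm I.1 : ℂ) ^ (-s))
      ((absNorm (rep K C).1 : ℂ) ^ s / (torsionOrder K : ℂ) *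
        ∑' a, gJ K (rep K C).1 (rep K C).2 a s) := by
  have h := hasSum_class K (rep K C).1 (rep K C).2 C (rep_spec K C) hs
  convert h using 2 with I
  unfold ind
  split_ifs <;> simp

theorem cont_ind (C : ClassGroup (𝓞 K)) : ∃ G : ℂ → ℂ, AnalyticAt ℂ G 1 ∧
    ∀ᶠ z in 𝓝 (1 : ℂ), 1 < z.re → G z = (z - 1) * Ls (ind C) z := by
  obtain ⟨g, hg1, hg2⟩ := (dataJ K (rep K C).1 (rep K C).2).continuation 0
  have e : (1 : ℂ) + ((0 : ℝ) : ℂ) * Complex.I = 1 := by simp
  rw [e] at hg1 hg2
  refine ⟨fun z => (absNorm (rep K C).1 : ℂ) ^ z / (torsionOrder K : ℂ) * g z, ?_, ?_⟩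
  · have hJ0 : (absNorm (rep K C).1 : ℂ) ≠ 0 := absNorm_ne_zero' _
    refine AnalyticAt.mul ?_ hg1
    refine AnalyticAt.div ?_ analyticAt_const ?_
    · have hd : Differentiable ℂ fun z : ℂ => (absNorm (rep K C).1 : ℂ) ^ z := by
        intro z
        exact DifferentiableAt.const_cpow differentiableAt_id (Or.inl hJ0)
      exact hd.analyticAt _
    · exact_mod_cast torsionOrder_ne_zero K
  · filter_upwards [hg2] with z hz hz1
    have h1 : Ls (ind C) z = (absNorm (rep K C).1 : ℂ) ^ z / (torsionOrder K : ℂ) *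
        ∑' a, gJ K (rep K C).1 (rep K C).2 a z := (hasSum_ind C hz1).tsum_eq
    rw [h1, hz hz1]
    ring

/-- the number of ideals of norm `n` in the class `C` -/
noncomputable def cnt (C : ClassGroup (𝓞 K)) (n : ℕ) : ℝ :=
  Nat.card {I : NZI K // absNorm I.1 = n ∧ cls K I = C}

theorem cnt_nonneg (C : ClassGroup (𝓞 K)) (n : ℕ) : 0 ≤ cnt C n := Nat.cast_nonneg _

theorem finite_le (n : ℕ) : {I : NZI K | absNorm I.1 ≤ n}.Finite := by
  have h := Ideal.finite_setOfPred_absNorm_le (S := 𝓞 K) n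
  exact h.preimage Subtype.val_injective.injOn

theorem ind_LSeries (C : ClassGroup (𝓞 K)) {s : ℂ} (hs : 1 < s.re) :
    LSeries (fun n => ((cnt C n : ℝ) : ℂ)) s = Ls (ind C) s := by
  classical
  have h := (hasSum_ind C hs).tsum_fiberwise (fun I : NZI K => absNorm I.1)
  unfold Ls
  rw [(hasSum_ind C hs).tsum_eq, ← h.tsum_eq, LSeries]
  refine tsum_congr fun n => ?_
  by_cases hn : n = 0
  · subst hn
    rw [LSeries.term_zero]
    have : ((fun I : NZI K => absNorm I.1) ⁻¹' {0} : Set (NZI K)) = ∅ := by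
      ext I
      simp only [Set.mem_preimage, Set.mem_singleton_iff, Set.mem_empty_iff_false, iff_false]
      rw [Ideal.absNorm_eq_zero_iff]
      exact I.2
    rw [this]
    simp
  · rw [LSeries.term_of_ne_zero hn]
    have hfin : Finite ((fun I : NZI K => absNorm I.1) ⁻¹' {n} : Set (NZI K)) :=
      ((finite_le (K := K) n).subset (by
        intro I hI
        have : absNorm I.1 = n := hI
        exact this.le)).to_subtype
    have : Fintype ((fun I : NZI K => absNorm I.1) ⁻¹' {n} : Set (NZI K)) := Fintype.ofFinite _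
    rw [tsum_fintype]
    have h1 : ∀ b : ((fun I : NZI K => absNorm I.1) ⁻¹' {n} : Set (NZI K)),
        ind C (cls K (b : NZI K)) * (absNorm (b : NZI K).1 : ℂ) ^ (-s) =
        (if cls K (b : NZI K) = C then 1 else 0) * (n : ℂ) ^ (-s) := by
      intro b
      have : absNorm (b : NZI K).1 = n := b.2
      rw [this]
      rfl
    rw [Finset.sum_congr rfl fun b _ => h1 b, ← Finset.sum_mul, Finset.sum_boole,
      Complex.cpow_neg, div_eq_mul_inv]
    congr 1
    have h2 : Nat.card {I : NZI K // absNorm I.1 = n ∧ cls K I = C} =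
        (Finset.univ.filter fun b : ((fun I : NZI K => absNorm I.1) ⁻¹' {n} : Set (NZI K)) =>
          cls K (b : NZI K) = C).card := by
      rw [← Fintype.card_subtype, ← Nat.card_eq_fintype_card]
      exact Nat.card_congr (Equiv.subtypeSubtypeEquivSubtypeInter _ _).symm
    unfold cnt
    rw [h2]
    simp

theorem card_coe' {α : Type} (S : Finset α) : Nat.card {x // x ∈ S} = S.card := by
  rw [Nat.card_eq_fintype_card, Fintype.card_coe]

theorem sum_cnt (C : ClassGroup (𝓞 K)) (n : ℕ) : ∑ k ∈ Finset.Icc 1 n, cnt C k =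
    (Nat.card {I : (Ideal (𝓞 K))⁰ // absNorm (I : Ideal (𝓞 K)) ≤ n ∧ ClassGroup.mk0 I = C} : ℝ) := by
  classical
  obtain ⟨S, hmem⟩ : ∃ S : Finset (NZI K), ∀ I, I ∈ S ↔ (absNorm I.1 ≤ n ∧ cls K I = C) :=
    ⟨(finite_le (K := K) n).toFinset.filter (fun I => cls K I = C), fun I => by
      rw [Finset.mem_filter, Set.Finite.mem_toFinset]; rfl⟩
  have h1 : Nat.card {I : (Ideal (𝓞 K))⁰ // absNorm (I : Ideal (𝓞 K)) ≤ n ∧ ClassGroup.mk0 I = C} =
      S.card := by
    rw [← card_coe' S]
    refine Nat.card_congr ?_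
    exact
      { toFun := fun I => ⟨⟨I.1.1, nonZeroDivisors.ne_zero I.1.2⟩, (hmem _).mpr I.2⟩
        invFun := fun I => ⟨⟨I.1.1, mem_nonZeroDivisors_of_ne_zero I.1.2⟩, (hmem _).mp I.2⟩
        left_inv := fun I => rfl
        right_inv := fun I => rfl }
  rw [h1]
  have hmaps : Set.MapsTo (fun I : NZI K => absNorm I.1) S (Finset.Icc 1 n : Finset ℕ) := by
    intro I hI
    have hI' := (hmem I).mp hI
    rw [Finset.mem_coe, Finset.mem_Icc]
    refine ⟨?_, hI'.1⟩
    have : absNorm I.1 ≠ 0 := by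
      rw [Ne, Ideal.absNorm_eq_zero_iff]; exact I.2
    show 1 ≤ absNorm I.1
    omega
  rw [Finset.card_eq_sum_card_fiberwise hmaps]
  push_cast
  refine Finset.sum_congr rfl fun k hk => ?_
  unfold cnt
  norm_cast
  rw [← card_coe' (S.filter fun I => absNorm I.1 = k)]
  refine Nat.card_congr (Equiv.subtypeEquivRight fun I => ?_)
  rw [Finset.mem_filter, hmem]
  rw [Finset.mem_Icc] at hk
  constructor
  · rintro ⟨h2, h3⟩
    exact ⟨⟨show absNorm I.1 ≤ n by omega, h3⟩, h2⟩
  · rintro ⟨⟨_, h3⟩, h2⟩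
    exact ⟨h2, h3⟩

variable (K) in
/-- the residue of a class -/
noncomputable def kap : ℝ := (2 ^ InfinitePlace.nrRealPlaces K *
  (2 * Real.pi) ^ InfinitePlace.nrComplexPlaces K * regulator K) /
    (torsionOrder K * Real.sqrt |(discr K : ℝ)|)

theorem kap_pos : 0 < kap K := by
  unfold kap
  refine div_pos ?_ ?_
  · exact mul_pos (by positivity) (regulator_pos K)
  · refine mul_pos (Nat.cast_pos.mpr (torsionOrder_pos K)) (Real.sqrt_pos_of_pos ?_)
    exact abs_pos.mpr (Int.cast_ne_zero.mpr (discr_ne_zero K))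

theorem res_ind (C : ClassGroup (𝓞 K)) :
    Tendsto (fun x : ℝ => ((x : ℂ) - 1) * Ls (ind C) x) (𝓝[>] 1) (𝓝 ((kap K : ℝ) : ℂ)) := by
  have h1 := LSeries_tendsto_sub_mul_nhds_one_of_tendsto_sum_div_and_nonneg (cnt C) (l := kap K) ?_
    (cnt_nonneg C)
  · refine h1.congr' ?_
    filter_upwards [self_mem_nhdsWithin] with x hx
    rw [ind_LSeries C (by simpa using hx)]
  · have h2 := (NumberField.Ideal.tendsto_norm_le_and_mk_eq_div_atTop K C).comp
      tendsto_natCast_atTop_atTop
    refine h2.congr fun n => ?_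
    simp only [Function.comp_apply, Nat.cast_le]
    rw [sum_cnt]

end

end Pool.Agent.H516.LC
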