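import Pool.Agent.H516.LC

/-! The density of the primes in a subgroup of the class group. -/

set_option autoImplicit false
set_option linter.unusedSectionVars false

namespace Pool.Agent.H516.LC

open NumberField IsDedekindDomain Filter Topology Pool.Agent.H484R2 Pool.Agent.H921R2.TatePole EP
open NumberField.Units
open Ideal (absNorm)
open scoped nonZeroDivisors

section
variable {K : Type} [Field K] [NumberField K]

theorem Ls_eq_sum (ψ : ClassGroup (𝓞 K) → ℂ) {s : ℂ} (hs : 1 < s.re) :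
    Ls ψ s = ∑ C : ClassGroup (𝓞 K), ψ C * Ls (ind C) s := by
  classical
  have h1 : ∀ C : ClassGroup (𝓞 K), ψ C * Ls (ind C) s =
      ∑' I : NZI K, ψ C * (ind C (cls K I) * (absNorm I.1 : ℂ) ^ (-s)) := by
    intro C
    unfold Ls
    rw [tsum_mul_left]
  rw [Finset.sum_congr rfl fun C _ => h1 C, ← Summable.tsum_finsetSum]
  · unfold Ls
    refine tsum_congr fun I => ?_
    rw [Finset.sum_eq_single (cls K I)]
    · unfold ind
      rw [if_pos rfl, one_mul]
    · intro C _ hC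
      unfold ind
      rw [if_neg hC.symm]
      ring
    · intro h
      exact absurd (Finset.mem_univ _) h
  · intro C _
    exact (Ls_summable (ind C) (ind_norm_le C) hs).mul_left _

theorem cont_psi (ψ : ClassGroup (𝓞 K) → ℂ) : ∃ G : ℂ → ℂ, AnalyticAt ℂ G 1 ∧
    (∀ᶠ z in 𝓝 (1 : ℂ), 1 < z.re → G z = (z - 1) * Ls ψ z) ∧
    G 1 = (kap K : ℂ) * ∑ C : ClassGroup (𝓞 K), ψ C := by
  classical
  choose G hG1 hG2 using fun C : ClassGroup (𝓞 K) => cont_ind C
  have hnhds : Tendsto (fun x : ℝ => (x : ℂ)) (𝓝[>] 1) (𝓝 1) := by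
    have : Tendsto (fun x : ℝ => (x : ℂ)) (𝓝 1) (𝓝 ((1 : ℝ) : ℂ)) :=
      Complex.continuous_ofReal.tendsto 1
    rw [Complex.ofReal_one] at this
    exact this.mono_left nhdsWithin_le_nhds
  have hval : ∀ C, G C 1 = (kap K : ℂ) := by
    intro C
    have h1 : Tendsto (fun x : ℝ => G C (x : ℂ)) (𝓝[>] 1) (𝓝 (G C 1)) :=
      (hG1 C).continuousAt.tendsto.comp hnhds
    refine tendsto_nhds_unique h1 ((res_ind C).congr' ?_)
    filter_upwards [self_mem_nhdsWithin, hnhds.eventually (hG2 C)] with x hx hx2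
    exact (hx2 (by simpa using hx)).symm
  refine ⟨fun z => ∑ C : ClassGroup (𝓞 K), ψ C * G C z, ?_, ?_, ?_⟩
  · exact Finset.analyticAt_fun_sum _ fun C _ => analyticAt_const.mul (hG1 C)
  · have h3 : ∀ᶠ z in 𝓝 (1 : ℂ), ∀ C : ClassGroup (𝓞 K),
        1 < z.re → G C z = (z - 1) * Ls (ind C) z := Filter.eventually_all.mpr fun C => hG2 C
    filter_upwards [h3] with z hz hz1
    rw [Ls_eq_sum ψ hz1, Finset.mul_sum]
    refine Finset.sum_congr rfl fun C _ => ?_
    rw [hz C hz1]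
    ring
  · show ∑ C : ClassGroup (𝓞 K), ψ C * G C 1 = _
    rw [Finset.mul_sum]
    refine Finset.sum_congr rfl fun C _ => ?_
    rw [hval, mul_comm]

/-- the size of `L(ψ, x)` near `1` -/
theorem log_Ls (ψ : ClassGroup (𝓞 K) →* ℂ) (hψ : ∀ c, ‖ψ c‖ ≤ 1) :
    ∃ k : ℕ, (∑ C : ClassGroup (𝓞 K), ψ C ≠ 0 → k = 0) ∧
      (∑ C : ClassGroup (𝓞 K), ψ C = 0 → 1 ≤ k) ∧
      Bdd (fun x => Real.log ‖Ls ψ (x : ℂ)‖ - (1 - (k : ℝ)) * Lam x) := by
  obtain ⟨G, hG1, hG2, hG3⟩ := cont_psi (K := K) ψ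
  have hnhds : Tendsto (fun x : ℝ => (x : ℂ)) (𝓝[>] 1) (𝓝 1) := by
    have : Tendsto (fun x : ℝ => (x : ℂ)) (𝓝 1) (𝓝 ((1 : ℝ) : ℂ)) :=
      Complex.continuous_ofReal.tendsto 1
    rw [Complex.ofReal_one] at this
    exact this.mono_left nhdsWithin_le_nhds
  have hc : ∀ (v : HeightOneSpectrum (𝓞 K)) (_ : Fin 1), ‖ψ (cls K (pr v))‖ ≤ 1 := fun v _ => hψ _
  have hne : ∀ x : ℝ, 1 < x → Ls ψ (x : ℂ) ≠ 0 := by
    intro x hx
    rw [Ls_eq_kL ψ hψ hx]
    exact (kL_log (J := Fin 1) hc hx).1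
  have hnz : ¬ ∀ᶠ z in 𝓝 (1 : ℂ), G z = 0 := by
    intro h
    have h1 : ∀ᶠ x : ℝ in 𝓝[>] 1, False := by
      filter_upwards [self_mem_nhdsWithin, hnhds.eventually hG2, hnhds.eventually h] with x hx h2 h3
      have hx' : 1 < ((x : ℂ)).re := by simpa using hx
      rw [h2 hx'] at h3
      rcases mul_eq_zero.mp h3 with h4 | h4
      · rw [sub_eq_zero] at h4
        have : x = 1 := by exact_mod_cast h4
        exact (ne_of_gt hx) this
      · exact hne x hx h4
    exact h1.exists.choose_spec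
  obtain ⟨k, u, hu1, hu2, hu3⟩ := hG1.exists_eventuallyEq_pow_smul_nonzero_iff.mpr hnz
  have hG0 : G 1 = ((1 : ℂ) - 1) ^ k • u 1 := hu3.self_of_nhds
  refine ⟨k, ?_, ?_, ?_⟩
  · intro h
    by_contra hk
    rw [sub_self, zero_pow hk, zero_smul] at hG0
    rw [hG0] at hG3
    have hκ : ((kap K : ℝ) : ℂ) ≠ 0 := by exact_mod_cast (kap_pos (K := K)).ne'
    exact (mul_ne_zero hκ h) hG3.symm
  · intro h
    by_contra hk
    have hk0 : k = 0 := by omega
    rw [hk0, pow_zero, one_smul] at hG0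
    rw [hG3, h, mul_zero] at hG0
    exact hu2 hG0.symm
  · have h4 : Tendsto (fun x : ℝ => Real.log ‖u (x : ℂ)‖) (𝓝[>] 1) (𝓝 (Real.log ‖u 1‖)) := by
      have h5 : Tendsto (fun x : ℝ => ‖u (x : ℂ)‖) (𝓝[>] 1) (𝓝 ‖u 1‖) :=
        (hu1.continuousAt.tendsto.comp hnhds).norm
      exact h5.log (norm_ne_zero_iff.mpr hu2)
    obtain ⟨C, hC⟩ := Bdd.of_tendsto h4
    refine ⟨C, ?_⟩
    filter_upwards [hC, self_mem_nhdsWithin, hnhds.eventually hG2, hnhds.eventually hu3]
      with x hx hx1 hx2 hx3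
    have hx1' : 0 < x - 1 := sub_pos.mpr hx1
    have hx' : 1 < ((x : ℂ)).re := by simpa using hx1
    have h6 : ((x : ℂ) - 1) * Ls ψ (x : ℂ) = ((x : ℂ) - 1) ^ k • u (x : ℂ) := by
      rw [← hx2 hx', hx3]
    have hxne : ((x : ℂ) - 1) ≠ 0 := by
      intro h7
      rw [sub_eq_zero] at h7
      have : x = 1 := by exact_mod_cast h7
      exact (ne_of_gt hx1) this
    have hune : u (x : ℂ) ≠ 0 := by
      intro h7
      rw [h7, smul_zero] at h6
      exact (mul_ne_zero hxne (hne x hx1)) h6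
    have hnorm : ‖((x : ℂ) - 1)‖ = x - 1 := by
      have : ((x : ℂ) - 1) = ((x - 1 : ℝ) : ℂ) := by push_cast; ring
      rw [this, Complex.norm_real, Real.norm_eq_abs, abs_of_pos hx1']
    have h8 := congrArg (fun z => Real.log ‖z‖) h6
    simp only [norm_mul, smul_eq_mul, norm_pow, hnorm] at h8
    rw [Real.log_mul hx1'.ne' (norm_ne_zero_iff.mpr (hne x hx1)),
      Real.log_mul (pow_ne_zero _ hx1'.ne') (norm_ne_zero_iff.mpr hune), Real.log_pow] at h8
    have h9 : Real.log ‖Ls ψ (x : ℂ)‖ - (1 - (k : ℝ)) * Lam x = Real.log ‖u (x : ℂ)‖ := by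
      unfold Lam
      rw [one_div, Real.log_inv]
      linear_combination h8
    rw [h9]
    exact hx

/-- the sum over the primes of a class group character -/
theorem prime_psi (ψ : ClassGroup (𝓞 K) →* ℂ) (hψ : ∀ c, ‖ψ c‖ ≤ 1) :
    ∃ k : ℕ, (∑ C : ClassGroup (𝓞 K), ψ C ≠ 0 → k = 0) ∧
      (∑ C : ClassGroup (𝓞 K), ψ C = 0 → 1 ≤ k) ∧
      Bdd (fun x => ∑' v : HeightOneSpectrum (𝓞 K), (ψ (cls K (pr v))).re * (nm v : ℝ) ^ (-x) -
        (1 - (k : ℝ)) * Lam x) := by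
  obtain ⟨k, h1, h2, h3⟩ := log_Ls ψ hψ
  refine ⟨k, h1, h2, ?_⟩
  have hc : ∀ (v : HeightOneSpectrum (𝓞 K)) (_ : Fin 1), ‖ψ (cls K (pr v))‖ ≤ 1 := fun v _ => hψ _
  have h4 : Bdd (fun x => ∑' v : HeightOneSpectrum (𝓞 K), (ψ (cls K (pr v))).re * (nm v : ℝ) ^ (-x)
      - Real.log ‖Ls ψ (x : ℂ)‖) := by
    refine ⟨Fintype.card (Fin 1) * CK K, ?_⟩
    filter_upwards [self_mem_nhdsWithin] with x hx
    obtain ⟨_, h5⟩ := kL_log (J := Fin 1) hc hx
    rw [← Ls_eq_kL ψ hψ hx] at h5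
    rw [abs_sub_comm]
    simpa using h5
  refine (h4.add h3).congr fun x _ => ?_
  ring

open scoped Classical in
/-- the sum over the primes in a set -/
noncomputable def PS (P : HeightOneSpectrum (𝓞 K) → Prop) (x : ℝ) : ℝ :=
  ∑' v : HeightOneSpectrum (𝓞 K), if P v then (nm v : ℝ) ^ (-x) else 0

/-- the character of the class group attached to one of a quotient -/
noncomputable def chi (H : Subgroup (ClassGroup (𝓞 K)))
    (χ : AddChar (Additive (ClassGroup (𝓞 K) ⧸ H)) ℂ) : ClassGroup (𝓞 K) →* ℂ where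
  toFun c := χ (Additive.ofMul (QuotientGroup.mk c))
  map_one' := χ.map_zero_eq_one
  map_mul' a b := by
    rw [QuotientGroup.mk_mul, ofMul_mul]
    exact χ.map_add_eq_mul _ _

theorem chi_norm (H : Subgroup (ClassGroup (𝓞 K)))
    (χ : AddChar (Additive (ClassGroup (𝓞 K) ⧸ H)) ℂ) (c : ClassGroup (𝓞 K)) :
    ‖chi H χ c‖ = 1 := AddChar.norm_apply χ _

theorem sum_chi (H : Subgroup (ClassGroup (𝓞 K)))
    (χ : AddChar (Additive (ClassGroup (𝓞 K) ⧸ H)) ℂ) (hχ : χ ≠ 1) :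
    ∑ C : ClassGroup (𝓞 K), chi H χ C = 0 := by
  obtain ⟨a, ha⟩ := AddChar.ne_one_iff.mp hχ
  obtain ⟨c, hc⟩ := QuotientGroup.mk_surjective (Additive.toMul a)
  have h1 : chi H χ c ≠ 1 := by
    show χ (Additive.ofMul (QuotientGroup.mk c)) ≠ 1
    rw [hc]
    exact ha
  have h2 : ∑ C : ClassGroup (𝓞 K), chi H χ C = chi H χ c * ∑ C : ClassGroup (𝓞 K), chi H χ C := by
    rw [Finset.mul_sum, ← Equiv.sum_comp (Equiv.mulLeft c)]
    refine Finset.sum_congr rfl fun C _ => ?_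
    exact map_mul _ _ _
  have h3 : (1 - chi H χ c) * ∑ C : ClassGroup (𝓞 K), chi H χ C = 0 := by
    rw [sub_mul, one_mul, ← h2, sub_self]
  rcases mul_eq_zero.mp h3 with h4 | h4
  · exact absurd (sub_eq_zero.mp h4).symm h1
  · exact h4

/-- **the density of the primes in a subgroup of the class group** -/
theorem alpha (H : Subgroup (ClassGroup (𝓞 K))) : ∃ m : ℕ,
    Bdd (fun x => (H.index : ℝ) * PS (fun v => cls K (pr v) ∈ H) x - (1 - (m : ℝ)) * Lam x) := by
  classical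
  have : Fintype (ClassGroup (𝓞 K) ⧸ H) := Fintype.ofFinite _
  have : Fintype (Additive (ClassGroup (𝓞 K) ⧸ H)) := inferInstance
  choose k hk0 hk1 hk using fun χ : AddChar (Additive (ClassGroup (𝓞 K) ⧸ H)) ℂ =>
    prime_psi (K := K) (chi H χ) (fun c => (chi_norm H χ c).le)
  refine ⟨∑ χ ∈ Finset.univ.erase 1, (k χ - 1), ?_⟩
  -- the sum of all
  have h1 : Bdd (fun x => ∑ χ : AddChar (Additive (ClassGroup (𝓞 K) ⧸ H)) ℂ,
      (∑' v : HeightOneSpectrum (𝓞 K), (chi H χ (cls K (pr v))).re * (nm v : ℝ) ^ (-x) -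
        (1 - (k χ : ℝ)) * Lam x)) := by
    have : ∀ S : Finset (AddChar (Additive (ClassGroup (𝓞 K) ⧸ H)) ℂ), Bdd (fun x => ∑ χ ∈ S,
      (∑' v : HeightOneSpectrum (𝓞 K), (chi H χ (cls K (pr v))).re * (nm v : ℝ) ^ (-x) -
        (1 - (k χ : ℝ)) * Lam x)) := by
      intro S
      induction S using Finset.induction_on with
      | empty =>
        refine ⟨0, ?_⟩
        filter_upwards with x
        simp
      | insert a S ha ih =>
        refine ((hk a).add ih).congr fun x _ => ?_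
        rw [Finset.sum_insert ha]
    exact this Finset.univ
  refine h1.congr fun x hx => ?_
  rw [Finset.sum_sub_distrib]
  congr 1
  · have hsum : ∀ χ : AddChar (Additive (ClassGroup (𝓞 K) ⧸ H)) ℂ,
        Summable fun v : HeightOneSpectrum (𝓞 K) =>
          (chi H χ (cls K (pr v))).re * (nm v : ℝ) ^ (-x) := by
      intro χ
      refine Summable.of_norm_bounded (nm_summable hx) fun v => ?_
      rw [norm_mul, Real.norm_eq_abs, Real.norm_eq_abs, abs_of_nonneg (Real.rpow_nonneg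
        (Nat.cast_nonneg _) _)]
      refine mul_le_of_le_one_left (Real.rpow_nonneg (Nat.cast_nonneg _) _) ?_
      exact (Complex.abs_re_le_norm _).trans (chi_norm H χ _).le
    rw [← Summable.tsum_finsetSum fun χ _ => hsum χ]
    unfold PS
    rw [← tsum_mul_left]
    refine tsum_congr fun v => ?_
    rw [← Finset.sum_mul, ← Complex.re_sum]
    have h2 : ∑ χ : AddChar (Additive (ClassGroup (𝓞 K) ⧸ H)) ℂ, chi H χ (cls K (pr v)) =
        if cls K (pr v) ∈ H then (H.index : ℂ) else 0 := by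
      have h3 := AddChar.sum_apply_eq_ite
        (Additive.ofMul (QuotientGroup.mk (cls K (pr v)) : ClassGroup (𝓞 K) ⧸ H))
      have h4 : (Additive.ofMul (QuotientGroup.mk (cls K (pr v)) : ClassGroup (𝓞 K) ⧸ H) = 0) ↔
          cls K (pr v) ∈ H := by
        rw [← QuotientGroup.eq_one_iff]
        exact ofMul_eq_zero
      simp only [h4] at h3
      refine Eq.trans h3 ?_
      have h5 : Fintype.card (Additive (ClassGroup (𝓞 K) ⧸ H)) = H.index := by
        rw [← Nat.card_eq_fintype_card]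
        rfl
      rw [h5]
    rw [h2]
    split_ifs <;> simp
  · rw [← Finset.sum_mul]
    congr 1
    have h6 : k 1 = 0 := by
      apply hk0
      have : ∀ C : ClassGroup (𝓞 K), chi H 1 C = 1 := fun C => rfl
      simp only [this, Finset.sum_const, Finset.card_univ, nsmul_eq_mul, mul_one]
      exact_mod_cast Fintype.card_ne_zero
    rw [← Finset.add_sum_erase _ _ (Finset.mem_univ (1 : AddChar (Additive (ClassGroup (𝓞 K) ⧸ H)) ℂ)),
      h6]
    push_cast
    have h7 : ∀ χ ∈ Finset.univ.erase (1 : AddChar (Additive (ClassGroup (𝓞 K) ⧸ H)) ℂ),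
        ((k χ - 1 : ℕ) : ℝ) = (k χ : ℝ) - 1 := by
      intro χ hχ
      have h8 := hk1 χ (sum_chi H χ (Finset.ne_of_mem_erase hχ))
      push_cast [Nat.cast_sub h8]
      ring
    rw [Finset.sum_congr rfl h7]
    have h9 : ∑ χ ∈ Finset.univ.erase (1 : AddChar (Additive (ClassGroup (𝓞 K) ⧸ H)) ℂ),
        (1 - (k χ : ℝ)) = - ∑ χ ∈ Finset.univ.erase (1 : AddChar (Additive (ClassGroup (𝓞 K) ⧸ H)) ℂ),
        ((k χ : ℝ) - 1) := by
      rw [← Finset.sum_neg_distrib]
      exact Finset.sum_congr rfl fun χ _ => by ring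
    rw [h9]
    ring

end

end Pool.Agent.H516.LC
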