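import Pool.Agent.H516.LC2
import Pool.Agent.H516.CG3

/-! The density of the primes which split completely in an unramified Galois extension. -/

set_option autoImplicit false
set_option linter.unusedSectionVars false

namespace Pool.Agent.H516.LC

open NumberField IsDedekindDomain Filter Topology Pool.Agent.H484R2 Pool.Agent.H921R2.TatePole EP CG
open Ideal (absNorm)
open scoped nonZeroDivisors

section
variable (K M : Type) [Field K] [NumberField K] [Field M] [NumberField M] [Algebra K M]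

variable {M} in
/-- the prime below -/
noncomputable def bl (w : HeightOneSpectrum (𝓞 M)) : HeightOneSpectrum (𝓞 K) :=
  ⟨w.asIdeal.under (𝓞 K), inferInstance, fun h =>
    w.ne_bot (Ideal.eq_bot_of_comap_eq_bot (R := 𝓞 K) h)⟩

/-- the primes of `K` with a prime of `M` of the same norm above -/
def SplP (v : HeightOneSpectrum (𝓞 K)) : Prop :=
  ∃ w : HeightOneSpectrum (𝓞 M), bl K w = v ∧ nm w = nm v

variable {K M}

theorem bl_over (w : HeightOneSpectrum (𝓞 M)) : w.asIdeal.LiesOver (bl K w).asIdeal := ⟨rfl⟩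

theorem nm_eq (w : HeightOneSpectrum (𝓞 M)) :
    nm w = nm (bl K w) ^ w.asIdeal.inertiaDeg (𝓞 K) := by
  have h1 : w.asIdeal.IsMaximal := w.isMaximal
  have h2 : (bl K w).asIdeal.IsMaximal := (bl K w).isMaximal
  have h3 := bl_over (K := K) w
  unfold nm
  rw [← Ideal.absNorm_relNorm (𝓞 K) (𝓞 M) w.asIdeal,
    Ideal.relNorm_eq_pow_of_isMaximal w.asIdeal (bl K w).asIdeal, map_pow]

theorem deg_one_iff (w : HeightOneSpectrum (𝓞 M)) :
    nm w = nm (bl K w) ↔ w.asIdeal.inertiaDeg (𝓞 K) = 1 := by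
  rw [nm_eq (K := K) w]
  have h2 := two_le_nm (bl K w)
  constructor
  · intro h
    by_contra h1
    have : nm (bl K w) ^ w.asIdeal.inertiaDeg (𝓞 K) = nm (bl K w) ^ 1 := by rw [h, pow_one]
    exact h1 (Nat.pow_right_injective h2 this)
  · intro h
    rw [h, pow_one]

theorem relNorm_of_deg_one (w : HeightOneSpectrum (𝓞 M)) (h : nm w = nm (bl K w)) :
    Ideal.relNorm (𝓞 K) w.asIdeal = (bl K w).asIdeal := by
  have h1 : w.asIdeal.IsMaximal := w.isMaximal
  have h2 : (bl K w).asIdeal.IsMaximal := (bl K w).isMaximal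
  have h3 := bl_over (K := K) w
  rw [Ideal.relNorm_eq_pow_of_isMaximal w.asIdeal (bl K w).asIdeal, (deg_one_iff w).mp h, pow_one]

/-- split primes are norms -/
theorem spl_mem (v : HeightOneSpectrum (𝓞 K)) (h : SplP K M v) :
    cls K (pr v) ∈ (nmH K M).range := by
  obtain ⟨w, rfl, hw⟩ := h
  refine ⟨ClassGroup.mk0 ⟨w.asIdeal, mem_nonZeroDivisors_iff_ne_zero.mpr w.ne_bot⟩, ?_⟩
  rw [nmH_mk0]
  unfold cls
  congr 1
  exact Subtype.ext (relNorm_of_deg_one w hw)

/-- the fibre -/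
noncomputable def fibE (v : HeightOneSpectrum (𝓞 K)) :
    (bl K (M := M) ⁻¹' {v} : Set (HeightOneSpectrum (𝓞 M))) ≃ v.asIdeal.primesOver (𝓞 M) where
  toFun w := ⟨w.1.asIdeal, w.1.isPrime, by
    have := bl_over (K := K) w.1
    have h2 : bl K w.1 = v := w.2
    rwa [h2] at this⟩
  invFun P := ⟨⟨P.1, P.2.1, by
    have := P.2.2
    exact Ideal.ne_bot_of_liesOver_of_ne_bot v.ne_bot P.1⟩, by
    show bl K _ = v
    apply HeightOneSpectrum.ext
    exact P.2.2.over.symm⟩
  left_inv w := rfl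
  right_inv P := rfl

theorem fib_finite (v : HeightOneSpectrum (𝓞 K)) :
    Finite (bl K (M := M) ⁻¹' {v} : Set (HeightOneSpectrum (𝓞 M))) := by
  have : v.asIdeal.IsMaximal := v.isMaximal
  have h := Algebra.QuasiFinite.finite_primesOver (S := 𝓞 M) v.asIdeal
  have := h.to_subtype
  exact Finite.of_equiv _ (fibE v).symm

variable [IsGalois K M]

theorem fib_card (hur : Unr K M) (v : HeightOneSpectrum (𝓞 K)) (w : HeightOneSpectrum (𝓞 M))
    (hw : bl K w = v) :
    Nat.card (bl K (M := M) ⁻¹' {v} : Set (HeightOneSpectrum (𝓞 M))) *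
      w.asIdeal.inertiaDeg (𝓞 K) = Nat.card Gal(M/K) := by
  subst hw
  have h1 : w.asIdeal.IsMaximal := w.isMaximal
  have h2 : (bl K w).asIdeal.IsMaximal := (bl K w).isMaximal
  have h3 := bl_over (K := K) w
  have hfin : Finite (𝓞 K ⧸ (bl K w).asIdeal) :=
    Ideal.finiteQuotientOfFreeOfNeBot _ (bl K w).ne_bot
  have hI : Nat.card (Ideal.inertia Gal(M/K) w.asIdeal) = 1 := by
    rw [Subgroup.card_eq_one, Subgroup.eq_bot_iff_forall]
    intro g hg
    exact hur _ h1 g hg
  have h4 := Ideal.ncard_primesOver_mul_card_inertia_mul_finrank (G := Gal(M/K))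
    (bl K w).asIdeal w.asIdeal
  rw [hI, mul_one] at h4
  rw [Nat.card_congr (fibE (M := M) (bl K w))]
  exact h4

theorem deg_eq (w w' : HeightOneSpectrum (𝓞 M)) (h : bl K w = bl K w') :
    w.asIdeal.inertiaDeg (𝓞 K) = w'.asIdeal.inertiaDeg (𝓞 K) := by
  have h1 := bl_over (K := K) w
  have h2 := bl_over (K := K) w'
  rw [← h] at h2
  exact Ideal.inertiaDeg_eq_of_isGaloisGroup (bl K w).asIdeal w.asIdeal w'.asIdeal Gal(M/K)

/-- the sum over a fibre -/
theorem fib_sum (hur : Unr K M) (v : HeightOneSpectrum (𝓞 K)) {x : ℝ} (hx : 1 < x) :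
    |∑' w : (bl K (M := M) ⁻¹' {v} : Set (HeightOneSpectrum (𝓞 M))), (nm w.1 : ℝ) ^ (-x) -
      (Nat.card Gal(M/K) : ℝ) * (open scoped Classical in if SplP K M v then (nm v : ℝ) ^ (-x) else 0)|
      ≤ (Nat.card Gal(M/K) : ℝ) * (nm v : ℝ) ^ (-(2 * x)) := by
  classical
  have hfin := fib_finite (M := M) v
  have : Fintype (bl K (M := M) ⁻¹' {v} : Set (HeightOneSpectrum (𝓞 M))) := Fintype.ofFinite _
  rw [tsum_fintype]
  have hpos : (0 : ℝ) ≤ (Nat.card Gal(M/K) : ℝ) * (nm v : ℝ) ^ (-(2 * x)) := by positivity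
  by_cases h : SplP K M v
  · obtain ⟨w, hw, hnw⟩ := h
    have h1 : w.asIdeal.inertiaDeg (𝓞 K) = 1 := (deg_one_iff w).mp (by rw [hw]; exact hnw)
    have h2 := fib_card hur v w hw
    rw [h1, mul_one] at h2
    have h3 : ∀ w' : (bl K (M := M) ⁻¹' {v} : Set (HeightOneSpectrum (𝓞 M))),
        (nm w'.1 : ℝ) ^ (-x) = (nm v : ℝ) ^ (-x) := by
      intro w'
      have h4 : bl K w'.1 = v := w'.2
      have h5 := deg_eq w w'.1 (hw.trans h4.symm)
      rw [h1] at h5
      rw [(deg_one_iff w'.1).mpr h5.symm, h4]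
    rw [Finset.sum_congr rfl fun w' _ => h3 w', Finset.sum_const, Finset.card_univ,
      ← Nat.card_eq_fintype_card, h2, if_pos ⟨w, hw, hnw⟩, nsmul_eq_mul, sub_self, abs_zero]
    exact hpos
  · rw [if_neg h, mul_zero, sub_zero, abs_of_nonneg (Finset.sum_nonneg fun w _ => by positivity)]
    have h3 : ∀ w' : (bl K (M := M) ⁻¹' {v} : Set (HeightOneSpectrum (𝓞 M))),
        (nm w'.1 : ℝ) ^ (-x) ≤ (nm v : ℝ) ^ (-(2 * x)) := by
      intro w'
      have h4 : bl K w'.1 = v := w'.2
      have h5 : nm w'.1 ≠ nm (bl K w'.1) := by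
        intro h6
        exact h ⟨w'.1, h4, by rw [h6, h4]⟩
      have h6 : w'.1.asIdeal.inertiaDeg (𝓞 K) ≠ 1 := fun h7 => h5 ((deg_one_iff w'.1).mpr h7)
      have h7 : w'.1.asIdeal.inertiaDeg (𝓞 K) ≠ 0 := by
        intro h8
        have h9 := nm_eq (K := K) w'.1
        rw [h8, pow_zero] at h9
        have := two_le_nm w'.1
        omega
      have h8 : nm v ^ 2 ≤ nm w'.1 := by
        rw [nm_eq (K := K) w'.1, h4]
        exact Nat.pow_le_pow_right (Nat.pos_of_ne_zero (nm_ne_zero v)) (by omega)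
      have hv0 : (0 : ℝ) < nm v := by exact_mod_cast Nat.pos_of_ne_zero (nm_ne_zero v)
      calc (nm w'.1 : ℝ) ^ (-x) ≤ ((nm v : ℝ) ^ 2) ^ (-x) := by
            refine Real.rpow_le_rpow_of_nonpos (by positivity) ?_ (by linarith)
            exact_mod_cast h8
        _ = (nm v : ℝ) ^ (-(2 * x)) := by
            rw [← Real.rpow_natCast, ← Real.rpow_mul hv0.le]
            congr 1
            push_cast
            ring
    refine (Finset.sum_le_sum fun w' _ => h3 w').trans ?_
    rw [Finset.sum_const, Finset.card_univ, nsmul_eq_mul]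
    refine mul_le_mul_of_nonneg_right ?_ (by positivity)
    rcases isEmpty_or_nonempty (bl K (M := M) ⁻¹' {v} : Set (HeightOneSpectrum (𝓞 M))) with he | ⟨w, hw⟩
    · rw [Fintype.card_eq_zero]
      simp
    · have h9 := fib_card hur v w hw
      have h10 : Fintype.card (bl K (M := M) ⁻¹' {v} : Set (HeightOneSpectrum (𝓞 M))) ≤
          Nat.card Gal(M/K) := by
        rw [← Nat.card_eq_fintype_card]
        exact Nat.le_of_dvd Nat.card_pos ⟨_, h9.symm⟩
      exact_mod_cast h10

theorem PS_summable (P : HeightOneSpectrum (𝓞 K) → Prop) {x : ℝ} (hx : 1 < x) :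
    Summable fun v : HeightOneSpectrum (𝓞 K) =>
      (open scoped Classical in if P v then (nm v : ℝ) ^ (-x) else 0) := by
  classical
  refine Summable.of_nonneg_of_le (fun v => ?_) (fun v => ?_) (nm_summable (K := K) hx)
  · split_ifs
    · positivity
    · exact le_rfl
  · split_ifs
    · exact le_rfl
    · positivity

/-- **the density of the split primes** -/
theorem beta (hur : Unr K M) :
    Bdd (fun x => (Nat.card Gal(M/K) : ℝ) * PS (SplP K M) x - Lam x) := by
  classical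
  have h1 := prime_sum_bdd (K := M)
  have h2 : Bdd (fun x => ∑' w : HeightOneSpectrum (𝓞 M), (nm w : ℝ) ^ (-x) -
      (Nat.card Gal(M/K) : ℝ) * PS (SplP K M) x) := by
    refine ⟨Nat.card Gal(M/K) * CK K, ?_⟩
    filter_upwards [self_mem_nhdsWithin] with x hx
    have hx1 : (1 : ℝ) < x := hx
    have h3 := (nm_summable (K := M) hx1).hasSum.tsum_fiberwise (bl K (M := M))
    have h4 := (PS_summable (K := K) (SplP K M) hx1).hasSum.mul_left (Nat.card Gal(M/K) : ℝ)
    have h5 := h3.sub h4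
    have h6 : ∑' w : HeightOneSpectrum (𝓞 M), (nm w : ℝ) ^ (-x) -
      (Nat.card Gal(M/K) : ℝ) * PS (SplP K M) x = ∑' v : HeightOneSpectrum (𝓞 K),
        (∑' w : (bl K (M := M) ⁻¹' {v} : Set (HeightOneSpectrum (𝓞 M))), (nm w.1 : ℝ) ^ (-x) -
      (Nat.card Gal(M/K) : ℝ) * (if SplP K M v then (nm v : ℝ) ^ (-x) else 0)) := h5.tsum_eq.symm
    rw [h6]
    have h7 : Summable fun v : HeightOneSpectrum (𝓞 K) =>
        (Nat.card Gal(M/K) : ℝ) * (nm v : ℝ) ^ (-(2 * x)) :=
      (nm_summable (K := K) (by linarith)).mul_left _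
    have h8 := tsum_of_norm_bounded h7.hasSum (fun v => by
      rw [Real.norm_eq_abs]
      exact fib_sum hur v hx1)
    rw [Real.norm_eq_abs] at h8
    refine h8.trans ?_
    rw [tsum_mul_left]
    exact mul_le_mul_of_nonneg_left (tsum_nm_two_mul_le hx1) (Nat.cast_nonneg _)
  refine (h1.sub h2).congr fun x _ => ?_
  ring

end

end Pool.Agent.H516.LC
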