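import Pool.Agent.H516.Ch

/-!
# Unramified characters in a tower
-/

set_option autoImplicit false
set_option linter.unusedSectionVars false

namespace Pool.Agent.H516

open Subgroup Polynomial
open scoped Pointwise

variable {𝔾 : Type} [Group 𝔾] [TopologicalSpace 𝔾] [IsTopologicalGroup 𝔾] {Ω : Type}
  [MulAction 𝔾 Ω]

/-- the unramified characters of `p`-power order of `N` -/
noncomputable def UC (p : ℕ) (I : Ω → Subgroup 𝔾)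
    (hI : ∀ g v x, x ∈ I v → g * x * g⁻¹ ∈ I (g • v)) (γ : 𝔾) (N : Subgroup 𝔾) [hN : N.Normal] :
    Submodule ℤ[X] (Ch γ N) :=
  Ch.ofStable
    { carrier := {χ | (∃ K : Subgroup 𝔾, IsOpen (K : Set 𝔾) ∧ ∀ x ∈ K, x ∈ N → χ.val x = 1) ∧
        (∃ k : ℕ, ∀ x ∈ N, χ.val x ^ p ^ k = 1) ∧ ∀ v, ∀ x ∈ I v, x ∈ N → χ.val x = 1}
      zero_mem' := ⟨⟨⊤, isOpen_univ, fun x _ _ => Ch.val_zero x⟩,
        ⟨0, fun x _ => by rw [Ch.val_zero, one_pow]⟩, fun _ x _ _ => Ch.val_zero x⟩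
      add_mem' := by
        rintro χ ψ ⟨⟨K, hK, hK'⟩, ⟨k, hk⟩, h⟩ ⟨⟨L, hL, hL'⟩, ⟨l, hl⟩, h'⟩
        refine ⟨⟨K ⊓ L, hK.inter hL, fun x hx hxN => ?_⟩, ⟨k + l, fun x hx => ?_⟩,
          fun v x hx hxN => ?_⟩
        · rw [Ch.val_add, hK' x hx.1 hxN, hL' x hx.2 hxN, one_mul]
        · rw [Ch.val_add, mul_pow]
          have h1 : χ.val x ^ p ^ (k + l) = 1 := by rw [pow_add, pow_mul, hk x hx, one_pow]
          have h2 : ψ.val x ^ p ^ (k + l) = 1 := by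
            rw [add_comm, pow_add, pow_mul, hl x hx, one_pow]
          rw [h1, h2, one_mul]
        · rw [Ch.val_add, h v x hx hxN, h' v x hx hxN, one_mul]
      neg_mem' := by
        rintro χ ⟨⟨K, hK, hK'⟩, ⟨k, hk⟩, h⟩
        refine ⟨⟨K, hK, fun x hx hxN => ?_⟩, ⟨k, fun x hx => ?_⟩, fun v x hx hxN => ?_⟩
        · rw [Ch.val_neg, hK' x hx hxN, inv_one]
        · rw [Ch.val_neg, inv_pow, hk x hx, inv_one]
        · rw [Ch.val_neg, h v x hx hxN, inv_one] } (by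
    rintro χ ⟨⟨K, hK, hK'⟩, ⟨k, hk⟩, h⟩
    refine ⟨⟨K.comap (MulAut.conj γ).toMonoidHom, ?_, fun x hx hxN => ?_⟩,
      ⟨k, fun x hx => ?_⟩, fun v x hx hxN => ?_⟩
    · have h1 : Continuous fun x : 𝔾 => γ * x * γ⁻¹ :=
        (continuous_const.mul continuous_id).mul continuous_const
      exact hK.preimage h1
    · rw [Ch.val_act]
      exact hK' _ hx (hN.conj_mem x hxN γ)
    · rw [Ch.val_act]
      exact hk _ (hN.conj_mem x hx γ)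
    · rw [Ch.val_act]
      exact h _ _ (hI γ v x hx) (hN.conj_mem x hxN γ))

theorem mem_UC {p : ℕ} {I : Ω → Subgroup 𝔾} {hI : ∀ g v x, x ∈ I v → g * x * g⁻¹ ∈ I (g • v)}
    {γ : 𝔾} {N : Subgroup 𝔾} [N.Normal] {χ : Ch γ N} : χ ∈ UC p I hI γ N ↔
      (∃ K : Subgroup 𝔾, IsOpen (K : Set 𝔾) ∧ ∀ x ∈ K, x ∈ N → χ.val x = 1) ∧
        (∃ k : ℕ, ∀ x ∈ N, χ.val x ^ p ^ k = 1) ∧ ∀ v, ∀ x ∈ I v, x ∈ N → χ.val x = 1 := Iff.rfl

/-- a `ℤ_p`-tower in which the places in `Ab` are totally ramified and the others unramified -/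
structure Tower (p : ℕ) (I : Ω → Subgroup 𝔾) (U : ℕ → Subgroup 𝔾) (γ : 𝔾) {t : ℕ}
    (w : Fin (t + 1) → Ω) (Ab : Set Ω) : Prop where
  conj : ∀ g v x, x ∈ I v → g * x * g⁻¹ ∈ I (g • v)
  top : U 0 = ⊤
  opn : ∀ m, IsOpen (U m : Set 𝔾)
  anti : Antitone U
  nrm : ∀ m, (U m).Normal
  gmem : ∀ m, γ ^ p ^ m ∈ U m
  gen : ∀ m M, m ≤ M → ∀ x ∈ U m, ∃ i : ℤ, (γ ^ p ^ m) ^ i * x ∈ U M
  unr : ∀ v, v ∉ Ab → ∀ m, I v ≤ U m
  tot : ∀ v ∈ Ab, ∀ m, ∀ x, ∃ y ∈ I v, y⁻¹ * x ∈ U m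
  orb : ∀ v ∈ Ab, ∃ i, ∃ g : 𝔾, v = g • w i
  wab : ∀ i, w i ∈ Ab
  fixd : ∀ v, ∀ x ∈ I v, x • v = v

namespace Tower

variable {p : ℕ} {I : Ω → Subgroup 𝔾} {U : ℕ → Subgroup 𝔾} {γ : 𝔾} {t : ℕ}
  {w : Fin (t + 1) → Ω} {Ab : Set Ω} (hT : Tower p I U γ w Ab)

include hT

theorem tot' {v : Ω} (hv : v ∈ Ab) {m M : ℕ} (hmM : m ≤ M) {x : 𝔾} (hx : x ∈ U m) :
    ∃ y ∈ I v, y ∈ U m ∧ y⁻¹ * x ∈ U M := by
  obtain ⟨y, hy, h⟩ := hT.tot v hv M x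
  refine ⟨y, hy, ?_, h⟩
  have h1 := (U m).mul_mem hx ((U m).inv_mem (hT.anti hmM h))
  have h2 : x * (y⁻¹ * x)⁻¹ = y := by group
  rwa [h2] at h1

theorem orb' {v : Ω} (hv : v ∈ Ab) (m : ℕ) : ∃ i, ∃ h ∈ U m, v = h • w i := by
  obtain ⟨i, g, hg⟩ := hT.orb v hv
  obtain ⟨y, hy, h⟩ := hT.tot (w i) (hT.wab i) m g
  refine ⟨i, g * y⁻¹, ?_, ?_⟩
  · have h1 := (hT.nrm m).conj_mem _ h y
    have h2 : y * (y⁻¹ * g) * y⁻¹ = g * y⁻¹ := by group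
    rwa [h2] at h1
  · rw [mul_smul, ← hT.fixd _ y hy, inv_smul_smul]
    exact hg

/-- the quotients are abelian -/
theorem comm (M : ℕ) (x y : 𝔾) : x * y * x⁻¹ * y⁻¹ ∈ U M := by
  have hn := hT.nrm M
  obtain ⟨i, hi⟩ := hT.gen 0 M (Nat.zero_le _) x (by rw [hT.top]; trivial)
  obtain ⟨j, hj⟩ := hT.gen 0 M (Nat.zero_le _) y (by rw [hT.top]; trivial)
  rw [pow_zero, pow_one] at hi hj
  let π : 𝔾 →* 𝔾 ⧸ U M := QuotientGroup.mk' (U M)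
  have hπ : ∀ z, π z = 1 ↔ z ∈ U M := fun z => QuotientGroup.eq_one_iff z
  rw [← hπ] at hi hj ⊢
  rw [map_mul, map_zpow] at hi hj
  have h1 : π x = (π γ ^ i)⁻¹ := (inv_eq_of_mul_eq_one_right hi).symm
  have h2 : π y = (π γ ^ j)⁻¹ := (inv_eq_of_mul_eq_one_right hj).symm
  rw [map_mul, map_mul, map_mul, map_inv, map_inv, h1, h2, inv_inv, inv_inv]
  have h3 : (π γ ^ i)⁻¹ * (π γ ^ j)⁻¹ = (π γ ^ j)⁻¹ * (π γ ^ i)⁻¹ := by
    rw [← zpow_neg, ← zpow_neg, ← zpow_add, ← zpow_add, add_comm]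
  rw [h3]
  group

/-- a character which is unramified and trivial on a later layer is trivial -/
theorem inj {m M : ℕ} (hmM : m ≤ M) {χ : Ch γ (U m)} (hχ : ∀ x ∈ I (w 0), x ∈ U m → χ.val x = 1)
    (h : ∀ x ∈ U M, χ.val x = 1) : χ = 0 := by
  refine Ch.ext fun x hx => ?_
  obtain ⟨y, hy, hy1, hy2⟩ := hT.tot' (hT.wab 0) hmM hx
  have h1 : x = y * (y⁻¹ * x) := by group
  rw [Ch.val_zero, h1, Ch.val_mul χ hy1 (hT.anti hmM hy2), hχ y hy hy1, h _ hy2, one_mul]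

/-- the same for the intersection of the layers -/
theorem injInf [CompactSpace 𝔾] {m : ℕ} {χ : Ch γ (U m)}
    (hχ : ∀ x ∈ I (w 0), x ∈ U m → χ.val x = 1)
    (hK : ∃ K : Subgroup 𝔾, IsOpen (K : Set 𝔾) ∧ ∀ x ∈ K, x ∈ U m → χ.val x = 1)
    (h : ∀ x ∈ (⨅ i, U i : Subgroup 𝔾), χ.val x = 1) : χ = 0 := by
  obtain ⟨K, hKo, hK1⟩ := hK
  -- the kernel of `χ`
  let L : Subgroup 𝔾 :=
    { carrier := {x | x ∈ U m ∧ χ.val x = 1}
      one_mem' := ⟨(U m).one_mem, fn_one _⟩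
      mul_mem' := fun ha hb => ⟨(U m).mul_mem ha.1 hb.1, by
        rw [Ch.val_mul χ ha.1 hb.1, ha.2, hb.2, one_mul]⟩
      inv_mem' := fun ha => ⟨(U m).inv_mem ha.1, by rw [Ch.val_inv χ ha.1, ha.2, inv_one]⟩ }
  have hLo : IsOpen (L : Set 𝔾) := by
    refine Subgroup.isOpen_mono (H₁ := K ⊓ U m) ?_ (hKo.inter (hT.opn m))
    intro x hx
    exact ⟨hx.2, hK1 x hx.1 hx.2⟩
  have hex : ∃ M, m ≤ M ∧ U M ≤ L := by
    by_contra hcon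
    push Not at hcon
    have h1 : (⋂ M : ℕ, ((U (m + M) : Set 𝔾) \ L)).Nonempty := by
      refine IsCompact.nonempty_iInter_of_directed_nonempty_isCompact_isClosed _ ?_ ?_ ?_ ?_
      · refine directed_of_isDirected_le ?_
        intro a b hab x hx
        exact ⟨hT.anti (Nat.add_le_add_left hab m) hx.1, hx.2⟩
      · intro M
        obtain ⟨x, hx, hx'⟩ := SetLike.not_le_iff_exists.1 (hcon (m + M) (Nat.le_add_right _ _))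
        exact ⟨x, hx, hx'⟩
      · intro M
        exact (((U (m + M)).isClosed_of_isOpen (hT.opn _)).sdiff hLo).isCompact
      · intro M
        exact ((U (m + M)).isClosed_of_isOpen (hT.opn _)).sdiff hLo
    obtain ⟨x, hx⟩ := h1
    rw [Set.mem_iInter] at hx
    have h2 : x ∈ (⨅ i, U i : Subgroup 𝔾) := by
      rw [Subgroup.mem_iInf]
      intro i
      exact hT.anti (Nat.le_add_left i m) (hx i).1
    exact (hx 0).2 ⟨(hx 0).1, h x h2⟩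
  obtain ⟨M, hmM, hM⟩ := hex
  exact hT.inj hmM hχ fun x hx => (hM hx).2

/-- the extension of an invariant character -/
theorem extend {m M : ℕ} (hmM : m ≤ M) {χ : Ch γ (U M)}
    (hχ : ∀ x ∈ I (w 0), x ∈ U M → χ.val x = 1)
    (hinv : ∀ x ∈ U M, χ.val (γ ^ p ^ m * x * (γ ^ p ^ m)⁻¹) = χ.val x) {g : 𝔾} (hgw : g ∈ I (w 0))
    (hgm : g ∈ U m) (hg : g⁻¹ * γ ^ p ^ m ∈ U M) :
    ∃ χ' : Ch γ (U m), (∀ x ∈ U M, χ'.val x = χ.val x) ∧ χ'.val g = 1 := by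
  have hn := hT.nrm M
  obtain ⟨c, hc⟩ : ∃ c, c = γ ^ p ^ m := ⟨_, rfl⟩
  rw [← hc] at hinv hg
  have hgen : ∀ x ∈ U m, ∃ i : ℤ, g ^ i * x ∈ U M := by
    intro x hx
    obtain ⟨i, hi⟩ := hT.gen m M hmM x hx
    refine ⟨i, ?_⟩
    rw [← hc] at hi
    let π : 𝔾 →* 𝔾 ⧸ U M := QuotientGroup.mk' (U M)
    have hπ : ∀ z, π z = 1 ↔ z ∈ U M := fun z => QuotientGroup.eq_one_iff z
    rw [← hπ, map_mul, map_inv, inv_mul_eq_one] at hg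
    rw [← hπ, map_mul, map_zpow] at hi ⊢
    rw [hg, hi]
  obtain ⟨χ', h1, h2⟩ := exists_ext (hT.anti hmM) hgm hgen (fun y _ x hx => hn.conj_mem x hx y)
    (Additive.toMul χ) (by
      intro x hx
      have h3 : g * x * g⁻¹ = c * ((g⁻¹ * c)⁻¹ * x * (g⁻¹ * c)) * c⁻¹ := by group
      have h4 : (g⁻¹ * c)⁻¹ * x * (g⁻¹ * c) ∈ U M :=
        (U M).mul_mem ((U M).mul_mem ((U M).inv_mem hg) hx) hg
      rw [h3]
      have h5 := hinv _ h4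
      have h6 : fn (Additive.toMul χ) ((g⁻¹ * c)⁻¹ * x * (g⁻¹ * c)⁻¹⁻¹) =
          fn (Additive.toMul χ) x := fn_conj _ ((U M).inv_mem hg) hx
      rw [inv_inv] at h6
      exact h5.trans h6) (by
      intro k hk
      exact hχ _ ((I (w 0)).zpow_mem hgw k) hk)
  exact ⟨Ch.mk γ χ', h1, h2⟩

end Tower

end Pool.Agent.H516
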