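import Pool.Agent.H516.Tower

/-!
# Counting unramified characters in a tower
-/

set_option autoImplicit false
set_option linter.unusedSectionVars false

namespace Pool.Agent.H516

open Subgroup Polynomial
open scoped Pointwise

theorem card_le_of_finset {α : Type*} (B : ℕ) (h : ∀ s : Finset α, s.card ≤ B) :
    Finite α ∧ Nat.card α ≤ B := by
  have hf : Finite α := by
    by_contra hcon
    rw [not_finite_iff_infinite] at hcon
    obtain ⟨s, hs⟩ := Infinite.exists_subset_card_eq α (B + 1)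
    have := h s
    omega
  refine ⟨hf, ?_⟩
  have : Fintype α := Fintype.ofFinite α
  rw [Nat.card_eq_fintype_card]
  exact h Finset.univ

theorem card_roots (t q : ℕ) (hq : q ≠ 0) :
    Finite {f : Fin t → ℂˣ // ∀ i, f i ^ q = 1} ∧
      Nat.card {f : Fin t → ℂˣ // ∀ i, f i ^ q = 1} = q ^ t := by
  have : NeZero q := ⟨hq⟩
  let e : {f : Fin t → ℂˣ // ∀ i, f i ^ q = 1} ≃ (Fin t → rootsOfUnity q ℂ) :=
    { toFun := fun f i => ⟨f.1 i, (mem_rootsOfUnity _ _).2 (f.2 i)⟩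
      invFun := fun f => ⟨fun i => (f i : ℂˣ), fun i => (mem_rootsOfUnity _ _).1 (f i).2⟩
      left_inv := fun _ => rfl
      right_inv := fun _ => rfl }
  refine ⟨Finite.of_equiv _ e.symm, ?_⟩
  have h1 : Nat.card (rootsOfUnity q ℂ) = q := by
    exact Complex.card_rootsOfUnity q
  rw [Nat.card_congr e, Nat.card_fun, h1, Nat.card_fin]

variable {𝔾 : Type} [Group 𝔾] [TopologicalSpace 𝔾] [IsTopologicalGroup 𝔾] {Ω : Type}
  [MulAction 𝔾 Ω]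

namespace Tower

variable {p : ℕ} {I : Ω → Subgroup 𝔾} {U : ℕ → Subgroup 𝔾} {γ : 𝔾} {t : ℕ}
  {w : Fin (t + 1) → Ω} {Ab : Set Ω} (hT : Tower p I U γ w Ab)

include hT

theorem move {v : Ω} (hv : v ∈ Ab) (m : ℕ) (x : 𝔾) : ∃ h ∈ U m, x • v = h • v := by
  obtain ⟨y, hy, h⟩ := hT.tot v hv m x
  refine ⟨x * y⁻¹, ?_, ?_⟩
  · have h1 := (hT.nrm m).conj_mem _ h y
    have h2 : y * (y⁻¹ * x) * y⁻¹ = x * y⁻¹ := by group
    rwa [h2] at h1
  · have h3 : y⁻¹ • v = v := by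
      rw [inv_smul_eq_iff]
      exact (hT.fixd v y hy).symm
    rw [mul_smul, h3]

/-- the choice of inertia elements -/
theorem exists_g {m M : ℕ} (hmM : m ≤ M) : ∃ g : Fin (t + 1) → 𝔾, ∀ i, g i ∈ I (w i) ∧
    g i ∈ U m ∧ (g i)⁻¹ * γ ^ p ^ m ∈ U M := by
  have h := fun i => hT.tot' (hT.wab i) hmM (hT.gmem m)
  choose g h1 h2 h3 using h
  exact ⟨g, fun i => ⟨h1 i, h2 i, h3 i⟩⟩

variable {m M : ℕ} {g : Fin (t + 1) → 𝔾}

theorem gen_of (hmM : m ≤ M) {c : 𝔾} (hc : c⁻¹ * γ ^ p ^ m ∈ U M) {x : 𝔾} (hx : x ∈ U m) :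
    ∃ i : ℤ, c ^ i * x ∈ U M := by
  have hn := hT.nrm M
  obtain ⟨i, hi⟩ := hT.gen m M hmM x hx
  refine ⟨i, ?_⟩
  let π : 𝔾 →* 𝔾 ⧸ U M := QuotientGroup.mk' (U M)
  have hπ : ∀ z, π z = 1 ↔ z ∈ U M := fun z => QuotientGroup.eq_one_iff z
  rw [← hπ, map_mul, map_inv, inv_mul_eq_one] at hc
  rw [← hπ, map_mul, map_zpow] at hi ⊢
  rw [hc, hi]

theorem pow_of (hmM : m ≤ M) {c : 𝔾} (hc : c⁻¹ * γ ^ p ^ m ∈ U M) : c ^ p ^ (M - m) ∈ U M := by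
  have hn := hT.nrm M
  let π : 𝔾 →* 𝔾 ⧸ U M := QuotientGroup.mk' (U M)
  have hπ : ∀ z, π z = 1 ↔ z ∈ U M := fun z => QuotientGroup.eq_one_iff z
  rw [← hπ, map_mul, map_inv, inv_mul_eq_one] at hc
  rw [← hπ, map_pow, hc, ← map_pow, ← pow_mul, ← pow_add, Nat.add_sub_cancel' hmM, hπ]
  exact hT.gmem M

theorem diff_mem (hg : ∀ i, g i ∈ I (w i) ∧ g i ∈ U m ∧ (g i)⁻¹ * γ ^ p ^ m ∈ U M)
    (i j : Fin (t + 1)) : (g i)⁻¹ * g j ∈ U M := by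
  have h := (U M).mul_mem (hg i).2.2 ((U M).inv_mem (hg j).2.2)
  have h1 : (g i)⁻¹ * γ ^ p ^ m * ((g j)⁻¹ * γ ^ p ^ m)⁻¹ = (g i)⁻¹ * g j := by group
  rwa [h1] at h

/-- the descent of an invariant unramified character -/
theorem descend (hmM : m ≤ M) [(U m).Normal] [(U M).Normal]
    (hg : ∀ i, g i ∈ I (w i) ∧ g i ∈ U m ∧ (g i)⁻¹ * γ ^ p ^ m ∈ U M) {χ : Ch γ (U M)}
    (hχ : χ ∈ UC p I hT.conj γ (U M))
    (hinv : ∀ x ∈ U M, χ.val (γ ^ p ^ m * x * (γ ^ p ^ m)⁻¹) = χ.val x)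
    (hΦ : ∀ i : Fin t, χ.val ((g 0)⁻¹ * g i.succ) = 1) :
    ∃ χ' ∈ UC p I hT.conj γ (U m), ∀ x ∈ U M, χ'.val x = χ.val x := by
  obtain ⟨χ', h1, h2⟩ := hT.extend hmM (hχ.2.2 (w 0)) hinv (hg 0).1 (hg 0).2.1 (hg 0).2.2
  have hgi : ∀ i, χ'.val (g i) = 1 := by
    intro i
    refine Fin.cases h2 (fun i => ?_) i
    have h3 : g i.succ = g 0 * ((g 0)⁻¹ * g i.succ) := by group
    have h4 := hT.diff_mem hg 0 i.succ
    rw [h3, Ch.val_mul _ (hg 0).2.1 (hT.anti hmM h4), h2, one_mul, h1 _ h4, hΦ i]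
  have hval : ∀ (i : Fin (t + 1)) (x : 𝔾), x ∈ U m → ∃ k : ℤ, g i ^ k * x ∈ U M ∧
      χ'.val x = χ.val (g i ^ k * x) := by
    intro i x hx
    obtain ⟨k, hk⟩ := hT.gen_of hmM (hg i).2.2 hx
    refine ⟨k, hk, ?_⟩
    have h3 : x = g i ^ (-k) * (g i ^ k * x) := by
      rw [zpow_neg]
      group
    conv_lhs => rw [h3]
    rw [Ch.val_mul _ ((U m).zpow_mem (hg i).2.1 _) (hT.anti hmM hk), ← h1 _ hk]
    have h4 : χ'.val (g i ^ (-k)) = 1 := by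
      have := fn_zpow (Additive.toMul χ') (hg i).2.1 (-k)
      have h5 : χ'.val (g i ^ (-k)) = χ'.val (g i) ^ (-k) := this
      rw [h5, hgi i, one_zpow]
    rw [h4, one_mul]
  refine ⟨χ', ⟨?_, ?_, ?_⟩, h1⟩
  · obtain ⟨K, hK, hK1⟩ := hχ.1
    exact ⟨K ⊓ U M, hK.inter (hT.opn M), fun x hx _ => by rw [h1 x hx.2, hK1 x hx.1 hx.2]⟩
  · obtain ⟨k, hk⟩ := hχ.2.1
    refine ⟨k, fun x hx => ?_⟩
    obtain ⟨j, hj, hj2⟩ := hval 0 x hx
    rw [hj2]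
    exact hk _ hj
  · intro v x hx hxm
    by_cases hv : v ∈ Ab
    · obtain ⟨i, h, hh, rfl⟩ := hT.orb' hv m
      have hy : h⁻¹ * x * h ∈ I (w i) := by
        have := hT.conj h⁻¹ _ x hx
        rwa [inv_smul_smul, inv_inv] at this
      have hym : h⁻¹ * x * h ∈ U m := (U m).mul_mem ((U m).mul_mem ((U m).inv_mem hh) hxm) hh
      have e1 : χ'.val x = χ'.val (h⁻¹ * x * h) := by
        have := fn_conj (Additive.toMul χ') hh hym
        have h3 : h * (h⁻¹ * x * h) * h⁻¹ = x := by group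
        rw [h3] at this
        exact this
      obtain ⟨k, hk, hk2⟩ := hval i _ hym
      rw [e1, hk2]
      exact hχ.2.2 (w i) _ ((I (w i)).mul_mem ((I (w i)).zpow_mem (hg i).1 k) hy) hk
    · have h3 := hT.unr v hv M hx
      rw [h1 x h3]
      exact hχ.2.2 v x hx h3

/-- the local symbols are invariant -/
theorem symbol_act (hmM : m ≤ M) [(U M).Normal]
    (hg : ∀ i, g i ∈ I (w i) ∧ g i ∈ U m ∧ (g i)⁻¹ * γ ^ p ^ m ∈ U M) {χ : Ch γ (U M)}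
    (hχ : χ ∈ UC p I hT.conj γ (U M))
    (hinv : ∀ x ∈ U M, χ.val (γ ^ p ^ m * x * (γ ^ p ^ m)⁻¹) = χ.val x) (i : Fin (t + 1)) :
    χ.val (γ * ((g 0)⁻¹ * g i) * γ⁻¹) = χ.val ((g 0)⁻¹ * g i) := by
  obtain ⟨χ', h1, h2⟩ := hT.extend hmM (hχ.2.2 (w 0)) hinv (hg 0).1 (hg 0).2.1 (hg 0).2.2
  have hnm := hT.nrm m
  have hnM := hT.nrm M
  have key : ∀ j, χ'.val (γ * g j * γ⁻¹) = χ'.val (g j) := by
    intro j
    obtain ⟨h, hh, hh2⟩ := hT.move (hT.wab j) m γ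
    have a1 : γ * g j * γ⁻¹ ∈ I (γ • w j) := hT.conj γ _ _ (hg j).1
    rw [hh2] at a1
    have a2 := hT.conj h⁻¹ _ _ a1
    rw [inv_smul_smul, inv_inv] at a2
    have a3 : γ * g j * γ⁻¹ ∈ U m := hnm.conj_mem _ (hg j).2.1 γ
    have a4 : h⁻¹ * (γ * g j * γ⁻¹) * h ∈ U m :=
      (U m).mul_mem ((U m).mul_mem ((U m).inv_mem hh) a3) hh
    have a5 : χ'.val (γ * g j * γ⁻¹) = χ'.val (h⁻¹ * (γ * g j * γ⁻¹) * h) := by
      have := fn_conj (Additive.toMul χ') hh a4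
      have h3 : h * (h⁻¹ * (γ * g j * γ⁻¹) * h) * h⁻¹ = γ * g j * γ⁻¹ := by group
      rw [h3] at this
      exact this
    -- the quotient by `g j`
    obtain ⟨z, hz⟩ : ∃ z, z = h⁻¹ * (γ * g j * γ⁻¹) * h * (g j)⁻¹ := ⟨_, rfl⟩
    have a6 : z ∈ U M := by
      have := hT.comm M (h⁻¹ * γ) (g j)
      have h3 : h⁻¹ * γ * g j * (h⁻¹ * γ)⁻¹ * (g j)⁻¹ = z := by
        rw [hz]
        group
      rwa [h3] at this
    have a7 : z ∈ I (w j) := by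
      rw [hz]
      exact (I (w j)).mul_mem a2 ((I (w j)).inv_mem (hg j).1)
    have a8 : h⁻¹ * (γ * g j * γ⁻¹) * h = z * g j := by
      rw [hz]
      group
    rw [a5, a8, Ch.val_mul _ (hT.anti hmM a6) (hg j).2.1, h1 _ a6, hχ.2.2 (w j) z a7 a6, one_mul]
  have b1 := hT.diff_mem hg 0 i
  have b2 : γ * ((g 0)⁻¹ * g i) * γ⁻¹ ∈ U M := hnM.conj_mem _ b1 γ
  rw [← h1 _ b1, ← h1 _ b2]
  have b3 : γ * ((g 0)⁻¹ * g i) * γ⁻¹ = (γ * g 0 * γ⁻¹)⁻¹ * (γ * g i * γ⁻¹) := by group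
  have b4 : ∀ j, γ * g j * γ⁻¹ ∈ U m := fun j => hnm.conj_mem _ (hg j).2.1 γ
  rw [b3, Ch.val_mul _ ((U m).inv_mem (b4 0)) (b4 i), Ch.val_inv _ (b4 0), key, key,
    Ch.val_mul _ ((U m).inv_mem (hg 0).2.1) (hg i).2.1, Ch.val_inv _ (hg 0).2.1]

/-- the local symbols have order dividing the index -/
theorem symbol_pow (hmM : m ≤ M) [(U M).Normal]
    (hg : ∀ i, g i ∈ I (w i) ∧ g i ∈ U m ∧ (g i)⁻¹ * γ ^ p ^ m ∈ U M) {χ : Ch γ (U M)}
    (hχ : χ ∈ UC p I hT.conj γ (U M))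
    (hinv : ∀ x ∈ U M, χ.val (γ ^ p ^ m * x * (γ ^ p ^ m)⁻¹) = χ.val x) (i : Fin (t + 1)) :
    χ.val ((g 0)⁻¹ * g i) ^ p ^ (M - m) = 1 := by
  obtain ⟨χ', h1, h2⟩ := hT.extend hmM (hχ.2.2 (w 0)) hinv (hg 0).1 (hg 0).2.1 (hg 0).2.2
  have b1 := hT.diff_mem hg 0 i
  have h3 := hT.pow_of hmM (hg i).2.2
  rw [← h1 _ b1, Ch.val_mul _ ((U m).inv_mem (hg 0).2.1) (hg i).2.1, Ch.val_inv _ (hg 0).2.1, h2,
    inv_one, one_mul]
  have h4 : χ'.val (g i ^ p ^ (M - m)) = χ'.val (g i) ^ p ^ (M - m) :=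
    fn_pow (Additive.toMul χ') (hg i).2.1 _
  rw [← h4, h1 _ h3]
  exact hχ.2.2 (w i) _ ((I (w i)).pow_mem (hg i).1 _) h3

/-- **The count.** -/
theorem count (hmM : m ≤ M) [(U m).Normal] [(U M).Normal]
    (hg : ∀ i, g i ∈ I (w i) ∧ g i ∈ U m ∧ (g i)⁻¹ * γ ^ p ^ m ∈ U M)
    (S : Submodule ℤ[X] (Ch γ (U M))) (hS : S ≤ UC p I hT.conj γ (U M))
    (hSm : ∀ χ ∈ S, om p m • χ = 0) (q : ℕ) (hq : q ≠ 0)
    (hSq : ∀ χ ∈ S, ∀ i : Fin t, χ.val ((g 0)⁻¹ * g i.succ) ^ q = 1)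
    (hf : Finite (UC p I hT.conj γ (U m))) :
    Finite S ∧ Nat.card S ≤ Nat.card (UC p I hT.conj γ (U m)) * q ^ t := by
  obtain ⟨hr1, hr2⟩ := card_roots t q hq
  let Φ : S →+ Additive (Fin t → ℂˣ) :=
    { toFun := fun χ => Additive.ofMul fun i => χ.1.val ((g 0)⁻¹ * g i.succ)
      map_zero' := by
        apply Additive.toMul.injective
        funext i
        exact Ch.val_zero _
      map_add' := fun χ ψ => by
        apply Additive.toMul.injective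
        funext i
        exact Ch.val_add _ _ _ }
  have hk : ∀ χ : Φ.ker, ∃ χ' : UC p I hT.conj γ (U m), ∀ x ∈ U M, χ'.1.val x = χ.1.1.val x := by
    rintro ⟨⟨χ, hχS⟩, hχ⟩
    have h1 : ∀ i : Fin t, χ.val ((g 0)⁻¹ * g i.succ) = 1 := fun i =>
      congrFun (congrArg Additive.toMul hχ) i
    obtain ⟨χ', h2, h3⟩ := hT.descend hmM hg (hS hχS) (Ch.om_smul_eq_zero.1 (hSm χ hχS)) h1
    exact ⟨⟨χ', h2⟩, h3⟩
  choose f hf' using hk
  have hfi : Function.Injective f := by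
    intro χ ψ h
    apply Subtype.ext
    apply Subtype.ext
    refine Ch.ext fun x hx => ?_
    rw [← hf' χ x hx, ← hf' ψ x hx, h]
  have hkf : Finite Φ.ker := Finite.of_injective f hfi
  let r : Φ.range → {f : Fin t → ℂˣ // ∀ i, f i ^ q = 1} := fun y => ⟨Additive.toMul y.1, by
    obtain ⟨y, χ, rfl⟩ := y
    intro i
    exact hSq χ.1 χ.2 i⟩
  have hri : Function.Injective r := by
    intro y z h
    apply Subtype.ext
    have h' : (r y).1 = (r z).1 := by rw [h]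
    exact Additive.toMul.injective h'
  have hrf : Finite Φ.range := Finite.of_injective r hri
  have hcard : Nat.card Φ.ker * Nat.card Φ.range = Nat.card S := by
    rw [← AddSubgroup.card_mul_index Φ.ker, AddSubgroup.index_ker]
  refine ⟨?_, ?_⟩
  · apply Nat.finite_of_card_ne_zero
    rw [← hcard]
    exact mul_ne_zero Nat.card_pos.ne' Nat.card_pos.ne'
  · rw [← hcard, ← hr2]
    exact Nat.mul_le_mul (Nat.card_le_card_of_injective f hfi) (Nat.card_le_card_of_injective r hri)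

end Tower

end Pool.Agent.H516
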