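import Pool.Agent.H516.Tower2

/-!
# The growth of the unramified characters in a tower
-/

set_option autoImplicit false
set_option linter.unusedSectionVars false

namespace Pool.Agent.H516

open Subgroup Polynomial
open scoped Pointwise

theorem val_sum {𝔾 : Type} [Group 𝔾] {γ : 𝔾} {N : Subgroup 𝔾} [N.Normal] {ι : Type}
    (s : Finset ι) (f : ι → Ch γ N) (x : 𝔾) :
    (∑ i ∈ s, f i).val x = ∏ i ∈ s, (f i).val x := by
  classical
  induction s using Finset.induction_on with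
  | empty => rw [Finset.sum_empty, Finset.prod_empty, Ch.val_zero]
  | insert a s ha ih => rw [Finset.sum_insert ha, Finset.prod_insert ha, Ch.val_add, ih]

theorem card_submodule_comap {R D : Type*} [CommRing R] [AddCommGroup D] [Module R D]
    {S P : Submodule R D} (h : S ≤ P) : Nat.card (S.comap P.subtype) = Nat.card S :=
  Nat.card_congr (Submodule.comapSubtypeEquivOfLe h).toEquiv

variable {𝔾 : Type} [Group 𝔾] [TopologicalSpace 𝔾] [IsTopologicalGroup 𝔾] {Ω : Type}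
  [MulAction 𝔾 Ω]

theorem UC_res {p : ℕ} {I : Ω → Subgroup 𝔾} {hI : ∀ g v x, x ∈ I v → g * x * g⁻¹ ∈ I (g • v)}
    {γ : 𝔾} {N N' : Subgroup 𝔾} [N.Normal] [N'.Normal] (h : N ≤ N') {χ : Ch γ N'}
    (hχ : χ ∈ UC p I hI γ N') : Ch.res h χ ∈ UC p I hI γ N := by
  obtain ⟨⟨K, hK, hK1⟩, ⟨k, hk⟩, hv⟩ := hχ
  refine ⟨⟨K, hK, fun x hx hxN => ?_⟩, ⟨k, fun x hx => ?_⟩, fun v x hx hxN => ?_⟩
  · rw [Ch.val_res h χ hxN]
    exact hK1 x hx (h hxN)
  · rw [Ch.val_res h χ hx]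
    exact hk x (h hx)
  · rw [Ch.val_res h χ hxN]
    exact hv v x hx (h hxN)

namespace Tower

variable {p : ℕ} {I : Ω → Subgroup 𝔾} {U : ℕ → Subgroup 𝔾} {γ : 𝔾} {t : ℕ}
  {w : Fin (t + 1) → Ω} {Ab : Set Ω} (hT : Tower p I U γ w Ab)

include hT

/-- the characters killed by `ω_m` -/
theorem card_om [∀ m, (U m).Normal] (hp : p.Prime) {m M : ℕ} (hmM : m ≤ M)
    (hf : Finite (UC p I hT.conj γ (U m))) :
    Finite (UC p I hT.conj γ (U M) ⊓ tor _ (om p m) : Submodule ℤ[X] (Ch γ (U M))) ∧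
      Nat.card (UC p I hT.conj γ (U M) ⊓ tor _ (om p m) : Submodule ℤ[X] (Ch γ (U M))) ≤
        Nat.card (UC p I hT.conj γ (U m)) * (p ^ (M - m)) ^ t := by
  obtain ⟨g, hg⟩ := hT.exists_g hmM
  refine hT.count hmM hg _ inf_le_left (fun χ hχ => hχ.2) (p ^ (M - m))
    (pow_ne_zero _ hp.ne_zero) (fun χ hχ i => ?_) hf
  exact hT.symbol_pow hmM hg hχ.1 (Ch.om_smul_eq_zero.1 hχ.2) i.succ

/-- the characters killed by `ν_m` -/
theorem card_nu [∀ m, (U m).Normal] (hp : p.Prime) {m M : ℕ} (hmM : m ≤ M)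
    (hf : Finite (UC p I hT.conj γ (U m))) :
    Finite (UC p I hT.conj γ (U M) ⊓ tor _ (nu p m) : Submodule ℤ[X] (Ch γ (U M))) ∧
      Nat.card (UC p I hT.conj γ (U M) ⊓ tor _ (nu p m) : Submodule ℤ[X] (Ch γ (U M))) ≤
        Nat.card (UC p I hT.conj γ (U m)) * (p ^ m) ^ t := by
  obtain ⟨g, hg⟩ := hT.exists_g hmM
  have hom : ∀ χ ∈ (UC p I hT.conj γ (U M) ⊓ tor _ (nu p m) : Submodule ℤ[X] (Ch γ (U M))),
      om p m • χ = 0 := by
    intro χ hχ
    have h1 : nu p m • χ = 0 := hχ.2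
    rw [om_eq, mul_smul, h1, smul_zero]
  refine hT.count hmM hg _ inf_le_left hom (p ^ m) (pow_ne_zero _ hp.ne_zero) (fun χ hχ i => ?_) hf
  -- all conjugates have the same symbols
  have key : ∀ j : ℕ, ((X : ℤ[X]) ^ j • χ).val ((g 0)⁻¹ * g i.succ) =
      χ.val ((g 0)⁻¹ * g i.succ) := by
    intro j
    induction j with
    | zero => simp
    | succ j ih =>
      have hmem : (X : ℤ[X]) ^ j • χ ∈
          (UC p I hT.conj γ (U M) ⊓ tor _ (nu p m) : Submodule ℤ[X] (Ch γ (U M))) :=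
        Submodule.smul_mem _ _ hχ
      have h2 := hT.symbol_act hmM hg hmem.1 (Ch.om_smul_eq_zero.1 (hom _ hmem)) i.succ
      rw [pow_succ', mul_smul, Ch.X_smul, Ch.val_act, h2, ih]
  have h1 : nu p m • χ = 0 := hχ.2
  have h3 := congrArg (fun ψ => ψ.val ((g 0)⁻¹ * g i.succ)) h1
  simp only [Ch.val_zero] at h3
  rw [nu, Finset.sum_smul, val_sum, Finset.prod_congr rfl fun j _ => key j, Finset.prod_const,
    Finset.card_range] at h3
  exact h3

/-- **The growth of the unramified characters in a tower.** -/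
theorem main [∀ m, (U m).Normal] [CompactSpace 𝔾] (hp : p.Prime) (e : ℕ → ℕ)
    (hcard : ∀ m, Nat.card (UC p I hT.conj γ (U m)) = p ^ e m) :
    ∃ μ : ℕ, (∀ m, (p ^ m - 1) * μ ≤ e m + m * t) ∧ ∃ C, ∀ m, e m ≤ μ * p ^ m + C * (m + 1) := by
  classical
  have hfin : ∀ m, Finite (UC p I hT.conj γ (U m)) := fun m => by
    apply Nat.finite_of_card_ne_zero
    rw [hcard]
    exact pow_ne_zero _ hp.ne_zero
  let N : Subgroup 𝔾 := ⨅ i, U i
  have hN : N.Normal := Subgroup.normal_iInf_normal hT.nrm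
  let r : ∀ m, Ch γ (U m) →ₗ[ℤ[X]] Ch γ N := fun m => Ch.res (iInf_le U m)
  have hr0 : ∀ m, ∀ χ ∈ UC p I hT.conj γ (U m), r m χ = 0 → χ = 0 := by
    intro m χ hχ h
    refine hT.injInf (hχ.2.2 (w 0)) hχ.1 fun x hx => ?_
    have h1 : (r m χ).val x = χ.val x := Ch.val_res (iInf_le U m) χ hx
    rw [← h1, h, Ch.val_zero]
  obtain ⟨Dm, hDm⟩ : ∃ Dm : ℕ → Submodule ℤ[X] (Ch γ N),
      ∀ m, Dm m = (UC p I hT.conj γ (U m)).map (r m) := ⟨_, fun _ => rfl⟩
  have hmap : ∀ m (S : Submodule ℤ[X] (Ch γ (U m))), S ≤ UC p I hT.conj γ (U m) →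
      Nat.card (S.map (r m)) = Nat.card S := by
    intro m S hS
    refine (Nat.card_congr (Equiv.ofBijective (fun x : S => (⟨r m x.1, x.1, x.2, rfl⟩ :
      S.map (r m))) ⟨?_, ?_⟩)).symm
    · intro x y hxy
      apply Subtype.ext
      have h1 : r m x.1 = r m y.1 := congrArg Subtype.val hxy
      rw [← sub_eq_zero, ← map_sub] at h1
      exact sub_eq_zero.1 (hr0 m _ (Submodule.sub_mem _ (hS x.2) (hS y.2)) h1)
    · rintro ⟨_, x, hx, rfl⟩
      exact ⟨⟨x, hx⟩, rfl⟩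
  have hmono' : ∀ m M, m ≤ M → Dm m ≤ Dm M := by
    intro m M hmM
    rw [hDm, hDm]
    rintro _ ⟨χ, hχ, rfl⟩
    refine ⟨Ch.res (hT.anti hmM) χ, UC_res _ hχ, ?_⟩
    refine Ch.ext fun x hx => ?_
    have hx' : x ∈ U M := (iInf_le U M) hx
    have h1 : (r M (Ch.res (hT.anti hmM) χ)).val x = (Ch.res (hT.anti hmM) χ).val x :=
      Ch.val_res (iInf_le U M) _ hx
    have h2 : (r m χ).val x = χ.val x := Ch.val_res (iInf_le U m) χ hx
    rw [h1, h2, Ch.val_res _ _ hx']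
  have hmono : Monotone Dm := fun m M h => hmono' m M h
  -- elements killed by a polynomial
  have htor : ∀ m (f : ℤ[X]), (Dm m ⊓ tor _ f : Submodule ℤ[X] (Ch γ N)) =
      (UC p I hT.conj γ (U m) ⊓ tor _ f : Submodule ℤ[X] (Ch γ (U m))).map (r m) := by
    intro m f
    rw [hDm]
    apply le_antisymm
    · rintro _ ⟨⟨χ, hχ, rfl⟩, hf⟩
      refine ⟨χ, ⟨hχ, ?_⟩, rfl⟩
      have hf' : f • r m χ = 0 := hf
      rw [← map_smul] at hf'
      exact hr0 m _ (Submodule.smul_mem _ _ hχ) hf'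
    · rintro _ ⟨χ, ⟨hχ, hf⟩, rfl⟩
      refine ⟨⟨χ, hχ, rfl⟩, ?_⟩
      have hf' : f • χ = 0 := hf
      show f • r m χ = 0
      rw [← map_smul, hf', map_zero]
  let P : Submodule ℤ[X] (Ch γ N) := ⨆ m, Dm m
  have hP : ∀ χ : Ch γ N, χ ∈ P ↔ ∃ m, χ ∈ Dm m := fun χ =>
    Submodule.mem_iSup_of_directed Dm (directed_of_isDirected_le hmono)
  have hle : ∀ m, Dm m ≤ P := fun m => le_iSup Dm m
  have hcomap : ∀ (S : Submodule ℤ[X] (Ch γ N)) (f : ℤ[X]),
      (S.comap P.subtype ⊓ tor P f : Submodule ℤ[X] P) =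
        (S ⊓ tor _ f : Submodule ℤ[X] (Ch γ N)).comap P.subtype := by
    intro S f
    ext x
    simp only [Submodule.mem_inf, Submodule.mem_comap, mem_tor]
    refine and_congr_right fun _ => ?_
    constructor
    · intro h
      exact congrArg Subtype.val h
    · intro h
      exact Subtype.ext h
  have hnu : ∀ m M, m ≤ M → Nat.card (Dm M ⊓ tor _ (nu p m) : Submodule ℤ[X] (Ch γ N)) ≤
      p ^ (e m + m * t) := by
    intro m M hmM
    rw [htor, hmap _ _ inf_le_left]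
    refine (hT.card_nu hp hmM (hfin m)).2.trans ?_
    rw [hcard, ← pow_mul, ← pow_add]
  have hnuP : ∀ m, Finite (tor P (nu p m)) ∧ Nat.card (tor P (nu p m)) ≤ p ^ (e m + m * t) := by
    intro m
    refine card_le_of_finset _ fun s => ?_
    choose f hf using fun x : tor P (nu p m) => (hP x.1.1).1 x.1.2
    let M : ℕ := m + s.sup f
    have hfinM : Finite (Dm M ⊓ tor _ (nu p m) : Submodule ℤ[X] (Ch γ N)) := by
      rw [htor]
      have := (hT.card_nu hp (Nat.le_add_right m (s.sup f)) (hfin m)).1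
      exact Finite.of_surjective (fun x : (UC p I hT.conj γ (U M) ⊓ tor _ (nu p m) :
        Submodule ℤ[X] (Ch γ (U M))) => (⟨r M x.1, x.1, x.2, rfl⟩ :
          (UC p I hT.conj γ (U M) ⊓ tor _ (nu p m) : Submodule ℤ[X] (Ch γ (U M))).map (r M))) (by
        rintro ⟨_, x, hx, rfl⟩
        exact ⟨⟨x, hx⟩, rfl⟩)
    let i : s → (Dm M ⊓ tor _ (nu p m) : Submodule ℤ[X] (Ch γ N)) := fun x =>
      ⟨x.1.1.1, hmono' _ _ ((Finset.le_sup x.2).trans (Nat.le_add_left _ m)) (hf x.1),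
        congrArg Subtype.val x.1.2⟩
    have hi : Function.Injective i := by
      intro x y h
      have h1 : (i x).1 = (i y).1 := by rw [h]
      have h2 : x.1.1.1 = y.1.1.1 := h1
      exact Subtype.ext (Subtype.ext (Subtype.ext h2))
    have h3 := Nat.card_le_card_of_injective i hi
    rw [Nat.card_eq_fintype_card, Fintype.card_coe] at h3
    exact h3.trans (hnu m M (Nat.le_add_right _ _))
  refine growth' hp (D := P) (fun m => (Dm m).comap P.subtype) e t
    (fun m M h => Submodule.comap_mono (hmono h)) ?_ ?_ ?_ ?_ (fun m => (hnuP m).1)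
    (fun m => (hnuP m).2)
  · intro x
    exact (hP x.1).1 x.2
  · intro m
    rw [card_submodule_comap (hle m), hDm, hmap _ _ le_rfl, hcard]
  · intro m x hx
    apply Subtype.ext
    show om p m • x.1 = 0
    have hx' : x.1 ∈ Dm m := hx
    rw [hDm] at hx'
    obtain ⟨χ, hχ, hχx⟩ := hx'
    rw [← hχx, ← map_smul]
    have h1 : om p m • χ = 0 := by
      rw [Ch.om_smul_eq_zero]
      intro y hy
      exact fn_conj (Additive.toMul χ) (hT.gmem m) hy
    rw [h1, map_zero]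
  · intro m
    rw [hcomap, card_submodule_comap (inf_le_left.trans (hle _)), htor, hmap _ _ inf_le_left]
    refine (hT.card_om hp (Nat.le_succ m) (hfin m)).2.trans ?_
    rw [hcard, Nat.succ_sub (le_refl m), Nat.sub_self, pow_one, ← pow_add]

end Tower

end Pool.Agent.H516
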