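import Pool.Agent.H516.Bd

/-! Existence of the layers of the cyclotomic tower. -/

set_option autoImplicit false
set_option linter.unusedSectionVars false

namespace Pool.Agent.H516

open NumberField Module IntermediateField Subgroup
open Pool.Agent.Q60.MU Pool.Agent.K4H24.IW Pool.Agent.K4H94.IW

theorem exists_layer {p : ℕ} [hp : Fact p.Prime] (hp2 : p ≠ 2) (m : ℕ) :
    ∃ E : IntermediateField ℚ Qb, finrank ℚ E = p ^ m ∧
      E ≤ adjoin ℚ {ζ : Qb | ζ ^ p ^ (m + 1) = 1} := by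
  have hk : p ^ (m + 1) ≠ 0 := pow_ne_zero _ hp.1.ne_zero
  have : NeZero (p ^ (m + 1)) := ⟨hk⟩
  have hcl : IsAlgClosed Qb := AlgebraicClosure.isAlgClosed ℚ
  have : NeZero ((p ^ (m + 1) : ℕ) : Qb) := ⟨by exact_mod_cast hk⟩
  obtain ⟨ζ, hζ⟩ := HasEnoughRootsOfUnity.exists_primitiveRoot Qb (p ^ (m + 1))
  let C : IntermediateField ℚ Qb := IntermediateField.adjoin ℚ {ζ}
  have hcyc : IsCyclotomicExtension {p ^ (m + 1)} ℚ C :=
    hζ.intermediateField_adjoin_isCyclotomicExtension (K := ℚ)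
  have hirr := Polynomial.cyclotomic.irreducible_rat (pow_pos hp.1.pos (m + 1))
  have hgal : IsGalois ℚ C := IsCyclotomicExtension.isGalois {p ^ (m + 1)} ℚ C
  have hfin : FiniteDimensional ℚ C := IsCyclotomicExtension.finiteDimensional {p ^ (m + 1)} ℚ C
  let φ : Gal(C/ℚ) ≃* (ZMod (p ^ (m + 1)))ˣ := IsCyclotomicExtension.autEquivPow C hirr
  have hcycl : IsCyclic (ZMod (p ^ (m + 1)))ˣ :=
    ZMod.isCyclic_units_of_prime_pow p hp.1 hp2 (m + 1)
  have hcg : IsCyclic Gal(C/ℚ) := isCyclic_of_surjective φ.symm φ.symm.surjective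
  have hcard : Nat.card Gal(C/ℚ) = p ^ m * (p - 1) := by
    rw [Nat.card_congr φ.toEquiv, Nat.card_eq_fintype_card, ZMod.card_units_eq_totient,
      Nat.totient_prime_pow hp.1 (Nat.succ_pos m), Nat.succ_sub_one]
  obtain ⟨g, hg⟩ := IsCyclic.exists_generator (α := Gal(C/ℚ))
  have hord : orderOf g = p ^ m * (p - 1) := by
    rw [orderOf_eq_card_of_forall_mem_zpowers hg, hcard]
  let H : Subgroup Gal(C/ℚ) := zpowers (g ^ p ^ m)
  have hH : Nat.card H = p - 1 := by
    rw [Nat.card_zpowers, orderOf_pow_of_dvd (pow_ne_zero _ hp.1.ne_zero) (by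
      rw [hord]; exact Dvd.intro _ rfl), hord, Nat.mul_div_cancel_left _ (pow_pos hp.1.pos m)]
  have h1 : finrank (fixedField H) C = p - 1 := by
    rw [finrank_fixedField_eq_card, hH]
  have h2 : finrank ℚ (fixedField H) = p ^ m := by
    have h3 := finrank_mul_finrank ℚ (fixedField H) C
    rw [h1, ← IsGalois.card_aut_eq_finrank ℚ C, hcard] at h3
    refine Nat.eq_of_mul_eq_mul_right ?_ h3
    have := hp.1.two_le
    omega
  refine ⟨lift (fixedField H), ?_, ?_⟩
  · rw [← h2]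
    exact (liftAlgEquiv (fixedField H)).toLinearEquiv.finrank_eq.symm
  · refine (lift_le _).trans ?_
    exact adjoin.mono _ _ _ (Set.singleton_subset_iff.2 hζ.pow_eq_one)

theorem exists_cycTower {p : ℕ} [hp : Fact p.Prime] (hp2 : p ≠ 2) :
    ∃ R : ℕ → IntermediateField ℚ Qb, IsCycTower p R := by
  choose R hR using exists_layer hp2
  exact ⟨R, hR⟩

end Pool.Agent.H516
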