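import Pool.Agent.H516.Herb

/-! The Herbrand quotient of the units of a number field in an odd cyclic extension. -/

set_option autoImplicit false
set_option linter.unusedSectionVars false

namespace Pool.Agent.H516.UH

open NumberField NumberField.Units

theorem nonpos_of_rel {S : Type} [Fintype S] (b : S → S → ℝ) (hneg : ∀ s t, s ≠ t → b s t < 0)
    (hsum : ∀ s, ∑ t, b s t = 0) (z : S → ℝ) (s0 : S) (h0 : z s0 = 0)
    (h : ∀ t, ∑ s, z s * b s t = 0) (s : S) : z s ≤ 0 := by
  classical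
  by_contra hs
  push Not at hs
  set P : Finset S := Finset.univ.filter fun s => 0 < z s with hP
  have hs0 : s0 ∈ Pᶜ := by simp [hP, h0]
  have h1 : ∑ a, z a * ∑ t ∈ P, b a t = 0 := by
    have : ∑ t ∈ P, ∑ a, z a * b a t = 0 := Finset.sum_eq_zero fun t _ => h t
    rw [Finset.sum_comm] at this
    rw [← this]
    exact Finset.sum_congr rfl fun a _ => Finset.mul_sum _ _ _
  have h2 : ∀ a, a ∈ P → 0 < ∑ t ∈ P, b a t := by
    intro a ha
    have h3 := Finset.sum_add_sum_compl P (b a)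
    rw [hsum a] at h3
    have h4 : ∑ t ∈ Pᶜ, b a t < 0 := by
      refine Finset.sum_neg (fun t ht => hneg a t ?_) ⟨s0, hs0⟩
      rintro rfl
      exact (Finset.mem_compl.mp ht) ha
    linarith
  have h5 : 0 < ∑ a, z a * ∑ t ∈ P, b a t := by
    refine Finset.sum_pos' (fun a _ => ?_) ⟨s, Finset.mem_univ _, ?_⟩
    · by_cases ha : a ∈ P
      · exact (mul_pos (Finset.mem_filter.mp ha).2 (h2 a ha)).le
      · have ha' : z a ≤ 0 := by
          by_contra hc
          exact ha (Finset.mem_filter.mpr ⟨Finset.mem_univ _, not_le.mp hc⟩)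
        refine mul_nonneg_of_nonpos_of_nonpos ha' (Finset.sum_nonpos fun t ht => ?_)
        refine (hneg a t ?_).le
        rintro rfl
        exact ha ht
    · exact mul_pos hs (h2 s (Finset.mem_filter.mpr ⟨Finset.mem_univ _, hs⟩))
  linarith

theorem zero_of_rel {S : Type} [Fintype S] (b : S → S → ℝ) (hneg : ∀ s t, s ≠ t → b s t < 0)
    (hsum : ∀ s, ∑ t, b s t = 0) (z : S → ℝ) (s0 : S) (h0 : z s0 = 0)
    (h : ∀ t, ∑ s, z s * b s t = 0) : z = 0 := by
  funext s
  refine le_antisymm (nonpos_of_rel b hneg hsum z s0 h0 h s) ?_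
  have := nonpos_of_rel b hneg hsum (-z) s0 (by simp [h0]) (fun t => by
    simp only [Pi.neg_apply, neg_mul, Finset.sum_neg_distrib, h t, neg_zero]) s
  simpa using this

section
variable (K L : Type) [Field K] [Field L] [NumberField K] [NumberField L] [Algebra K L]

/-- the action on the units -/
noncomputable def ua (g : Gal(L/K)) : (𝓞 L)ˣ →* (𝓞 L)ˣ :=
  Units.map (MulDistribMulAction.toMonoidHom (𝓞 L) g)

variable {K L}

theorem ua_coe (g : Gal(L/K)) (u : (𝓞 L)ˣ) : ((ua K L g u : 𝓞 L) : L) = g ((u : 𝓞 L) : L) := rfl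

theorem units_ext {u v : (𝓞 L)ˣ} (h : ((u : 𝓞 L) : L) = ((v : 𝓞 L) : L)) : u = v :=
  Units.ext (RingOfIntegers.ext h)

theorem ua_mul (g h : Gal(L/K)) (u : (𝓞 L)ˣ) : ua K L (g * h) u = ua K L g (ua K L h u) :=
  units_ext (by simp [ua_coe])

theorem ua_one (u : (𝓞 L)ˣ) : ua K L 1 u = u := units_ext (by simp [ua_coe])

theorem place_ua (g : Gal(L/K)) (w : InfinitePlace L) (u : (𝓞 L)ˣ) :
    (g • w) ((ua K L g u : 𝓞 L) : L) = w ((u : 𝓞 L) : L) := by
  rw [InfinitePlace.smul_apply, ua_coe]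
  congr 1
  exact g.symm_apply_apply _

theorem free (hodd : Odd (Nat.card Gal(L/K))) {g h : Gal(L/K)} {w : InfinitePlace L}
    (hg : g • w = h • w) : g = h := by
  have h1 : h⁻¹ * g ∈ MulAction.stabilizer Gal(L/K) w := by
    rw [MulAction.mem_stabilizer_iff, mul_smul, hg, inv_smul_smul]
  have h2 : Nat.card (MulAction.stabilizer Gal(L/K) w) = 1 := by
    rcases InfinitePlace.nat_card_stabilizer_eq_one_or_two (k := K) w with h | h
    · exact h
    · exfalso
      have h3 := Subgroup.card_subgroup_dvd_card (MulAction.stabilizer Gal(L/K) w)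
      rw [h] at h3
      exact (Nat.not_even_iff_odd.mpr hodd) (even_iff_two_dvd.mpr h3)
  have h3 : MulAction.stabilizer Gal(L/K) w = ⊥ := Subgroup.card_eq_one.mp h2
  rw [h3, Subgroup.mem_bot] at h1
  exact (inv_mul_eq_one.mp h1).symm

/-- a chosen point of the orbit -/
noncomputable def rp (w : InfinitePlace L) : InfinitePlace L :=
  (Quotient.mk (MulAction.orbitRel Gal(L/K) (InfinitePlace L)) w).out

theorem exists_rp (w : InfinitePlace L) : ∃ g : Gal(L/K), g • rp (K := K) w = w := by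
  have h : (MulAction.orbitRel Gal(L/K) (InfinitePlace L)) w (rp (K := K) w) :=
    Quotient.exact (Quotient.out_eq _).symm
  exact h

theorem rp_smul (g : Gal(L/K)) (w : InfinitePlace L) :
    rp (K := K) (g • w) = rp (K := K) w := by
  unfold rp
  congr 1
  exact Quotient.sound ⟨g, rfl⟩

theorem exists_family (hodd : Odd (Nat.card Gal(L/K))) :
    ∃ u : InfinitePlace L → (𝓞 L)ˣ, (∀ (g : Gal(L/K)) s, u (g • s) = ua K L g (u s)) ∧
      ∀ s t : InfinitePlace L, s ≠ t → Real.log (t ((u s : 𝓞 L) : L)) < 0 := by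
  choose v hv using dirichletUnitTheorem.exists_unit L
  choose g hg using exists_rp (K := K) (L := L)
  refine ⟨fun s => ua K L (g s) (v (rp (K := K) s)), fun h s => ?_, fun s t hst => ?_⟩
  · show ua K L (g (h • s)) (v (rp (K := K) (h • s))) = ua K L h (ua K L (g s) (v (rp (K := K) s)))
    rw [rp_smul, ← ua_mul]
    have h1 : g (h • s) = h * g s := by
      apply free hodd (w := rp (K := K) s)
      rw [mul_smul, hg s]
      have := hg (h • s)
      rwa [rp_smul] at this
    rw [h1]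
  · show Real.log (t ((ua K L (g s) (v (rp (K := K) s)) : 𝓞 L) : L)) < 0
    have h1 : t = g s • ((g s)⁻¹ • t) := (smul_inv_smul _ _).symm
    rw [h1, place_ua]
    refine hv _ _ fun h2 => hst ?_
    rw [h1, h2, hg s]

/-- the map from exponents to units -/
noncomputable def ph (u : InfinitePlace L → (𝓞 L)ˣ) (z : InfinitePlace L → ℤ) : (𝓞 L)ˣ :=
  ∏ s, u s ^ z s

theorem ph_add (u : InfinitePlace L → (𝓞 L)ˣ) (y z : InfinitePlace L → ℤ) :
    ph u (y + z) = ph u y * ph u z := by
  unfold ph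
  rw [← Finset.prod_mul_distrib]
  exact Finset.prod_congr rfl fun s _ => zpow_add _ _ _

theorem ph_zero (u : InfinitePlace L → (𝓞 L)ˣ) : ph u 0 = 1 := by
  unfold ph; simp

theorem ph_neg (u : InfinitePlace L → (𝓞 L)ˣ) (y : InfinitePlace L → ℤ) :
    ph u (-y) = (ph u y)⁻¹ := by
  have := ph_add u (-y) y
  rw [neg_add_cancel, ph_zero] at this
  exact eq_inv_of_mul_eq_one_left this.symm

theorem ph_sub (u : InfinitePlace L → (𝓞 L)ˣ) (y z : InfinitePlace L → ℤ) :
    ph u (y - z) = ph u y / ph u z := by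
  rw [sub_eq_add_neg, ph_add, ph_neg, div_eq_mul_inv]

theorem ph_zsmul (u : InfinitePlace L → (𝓞 L)ˣ) (k : ℤ) (z : InfinitePlace L → ℤ) :
    ph u (k • z) = ph u z ^ k := by
  unfold ph
  rw [← Finset.prod_zpow]
  refine Finset.prod_congr rfl fun s _ => ?_
  rw [Pi.smul_apply, smul_eq_mul, mul_comm, zpow_mul]

theorem ph_single (u : InfinitePlace L → (𝓞 L)ˣ) (s : InfinitePlace L) (k : ℤ)
    [DecidableEq (InfinitePlace L)] :
    ph u (Pi.single s k) = u s ^ k := by
  unfold ph
  rw [Finset.prod_eq_single s]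
  · simp
  · intro t _ ht
    simp [Pi.single_eq_of_ne ht]
  · intro h
    exact absurd (Finset.mem_univ s) h

/-- the subgroup generated by the family -/
noncomputable def BB (u : InfinitePlace L → (𝓞 L)ˣ) : Subgroup (𝓞 L)ˣ where
  carrier := {b | ∃ z, ph u z = b}
  one_mem' := ⟨0, ph_zero u⟩
  mul_mem' := by
    rintro _ _ ⟨y, rfl⟩ ⟨z, rfl⟩
    exact ⟨y + z, ph_add u y z⟩
  inv_mem' := by
    rintro _ ⟨y, rfl⟩
    exact ⟨-y, ph_neg u y⟩

section fam
variable {u : InfinitePlace L → (𝓞 L)ˣ}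
  (hu : ∀ s t : InfinitePlace L, s ≠ t → Real.log (t ((u s : 𝓞 L) : L)) < 0)

include hu

theorem rel_zero (z : InfinitePlace L → ℝ) (s0 : InfinitePlace L) (h0 : z s0 = 0)
    (h : ∀ t : InfinitePlace L, ∑ s, z s * ((t.mult : ℝ) * Real.log (t ((u s : 𝓞 L) : L))) = 0) :
    z = 0 := by
  refine zero_of_rel (fun s t => (t.mult : ℝ) * Real.log (t ((u s : 𝓞 L) : L))) ?_ ?_ z s0 h0 h
  · intro s t hst
    exact mul_neg_of_pos_of_neg (Nat.cast_pos.mpr t.mult_pos) (hu s t hst)
  · intro s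
    exact sum_mult_mul_log (u s)

omit hu in
theorem log_ph (z : InfinitePlace L → ℤ) (t : InfinitePlace L) :
    (t.mult : ℝ) * Real.log (t ((ph u z : 𝓞 L) : L)) =
      ∑ s, (z s : ℝ) * ((t.mult : ℝ) * Real.log (t ((u s : 𝓞 L) : L))) := by
  have h1 : t ((ph u z : 𝓞 L) : L) = ∏ s, t ((u s : 𝓞 L) : L) ^ z s := by
    unfold ph
    have : ((∏ s, u s ^ z s : (𝓞 L)ˣ) : 𝓞 L) = ∏ s, ((u s ^ z s : (𝓞 L)ˣ) : 𝓞 L) :=
      Units.coe_prod _ _
    rw [this]
    have e : ((∏ s, ((u s ^ z s : (𝓞 L)ˣ) : 𝓞 L) : 𝓞 L) : L) =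
        ∏ s, (((u s ^ z s : (𝓞 L)ˣ) : 𝓞 L) : L) := map_prod (algebraMap (𝓞 L) L) _ _
    rw [e]
    have e2 : t (∏ s, (((u s ^ z s : (𝓞 L)ˣ) : 𝓞 L) : L)) =
        ∏ s, t (((u s ^ z s : (𝓞 L)ˣ) : 𝓞 L) : L) := map_prod t _ _
    rw [e2]
    refine Finset.prod_congr rfl fun s _ => ?_
    have h2 : (((u s ^ z s : (𝓞 L)ˣ) : 𝓞 L) : L) =
        ((u s : 𝓞 L) : L) ^ z s := Units.coe_zpow _ _
    rw [h2, map_zpow₀]
  rw [h1, Real.log_prod, Finset.mul_sum]
  · refine Finset.sum_congr rfl fun s _ => ?_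
    rw [Real.log_zpow]
    ring
  · intro s _
    apply zpow_ne_zero
    simp

theorem ker_zero (z : InfinitePlace L → ℤ) (s0 : InfinitePlace L) (h0 : z s0 = 0)
    (h : ph u z = 1) : z = 0 := by
  have h1 := rel_zero hu (fun s => (z s : ℝ)) s0 (by simp [h0]) (fun t => by
    rw [← log_ph, h]; simp)
  funext s
  have := congrFun h1 s
  simpa using this

theorem finiteIndex_aux (s0 : InfinitePlace L) (hs0 : s0 = dirichletUnitTheorem.w₀) :
    ∃ C : Subgroup (𝓞 L)ˣ, C.FiniteIndex ∧ ∀ x ∈ C, ∃ z, z s0 = 0 ∧ ph u z = x := by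
  classical
  subst hs0
  set e := equivFinRank L with he
  set u' : Fin (rank L) → (𝓞 L)ˣ := fun i => u (e i) with hu'
  refine ⟨Subgroup.closure (Set.range u'), ?_, ?_⟩
  · rw [← isMaxRank_iff_closure_finiteIndex]
    unfold IsMaxRank
    rw [Fintype.linearIndependent_iff]
    intro c hc
    set z : InfinitePlace L → ℝ :=
      fun s => if h : s = dirichletUnitTheorem.w₀ then 0 else c (e.symm ⟨s, h⟩) with hz
    have hz0 : z dirichletUnitTheorem.w₀ = 0 := by simp [hz]
    have hze : ∀ i, z (e i).1 = c i := by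
      intro i
      have h3 : (e i).1 ≠ dirichletUnitTheorem.w₀ := (e i).2
      simp only [hz, dif_neg h3]
      simp
    have key : ∀ t : InfinitePlace L, t ≠ dirichletUnitTheorem.w₀ →
        ∑ s, z s * ((t.mult : ℝ) * Real.log (t ((u s : 𝓞 L) : L))) = 0 := by
      intro t ht
      have h2 := congrFun hc ⟨t, ht⟩
      rw [Finset.sum_apply] at h2
      rw [Fintype.sum_eq_add_sum_subtype_ne _ dirichletUnitTheorem.w₀, hz0, zero_mul, zero_add,
        ← e.sum_comp]
      refine Eq.trans (Finset.sum_congr rfl fun i _ => ?_) h2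
      rw [hze]
      rfl
    have key2 : ∀ t : InfinitePlace L,
        ∑ s, z s * ((t.mult : ℝ) * Real.log (t ((u s : 𝓞 L) : L))) = 0 := by
      intro t
      by_cases ht : t = dirichletUnitTheorem.w₀
      · have h3 : ∑ t : InfinitePlace L,
            ∑ s, z s * ((t.mult : ℝ) * Real.log (t ((u s : 𝓞 L) : L))) = 0 := by
          rw [Finset.sum_comm]
          refine Finset.sum_eq_zero fun s _ => ?_
          rw [← Finset.mul_sum, sum_mult_mul_log, mul_zero]
        rw [Fintype.sum_eq_add_sum_subtype_ne _ dirichletUnitTheorem.w₀,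
          Finset.sum_eq_zero fun (x : {t : InfinitePlace L // t ≠ dirichletUnitTheorem.w₀}) _ =>
            key x.1 x.2, add_zero] at h3
        rw [ht]
        exact h3
      · exact key t ht
    have h1 := rel_zero hu z dirichletUnitTheorem.w₀ hz0 key2
    intro i
    rw [← hze i, h1, Pi.zero_apply]
  · intro x hx
    refine Subgroup.closure_induction (p := fun x _ =>
      ∃ z : InfinitePlace L → ℤ, z dirichletUnitTheorem.w₀ = 0 ∧ ph u z = x) ?_ ?_ ?_ ?_ hx
    · rintro _ ⟨i, rfl⟩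
      refine ⟨Pi.single (e i).1 1, ?_, ?_⟩
      · exact Pi.single_eq_of_ne (e i).2.symm _
      · rw [ph_single, zpow_one]
    · exact ⟨0, rfl, ph_zero u⟩
    · rintro _ _ _ _ ⟨y, hy, rfl⟩ ⟨z, hz, rfl⟩
      exact ⟨y + z, by rw [Pi.add_apply, hy, hz, add_zero], ph_add u y z⟩
    · rintro _ _ ⟨y, hy, rfl⟩
      exact ⟨-y, by rw [Pi.neg_apply, hy, neg_zero], ph_neg u y⟩

theorem finiteIndex_BB : (BB u).FiniteIndex := by
  obtain ⟨C, hC, h⟩ := finiteIndex_aux hu dirichletUnitTheorem.w₀ rfl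
  refine Subgroup.finiteIndex_of_le (H := C) fun x hx => ?_
  obtain ⟨z, _, hz⟩ := h x hx
  exact ⟨z, hz⟩

/-- the relations are the multiples of one -/
theorem exists_gen : ∃ m : InfinitePlace L → ℤ, m dirichletUnitTheorem.w₀ ≠ 0 ∧ ph u m = 1 ∧
    ∀ z, ph u z = 1 → ∃ k : ℤ, z = k • m := by
  classical
  obtain ⟨C, hC, h⟩ := finiteIndex_aux hu dirichletUnitTheorem.w₀ rfl
  set w := (dirichletUnitTheorem.w₀ : InfinitePlace L) with hw
  -- the subgroup of the coordinates
  let I : AddSubgroup ℤ :=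
    { carrier := {a | ∃ z, ph u z = 1 ∧ z w = a}
      zero_mem' := ⟨0, ph_zero u, rfl⟩
      add_mem' := by
        rintro _ _ ⟨y, hy, rfl⟩ ⟨z, hz, rfl⟩
        exact ⟨y + z, by rw [ph_add, hy, hz, one_mul], rfl⟩
      neg_mem' := by
        rintro _ ⟨y, hy, rfl⟩
        exact ⟨-y, by rw [ph_neg, hy, inv_one], rfl⟩ }
  obtain ⟨a, ha⟩ := Int.subgroup_cyclic I
  have haI : a ∈ I := by rw [ha]; exact AddSubgroup.subset_closure rfl
  obtain ⟨m, hm1, hma⟩ := haI
  refine ⟨m, ?_, hm1, ?_⟩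
  · -- a non zero relation
    have h2 : u w ^ C.index ∈ C := Subgroup.pow_index_mem C (u w)
    obtain ⟨z, hz0, hz⟩ := h _ h2
    have h3 : ((C.index : ℤ)) ∈ I := by
      refine ⟨Pi.single w (C.index : ℤ) - z, ?_, ?_⟩
      · rw [ph_sub, ph_single, hz, zpow_natCast, div_self']
      · rw [Pi.sub_apply, Pi.single_eq_same, hz0, sub_zero]
    intro h4
    rw [hma] at h4
    rw [ha, h4] at h3
    rw [AddSubgroup.mem_closure_singleton] at h3
    obtain ⟨k, hk⟩ := h3
    rw [smul_zero] at hk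
    exact hC.index_ne_zero (by exact_mod_cast hk.symm)
  · intro z hz
    have h2 : z w ∈ I := ⟨z, hz, rfl⟩
    rw [ha, AddSubgroup.mem_closure_singleton] at h2
    obtain ⟨k, hk⟩ := h2
    refine ⟨k, ?_⟩
    rw [← sub_eq_zero]
    apply ker_zero hu _ w
    · rw [Pi.sub_apply, Pi.smul_apply, hma, hk, sub_self]
    · rw [ph_sub, ph_zsmul, hz, hm1, one_zpow, div_one]

end fam

/-- the shift -/
def sh (g : Gal(L/K)) (z : InfinitePlace L → ℤ) : InfinitePlace L → ℤ := fun s => z (g⁻¹ • s)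

theorem sh_add (g : Gal(L/K)) (y z : InfinitePlace L → ℤ) : sh g (y + z) = sh g y + sh g z := rfl
theorem sh_sub (g : Gal(L/K)) (y z : InfinitePlace L → ℤ) : sh g (y - z) = sh g y - sh g z := rfl
theorem sh_zsmul (g : Gal(L/K)) (k : ℤ) (z : InfinitePlace L → ℤ) :
    sh g (k • z) = k • sh g z := rfl
theorem sh_mul (g h : Gal(L/K)) (z : InfinitePlace L → ℤ) : sh (g * h) z = sh g (sh h z) := by
  funext s
  show z ((g * h)⁻¹ • s) = z (h⁻¹ • (g⁻¹ • s))
  rw [mul_inv_rev, mul_smul]
theorem sh_one (z : InfinitePlace L → ℤ) : sh (1 : Gal(L/K)) z = z := by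
  funext s
  show z ((1 : Gal(L/K))⁻¹ • s) = z s
  rw [inv_one, one_smul]

theorem ph_sh {u : InfinitePlace L → (𝓞 L)ˣ} (heq : ∀ (g : Gal(L/K)) s, u (g • s) = ua K L g (u s))
    (g : Gal(L/K)) (z : InfinitePlace L → ℤ) : ph u (sh g z) = ua K L g (ph u z) := by
  unfold ph
  rw [map_prod, ← Equiv.prod_comp (MulAction.toPerm g : Equiv.Perm (InfinitePlace L))]
  refine Finset.prod_congr rfl fun s _ => ?_
  show u (g • s) ^ z (g⁻¹ • (g • s)) = _
  rw [inv_smul_smul, heq, map_zpow]

/-- the relations are invariant -/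
theorem rel_inv (hodd : Odd (Nat.card Gal(L/K))) {u : InfinitePlace L → (𝓞 L)ˣ}
    (heq : ∀ (g : Gal(L/K)) s, u (g • s) = ua K L g (u s))
    (hu : ∀ s t : InfinitePlace L, s ≠ t → Real.log (t ((u s : 𝓞 L) : L)) < 0)
    (z : InfinitePlace L → ℤ) (hz : ph u z = 1) (g : Gal(L/K)) : sh g z = z := by
  set w := (dirichletUnitTheorem.w₀ : InfinitePlace L) with hw
  by_cases hzw : z w = 0
  · rw [ker_zero hu z w hzw hz]; rfl
  · have h1 : z w • sh g z = sh g z w • z := by
      rw [← sub_eq_zero]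
      apply ker_zero hu _ w
      · rw [Pi.sub_apply, Pi.smul_apply, Pi.smul_apply, smul_eq_mul, smul_eq_mul, mul_comm, sub_self]
      · rw [ph_sub, ph_zsmul, ph_zsmul, ph_sh heq, hz, map_one, one_zpow, one_zpow, div_one]
    have h2 : ∀ k : ℕ, (z w) ^ k • sh (g ^ k) z = (sh g z w) ^ k • z := by
      intro k
      induction k with
      | zero => rw [pow_zero, pow_zero, pow_zero, sh_one]
      | succ k ih =>
        rw [pow_succ' g, pow_succ' (z w), pow_succ' (sh g z w), sh_mul, mul_smul, ← sh_zsmul, ih,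
          sh_zsmul, smul_comm, h1, smul_smul, mul_comm]
    have h3 := h2 (Nat.card Gal(L/K))
    rw [pow_card_eq_one', sh_one] at h3
    have h4 := congrFun h3 w
    rw [Pi.smul_apply, Pi.smul_apply, smul_eq_mul, smul_eq_mul] at h4
    have h5 := mul_right_cancel₀ hzw h4
    have h6 : z w = sh g z w := hodd.strictMono_pow.injective h5
    rw [← h6] at h1
    funext s
    have := congrFun h1 s
    rw [Pi.smul_apply, Pi.smul_apply, smul_eq_mul, smul_eq_mul] at this
    exact mul_left_cancel₀ hzw this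

/-- invariant vectors are traces -/
theorem inv_trace (hodd : Odd (Nat.card Gal(L/K))) (z : InfinitePlace L → ℤ)
    (hz : ∀ g : Gal(L/K), sh g z = z) : ∃ y, z = ∑ g : Gal(L/K), sh g y := by
  classical
  choose g hg using exists_rp (K := K) (L := L)
  refine ⟨fun s => if s = rp (K := K) s then z s else 0, ?_⟩
  funext s
  rw [Finset.sum_apply, Finset.sum_eq_single (g s)]
  · show z s = if (g s)⁻¹ • s = rp (K := K) ((g s)⁻¹ • s) then z ((g s)⁻¹ • s) else 0
    have h1 : (g s)⁻¹ • s = rp (K := K) s := by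
      rw [inv_smul_eq_iff, hg s]
    rw [if_pos (by rw [rp_smul, h1])]
    exact (congrFun (hz (g s)) s).symm
  · intro h _ hne
    show (if h⁻¹ • s = rp (K := K) (h⁻¹ • s) then z (h⁻¹ • s) else 0) = 0
    rw [if_neg]
    intro h2
    rw [rp_smul] at h2
    apply hne
    apply free hodd (w := rp (K := K) s)
    rw [hg s, ← h2, smul_inv_smul]
  · intro h
    exact absurd (Finset.mem_univ _) h

theorem sum_sh_sub (σ : Gal(L/K)) (w : InfinitePlace L → ℤ) :
    ∑ g : Gal(L/K), sh g (sh σ w - w) = 0 := by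
  have h1 : ∑ g : Gal(L/K), sh g (sh σ w) = ∑ g : Gal(L/K), sh g w := by
    rw [← Equiv.sum_comp (Equiv.mulRight σ) (fun g : Gal(L/K) => sh g w)]
    exact Finset.sum_congr rfl fun g _ => (sh_mul g σ w).symm
  simp only [sh_sub, Finset.sum_sub_distrib, h1, sub_self]

theorem ph_sum {ι : Type} (u : InfinitePlace L → (𝓞 L)ˣ) (s : Finset ι)
    (f : ι → InfinitePlace L → ℤ) : ph u (∑ i ∈ s, f i) = ∏ i ∈ s, ph u (f i) := by
  classical
  induction s using Finset.induction_on with
  | empty => simp [ph_zero]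
  | insert a s ha ih => rw [Finset.sum_insert ha, Finset.prod_insert ha, ph_add, ih]

variable (K L) in
/-- `σ - 1` -/
noncomputable def uD (σ : Gal(L/K)) : (𝓞 L)ˣ →* (𝓞 L)ˣ where
  toFun x := ua K L σ x / x
  map_one' := by simp
  map_mul' x y := by rw [map_mul, mul_div_mul_comm]

variable (K L) in
/-- the norm -/
noncomputable def uN : (𝓞 L)ˣ →* (𝓞 L)ˣ where
  toFun x := ∏ g : Gal(L/K), ua K L g x
  map_one' := by simp
  map_mul' x y := by simp only [map_mul, Finset.prod_mul_distrib]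

theorem uD_apply (σ : Gal(L/K)) (x : (𝓞 L)ˣ) : uD K L σ x = ua K L σ x / x := rfl
theorem uN_apply (x : (𝓞 L)ˣ) : uN K L x = ∏ g : Gal(L/K), ua K L g x := rfl

theorem uN_ua (σ : Gal(L/K)) (x : (𝓞 L)ˣ) : uN K L (ua K L σ x) = uN K L x := by
  rw [uN_apply, uN_apply, ← Equiv.prod_comp (Equiv.mulRight σ) (fun g : Gal(L/K) => ua K L g x)]
  exact Finset.prod_congr rfl fun g _ => (ua_mul g σ x).symm

theorem ua_uN (σ : Gal(L/K)) (x : (𝓞 L)ˣ) : ua K L σ (uN K L x) = uN K L x := by
  rw [uN_apply, map_prod, ← Equiv.prod_comp (Equiv.mulLeft σ) (fun g : Gal(L/K) => ua K L g x)]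
  exact Finset.prod_congr rfl fun g _ => (ua_mul σ g x).symm

/-- **the Herbrand quotient of the units** -/
theorem units_herb (hodd : Odd (Nat.card Gal(L/K))) (σ : Gal(L/K))
    (hσ : ∀ g : Gal(L/K), g ∈ Subgroup.zpowers σ)
    (h1 : (uD K L σ).range.relIndex (uN K L).ker ≠ 0) :
    (uN K L).range.relIndex (uD K L σ).ker ≠ 0 ∧
    Nat.card Gal(L/K) * (uN K L).range.relIndex (uD K L σ).ker ≤
      (uD K L σ).range.relIndex (uN K L).ker := by
  obtain ⟨u, heq, hu⟩ := exists_family (K := K) (L := L) hodd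
  obtain ⟨m, hm0, hm1, hgen⟩ := exists_gen hu
  have hminv := rel_inv hodd heq hu m hm1
  obtain ⟨y, hy⟩ := inv_trace hodd m hminv
  have hB : (BB u).FiniteIndex := finiteIndex_BB hu
  have hN : ∀ z, uN K L (ph u z) = ph u (∑ g : Gal(L/K), sh g z) := by
    intro z
    rw [ph_sum, uN_apply]
    exact Finset.prod_congr rfl fun g _ => (ph_sh heq g z).symm
  have hD : ∀ z, uD K L σ (ph u z) = ph u (sh σ z - z) := by
    intro z
    rw [ph_sub, ph_sh heq, uD_apply]
  refine herb (uD K L σ) (uN K L) (BB u) ?_ ?_ ?_ ?_ ?_ _ h1 (ph u y) ⟨y, rfl⟩ ?_ ?_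
  · intro x
    rw [uD_apply, ua_uN, div_self']
  · intro x
    rw [uD_apply, map_div, uN_ua, div_self']
  · rintro _ ⟨_, ⟨z, rfl⟩, rfl⟩
    exact ⟨_, (hD z).symm⟩
  · rintro _ ⟨_, ⟨z, rfl⟩, rfl⟩
    exact ⟨_, (hN z).symm⟩
  · rintro _ ⟨x, rfl⟩ hx
    have h2 : ua K L σ (ph u x) = ph u x := by
      rw [uD_apply] at hx
      exact div_eq_one.mp hx
    have h3 : ∀ g : Gal(L/K), ua K L g (ph u x) = ph u x := by
      intro g
      obtain ⟨k, rfl⟩ := hσ g
      have hfix : σ ∈ ({ carrier := {g | ua K L g (ph u x) = ph u x}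
                         one_mem' := ua_one _
                         mul_mem' := by
                          intro a b ha hb
                          show ua K L (a * b) (ph u x) = ph u x
                          rw [ua_mul, hb, ha]
                         inv_mem' := by
                          intro a ha
                          show ua K L a⁻¹ (ph u x) = ph u x
                          have ha' : ua K L a (ph u x) = ph u x := ha
                          conv_lhs => rw [← ha']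
                          rw [← ua_mul, inv_mul_cancel, ua_one] } : Subgroup Gal(L/K)) := h2
      exact Subgroup.zpow_mem _ hfix k
    have h4 : ∀ g : Gal(L/K), sh g x = x := by
      intro g
      have h5 : ph u (sh g x - x) = 1 := by
        rw [ph_sub, ph_sh heq, h3 g, div_self']
      have h6 := rel_inv hodd heq hu _ h5
      set z := sh g x - x with hz
      have h7 : ∀ k : ℕ, sh (g ^ k) x = x + k • z := by
        intro k
        induction k with
        | zero => rw [pow_zero, sh_one, zero_smul, add_zero]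
        | succ k ih =>
          have h8 : sh g x = x + z := by rw [hz]; abel
          rw [pow_succ', sh_mul, ih, sh_add, h8]
          have h9 : sh g (k • z) = k • z := by
            have := sh_zsmul g (k : ℤ) z
            rw [h6 g] at this
            simpa using this
          rw [h9, succ_nsmul]
          abel
      have h8 := h7 (Nat.card Gal(L/K))
      rw [pow_card_eq_one', sh_one] at h8
      have h9 : Nat.card Gal(L/K) • z = 0 := by
        have := h8.symm
        rwa [add_eq_left] at this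
      have h10 : z = 0 := by
        funext s
        have := congrFun h9 s
        rw [Pi.smul_apply, Pi.zero_apply, smul_eq_zero] at this
        exact this.resolve_left (Nat.card_pos.ne')
      rw [hz, sub_eq_zero] at h10
      exact h10
    obtain ⟨y', hy'⟩ := inv_trace hodd x h4
    exact ⟨ph u y', ⟨y', rfl⟩, by rw [hN, ← hy']⟩
  · rw [hN, ← hy, hm1]
  · rintro k ⟨_, ⟨w, rfl⟩, hw⟩
    rw [hD] at hw
    have h2 : ph u ((k : ℤ) • y - (sh σ w - w)) = 1 := by
      rw [ph_sub, ph_zsmul, zpow_natCast, hw, div_self']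
    obtain ⟨l, hl⟩ := hgen _ h2
    have h3 : ∑ g : Gal(L/K), sh g ((k : ℤ) • y - (sh σ w - w)) = ∑ g : Gal(L/K), sh g (l • m) := by
      rw [hl]
    have h4 : ∑ g : Gal(L/K), sh g ((k : ℤ) • y - (sh σ w - w)) = (k : ℤ) • m := by
      conv_rhs => rw [hy]
      rw [Finset.smul_sum]
      have h5 : ∑ g : Gal(L/K), sh g ((k : ℤ) • y - (sh σ w - w)) =
          ∑ g : Gal(L/K), sh g ((k : ℤ) • y) - ∑ g : Gal(L/K), sh g (sh σ w - w) := by
        rw [← Finset.sum_sub_distrib]
        rfl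
      rw [h5, sum_sh_sub, sub_zero]
      rfl
    have h5 : ∑ g : Gal(L/K), sh g (l • m) = (l * Nat.card Gal(L/K)) • m := by
      have : ∀ g : Gal(L/K), sh g (l • m) = l • m := fun g => by rw [sh_zsmul, hminv]
      simp only [this, Finset.sum_const, Finset.card_univ, ← Nat.card_eq_fintype_card]
      rw [mul_comm, mul_smul]
      simp
    rw [h4, h5] at h3
    have h6 := congrFun h3 dirichletUnitTheorem.w₀
    rw [Pi.smul_apply, Pi.smul_apply, smul_eq_mul, smul_eq_mul] at h6
    have h7 := mul_right_cancel₀ hm0 h6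
    have h8 : ((Nat.card Gal(L/K) : ℕ) : ℤ) ∣ (k : ℤ) := ⟨l, by rw [h7]; ring⟩
    exact Int.natCast_dvd_natCast.mp h8

end

end Pool.Agent.H516.UH
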