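import Pool.Agent.H516.Bd

/-! The uniform bound for the `μ`-invariant. -/

set_option autoImplicit false
set_option linter.unusedSectionVars false

namespace Pool.Agent.H516

open NumberField Module IntermediateField Subgroup
open Pool.Agent.Q60.MU Pool.Agent.K4H24.IW Pool.Agent.K4H94.IW

theorem asym {ε : ℝ} (hε : 0 < ε) : ∃ P₀ : ℕ, ∀ p : ℕ, P₀ ≤ p → 0 < Real.log p ∧
    ∀ (n : ℕ) (μ D : ℝ), 0 ≤ D →
    (∀ δ : ℝ, 0 < δ → ((p : ℝ) - 1) * μ * Real.log p ≤ ((n : ℝ) - 1) * Real.log p +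
      (1 + δ) * ((p : ℝ) / 2 * D + ((p : ℝ) - 1) * n * Real.log p) +
      p * n * Real.log (1 + 1 / δ)) → μ ≤ (1 + ε) * (n + D / (2 * Real.log p)) := by
  obtain ⟨η, hη0, hη1, hηε⟩ : ∃ η : ℝ, 0 < η ∧ η ≤ 1 ∧ η ≤ ε :=
    ⟨min ε 1, lt_min hε one_pos, min_le_right _ _, min_le_left _ _⟩
  obtain ⟨δ, hδ⟩ : ∃ δ, δ = η / 4 := ⟨_, rfl⟩
  have hδ0 : 0 < δ := by rw [hδ]; positivity
  obtain ⟨c, hc⟩ : ∃ c, c = Real.log (1 + 1 / δ) := ⟨_, rfl⟩
  have hc0 : 0 < c := by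
    rw [hc]
    apply Real.log_pos
    have : 0 < 1 / δ := by positivity
    linarith
  refine ⟨⌈1 / δ + 2⌉₊ + ⌈Real.exp (2 * c / δ)⌉₊, fun p hp => ?_⟩
  have hp1 : 1 / δ + 2 ≤ (p : ℝ) := by
    have h1 := Nat.le_ceil (1 / δ + 2)
    have h2 : ((⌈1 / δ + 2⌉₊ : ℕ) : ℝ) ≤ (p : ℝ) := by exact_mod_cast (by omega)
    linarith
  have hp2 : Real.exp (2 * c / δ) ≤ (p : ℝ) := by
    have h1 := Nat.le_ceil (Real.exp (2 * c / δ))
    have h2 : ((⌈Real.exp (2 * c / δ)⌉₊ : ℕ) : ℝ) ≤ (p : ℝ) := by exact_mod_cast (by omega)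
    linarith
  have hδi : 0 < 1 / δ := by positivity
  have hL : 2 * c / δ ≤ Real.log p := by
    rw [Real.le_log_iff_exp_le (by linarith)]
    exact hp2
  have hLpos : 0 < Real.log p := lt_of_lt_of_le (by positivity) hL
  refine ⟨hLpos, fun n μ D hD h => ?_⟩
  have h1 := h δ hδ0
  rw [← hc] at h1
  obtain ⟨L, hLd⟩ : ∃ L, L = Real.log p := ⟨_, rfl⟩
  rw [← hLd] at h1 hL hLpos ⊢
  obtain ⟨q, hq⟩ : ∃ q, q = (p : ℝ) - 1 := ⟨_, rfl⟩
  have hpq : (p : ℝ) = q + 1 := by rw [hq]; ring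
  rw [hpq, add_sub_cancel_right] at h1
  rw [hpq] at hp1
  have hn0 : (0 : ℝ) ≤ n := Nat.cast_nonneg n
  have hδq : 1 ≤ δ * q := by
    have h2 : 1 / δ ≤ q := by linarith
    rw [div_le_iff₀ hδ0] at h2
    linarith
  have hq1 : 1 ≤ q := by linarith
  have hcL : 2 * c ≤ δ * L := by
    rw [div_le_iff₀ hδ0] at hL
    linarith
  have hη : η = 4 * δ := by rw [hδ]; ring
  have hδ1 : δ ≤ 1 / 4 := by linarith
  -- the four terms
  have t1 : ((n : ℝ) - 1) * L ≤ δ * (q * n * L) := by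
    have h2 : 0 ≤ (n : ℝ) * L := mul_nonneg hn0 hLpos.le
    nlinarith [mul_le_mul_of_nonneg_right hδq h2]
  have t2 : (1 + δ) * ((q + 1) / 2 * D) ≤ (1 + 4 * δ) * (q * D / 2) := by
    have h2 : (1 + δ) * (q + 1) ≤ (1 + 4 * δ) * q := by nlinarith
    nlinarith [mul_le_mul_of_nonneg_right h2 hD]
  have t3 : (q + 1) * n * c ≤ δ * (q * n * L) := by
    have h2 : (q + 1) * c ≤ δ * (q * L) := by nlinarith [mul_le_mul_of_nonneg_left hcL (by linarith : 0 ≤ q)]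
    nlinarith [mul_le_mul_of_nonneg_right h2 hn0]
  have h3 : q * L * μ ≤ q * L * ((1 + 4 * δ) * (n + D / (2 * L))) := by
    have h4 : q * L * ((1 + 4 * δ) * (n + D / (2 * L))) = (1 + 4 * δ) * (q * n * L + q * D / 2) := by
      field_simp
    rw [h4]
    have h5 : 0 ≤ q * n * L := mul_nonneg (mul_nonneg (by linarith) hn0) hLpos.le
    have h6 : 0 ≤ δ * (q * n * L) := mul_nonneg hδ0.le h5
    nlinarith
  have h4 := le_of_mul_le_mul_left h3 (mul_pos (by linarith) hLpos)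
  refine h4.trans (mul_le_mul_of_nonneg_right (by linarith) ?_)
  have : 0 ≤ D / (2 * L) := by positivity
  linarith

theorem asym_int (n : ℕ) : ∃ P₀ : ℕ, ∀ p : ℕ, P₀ ≤ p →
    ∀ (μ : ℕ) (D : ℝ), 0 ≤ D → D ≤ Real.log p →
    (∀ δ : ℝ, 0 < δ → ((p : ℝ) - 1) * μ * Real.log p ≤ ((n : ℝ) - 1) * Real.log p +
      (1 + δ) * ((p : ℝ) / 2 * D + ((p : ℝ) - 1) * n * Real.log p) +
      p * n * Real.log (1 + 1 / δ)) → μ ≤ n := by
  have hε : (0 : ℝ) < 1 / (4 * ((n : ℝ) + 1)) := by positivity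
  obtain ⟨P₀, h⟩ := asym hε
  refine ⟨P₀, fun p hp μ D hD hDL hμ => ?_⟩
  obtain ⟨hL, h1⟩ := h p hp
  have h2 := h1 n μ D hD hμ
  have h3 : D / (2 * Real.log p) ≤ 1 / 2 := by
    rw [div_le_iff₀ (by positivity)]
    linarith
  have h4 : (μ : ℝ) < n + 1 := by
    have hn0 : (0 : ℝ) ≤ n := Nat.cast_nonneg n
    have h5 : (1 / (4 * ((n : ℝ) + 1))) * (n + 1) = 1 / 4 := by
      field_simp
    have h6 : (1 + 1 / (4 * ((n : ℝ) + 1))) * (n + D / (2 * Real.log p)) ≤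
        (1 + 1 / (4 * ((n : ℝ) + 1))) * (n + 1 / 2) := by
      apply mul_le_mul_of_nonneg_left _ (by positivity)
      linarith
    nlinarith
  have h5 : μ < n + 1 := by exact_mod_cast h4
  omega

end Pool.Agent.H516
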